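import Pool.Agent.OIP.InfDefs

/-! OIP: finite marginals -/

set_option autoImplicit false

open MeasureTheory ProbabilityTheory
open scoped Classical

namespace Pool.Agent.OIP

/-- `{ω | W ω = G on A}` is measurable for `sigV W A` (finite vertex set) -/
theorem infMarg_agree {Ω V : Type} [Finite V] (W : Ω → SimpleGraph V) (A : Set V) (G : SimpleGraph V) :
    MeasurableSet[sigV W A] {ω | ∀ a ∈ A, ∀ b ∈ A, ((W ω).Adj a b ↔ G.Adj a b)} := by
  have h1 : {ω | ∀ a ∈ A, ∀ b ∈ A, ((W ω).Adj a b ↔ G.Adj a b)} =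
      ⋂ a ∈ A, ⋂ b ∈ A, {ω | ((W ω).Adj a b ↔ G.Adj a b)} := by
    ext ω
    simp
  rw [h1]
  refine MeasurableSet.biInter (m := sigV W A) (Set.to_countable A) fun a ha => ?_
  refine MeasurableSet.biInter (m := sigV W A) (Set.to_countable A) fun b hb => ?_
  have h2 : MeasurableSet[sigV W A] {ω | (W ω).Adj a b} :=
    MeasurableSpace.measurableSet_generateFrom ⟨a, ha, b, hb, rfl⟩
  by_cases hG : G.Adj a b
  · simpa [hG] using h2
  · have : {ω | ((W ω).Adj a b ↔ G.Adj a b)} = {ω | (W ω).Adj a b}ᶜ := by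
      ext ω
      simp [hG]
    rw [this]
    exact MeasurableSet.compl (m := sigV W A) h2

/-- on a finite vertex set, an `A`-dependent event is measurable for `sigV W A` -/
theorem measurableSet_of_depOn {Ω V : Type} [Finite V] (W : Ω → SimpleGraph V)
    {A : Set V} {U : Set (SimpleGraph V)} (hU : DepOn A U) : MeasurableSet[sigV W A] {ω | W ω ∈ U} := by
  have h1 : {ω | W ω ∈ U} = ⋃ G ∈ U, {ω | ∀ a ∈ A, ∀ b ∈ A, ((W ω).Adj a b ↔ G.Adj a b)} := by
    ext ω
    simp only [Set.mem_setOf_eq, Set.mem_iUnion, exists_prop]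
    constructor
    · intro h
      exact ⟨W ω, h, fun a _ b _ => Iff.rfl⟩
    · rintro ⟨G, hG, h⟩
      exact (hU (W ω) G h).2 hG
  rw [h1]
  exact MeasurableSet.biUnion (m := sigV W A) (Set.to_countable U) fun G _ => infMarg_agree W A G

theorem infMarg_le {Ω V : Type} [mΩ : MeasurableSpace Ω] (W : Ω → SimpleGraph V)
    (hmeas : ∀ a b, MeasurableSet {ω | (W ω).Adj a b}) (A : Set V) : sigV W A ≤ mΩ := by
  refine MeasurableSpace.generateFrom_le ?_
  rintro U ⟨a, _, b, _, rfl⟩
  exact hmeas a b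

theorem infMarg_meas {Ω V : Type} [MeasurableSpace Ω] [Finite V] (W : Ω → SimpleGraph V)
    (hmeas : ∀ a b, MeasurableSet {ω | (W ω).Adj a b}) (U : Set (SimpleGraph V)) :
    MeasurableSet {ω | W ω ∈ U} := by
  refine infMarg_le W hmeas Set.univ _ (measurableSet_of_depOn W ?_)
  intro G H h
  have : G = H := by
    ext a b
    exact h a (Set.mem_univ a) b (Set.mem_univ b)
  rw [this]

theorem marg_pr {Ω V : Type} [MeasurableSpace Ω] [Fintype V] [DecidableEq V] (μ : Measure Ω)
    [IsProbabilityMeasure μ] (W : Ω → SimpleGraph V) (hmeas : ∀ a b, MeasurableSet {ω | (W ω).Adj a b})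
    (U : Set (SimpleGraph V)) : pr (marg μ W) U = μ.real {ω | W ω ∈ U} := by
  unfold pr
  have h1 : {ω | W ω ∈ U} = ⋃ G ∈ (Finset.univ.filter (fun G => G ∈ U) : Finset (SimpleGraph V)),
      {ω | W ω = G} := by
    ext ω
    simp
  have hm : ∀ G : SimpleGraph V, MeasurableSet {ω | W ω = G} := fun G => infMarg_meas W hmeas {G}
  have hd : Set.PairwiseDisjoint
      ((Finset.univ.filter (fun G => G ∈ U) : Finset (SimpleGraph V)) : Set (SimpleGraph V))
      (fun G => {ω | W ω = G}) := by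
    intro G _ H _ hGH
    rw [Function.onFun, Set.disjoint_left]
    intro ω h h'
    exact hGH (h.symm.trans h')
  rw [h1, measureReal_biUnion_finset hd fun G _ => hm G, Finset.sum_filter]
  refine Finset.sum_congr rfl fun G _ => ?_
  by_cases hG : G ∈ U
  · rw [Set.indicator_of_mem hG, if_pos hG]
    rfl
  · rw [Set.indicator_of_notMem hG, if_neg hG]

theorem marg_law {Ω V : Type} [MeasurableSpace Ω] [Fintype V] [DecidableEq V] (μ : Measure Ω)
    [IsProbabilityMeasure μ] (W : Ω → SimpleGraph V) (hmeas : ∀ a b, MeasurableSet {ω | (W ω).Adj a b}) :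
    IsLaw (marg μ W) := by
  refine ⟨fun G => measureReal_nonneg, ?_⟩
  have h := marg_pr μ W hmeas Set.univ
  unfold pr at h
  simp only [Set.indicator_univ, Set.mem_univ, Set.setOf_true] at h
  rw [h]
  exact probReal_univ

theorem marg_indep {Ω V : Type} [MeasurableSpace Ω] [Fintype V] [DecidableEq V] (μ : Measure Ω)
    [IsProbabilityMeasure μ] (W : Ω → SimpleGraph V) (hmeas : ∀ a b, MeasurableSet {ω | (W ω).Adj a b})
    (hind : OneIndepM μ W) : OneIndep (marg μ W) (fun G => G) := by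
  intro A B hAB U U' hU hU'
  have h1 := marg_pr μ W hmeas {G | G ∈ U ∧ G ∈ U'}
  have h2 := marg_pr μ W hmeas {G | G ∈ U}
  have h3 := marg_pr μ W hmeas {G | G ∈ U'}
  rw [h1, h2, h3]
  have h4 := (Indep_iff _ _ μ).1 (hind A B hAB) _ _ (measurableSet_of_depOn W hU)
    (measurableSet_of_depOn W hU')
  have h5 : {ω | W ω ∈ {G | G ∈ U ∧ G ∈ U'}} = {ω | W ω ∈ U} ∩ {ω | W ω ∈ U'} := rfl
  rw [h5]
  simp only [Measure.real, h4, ENNReal.toReal_mul]
  rfl

theorem OneIndepM.comap {Ω V V' : Type} [MeasurableSpace Ω] {μ : Measure Ω} {W : Ω → SimpleGraph V}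
    (h : OneIndepM μ W) {φ : V' → V} (hφ : Function.Injective φ) :
    OneIndepM μ (fun ω => (W ω).comap φ) := by
  intro A B hAB
  have hle : ∀ C : Set V', sigV (fun ω => (W ω).comap φ) C ≤ sigV W (φ '' C) := by
    intro C
    refine MeasurableSpace.generateFrom_mono ?_
    rintro U ⟨a, ha, b, hb, rfl⟩
    exact ⟨φ a, ⟨a, ha, rfl⟩, φ b, ⟨b, hb, rfl⟩, rfl⟩
  have h1 := h (φ '' A) (φ '' B) (Set.disjoint_image_of_injective hφ hAB)
  exact indep_of_indep_of_le_left (indep_of_indep_of_le_right h1 (hle B)) (hle A)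

end Pool.Agent.OIP
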