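import Pool.Agent.OIP.PrBasic

/-!
# OIP: averages over finite types
-/

set_option autoImplicit false

open Finset
open scoped Classical

namespace Pool.Agent.OIP

noncomputable section

/-- uniform average over a finite type (`0` if the type is empty) -/
def avg {X : Type*} [Fintype X] (F : X → ℝ) : ℝ := (∑ x, F x) / (Fintype.card X : ℝ)

/-- real indicator of a proposition -/
def ind (P : Prop) : ℝ := if P then 1 else 0

theorem ind_nonneg (P : Prop) : 0 ≤ ind P := by
  unfold ind
  split_ifs <;> norm_num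

theorem ind_le_one (P : Prop) : ind P ≤ 1 := by
  unfold ind
  split_ifs <;> norm_num

theorem ind_mono {P Q : Prop} (h : P → Q) : ind P ≤ ind Q := by
  unfold ind
  split_ifs with h1 h2 <;> first | exact absurd (h h1) h2 | norm_num

theorem pr_eq_sum_ind {Ω : Type*} [Fintype Ω] (w : Ω → ℝ) (U : Set Ω) :
    pr w U = ∑ ω, w ω * ind (ω ∈ U) := by
  unfold pr ind
  refine Finset.sum_congr rfl fun x _ => ?_
  by_cases h : x ∈ U <;> simp [h]

theorem avg_mono {X : Type*} [Fintype X] {F F' : X → ℝ} (h : ∀ x, F x ≤ F' x) : avg F ≤ avg F' := by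
  unfold avg
  exact div_le_div_of_nonneg_right (Finset.sum_le_sum fun x _ => h x) (Nat.cast_nonneg _)

theorem avg_nonneg {X : Type*} [Fintype X] {F : X → ℝ} (h : ∀ x, 0 ≤ F x) : 0 ≤ avg F := by
  unfold avg
  exact div_nonneg (Finset.sum_nonneg fun x _ => h x) (Nat.cast_nonneg _)

theorem avg_add {X : Type*} [Fintype X] (F F' : X → ℝ) :
    avg (fun x => F x + F' x) = avg F + avg F' := by
  unfold avg
  rw [Finset.sum_add_distrib, add_div]

theorem avg_const_mul {X : Type*} [Fintype X] (c : ℝ) (F : X → ℝ) :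
    avg (fun x => c * F x) = c * avg F := by
  unfold avg
  rw [← Finset.mul_sum, mul_div_assoc]

theorem avg_sum {X ι : Type*} [Fintype X] (s : Finset ι) (F : ι → X → ℝ) :
    avg (fun x => ∑ i ∈ s, F i x) = ∑ i ∈ s, avg (F i) := by
  unfold avg
  rw [Finset.sum_comm, Finset.sum_div]

theorem avg_const {X : Type*} [Fintype X] [Nonempty X] (c : ℝ) : avg (fun _ : X => c) = c := by
  unfold avg
  have : (Fintype.card X : ℝ) ≠ 0 := by
    exact_mod_cast Fintype.card_ne_zero
  rw [Finset.sum_const, Finset.card_univ, nsmul_eq_mul]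
  field_simp

theorem avg_le_of_le {X : Type*} [Fintype X] {F : X → ℝ} {c : ℝ} (hc : 0 ≤ c) (h : ∀ x, F x ≤ c) :
    avg F ≤ c := by
  rcases isEmpty_or_nonempty X with hX | hX
  · simp [avg, hc]
  · exact (avg_mono h).trans (avg_const c).le

/-- reindexing -/
theorem avg_equiv {X Y : Type*} [Fintype X] [Fintype Y] (e : X ≃ Y) (F : Y → ℝ) :
    avg (fun x => F (e x)) = avg F := by
  unfold avg
  rw [Fintype.card_congr e, Equiv.sum_comp e F]

/-- Fubini -/
theorem avg_comm {X Y : Type*} [Fintype X] [Fintype Y] (F : X → Y → ℝ) :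
    avg (fun x => avg (fun y => F x y)) = avg (fun y => avg (fun x => F x y)) := by
  unfold avg
  rw [← Finset.sum_div, ← Finset.sum_div, Finset.sum_comm, div_right_comm]

theorem avg_prod {X Y : Type*} [Fintype X] [Fintype Y] (F : X × Y → ℝ) :
    avg F = avg (fun x => avg (fun y => F (x, y))) := by
  unfold avg
  rw [← Finset.sum_div, Fintype.sum_prod_type, Fintype.card_prod, div_div]
  push_cast
  rw [mul_comm]

/-- right translation in the symmetric group -/
theorem avg_perm_mul_right {κ : Type*} [Fintype κ] [DecidableEq κ] (τ : Equiv.Perm κ)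
    (F : Equiv.Perm κ → ℝ) : avg (fun σ => F (σ * τ)) = avg F :=
  avg_equiv (Equiv.mulRight τ) F

theorem exists_le_avg {X : Type*} [Fintype X] [Nonempty X] (F : X → ℝ) : ∃ x, F x ≤ avg F := by
  by_contra hcon
  push Not at hcon
  have hpos : (0 : ℝ) < (Fintype.card X : ℝ) := by exact_mod_cast Fintype.card_pos
  have h1 : ∑ x : X, avg F < ∑ x, F x :=
    Finset.sum_lt_sum_of_nonempty Finset.univ_nonempty fun x _ => hcon x
  rw [Finset.sum_const, Finset.card_univ, nsmul_eq_mul] at h1
  unfold avg at h1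
  rw [mul_div_assoc', mul_comm, mul_div_assoc, div_self hpos.ne', mul_one] at h1
  exact lt_irrefl _ h1

/-- Markov -/
theorem avg_ind_lt_le {X : Type*} [Fintype X] {F : X → ℝ} (hF : ∀ x, 0 ≤ F x) {t : ℝ} (ht : 0 < t) :
    avg (fun x => ind (t < F x)) ≤ avg F / t := by
  rw [le_div_iff₀ ht, mul_comm, ← avg_const_mul]
  refine avg_mono fun x => ?_
  unfold ind
  split_ifs with h
  · linarith
  · simpa using hF x

/-- averaging an event over a random parameter: pointwise bound -/
theorem avg_pr_le {Ω X : Type*} [Fintype Ω] [Fintype X] {w : Ω → ℝ} (hw : IsLaw w)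
    (P : X → Ω → Prop) (c : ℝ) (h : ∀ ω, avg (fun x => ind (P x ω)) ≤ c) :
    avg (fun x => pr w {ω | P x ω}) ≤ c := by
  have h1 : avg (fun x => pr w {ω | P x ω}) = ∑ ω, w ω * avg (fun x => ind (P x ω)) := by
    have : (fun x => pr w {ω | P x ω}) = fun x => ∑ ω, w ω * ind (P x ω) := by
      funext x
      exact pr_eq_sum_ind w _
    rw [this, avg_sum]
    exact Finset.sum_congr rfl fun ω _ => avg_const_mul _ _
  rw [h1]
  calc ∑ ω, w ω * avg (fun x => ind (P x ω)) ≤ ∑ ω, w ω * c :=
        Finset.sum_le_sum fun ω _ => mul_le_mul_of_nonneg_left (h ω) (hw.nonneg ω)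
    _ = c := by rw [← Finset.sum_mul, hw.total, one_mul]

end

end Pool.Agent.OIP
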