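import Mathlib

/-!
# OIP: few edges of a bipartite graph are bridges

For a bipartite graph `H` on `α ⊕ β` the number of edges `(a, b)` such that `a` and `b` are not connected
after removing this edge is at most `|α| + |β|` (the bridges form a forest).
-/

set_option autoImplicit false

open Finset
open scoped Classical

namespace Pool.Agent.OIP

/-- one step along an edge of `H` different from `e0` -/
def bst {α β : Type} (H : α → β → Prop) (e0 : α × β) : α ⊕ β → α ⊕ β → Prop
  | Sum.inl a, Sum.inr b => H a b ∧ (a, b) ≠ e0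
  | Sum.inr b, Sum.inl a => H a b ∧ (a, b) ≠ e0
  | _, _ => False

/-- the graph of the edges in `B` -/
def bridgeGraph {α β : Type} (B : Set (α × β)) : SimpleGraph (α ⊕ β) where
  Adj u v := ∃ e ∈ B, (u = Sum.inl e.1 ∧ v = Sum.inr e.2) ∨ (u = Sum.inr e.2 ∧ v = Sum.inl e.1)
  symm := by
    constructor
    rintro u v ⟨e, he, h | h⟩
    · exact ⟨e, he, Or.inr ⟨h.2, h.1⟩⟩
    · exact ⟨e, he, Or.inl ⟨h.2, h.1⟩⟩
  loopless := by
    constructor
    rintro u ⟨e, he, h | h⟩
    · rw [h.1] at h; simp at h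
    · rw [h.1] at h; simp at h

theorem bridge_step {α β : Type} (H : α → β → Prop) (B : Set (α × β)) (hB : ∀ e ∈ B, H e.1 e.2)
    (e0 : α × β) {u v : α ⊕ β}
    (h : (bridgeGraph B \ SimpleGraph.fromEdgeSet {s(Sum.inl e0.1, Sum.inr e0.2)}).Adj u v) :
    bst H e0 u v := by
  rw [SimpleGraph.sdiff_adj] at h
  obtain ⟨⟨e, he, h1⟩, h2⟩ := h
  have hne : e ≠ e0 := by
    rintro rfl
    apply h2
    rw [SimpleGraph.fromEdgeSet_adj]
    rcases h1 with ⟨rfl, rfl⟩ | ⟨rfl, rfl⟩
    · exact ⟨rfl, by simp⟩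
    · exact ⟨Sym2.eq_swap, by simp⟩
  rcases h1 with ⟨rfl, rfl⟩ | ⟨rfl, rfl⟩
  · exact ⟨hB e he, hne⟩
  · exact ⟨hB e he, hne⟩

theorem bridge_symm {α β : Type} (H : α → β → Prop) (e0 : α × β) {u v : α ⊕ β}
    (h : bst H e0 u v) : bst H e0 v u := by
  rcases u with a | b <;> rcases v with a' | b' <;> exact h

theorem bridge_reach {α β : Type} (H : α → β → Prop) (B : Set (α × β)) (hB : ∀ e ∈ B, H e.1 e.2)
    (e0 : α × β) {u v : α ⊕ β}
    (h : (bridgeGraph B \ SimpleGraph.fromEdgeSet {s(Sum.inl e0.1, Sum.inr e0.2)}).Reachable u v) :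
    Relation.ReflTransGen (bst H e0) u v := by
  obtain ⟨p⟩ := h
  induction p with
  | nil => exact Relation.ReflTransGen.refl
  | cons hadj _ ih => exact Relation.ReflTransGen.head (bridge_step H B hB e0 hadj) ih

theorem bridge_acyclic {α β : Type} (H : α → β → Prop) (B : Set (α × β)) (hB : ∀ e ∈ B, H e.1 e.2)
    (hB2 : ∀ e ∈ B, ¬ Relation.ReflTransGen (bst H e) (Sum.inl e.1) (Sum.inr e.2)) :
    (bridgeGraph B).IsAcyclic := by
  rw [SimpleGraph.isAcyclic_iff_forall_adj_isBridge]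
  rintro u v ⟨e, he, h⟩
  have key : (bridgeGraph B).IsBridge s(Sum.inl e.1, Sum.inr e.2) := by
    rw [SimpleGraph.isBridge_iff]
    intro h2
    exact hB2 e he (bridge_reach H B hB e h2)
  rcases h with ⟨rfl, rfl⟩ | ⟨rfl, rfl⟩
  · exact key
  · rw [Sym2.eq_swap]; exact key

theorem bridges {α β : Type} [Fintype α] [Fintype β] (H : α → β → Prop) :
    ((Finset.univ : Finset (α × β)).filter (fun e => H e.1 e.2 ∧
      ¬ Relation.ReflTransGen (bst H e) (Sum.inl e.1) (Sum.inr e.2))).card ≤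
      Fintype.card α + Fintype.card β := by
  set F := (Finset.univ : Finset (α × β)).filter (fun e => H e.1 e.2 ∧
      ¬ Relation.ReflTransGen (bst H e) (Sum.inl e.1) (Sum.inr e.2)) with hF
  rcases F.eq_empty_or_nonempty with h0 | ⟨e0, he0⟩
  · rw [h0]; simp
  have hac : (bridgeGraph (F : Set (α × β))).IsAcyclic := by
    apply bridge_acyclic H
    · intro e he
      exact (Finset.mem_filter.1 (Finset.mem_coe.1 he)).2.1
    · intro e he
      exact (Finset.mem_filter.1 (Finset.mem_coe.1 he)).2.2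
  have : Nonempty (α ⊕ β) := ⟨Sum.inl e0.1⟩
  obtain ⟨T, hT1, hT2, hT3⟩ := (SimpleGraph.connected_top (V := α ⊕ β)).exists_isTree_le_of_le_of_isAcyclic
    (le_top : bridgeGraph (F : Set (α × β)) ≤ ⊤) hac
  have hc := hT3.card_edgeFinset
  rw [Fintype.card_sum] at hc
  have hinj : F.card ≤ T.edgeFinset.card := by
    apply Finset.card_le_card_of_injOn (fun e => s(Sum.inl e.1, Sum.inr e.2))
    · intro e he
      rw [Finset.mem_coe, SimpleGraph.mem_edgeFinset, SimpleGraph.mem_edgeSet]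
      exact hT1 ⟨e, he, Or.inl ⟨rfl, rfl⟩⟩
    · intro e _ e' _ h
      simp only [Sym2.eq, Sym2.rel_iff', Prod.mk.injEq, Sum.inl.injEq, Sum.inr.injEq, reduceCtorEq,
        Prod.swap_prod_mk, and_self, or_false] at h
      exact Prod.ext h.1 h.2
  omega

end Pool.Agent.OIP
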