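import Pool.Agent.OIP.Avg

/-!
# OIP: sampling lemma

For an equivalence relation `r` on the finite set `κ` (classes `C` of sizes `c`), `N = card κ`, a fixed
`S : Finset κ` with `m` elements and a uniformly random permutation `σ` of `κ`, put
`X_C = #{s ∈ S : σ s ∈ C}`.  Then `E X_C = m c / N` and
`E X_C² = m c / N + m (m - 1) c (c - 1) / (N (N - 1))`, hence `Var X_C ≤ m c / N` and
`∑_C Var X_C ≤ m`.  If some class has `|X_C - m c / N| > δ m` then `∑_C (X_C - m c / N)² > δ² m²`, so by
Markov the probability of this is at most `1 / (δ² m)`.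
-/

set_option autoImplicit false

open Finset
open scoped Classical

namespace Pool.Agent.OIP

/-- one point marginal of a uniform permutation -/
theorem avg_perm_one {κ : Type} [Fintype κ] [DecidableEq κ] (s : κ) (f : κ → ℝ) :
    avg (fun σ : Equiv.Perm κ => f (σ s)) = (∑ k, f k) / (Fintype.card κ : ℝ) := by
  have : Nonempty κ := ⟨s⟩
  have hN : (Fintype.card κ : ℝ) ≠ 0 := by exact_mod_cast Fintype.card_ne_zero
  have h1 : ∀ s' : κ, avg (fun σ : Equiv.Perm κ => f (σ s')) =
      avg (fun σ : Equiv.Perm κ => f (σ s)) := by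
    intro s'
    have h := avg_perm_mul_right (Equiv.swap s s') (fun σ : Equiv.Perm κ => f (σ s))
    rw [← h]
    congr 1
    funext σ
    rw [Equiv.Perm.mul_apply, Equiv.swap_apply_left]
  have h2 : ∑ s' : κ, avg (fun σ : Equiv.Perm κ => f (σ s')) = ∑ k, f k := by
    rw [← avg_sum]
    have : (fun σ : Equiv.Perm κ => ∑ s' : κ, f (σ s')) = fun _ => ∑ k, f k := by
      funext σ
      exact Equiv.sum_comp σ f
    rw [this, avg_const]
  rw [Finset.sum_congr rfl fun s' _ => h1 s', Finset.sum_const, Finset.card_univ,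
    nsmul_eq_mul] at h2
  rw [← h2, mul_div_cancel_left₀ _ hN]

theorem samp_exists_perm {κ : Type} [DecidableEq κ] {s t s' t' : κ} (h : s ≠ t) (h' : s' ≠ t') :
    ∃ τ : Equiv.Perm κ, τ s = s' ∧ τ t = t' := by
  refine ⟨Equiv.swap (Equiv.swap s s' t) t' * Equiv.swap s s', ?_, ?_⟩
  · rw [Equiv.Perm.mul_apply, Equiv.swap_apply_left]
    refine Equiv.swap_apply_of_ne_of_ne ?_ h'
    intro h0
    have h1 : Equiv.swap s s' s = Equiv.swap s s' t := by
      rw [Equiv.swap_apply_left]
      exact h0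
    exact h ((Equiv.swap s s').injective h1)
  · rw [Equiv.Perm.mul_apply, Equiv.swap_apply_left]

/-- two point marginal of a uniform permutation -/
theorem avg_perm_two {κ : Type} [Fintype κ] [DecidableEq κ] (s t : κ) (hst : s ≠ t) (f : κ → κ → ℝ) :
    avg (fun σ : Equiv.Perm κ => f (σ s) (σ t)) =
      (∑ k, ∑ l ∈ Finset.univ.filter (fun l => l ≠ k), f k l) /
        ((Fintype.card κ : ℝ) * ((Fintype.card κ : ℝ) - 1)) := by
  have : Nonempty κ := ⟨s⟩
  have hcard : 1 < Fintype.card κ := Fintype.one_lt_card_iff.2 ⟨s, t, hst⟩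
  have hN1 : (1 : ℝ) < (Fintype.card κ : ℝ) := by exact_mod_cast hcard
  have hN : (Fintype.card κ : ℝ) * ((Fintype.card κ : ℝ) - 1) ≠ 0 := by
    have : (0 : ℝ) < (Fintype.card κ : ℝ) * ((Fintype.card κ : ℝ) - 1) := by
      apply mul_pos <;> linarith
    exact this.ne'
  have h1 : ∀ s' t' : κ, t' ≠ s' → avg (fun σ : Equiv.Perm κ => f (σ s') (σ t')) =
      avg (fun σ : Equiv.Perm κ => f (σ s) (σ t)) := by
    intro s' t' hne
    obtain ⟨τ, ht1, ht2⟩ := samp_exists_perm hst hne.symm
    have h := avg_perm_mul_right τ (fun σ : Equiv.Perm κ => f (σ s) (σ t))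
    rw [← h]
    congr 1
    funext σ
    rw [Equiv.Perm.mul_apply, Equiv.Perm.mul_apply, ht1, ht2]
  have h2 : ∑ s' : κ, ∑ t' ∈ Finset.univ.filter (fun l => l ≠ s'),
      avg (fun σ : Equiv.Perm κ => f (σ s') (σ t')) =
      ∑ k, ∑ l ∈ Finset.univ.filter (fun l => l ≠ k), f k l := by
    have h3 : ∀ s' : κ, ∑ t' ∈ Finset.univ.filter (fun l => l ≠ s'),
        avg (fun σ : Equiv.Perm κ => f (σ s') (σ t')) =
        avg (fun σ : Equiv.Perm κ => ∑ t' ∈ Finset.univ.filter (fun l => l ≠ s'),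
          f (σ s') (σ t')) := fun s' => (avg_sum _ _).symm
    rw [Finset.sum_congr rfl fun s' _ => h3 s', ← avg_sum]
    have h4 : (fun σ : Equiv.Perm κ => ∑ s' : κ, ∑ t' ∈ Finset.univ.filter (fun l => l ≠ s'),
        f (σ s') (σ t')) = fun _ => ∑ k, ∑ l ∈ Finset.univ.filter (fun l => l ≠ k), f k l := by
      funext σ
      rw [← Equiv.sum_comp σ (fun k => ∑ l ∈ Finset.univ.filter (fun l => l ≠ k), f k l)]
      refine Finset.sum_congr rfl fun s' _ => ?_
      rw [Finset.sum_filter, Finset.sum_filter,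
        ← Equiv.sum_comp σ (fun l => if l ≠ σ s' then f (σ s') l else 0)]
      refine Finset.sum_congr rfl fun t' _ => ?_
      by_cases h : t' = s'
      · rw [if_neg (not_not.2 h), if_neg (not_not.2 (by rw [h]))]
      · rw [if_pos h, if_pos (fun h' => h (σ.injective h'))]
    rw [h4, avg_const]
  have h5 : ∑ s' : κ, ∑ t' ∈ Finset.univ.filter (fun l => l ≠ s'),
      avg (fun σ : Equiv.Perm κ => f (σ s') (σ t')) =
      (Fintype.card κ : ℝ) * ((Fintype.card κ : ℝ) - 1) *
        avg (fun σ : Equiv.Perm κ => f (σ s) (σ t)) := by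
    have h6 : ∀ s' : κ, ∑ t' ∈ Finset.univ.filter (fun l => l ≠ s'),
        avg (fun σ : Equiv.Perm κ => f (σ s') (σ t')) =
        ((Fintype.card κ : ℝ) - 1) * avg (fun σ : Equiv.Perm κ => f (σ s) (σ t)) := by
      intro s'
      rw [Finset.sum_congr rfl fun t' ht' => h1 s' t' (Finset.mem_filter.1 ht').2,
        Finset.sum_const, nsmul_eq_mul]
      congr 1
      have h7 : Finset.univ.filter (fun l : κ => l ≠ s') = Finset.univ.erase s' := by
        ext l
        simp
      rw [h7, Finset.card_erase_of_mem (Finset.mem_univ _), Finset.card_univ,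
        Nat.cast_sub Fintype.card_pos]
      norm_num
    rw [Finset.sum_congr rfl fun s' _ => h6 s', Finset.sum_const, Finset.card_univ, nsmul_eq_mul]
    ring
  rw [← h2, h5, mul_div_cancel_left₀ _ hN]

theorem samp_card_eq {κ : Type} [Fintype κ] (r : κ → κ → Prop) (S : Finset κ) (j : κ)
    (σ : Equiv.Perm κ) :
    ((S.filter (fun s => r j (σ s))).card : ℝ) = ∑ s ∈ S, ind (r j (σ s)) := by
  rw [Finset.card_filter]
  push_cast
  rfl

theorem samp_sum_ind {κ : Type} [Fintype κ] (r : κ → κ → Prop) (j : κ) :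
    ∑ k, ind (r j k) = ((Finset.univ.filter (fun k => r j k)).card : ℝ) := by
  rw [Finset.card_filter]
  push_cast
  rfl

/-- negative correlation -/
theorem samp_two_le {κ : Type} [Fintype κ] [DecidableEq κ] (r : κ → κ → Prop) (j s t : κ)
    (hst : s ≠ t) (hj : r j j) :
    avg (fun σ : Equiv.Perm κ => ind (r j (σ s)) * ind (r j (σ t))) ≤
      (((Finset.univ.filter (fun k => r j k)).card : ℝ) / (Fintype.card κ : ℝ)) ^ 2 := by
  have : Nonempty κ := ⟨s⟩
  have hcard : 1 < Fintype.card κ := Fintype.one_lt_card_iff.2 ⟨s, t, hst⟩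
  have hN1 : (1 : ℝ) < (Fintype.card κ : ℝ) := by exact_mod_cast hcard
  rw [avg_perm_two s t hst (fun k l => ind (r j k) * ind (r j l))]
  set c : ℝ := ((Finset.univ.filter (fun k => r j k)).card : ℝ) with hc
  set N : ℝ := (Fintype.card κ : ℝ) with hN
  have hc1 : 1 ≤ c := by
    have : 0 < (Finset.univ.filter (fun k => r j k)).card :=
      Finset.card_pos.2 ⟨j, Finset.mem_filter.2 ⟨Finset.mem_univ _, hj⟩⟩
    rw [hc]
    exact_mod_cast this
  have hcN : c ≤ N := by
    have : (Finset.univ.filter (fun k => r j k)).card ≤ Fintype.card κ := Finset.card_le_univ _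
    rw [hc, hN]
    exact_mod_cast this
  have hsum : ∑ k, ∑ l ∈ Finset.univ.filter (fun l => l ≠ k), ind (r j k) * ind (r j l) =
      c * (c - 1) := by
    have h1 : ∀ k : κ, ∑ l ∈ Finset.univ.filter (fun l => l ≠ k), ind (r j k) * ind (r j l) =
        ind (r j k) * (c - 1) := by
      intro k
      have h7 : Finset.univ.filter (fun l : κ => l ≠ k) = Finset.univ.erase k := by
        ext l
        simp
      have h8 : ∑ l ∈ Finset.univ.filter (fun l : κ => l ≠ k), ind (r j l) = c - ind (r j k) := by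
        rw [h7, hc, ← samp_sum_ind, ← Finset.add_sum_erase _ _ (Finset.mem_univ k)]
        ring
      rw [← Finset.mul_sum, h8]
      unfold ind
      split_ifs <;> ring
    rw [Finset.sum_congr rfl fun k _ => h1 k, ← Finset.sum_mul, samp_sum_ind]
  rw [hsum, div_pow, div_le_div_iff₀ (by apply mul_pos <;> linarith) (by positivity)]
  nlinarith [mul_nonneg (mul_nonneg (show (0 : ℝ) ≤ c by linarith) (show (0 : ℝ) ≤ N by linarith))
    (show (0 : ℝ) ≤ N - c by linarith)]

theorem samp_var_le {κ : Type} [Fintype κ] [DecidableEq κ] (r : κ → κ → Prop) (S : Finset κ)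
    (j : κ) (hj : r j j) :
    avg (fun σ : Equiv.Perm κ => (((S.filter (fun s => r j (σ s))).card : ℝ) -
        (S.card : ℝ) * ((Finset.univ.filter (fun k => r j k)).card : ℝ) /
          (Fintype.card κ : ℝ)) ^ 2) ≤
      (S.card : ℝ) * ((Finset.univ.filter (fun k => r j k)).card : ℝ) / (Fintype.card κ : ℝ) := by
  set c : ℝ := ((Finset.univ.filter (fun k => r j k)).card : ℝ) with hc
  set N : ℝ := (Fintype.card κ : ℝ) with hN
  set m : ℝ := (S.card : ℝ) with hm
  have hmean : ∀ s : κ, avg (fun σ : Equiv.Perm κ => ind (r j (σ s))) = c / N := by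
    intro s
    rw [avg_perm_one s (fun k => ind (r j k)), samp_sum_ind]
  have h1 : ∀ σ : Equiv.Perm κ, (((S.filter (fun s => r j (σ s))).card : ℝ) - m * c / N) ^ 2 =
      (∑ s ∈ S, ∑ t ∈ S, ind (r j (σ s)) * ind (r j (σ t))) +
        ((-2 * (m * c / N)) * (∑ s ∈ S, ind (r j (σ s))) + (m * c / N) ^ 2) := by
    intro σ
    rw [samp_card_eq, ← Finset.sum_mul_sum]
    ring
  rw [show (fun σ : Equiv.Perm κ => (((S.filter (fun s => r j (σ s))).card : ℝ) - m * c / N) ^ 2) =
    fun σ => (∑ s ∈ S, ∑ t ∈ S, ind (r j (σ s)) * ind (r j (σ t))) +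
        ((-2 * (m * c / N)) * (∑ s ∈ S, ind (r j (σ s))) + (m * c / N) ^ 2) from funext h1]
  rw [avg_add, avg_add, avg_const_mul, avg_sum, avg_const, avg_sum]
  have h2 : ∑ s ∈ S, avg (fun σ : Equiv.Perm κ => ind (r j (σ s))) = m * c / N := by
    rw [Finset.sum_congr rfl fun s _ => hmean s, Finset.sum_const, nsmul_eq_mul]
    ring
  have h3 : ∑ s ∈ S, avg (fun σ : Equiv.Perm κ => ∑ t ∈ S, ind (r j (σ s)) * ind (r j (σ t))) ≤
      m * c / N + (m * c / N) ^ 2 := by
    have h4 : ∀ s ∈ S, avg (fun σ : Equiv.Perm κ => ∑ t ∈ S, ind (r j (σ s)) * ind (r j (σ t))) ≤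
        c / N + m * (c / N) ^ 2 := by
      intro s hs
      rw [avg_sum, ← Finset.add_sum_erase _ _ hs]
      have h5 : avg (fun σ : Equiv.Perm κ => ind (r j (σ s)) * ind (r j (σ s))) = c / N := by
        rw [← hmean s]
        congr 1
        funext σ
        unfold ind
        split_ifs <;> ring
      have h6 : ∑ t ∈ S.erase s, avg (fun σ : Equiv.Perm κ => ind (r j (σ s)) * ind (r j (σ t))) ≤
          m * (c / N) ^ 2 := by
        calc ∑ t ∈ S.erase s, avg (fun σ : Equiv.Perm κ => ind (r j (σ s)) * ind (r j (σ t)))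
            ≤ ∑ t ∈ S.erase s, (c / N) ^ 2 := by
              refine Finset.sum_le_sum fun t ht => ?_
              exact samp_two_le r j s t (Finset.ne_of_mem_erase ht).symm hj
          _ = ((S.erase s).card : ℝ) * (c / N) ^ 2 := by rw [Finset.sum_const, nsmul_eq_mul]
          _ ≤ m * (c / N) ^ 2 := by
              refine mul_le_mul_of_nonneg_right ?_ (sq_nonneg _)
              rw [hm]
              exact_mod_cast Finset.card_le_card (Finset.erase_subset s S)
      rw [h5]
      linarith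
    calc ∑ s ∈ S, avg (fun σ : Equiv.Perm κ => ∑ t ∈ S, ind (r j (σ s)) * ind (r j (σ t)))
        ≤ ∑ s ∈ S, (c / N + m * (c / N) ^ 2) := Finset.sum_le_sum h4
      _ = m * (c / N + m * (c / N) ^ 2) := by rw [Finset.sum_const, nsmul_eq_mul]
      _ = m * c / N + (m * c / N) ^ 2 := by ring
  rw [h2]
  nlinarith [h3]

theorem sampling {κ : Type} [Fintype κ] [DecidableEq κ] (r : κ → κ → Prop) (hr : Equivalence r)
    (S : Finset κ) (δ : ℝ) (hδ : 0 < δ) :
    avg (fun σ : Equiv.Perm κ => ind (∃ j : κ, δ * (S.card : ℝ) <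
      |((S.filter (fun s => r j (σ s))).card : ℝ) -
        (S.card : ℝ) * ((Finset.univ.filter (fun k => r j k)).card : ℝ) / (Fintype.card κ : ℝ)|)) ≤
      1 / (δ ^ 2 * (S.card : ℝ)) := by
  rcases S.eq_empty_or_nonempty with hS | hS
  · subst hS
    have : (fun σ : Equiv.Perm κ => ind (∃ j : κ, δ * ((∅ : Finset κ).card : ℝ) <
      |(((∅ : Finset κ).filter (fun s => r j (σ s))).card : ℝ) -
        ((∅ : Finset κ).card : ℝ) * ((Finset.univ.filter (fun k => r j k)).card : ℝ) /
          (Fintype.card κ : ℝ)|)) = fun _ => 0 := by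
      funext σ
      unfold ind
      rw [if_neg]
      rintro ⟨j, hj⟩
      simp at hj
    rw [this]
    simp [avg]
  · obtain ⟨s₀, hs₀⟩ := hS
    have : Nonempty κ := ⟨s₀⟩
    have hmpos : 0 < (S.card : ℝ) := by exact_mod_cast Finset.card_pos.2 ⟨s₀, hs₀⟩
    have hNpos : 0 < (Fintype.card κ : ℝ) := by exact_mod_cast Fintype.card_pos
    set m : ℝ := (S.card : ℝ) with hm
    set N : ℝ := (Fintype.card κ : ℝ) with hN
    set c : κ → ℝ := fun j => ((Finset.univ.filter (fun k => r j k)).card : ℝ) with hc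
    set Y : κ → Equiv.Perm κ → ℝ := fun j σ =>
      ((S.filter (fun s => r j (σ s))).card : ℝ) - m * c j / N with hY
    have hcpos : ∀ j, 0 < c j := by
      intro j
      have : 0 < (Finset.univ.filter (fun k => r j k)).card :=
        Finset.card_pos.2 ⟨j, Finset.mem_filter.2 ⟨Finset.mem_univ _, hr.refl j⟩⟩
      show (0 : ℝ) < ((Finset.univ.filter (fun k => r j k)).card : ℝ)
      exact_mod_cast this
    set F : Equiv.Perm κ → ℝ := fun σ => ∑ j, (1 / c j) * (Y j σ) ^ 2 with hF
    have hFnn : ∀ σ, 0 ≤ F σ := fun σ =>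
      Finset.sum_nonneg fun j _ => mul_nonneg (one_div_nonneg.2 (hcpos j).le) (sq_nonneg _)
    have hFavg : avg F ≤ m := by
      have h1 : avg F = ∑ j, (1 / c j) * avg (fun σ => (Y j σ) ^ 2) := by
        rw [hF, avg_sum]
        exact Finset.sum_congr rfl fun j _ => avg_const_mul _ _
      rw [h1]
      calc ∑ j, (1 / c j) * avg (fun σ => (Y j σ) ^ 2)
          ≤ ∑ j : κ, m / N := by
            refine Finset.sum_le_sum fun j _ => ?_
            have h2 : avg (fun σ => (Y j σ) ^ 2) ≤ m * c j / N := samp_var_le r S j (hr.refl j)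
            calc (1 / c j) * avg (fun σ => (Y j σ) ^ 2) ≤ (1 / c j) * (m * c j / N) :=
                  mul_le_mul_of_nonneg_left h2 (one_div_nonneg.2 (hcpos j).le)
              _ = m / N := by
                  have := (hcpos j).ne'
                  field_simp
        _ = m := by
            rw [Finset.sum_const, Finset.card_univ, nsmul_eq_mul, ← hN, mul_div_assoc',
              mul_div_cancel_left₀ _ hNpos.ne']
    have hY' : ∀ j k σ, r j k → Y k σ = Y j σ ∧ c k = c j := by
      intro j k σ hjk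
      have h1 : ∀ x, r k x ↔ r j x := fun x =>
        ⟨fun h => hr.trans hjk h, fun h => hr.trans (hr.symm hjk) h⟩
      have h2 : c k = c j := by
        simp only [hc, h1]
      refine ⟨?_, h2⟩
      simp only [hY, h2, h1]
    have hevent : ∀ σ : Equiv.Perm κ, (∃ j : κ, δ * m < |Y j σ|) → δ ^ 2 * m ^ 2 < F σ := by
      rintro σ ⟨j, hj⟩
      have h1 : (δ * m) ^ 2 < (Y j σ) ^ 2 := by
        rw [← sq_abs (Y j σ)]
        have : 0 ≤ δ * m := (mul_pos hδ hmpos).le
        nlinarith
      have h2 : (Y j σ) ^ 2 = ∑ k ∈ Finset.univ.filter (fun k => r j k), (1 / c k) * (Y k σ) ^ 2 := by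
        rw [Finset.sum_congr rfl fun k hk => by
          rw [(hY' j k σ (Finset.mem_filter.1 hk).2).1, (hY' j k σ (Finset.mem_filter.1 hk).2).2],
          Finset.sum_const, nsmul_eq_mul]
        have h3 : ((Finset.univ.filter (fun k => r j k)).card : ℝ) = c j := rfl
        rw [h3]
        have := (hcpos j).ne'
        field_simp
      have h4 : ∑ k ∈ Finset.univ.filter (fun k => r j k), (1 / c k) * (Y k σ) ^ 2 ≤ F σ :=
        Finset.sum_le_sum_of_subset_of_nonneg (Finset.filter_subset _ _) fun k _ _ =>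
          mul_nonneg (one_div_nonneg.2 (hcpos k).le) (sq_nonneg _)
      calc δ ^ 2 * m ^ 2 = (δ * m) ^ 2 := by ring
        _ < (Y j σ) ^ 2 := h1
        _ ≤ F σ := h2.le.trans h4
    have ht : 0 < δ ^ 2 * m ^ 2 := by positivity
    calc avg (fun σ : Equiv.Perm κ => ind (∃ j : κ, δ * m < |Y j σ|))
        ≤ avg (fun σ => ind (δ ^ 2 * m ^ 2 < F σ)) := avg_mono fun σ => ind_mono (hevent σ)
      _ ≤ avg F / (δ ^ 2 * m ^ 2) := avg_ind_lt_le hFnn ht
      _ ≤ m / (δ ^ 2 * m ^ 2) := div_le_div_of_nonneg_right hFavg ht.le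
      _ = 1 / (δ ^ 2 * m) := by
          have h1 := hmpos.ne'
          have h2 := hδ.ne'
          field_simp

end Pool.Agent.OIP
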