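import Pool.Agent.OIP.Avg

/-!
# OIP: abstract saturation lemma (pigeonhole over scales)

`X` is a finite set, `f y σ P` (for `y` in a finite index set `Y`, `σ` a permutation of `X`, `P` a finite
subset of `X`) is monotone in `P`, has values in `[0, 1]`, and satisfies
`f y (σ * π) P = f y σ (P.image π)` for all permutations `π` that fix the frame `F y` pointwise.

Then for `P` disjoint from `F y` the average `φ_y (|P|) = avg_σ f y σ P` depends only on `|P|`
(if `|P| = |P'|`, both disjoint from `F y`, choose `π` fixing `F y` with `π P = P'` and use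
`avg_perm_mul_right`), it is monotone in `|P|`, and `∑_t ∑_y (φ_y (M 4^(t+1)) - φ_y (M 4^t)) ≤ |Y|`
(sum over `t < I`), so there is `t < I` with `∑_y (φ_y (M 4^(t+1)) - φ_y (M 4^t)) ≤ |Y| / I`.
-/

set_option autoImplicit false

open Finset
open scoped Classical

namespace Pool.Agent.OIP

/-- a permutation fixing `F` pointwise and mapping `P` onto `P'` -/
theorem sat_exists_perm {X : Type} [Fintype X] [DecidableEq X] (F P P' : Finset X)
    (hP : Disjoint P F) (hP' : Disjoint P' F) (hc : P.card = P'.card) :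
    ∃ π : Equiv.Perm X, (∀ x ∈ F, π x = x) ∧ P.image π = P' := by
  classical
  have e : P ≃ P' := Finset.equivOfCardEq hc
  let g : X → X := fun x => if h : x ∈ P then (e ⟨x, h⟩ : X) else x
  have hgP : ∀ x (h : x ∈ P), g x = (e ⟨x, h⟩ : X) := fun x h => by simp [g, h]
  have hgF : ∀ x, x ∉ P → g x = x := fun x h => by simp [g, h]
  have hinj : Set.InjOn g ((P ∪ F : Finset X) : Set X) := by
    intro a ha b hb hab
    rw [Finset.coe_union] at ha hb
    by_cases haP : a ∈ P
    · by_cases hbP : b ∈ P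
      · rw [hgP a haP, hgP b hbP] at hab
        have h1 := e.injective (Subtype.ext hab)
        exact congrArg Subtype.val h1
      · have hbF : b ∈ F := by
          rcases hb with hb | hb
          · exact absurd hb hbP
          · exact hb
        rw [hgP a haP, hgF b hbP] at hab
        exfalso
        refine Finset.disjoint_left.1 hP' (?_ : b ∈ P') hbF
        rw [← hab]
        exact (e ⟨a, haP⟩).2
    · have haF : a ∈ F := by
        rcases ha with ha | ha
        · exact absurd ha haP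
        · exact ha
      by_cases hbP : b ∈ P
      · rw [hgF a haP, hgP b hbP] at hab
        exfalso
        refine Finset.disjoint_left.1 hP' (?_ : a ∈ P') haF
        rw [hab]
        exact (e ⟨b, hbP⟩).2
      · rwa [hgF a haP, hgF b hbP] at hab
  obtain ⟨π0, hπ0⟩ := Finset.exists_equiv_extend_of_card_eq (α := X) (β := X)
    (t := (Finset.univ : Finset X)) (by simp) (s := P ∪ F) (f := g) (Finset.subset_univ _) hinj
  let π : Equiv.Perm X := π0.trans (Equiv.subtypeUnivEquiv (fun x => Finset.mem_univ x))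
  have hπ : ∀ x ∈ P ∪ F, π x = g x := fun x hx => hπ0 x hx
  refine ⟨π, ?_, ?_⟩
  · intro x hx
    rw [hπ x (Finset.mem_union_right _ hx), hgF x (fun h => Finset.disjoint_left.1 hP h hx)]
  · apply Finset.eq_of_subset_of_card_le
    · intro z hz
      obtain ⟨x, hx, rfl⟩ := Finset.mem_image.1 hz
      rw [hπ x (Finset.mem_union_left _ hx), hgP x hx]
      exact (e ⟨x, hx⟩).2
    · rw [Finset.card_image_of_injective _ π.injective, hc]

theorem saturation {X Y : Type} [Fintype X] [DecidableEq X] [Fintype Y] (F : Y → Finset X)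
    (f : Y → Equiv.Perm X → Finset X → ℝ)
    (hmono : ∀ y σ (P P' : Finset X), P ⊆ P' → f y σ P ≤ f y σ P')
    (h0 : ∀ y σ P, 0 ≤ f y σ P) (h1 : ∀ y σ P, f y σ P ≤ 1)
    (hequiv : ∀ y (σ π : Equiv.Perm X) (P : Finset X), (∀ x ∈ F y, π x = x) →
      f y (σ * π) P = f y σ (P.image π))
    (M I : ℕ) (hM : 1 ≤ M) (hI : 1 ≤ I) (hcard : ∀ y, M * 4 ^ I + (F y).card ≤ Fintype.card X) :
    ∃ t : ℕ, t < I ∧ ∀ y (P P' : Finset X), Disjoint P (F y) → Disjoint P' (F y) →
      P.card = M * 4 ^ t → P'.card ≤ M * 4 ^ (t + 1) →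
      avg (fun σ => f y σ P') - avg (fun σ => f y σ P) ≤ (Fintype.card Y : ℝ) / I := by
  classical
  have hsame : ∀ y (P P' : Finset X), Disjoint P (F y) → Disjoint P' (F y) → P.card = P'.card →
      avg (fun σ => f y σ P) = avg (fun σ => f y σ P') := by
    intro y P P' hP hP' hc
    obtain ⟨π, hπF, hπ⟩ := sat_exists_perm (F y) P P' hP hP' hc
    have h2 := avg_perm_mul_right π (fun σ => f y σ P)
    rw [← h2]
    congr 1
    funext σ
    show f y (σ * π) P = f y σ P'
    rw [hequiv y σ π P hπF, hπ]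
  have hex : ∀ y (n : ℕ), n ≤ M * 4 ^ I → ∃ P : Finset X, Disjoint P (F y) ∧ P.card = n := by
    intro y n hn
    have hcc : n ≤ ((F y)ᶜ).card := by
      rw [Finset.card_compl]
      have := hcard y
      omega
    obtain ⟨P, hPs, hPc⟩ := Finset.exists_subset_card_eq hcc
    refine ⟨P, ?_, hPc⟩
    rw [Finset.disjoint_left]
    intro x hx hxF
    exact (Finset.mem_compl.1 (hPs hx)) hxF
  have hle : ∀ y (P P' : Finset X), Disjoint P (F y) → Disjoint P' (F y) → P.card ≤ P'.card →
      avg (fun σ => f y σ P) ≤ avg (fun σ => f y σ P') := by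
    intro y P P' hP hP' hc
    obtain ⟨P1, hP1s, hP1c⟩ := Finset.exists_subset_card_eq hc
    have hP1 : Disjoint P1 (F y) := Finset.disjoint_of_subset_left hP1s hP'
    rw [hsame y P P1 hP hP1 hP1c.symm]
    exact avg_mono fun σ => hmono y σ P1 P' hP1s
  -- choose reference sets
  have hpow : ∀ t, t ≤ I → M * 4 ^ t ≤ M * 4 ^ I := fun t ht =>
    Nat.mul_le_mul_left _ (Nat.pow_le_pow_right (by norm_num) ht)
  choose! Q hQd hQc using hex
  let φ : Y → ℕ → ℝ := fun y t => avg (fun σ => f y σ (Q y (M * 4 ^ t)))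
  have hφmono : ∀ y t, t < I → φ y t ≤ φ y (t + 1) := by
    intro y t ht
    refine hle y _ _ (hQd y _ (hpow t ht.le)) (hQd y _ (hpow (t + 1) ht)) ?_
    rw [hQc y _ (hpow t ht.le), hQc y _ (hpow (t + 1) ht)]
    exact Nat.mul_le_mul_left _ (Nat.pow_le_pow_right (by norm_num) (Nat.le_succ t))
  have hφ0 : ∀ y t, 0 ≤ φ y t := fun y t => avg_nonneg fun σ => h0 y σ _
  have hφ1 : ∀ y t, φ y t ≤ 1 := fun y t => avg_le_of_le zero_le_one fun σ => h1 y σ _
  by_contra hcon
  push Not at hcon
  have hstep : ∀ t ∈ Finset.range I, (Fintype.card Y : ℝ) / I < ∑ y, (φ y (t + 1) - φ y t) := by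
    intro t ht
    have htI : t < I := Finset.mem_range.1 ht
    obtain ⟨y, P, P', hP, hP', hPc, hPc', hlt⟩ := hcon t htI
    have e1 : avg (fun σ => f y σ P) = φ y t :=
      hsame y _ _ hP (hQd y _ (hpow t htI.le)) (by rw [hPc, hQc y _ (hpow t htI.le)])
    have e2 : avg (fun σ => f y σ P') ≤ φ y (t + 1) :=
      hle y _ _ hP' (hQd y _ (hpow (t + 1) htI)) (by rw [hQc y _ (hpow (t + 1) htI)]; exact hPc')
    have e3 : φ y (t + 1) - φ y t ≤ ∑ y, (φ y (t + 1) - φ y t) :=
      Finset.single_le_sum (f := fun y => φ y (t + 1) - φ y t)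
        (fun y _ => sub_nonneg.2 (hφmono y t htI)) (Finset.mem_univ y)
    linarith
  have hsum := Finset.sum_lt_sum_of_nonempty (Finset.nonempty_range_iff.2 (by omega)) hstep
  rw [Finset.sum_const, Finset.card_range, nsmul_eq_mul, Finset.sum_comm] at hsum
  have hIne : (I : ℝ) ≠ 0 := by
    have : 0 < I := hI
    exact_mod_cast this.ne'
  rw [mul_div_cancel₀ _ hIne] at hsum
  have hbd : ∑ y : Y, ∑ t ∈ Finset.range I, (φ y (t + 1) - φ y t) ≤ ∑ _y : Y, (1 : ℝ) := by
    refine Finset.sum_le_sum fun y _ => ?_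
    rw [Finset.sum_range_sub]
    linarith [hφ0 y 0, hφ1 y I]
  rw [Finset.sum_const, Finset.card_univ, nsmul_eq_mul, mul_one] at hbd
  exact absurd hsum (not_lt.2 hbd)

end Pool.Agent.OIP
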