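import Pool.Agent.OIP.CompactDefs

/-! OIP: see the header of CompactDefs.lean -/

set_option autoImplicit false

open Finset
open scoped Classical

namespace Pool.Agent.OIP

theorem pr_push {Ω : Type*} [Fintype Ω] {X : Type*} [Fintype X] (w : Ω → ℝ) (W : Ω → X) (U : Set X) :
    pr (push w W) U = pr w {ω | W ω ∈ U} := by
  have h1 : ∀ x : X, U.indicator (push w W) x =
      ∑ ω : Ω, if W ω = x then (if x ∈ U then w ω else 0) else 0 := by
    intro x
    by_cases hx : x ∈ U
    · rw [Set.indicator_of_mem hx]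
      unfold push pr
      refine Finset.sum_congr rfl fun ω _ => ?_
      rw [Set.indicator_apply, if_pos hx]
      rfl
    · rw [Set.indicator_of_notMem hx]
      symm
      refine Finset.sum_eq_zero fun ω _ => ?_
      rw [if_neg hx, ite_self]
  unfold pr at *
  rw [Finset.sum_congr rfl fun x _ => h1 x, Finset.sum_comm]
  refine Finset.sum_congr rfl fun ω _ => ?_
  rw [Finset.sum_ite_eq, if_pos (Finset.mem_univ _), Set.indicator_apply]
  rfl

theorem isLaw_push {Ω : Type*} [Fintype Ω] {X : Type*} [Fintype X] {w : Ω → ℝ} (hw : IsLaw w) (W : Ω → X) :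
    IsLaw (push w W) := by
  refine ⟨fun x => pr_nonneg hw _, ?_⟩
  have h1 := pr_push w W Set.univ
  have h2 : {ω | W ω ∈ (Set.univ : Set X)} = Set.univ := Set.eq_univ_of_forall fun ω => Set.mem_univ _
  rw [h2, pr_univ hw] at h1
  rw [← h1]
  unfold pr
  rw [Set.indicator_univ]

/-- restriction of weights to their support -/
theorem isLaw_support {X : Type*} [Fintype X] {q : X → ℝ} (hq : IsLaw q) :
    IsLaw (fun G : {G : X // q G ≠ 0} => q G.1) := by
  refine ⟨fun x => hq.nonneg x.1, ?_⟩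
  rw [← Finset.sum_subtype (Finset.univ.filter (fun G => q G ≠ 0)) (by simp) q,
    Finset.sum_filter_ne_zero]
  exact hq.total

theorem pr_support {X : Type*} [Fintype X] (q : X → ℝ) (U : Set X) :
    pr (fun G : {G : X // q G ≠ 0} => q G.1) {G | G.1 ∈ U} = pr q U := by
  unfold pr
  have h1 : ∀ G : {G : X // q G ≠ 0}, ({G : {G : X // q G ≠ 0} | G.1 ∈ U}).indicator
      (fun G : {G : X // q G ≠ 0} => q G.1) G = U.indicator q G.1 := by
    intro G
    rw [Set.indicator_apply, Set.indicator_apply]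
    rfl
  rw [Finset.sum_congr rfl fun G _ => h1 G,
    ← Finset.sum_subtype (Finset.univ.filter (fun G => q G ≠ 0)) (by simp) (U.indicator q)]
  refine Finset.sum_filter_of_ne fun x _ hx h0 => hx ?_
  rw [Set.indicator_apply, h0, ite_self]

theorem compact_gen {X : Type*} [Fintype X] (D F : (X → ℝ) → ℝ) (hD : Continuous D) (hF : Continuous F) (c : ℝ)
    (h : ∀ q : X → ℝ, IsLaw q → D q ≤ 0 → c ≤ F q) (ε : ℝ) (hε : 0 < ε) :
    ∃ η : ℝ, 0 < η ∧ ∀ q : X → ℝ, IsLaw q → D q ≤ η → c - ε ≤ F q := by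
  by_contra hcon
  push Not at hcon
  have hcon' : ∀ k : ℕ, ∃ q : X → ℝ, IsLaw q ∧ D q ≤ 1 / ((k : ℝ) + 1) ∧ F q < c - ε :=
    fun k => hcon (1 / ((k : ℝ) + 1)) Nat.one_div_pos_of_nat
  choose q hq hDq hFq using hcon'
  have hmem : ∀ k, q k ∈ stdSimplex ℝ X := fun k => ⟨(hq k).nonneg, (hq k).total⟩
  obtain ⟨y, hy, φ, hφ, hlim⟩ := (isCompact_stdSimplex ℝ X).tendsto_subseq hmem
  have hlaw : IsLaw y := ⟨hy.1, hy.2⟩
  have ht : Filter.Tendsto (fun k : ℕ => 1 / ((φ k : ℝ) + 1)) Filter.atTop (nhds 0) :=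
    (tendsto_one_div_add_atTop_nhds_zero_nat (𝕜 := ℝ)).comp hφ.tendsto_atTop
  have h1 : D y ≤ 0 :=
    le_of_tendsto_of_tendsto' ((hD.tendsto y).comp hlim) ht fun k => hDq (φ k)
  have h2 : F y ≤ c - ε :=
    le_of_tendsto_of_tendsto' ((hF.tendsto y).comp hlim) tendsto_const_nhds
      fun k => (hFq (φ k)).le
  have h3 := h y hlaw h1
  linarith

end Pool.Agent.OIP
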