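import Pool.Agent.OIP.Defs

/-!
# OIP: the algebraic lemma

`AL_exact`: the inequalities of the structure with `t = 0` force `p ≤ 4 - 2√3`.
`AL_robust`: the same with a small slack `t` (compactness: all twelve numbers lie in `[0,1]`, all
conditions are closed and continuous in `t`; or by a direct estimate).

Proof of `AL_exact`.  Put `A' = a' + e / b`, `B' = b' + e' / a`, `X' = al' + n1`, `Y' = be' + n2`.  Then
(I1) gives `p ≤ a al + A' X'`, (I2) gives `p ≤ b be + B' Y'`,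
(I3) gives `a b + A' B' ≤ 1 - p`  [needs `a' e'/a + b' e / b + e e' / (a b) ≤ e + e'`, i.e.
`e a (b - b') + e' b (a - a') ≥ e e'`, which follows from `e' ≤ (1 - b - b') a ≤ (b - b') a`
because `b ≥ 1/2`, and `a ≥ a'`],
(I4) gives `al be + X' Y' ≤ 1 - p` [`be' + n2 ≤ 1 - be ≤ be`, `al' ≤ al`],
and `a + A' ≤ 1`, `b + B' ≤ 1`, `al + X' ≤ 1`, `be + Y' ≤ 1`.  Now apply `two_class`.

Proof of `two_class`.  We may assume `p > 1/2`.  Put `x = √(a al)`, `y = √(a' al')`, `z = √(b be)`, `u = √(b' be')`.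
Cauchy-Schwarz: `x + y ≤ 1`, `z + u ≤ 1`, `x z + y u ≤ 1 - p`; also `x² + y² ≥ p`, `z² + u² ≥ p`,
`x, z ≥ 1/2`.  Let `r = √(2 p - 1)`.
Then `(1 + r) y ≤ (1 - r) x` (if `2 x ≥ 1 + r`: `2 y ≤ 2 (1 - x) ≤ 1 - r`; otherwise:
`x² + y² ≤ x² + (1 - x)² < p`), `(1 + r) u ≤ (1 - r) z`.
`(x² + y²) (z² + u²) = (x z + y u)² + (x u - y z)²` and `(1 + r) |x u - y z| ≤ (1 - r) (x z + y u)`, so
`(1 + r)² p² ≤ ((1 + r)² + (1 - r)²) (1 - p)²`, and with `2 p = 1 + r²` this is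
`1 + r² ≤ 2 (1 - r)²`, i.e. `r ≤ 2 - √3`, `p ≤ 4 - 2√3`.
-/

set_option autoImplicit false

namespace Pool.Agent.OIP

/-- Cauchy-Schwarz for two pairs of nonnegative numbers, in square root form. -/
theorem altwo_cs (a a' b b' M N : ℝ) (ha : 0 ≤ a) (ha' : 0 ≤ a') (hb : 0 ≤ b) (hb' : 0 ≤ b')
    (h1 : a + a' ≤ M) (h2 : b + b' ≤ N) :
    Real.sqrt (a * b) + Real.sqrt (a' * b') ≤ Real.sqrt (M * N) := by
  have hM : 0 ≤ M := by linarith
  have hN : 0 ≤ N := by linarith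
  apply Real.le_sqrt_of_sq_le
  have e1 : Real.sqrt (a * b) ^ 2 = a * b := Real.sq_sqrt (by positivity)
  have e2 : Real.sqrt (a' * b') ^ 2 = a' * b' := Real.sq_sqrt (by positivity)
  have e3 : 2 * (Real.sqrt (a * b) * Real.sqrt (a' * b')) ≤ a * b' + a' * b := by
    have h4 : Real.sqrt (a * b) * Real.sqrt (a' * b') = Real.sqrt (a * b') * Real.sqrt (a' * b) := by
      rw [← Real.sqrt_mul (by positivity), ← Real.sqrt_mul (by positivity)]
      congr 1
      ring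
    have h5 : Real.sqrt (a * b') ^ 2 = a * b' := Real.sq_sqrt (by positivity)
    have h6 : Real.sqrt (a' * b) ^ 2 = a' * b := Real.sq_sqrt (by positivity)
    nlinarith only [h4, h5, h6, sq_nonneg (Real.sqrt (a * b') - Real.sqrt (a' * b))]
  have e4 : (a + a') * (b + b') ≤ M * N := mul_le_mul h1 h2 (by linarith) hM
  nlinarith only [e1, e2, e3, e4]

/-- the second coordinate is small compared with the first one. -/
theorem altwo_slope (p r x y : ℝ) (hr : 0 ≤ r) (hr1 : r ≤ 1) (hp : 2 * p = 1 + r ^ 2)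
    (hx : 1 / 2 ≤ x) (hy : 0 ≤ y) (hxy : x + y ≤ 1) (h : p ≤ x ^ 2 + y ^ 2) :
    (1 + r) * y ≤ (1 - r) * x := by
  by_cases hc : 1 + r ≤ 2 * x
  · have h1 : 2 * y ≤ 1 - r := by linarith
    nlinarith only [mul_nonneg (by linarith : (0 : ℝ) ≤ 1 - r) (by linarith : (0 : ℝ) ≤ 2 * x - (1 + r)), mul_nonneg (by linarith : (0 : ℝ) ≤ 1 + r) (by linarith : (0 : ℝ) ≤ 1 - r - 2 * y)]
  · exfalso
    push Not at hc
    have h1 : y ^ 2 ≤ (1 - x) ^ 2 := by
      apply pow_le_pow_left₀ hy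
      linarith
    have h2 : (2 * x - 1) ^ 2 < r ^ 2 := by
      apply pow_lt_pow_left₀ (by linarith) (by linarith) (by norm_num)
    nlinarith only [hp, h, h1, h2]

theorem two_class (p a a' b b' al al' be be' : ℝ)
    (ha : 1 / 2 ≤ a) (hb : 1 / 2 ≤ b) (hal : 1 / 2 ≤ al) (hbe : 1 / 2 ≤ be)
    (ha' : 0 ≤ a') (hb' : 0 ≤ b') (hal' : 0 ≤ al') (hbe' : 0 ≤ be')
    (s1 : a + a' ≤ 1) (s2 : b + b' ≤ 1) (s3 : al + al' ≤ 1) (s4 : be + be' ≤ 1)
    (h1 : p ≤ a * al + a' * al') (h2 : p ≤ b * be + b' * be')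
    (h3 : a * b + a' * b' ≤ 1 - p) (h4 : al * be + al' * be' ≤ 1 - p) :
    p ≤ pc := by
  have h30 : Real.sqrt 3 ^ 2 = 3 := Real.sq_sqrt (by norm_num)
  have h31 : Real.sqrt 3 ≤ 1.75 := by
    rw [Real.sqrt_le_left (by norm_num)]
    norm_num
  have hsq3 : 0 ≤ Real.sqrt 3 := Real.sqrt_nonneg 3
  unfold pc
  by_cases hp : p ≤ 1 / 2
  · linarith
  push Not at hp
  have hp1 : p ≤ 1 := by
    have : 0 ≤ a * b := by positivity
    have : 0 ≤ a' * b' := by positivity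
    linarith
  set r := Real.sqrt (2 * p - 1) with hrdef
  have hr : 0 ≤ r := Real.sqrt_nonneg _
  have hr2 : r ^ 2 = 2 * p - 1 := Real.sq_sqrt (by linarith)
  have hr1 : r ≤ 1 := by nlinarith only [ha, hb, ha', hb', h3, hr2]
  have hpr : 2 * p = 1 + r ^ 2 := by linarith
  set x := Real.sqrt (a * al) with hx
  set y := Real.sqrt (a' * al') with hy
  set z := Real.sqrt (b * be) with hz
  set u := Real.sqrt (b' * be') with hu
  have hx2 : x ^ 2 = a * al := Real.sq_sqrt (by positivity)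
  have hy2 : y ^ 2 = a' * al' := Real.sq_sqrt (by positivity)
  have hz2 : z ^ 2 = b * be := Real.sq_sqrt (by positivity)
  have hu2 : u ^ 2 = b' * be' := Real.sq_sqrt (by positivity)
  have hx0 : 0 ≤ x := Real.sqrt_nonneg _
  have hy0 : 0 ≤ y := Real.sqrt_nonneg _
  have hz0 : 0 ≤ z := Real.sqrt_nonneg _
  have hu0 : 0 ≤ u := Real.sqrt_nonneg _
  have hxh : 1 / 2 ≤ x := by
    apply Real.le_sqrt_of_sq_le
    nlinarith only [ha, hal]
  have hzh : 1 / 2 ≤ z := by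
    apply Real.le_sqrt_of_sq_le
    nlinarith only [hb, hbe]
  have c1 : x + y ≤ 1 := by
    have := altwo_cs a a' al al' 1 1 (by linarith) ha' (by linarith) hal' s1 s3
    simpa using this
  have c2 : z + u ≤ 1 := by
    have := altwo_cs b b' be be' 1 1 (by linarith) hb' (by linarith) hbe' s2 s4
    simpa using this
  have c3 : x * z + y * u ≤ 1 - p := by
    have h5 := altwo_cs (a * b) (a' * b') (al * be) (al' * be') (1 - p) (1 - p) (by positivity)
      (by positivity) (by positivity) (by positivity) h3 h4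
    rw [Real.sqrt_mul_self (by linarith)] at h5
    have e1 : x * z = Real.sqrt (a * b * (al * be)) := by
      rw [hx, hz, ← Real.sqrt_mul (by positivity)]
      congr 1
      ring
    have e2 : y * u = Real.sqrt (a' * b' * (al' * be')) := by
      rw [hy, hu, ← Real.sqrt_mul (by positivity)]
      congr 1
      ring
    rw [e1, e2]
    exact h5
  have d1 : (1 + r) * y ≤ (1 - r) * x := altwo_slope p r x y hr hr1 hpr hxh hy0 c1 (by linarith)
  have d2 : (1 + r) * u ≤ (1 - r) * z := altwo_slope p r z u hr hr1 hpr hzh hu0 c2 (by linarith)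
  -- the determinant is small
  have e1 : (1 + r) * (x * u) ≤ (1 - r) * (x * z) := by
    have g1 := mul_le_mul_of_nonneg_left d2 hx0
    linarith [g1]
  have e2 : (1 + r) * (y * z) ≤ (1 - r) * (x * z) := by
    have g1 := mul_le_mul_of_nonneg_right d1 hz0
    linarith [g1]
  have hxz : 0 ≤ x * z := by positivity
  have hyu : 0 ≤ y * u := by positivity
  have hxu : 0 ≤ x * u := by positivity
  have hyz : 0 ≤ y * z := by positivity
  have e3 : ((1 + r) * (x * u - y * z)) ^ 2 ≤ ((1 - r) * (x * z + y * u)) ^ 2 := by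
    apply sq_le_sq'
    · have g1 : 0 ≤ (1 - r) * (y * u) := mul_nonneg (by linarith) hyu
      have g2 : 0 ≤ (1 + r) * (x * u) := mul_nonneg (by linarith) hxu
      linarith
    · have g1 : 0 ≤ (1 - r) * (y * u) := mul_nonneg (by linarith) hyu
      have g2 : 0 ≤ (1 + r) * (y * z) := mul_nonneg (by linarith) hyz
      linarith
  have e4 : p ^ 2 ≤ (x ^ 2 + y ^ 2) * (z ^ 2 + u ^ 2) := by
    have g1 : p ≤ x ^ 2 + y ^ 2 := by linarith
    have g2 : p ≤ z ^ 2 + u ^ 2 := by linarith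
    have := mul_le_mul g1 g2 (by linarith) (by positivity)
    rw [sq]
    exact this
  have e5 : (x * z + y * u) ^ 2 ≤ (1 - p) ^ 2 := pow_le_pow_left₀ (by positivity) c3 2
  have e6 : (1 + r) ^ 2 * p ^ 2 ≤ ((1 + r) ^ 2 + (1 - r) ^ 2) * (1 - p) ^ 2 := by
    have g1 : (x ^ 2 + y ^ 2) * (z ^ 2 + u ^ 2) = (x * z + y * u) ^ 2 + (x * u - y * z) ^ 2 := by ring
    have g2 : (1 + r) ^ 2 * p ^ 2 ≤ (1 + r) ^ 2 * ((x * z + y * u) ^ 2 + (x * u - y * z) ^ 2) := by
      rw [← g1]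
      exact mul_le_mul_of_nonneg_left e4 (by positivity)
    have g3 : (1 + r) ^ 2 * ((x * z + y * u) ^ 2 + (x * u - y * z) ^ 2)
        ≤ ((1 + r) ^ 2 + (1 - r) ^ 2) * (x * z + y * u) ^ 2 := by
      rw [mul_pow, mul_pow] at e3
      linarith [e3]
    have g4 : ((1 + r) ^ 2 + (1 - r) ^ 2) * (x * z + y * u) ^ 2
        ≤ ((1 + r) ^ 2 + (1 - r) ^ 2) * (1 - p) ^ 2 :=
      mul_le_mul_of_nonneg_left e5 (by positivity)
    linarith
  have hpe : p = (1 + r ^ 2) / 2 := by linarith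
  have e7 : (1 + r ^ 2) * (1 + r) ^ 2 * (1 + r ^ 2) ≤ (1 + r ^ 2) * (1 + r) ^ 2 * (2 * (1 - r) ^ 2) := by
    have g1 : (1 + r) ^ 2 * p ^ 2 = (1 + r ^ 2) * (1 + r) ^ 2 * (1 + r ^ 2) / 4 := by
      rw [hpe]
      ring
    have g2 : ((1 + r) ^ 2 + (1 - r) ^ 2) * (1 - p) ^ 2
        = (1 + r ^ 2) * (1 + r) ^ 2 * (2 * (1 - r) ^ 2) / 4 := by
      rw [hpe]
      ring
    rw [g1, g2] at e6
    linarith
  have e8 : 1 + r ^ 2 ≤ 2 * (1 - r) ^ 2 := le_of_mul_le_mul_left e7 (by positivity)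
  have e9 : Real.sqrt 3 ≤ 2 - r := Real.sqrt_le_iff.mpr ⟨by linarith, by linarith⟩
  have e10 : r ^ 2 ≤ (2 - Real.sqrt 3) ^ 2 := pow_le_pow_left₀ hr (by linarith) 2
  linarith [e10]

end Pool.Agent.OIP
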