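import Pool.Agent.OIP.ALDefs
import Pool.Agent.OIP.ALTwo

/-! OIP: for the proof see the header of ALTwo.lean -/

set_option autoImplicit false

namespace Pool.Agent.OIP

theorem AL_exact (p a a' e b b' e' al al' n1 be be' n2 : ℝ)
    (h : ALSys p 0 a a' e b b' e' al al' n1 be be' n2) : p ≤ pc := by
  have ha := h.ha
  have hb := h.hb
  have hal := h.hal
  have hbe := h.hbe
  have ha' := h.ha'
  have hb' := h.hb'
  have hal' := h.hal'
  have hbe' := h.hbe'
  have he := h.he
  have he' := h.he'
  have hn1 := h.hn1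
  have hn2 := h.hn2
  have s1 := h.s1
  have s2 := h.s2
  have s3 := h.s3
  have s4 := h.s4
  have e1 := h.e1
  have e2 := h.e2
  have I1 := h.I1
  have I2 := h.I2
  have I3 := h.I3
  have I4 := h.I4
  have a0 : 0 < a := by linarith
  have b0 : 0 < b := by linarith
  have q1 : 0 ≤ e / b := div_nonneg he b0.le
  have q2 : 0 ≤ e' / a := div_nonneg he' a0.le
  have r1 : e / b ≤ 1 - a - a' := by
    rw [div_le_iff₀ b0]
    exact e1
  have r2 : e' / a ≤ 1 - b - b' := by
    rw [div_le_iff₀ a0]
    exact e2
  have k1 : e / b * b = e := div_mul_cancel₀ e b0.ne'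
  have k2 : e' / a * a = e' := div_mul_cancel₀ e' a0.ne'
  refine two_class p a (a' + e / b) b (b' + e' / a) al (al' + n1) be (be' + n2) ha hb hal hbe
    (by linarith) (by linarith) (by linarith) (by linarith) (by linarith) (by linarith)
    (by linarith) (by linarith) ?_ ?_ ?_ ?_
  · -- I1
    have h1 : p - al * a - al' * a' ≤ n1 * (e / b) := by
      rw [← mul_div_assoc, le_div_iff₀ b0]
      linarith
    nlinarith only [h1, mul_nonneg ha' hn1, mul_nonneg q1 hal']
  · have h1 : p - be * b - be' * b' ≤ n2 * (e' / a) := by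
      rw [← mul_div_assoc, le_div_iff₀ a0]
      linarith
    nlinarith only [h1, mul_nonneg hb' hn2, mul_nonneg q2 hbe']
  · -- I3
    have h1 : e' / a ≤ b - b' := by linarith
    have h2 : a' ≤ a := by linarith
    have h3 : e / b * (e' / a) ≤ e / b * (b - b') := mul_le_mul_of_nonneg_left h1 q1
    have h4 : a' * (e' / a) ≤ a * (e' / a) := mul_le_mul_of_nonneg_right h2 q2
    nlinarith only [I3, k1, k2, h3, h4]
  · have h1 : be' + n2 ≤ be := by linarith
    have h2 : al' ≤ al := by linarith
    have h3 := mul_le_mul_of_nonneg_left h1 hn1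
    have h4 := mul_le_mul_of_nonneg_right h2 hn2
    nlinarith only [I4, h3, h4]

end Pool.Agent.OIP
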