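import Pool.Agent.OIP.SCoreDefs

/-! OIP: dependence of the events on the vertex sets -/

set_option autoImplicit false

open Finset
open scoped Classical

namespace Pool.Agent.OIP

variable {m : ℕ}

private theorem scoredep_diff {V : Type*} {A : Set V} {U U' : Set (SimpleGraph V)}
    (h : DepOn A U) (h' : DepOn A U') : DepOn A (U \ U') :=
  fun G H hGH => and_congr (h G H hGH) (not_congr (h' G H hGH))

private theorem scoredep_ex {V ι : Type*} {A : Set V} {S : Finset ι}
    {U : ι → Set (SimpleGraph V)} (h : ∀ k ∈ S, DepOn A (U k)) :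
    DepOn A {G | ∃ k ∈ S, G ∈ U k} :=
  fun G H hGH => exists_congr fun k => and_congr_right fun hk => h k hk G H hGH

private theorem scoredep_mem {S : Finset (I5 m)} {k : I5 m} (hk : k ∈ S) (i : Bool) :
    (lf (i, k) : SV (I5 m)) ∈ VS S := ⟨i, k, hk, rfl⟩

private theorem scoredep_cnt {κ : Type} {G H : SimpleGraph (SV κ)} {a : Bool × κ} {i : Bool}
    {S : Finset κ} (h : ∀ k ∈ S, (G.Adj (lf a) (lf (i, k)) ↔ H.Adj (lf a) (lf (i, k)))) :
    cnt G a i S = cnt H a i S := by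
  unfold cnt
  exact congrArg Finset.card (Finset.filter_congr fun k hk => and_congr_right fun _ => h k hk)

theorem depOn_Mj (a : Bool × I5 m) (i : Bool) (S : Finset (I5 m)) :
    DepOn (VS S ∪ {lf a}) {G : SimpleGraph (SV (I5 m)) | Mj G a i S} := by
  intro G H hGH
  have h : cnt G a i S = cnt H a i S := scoredep_cnt fun k hk =>
    hGH (lf a) (Or.inr rfl) (lf (i, k)) (Or.inl (scoredep_mem hk i))
  change S.card < 2 * cnt G a i S ↔ S.card < 2 * cnt H a i S
  rw [h]

private theorem scoredep_MjIn {S : Finset (I5 m)} {k : I5 m} (hk : k ∈ S) (i i' : Bool) :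
    DepOn (VS S) {G : SimpleGraph (SV (I5 m)) | Mj G (i, k) i' S} := by
  refine (depOn_Mj (i, k) i' S).mono ?_
  rintro v (hv | hv)
  · exact hv
  · rw [Set.mem_singleton_iff] at hv
    rw [hv]
    exact scoredep_mem hk i

theorem depOn_LkE (σ : Equiv.Perm (I5 m)) (u : Fin 5) : DepOn (VS (blk σ u)) (LkE σ u) :=
  scoredep_ex fun _ hk => (scoredep_MjIn hk false false).inter (scoredep_MjIn hk false true)

private theorem scoredep_hub {S : Finset (I5 m)} {k : I5 m} (hk : k ∈ S) (i : Bool) :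
    DepOn (VS S ∪ {hb i}) {G : SimpleGraph (SV (I5 m)) | G.Adj (hb i) (lf (i, k))} :=
  depOn_adj (Or.inr rfl) (Or.inl (scoredep_mem hk i))

theorem depOn_hubOwn (σ : Equiv.Perm (I5 m)) (i : Bool) (u : Fin 5) :
    DepOn (VS (blk σ u) ∪ {hb i}) (hubOwn σ i u) :=
  scoredep_ex fun _ hk => (scoredep_hub hk i).inter
    ((scoredep_MjIn hk i i).mono Set.subset_union_left)

theorem depOn_hubOth (σ : Equiv.Perm (I5 m)) (i : Bool) (u : Fin 5) :
    DepOn (VS (blk σ u) ∪ {hb i}) (hubOth σ i u) :=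
  scoredep_diff (scoredep_ex fun _ hk => (scoredep_hub hk i).inter
    ((scoredep_MjIn hk i (!i)).mono Set.subset_union_left)) (depOn_hubOwn σ i u)

theorem depOn_hubNon (σ : Equiv.Perm (I5 m)) (i : Bool) (u : Fin 5) :
    DepOn (VS (blk σ u) ∪ {hb i}) (hubNon σ i u) :=
  scoredep_diff (scoredep_ex fun _ hk => scoredep_hub hk i)
    ((depOn_hubOwn σ i u).union (depOn_hubOth σ i u))

theorem depOn_leafOwn (σ : Equiv.Perm (I5 m)) (i : Bool) (u : Fin 5) (j : I5 m) :
    DepOn (VS (blk σ u) ∪ {lf (i, j)}) (leafOwn σ i u j) :=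
  depOn_Mj (i, j) i (blk σ u)

theorem depOn_leafOth (σ : Equiv.Perm (I5 m)) (i : Bool) (u : Fin 5) (j : I5 m) :
    DepOn (VS (blk σ u) ∪ {lf (i, j)}) (leafOth σ i u j) :=
  scoredep_diff (depOn_Mj (i, j) (!i) (blk σ u)) (depOn_leafOwn σ i u j)

theorem depOn_leafNon (σ : Equiv.Perm (I5 m)) (i : Bool) (u : Fin 5) (j : I5 m) :
    DepOn (VS (blk σ u) ∪ {lf (i, j)}) (leafNon σ i u j) :=
  ((depOn_leafOwn σ i u j).union (depOn_leafOth σ i u j)).compl

end Pool.Agent.OIP
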