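import Pool.Agent.OIP.SCoreL
import Pool.Agent.OIP.SCoreDep

/-!
# OIP: main theorem for sample laws

Dichotomy (fixed `σ`): on `GoodG` the events `LkE σ u` (all `u`) coincide (by `L3`; `m ≥ 4`), and
`LkE σ 0`, `LkE σ 1` are independent, so with `η = pr (¬ GoodG)`:
`pr (LkE σ 0) * (1 - pr (LkE σ 1)) ≤ η`.  By `core`, `pr (LkE σ 0) > η₀`, hence
`1 - pr (LkE σ 1) ≤ η / η₀`.  On `GoodG ∩ LkE σ 1` the event `MajS` holds (`maj_of_good`).

`sample_main`: choose `σ` with `pr (¬ GoodG) + avg_t (hubErr false 0 t + hubErr true 1 t)` at most its average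
`≤ 12 / ((dl p)³ m) + 2 / (m + 1)` (`good_avg`, `hub_avg`, `exists_le_avg`), which tends to `0` with `m → ∞`.
-/

set_option autoImplicit false

open Finset
open scoped Classical

namespace Pool.Agent.OIP

theorem sdich_cnt_partition {κ : Type} [Fintype κ] (G : SimpleGraph (SV κ)) (a : Bool × κ) (i : Bool)
    (B : Fin 5 → Finset κ) (hB : ∀ k, ∃ v, k ∈ B v) (hd : ∀ u v, u ≠ v → Disjoint (B u) (B v)) :
    cnt G a i Finset.univ = ∑ v : Fin 5, cnt G a i (B v) := by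
  unfold cnt
  rw [← Finset.card_biUnion]
  · congr 1
    ext k
    simp only [Finset.mem_filter, Finset.mem_univ, true_and, Finset.mem_biUnion]
    constructor
    · intro hk
      obtain ⟨v, hv⟩ := hB k
      exact ⟨v, hv, hk⟩
    · rintro ⟨v, _, hk⟩
      exact hk
  · intro u _ v _ huv
    exact Finset.disjoint_filter_filter (hd u v huv)

theorem sdich_mem_blk {m : ℕ} (σ : Equiv.Perm (I5 m)) (k : I5 m) : ∃ v : Fin 5, k ∈ blk σ v := by
  refine ⟨(σ.symm k).1, ?_⟩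
  unfold blk
  rw [Finset.mem_image]
  refine ⟨(σ.symm k).2, Finset.mem_univ _, ?_⟩
  simp

theorem sdich_cnt_univ {m : ℕ} (σ : Equiv.Perm (I5 m)) (G : SimpleGraph (SV (I5 m)))
    (a : Bool × I5 m) (i : Bool) :
    cnt G a i Finset.univ = ∑ v : Fin 5, cnt G a i (blk σ v) :=
  sdich_cnt_partition G a i (fun v => blk σ v) (sdich_mem_blk σ) fun _ _ huv => blk_disjoint σ huv

theorem sdich_cnt_gen {κ : Type} (G : SimpleGraph (SV κ)) (a : Bool × κ) (i : Bool)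
    (S T : Finset κ) (hT : ∀ k ∈ T, k ∈ S ∧ (k ≠ a.2 → G.Adj (lf a) (lf (i, k)))) :
    T.card ≤ cnt G a i S + 1 := by
  have hsub : T ⊆ insert a.2 (S.filter (fun k => k ≠ a.2 ∧ G.Adj (lf a) (lf (i, k)))) := by
    intro k hk
    by_cases hka : k = a.2
    · rw [hka]
      exact Finset.mem_insert_self _ _
    · refine Finset.mem_insert_of_mem ?_
      rw [Finset.mem_filter]
      exact ⟨(hT k hk).1, hka, (hT k hk).2 hka⟩
  exact (Finset.card_le_card hsub).trans (Finset.card_insert_le _ _)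

theorem sdich_cnt_block {m : ℕ} {δ : ℝ} {σ : Equiv.Perm (I5 m)}
    {G : SimpleGraph (SV (I5 m))} (hT : Tr G) (hG : GoodG δ σ G) (a : Bool × I5 m) (i : Bool)
    (v : Fin 5) (hM : Mj G a i (blk σ v)) :
    (1 / 2 + 2 * δ) * (m : ℝ) ≤ (cnt G a i (blk σ v) : ℝ) + 1 := by
  refine (hG.2 i v).trans ?_
  have h2 := sdich_cnt_gen G a i (blk σ v) ((blk σ v).filter (fun k => Mj G (i, k) i (blk σ v)))
    (fun k hk => by
      rw [Finset.mem_filter] at hk
      exact ⟨hk.1, fun hka => L2 hT (fun h => hka h.symm) hM hk.2⟩)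
  exact_mod_cast h2

theorem maj_of_good {m : ℕ} {δ : ℝ} (hδ : 0 < δ) (hm : 2 ≤ δ * (m : ℝ)) {σ : Equiv.Perm (I5 m)}
    {G : SimpleGraph (SV (I5 m))} (hT : Tr G) (hG : GoodG δ σ G) (u : Fin 5) (hL : G ∈ LkE σ u) :
    MajS δ G := by
  obtain ⟨k, _, hk0, hk1⟩ := hL
  refine ⟨(false, k), fun i => ?_⟩
  have hM : ∀ v : Fin 5, Mj G (false, k) i (blk σ v) := by
    intro v
    have hu : Mj G (false, k) i (blk σ u) := by
      cases i
      · exact hk0
      · exact hk1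
    exact (hG.1 (false, k) i u v).1 hu
  have hcard : (Fintype.card (I5 m) : ℝ) = 5 * (m : ℝ) := by
    simp [I5, Fintype.card_prod]
  rw [hcard, sdich_cnt_univ σ]
  push_cast
  have hb : ∀ v : Fin 5, (1 / 2 + δ) * (m : ℝ) ≤ (cnt G (false, k) i (blk σ v) : ℝ) := by
    intro v
    have := sdich_cnt_block hT hG (false, k) i v (hM v)
    nlinarith
  have hsum : ∑ _v : Fin 5, (1 / 2 + δ) * (m : ℝ) ≤ ∑ v : Fin 5, (cnt G (false, k) i (blk σ v) : ℝ) :=
    Finset.sum_le_sum fun v _ => hb v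
  rw [Finset.sum_const, Finset.card_univ, Fintype.card_fin, nsmul_eq_mul] at hsum
  push_cast at hsum
  linarith

theorem sdich_VS_disjoint {m : ℕ} (σ : Equiv.Perm (I5 m)) {u v : Fin 5} (h : u ≠ v) :
    Disjoint (VS (blk σ u)) (VS (blk σ v)) := by
  rw [Set.disjoint_left]
  rintro x ⟨i, k, hk, rfl⟩ ⟨i', k', hk', hx⟩
  have h1 : (i, k) = (i', k') := Sum.inl.inj hx
  have h2 : k = k' := congrArg Prod.snd h1
  subst h2
  exact Finset.disjoint_left.1 (blk_disjoint σ h) hk hk'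

theorem dichotomy {m : ℕ} (hm : 4 ≤ m) {δ p : ℝ} (hδ : 0 ≤ δ) {Ω : Type} [Fintype Ω] {w : Ω → ℝ}
    {W : Ω → SimpleGraph (SV (I5 m))} (h : SampleLaw p w W) (σ : Equiv.Perm (I5 m)) :
    pr w {ω | W ω ∈ LkE σ 0} * (1 - pr w {ω | W ω ∈ LkE σ 1}) ≤ pr w {ω | ¬ GoodG δ σ (W ω)} := by
  have hw := h.law
  have h1 : (1 : ℝ) - pr w {ω | W ω ∈ LkE σ 1} = pr w {ω | W ω ∈ (LkE σ 1)ᶜ} := by
    rw [← pr_compl hw]
    rfl
  rw [h1, ← h.indep (VS (blk σ 0)) (VS (blk σ 1)) (sdich_VS_disjoint σ (by decide)) _ _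
    (depOn_LkE σ 0) (depOn_LkE σ 1).compl]
  refine pr_mono hw ?_
  rintro ω ⟨h2, h3⟩ hgood
  obtain ⟨k, _, hk0, hk1⟩ := h2
  exact h3 (L3 hδ hm (h.tr ω) hgood (false, k) 0 hk0 hk1 1)

end Pool.Agent.OIP
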