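import Pool.Agent.OIP.SGoodDefs
import Pool.Agent.OIP.Samp

/-! OIP: see the header of SGoodDev.lean -/

set_option autoImplicit false

open Finset
open scoped Classical

namespace Pool.Agent.OIP

/-- the block `u` before relabelling -/
noncomputable def sdevavgS (m : ℕ) (u : Fin 5) : Finset (I5 m) :=
  Finset.univ.image (fun t : Fin m => ((u, t) : I5 m))

theorem sdevavg_card (m : ℕ) (u : Fin 5) : (sdevavgS m u).card = m := by
  unfold sdevavgS
  rw [Finset.card_image_of_injective]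
  · simp
  · intro a b h
    exact (Prod.mk.inj h).2

theorem sdevavg_blk {m : ℕ} (σ : Equiv.Perm (I5 m)) (u : Fin 5) :
    blk σ u = (sdevavgS m u).image σ := by
  unfold blk sdevavgS
  rw [Finset.image_image]
  rfl

theorem sdevavg_filter {m : ℕ} (σ : Equiv.Perm (I5 m)) (u : Fin 5) (r : I5 m → Prop) :
    ((blk σ u).filter r).card = ((sdevavgS m u).filter (fun s => r (σ s))).card := by
  rw [sdevavg_blk, Finset.filter_image, Finset.card_image_of_injective _ σ.injective]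

/-- bad event of one block in one layer -/
def sdevavgBad {m : ℕ} (δ : ℝ) (G : SimpleGraph (SV (I5 m))) (i : Bool) (u : Fin 5)
    (σ : Equiv.Perm (I5 m)) : Prop :=
  ∃ j : I5 m, δ * ((sdevavgS m u).card : ℝ) <
    |(((sdevavgS m u).filter (fun s => Rl G i j (σ s))).card : ℝ) -
      ((sdevavgS m u).card : ℝ) * ((Finset.univ.filter (fun k => Rl G i j k)).card : ℝ) /
        (Fintype.card (I5 m) : ℝ)|

theorem sdevavg_imp {m : ℕ} {δ : ℝ} {G : SimpleGraph (SV (I5 m))} {σ : Equiv.Perm (I5 m)}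
    (h : Dv δ σ G) : ∃ (i : Bool) (u : Fin 5), sdevavgBad δ G i u σ := by
  obtain ⟨i, j, u, v, h⟩ := h
  rw [sdevavg_filter σ v (fun k => Rl G i j k), sdevavg_filter σ u (fun k => Rl G i j k)] at h
  by_contra hcon
  push Not at hcon
  have hu : ¬ sdevavgBad δ G i u σ := hcon i u
  have hv : ¬ sdevavgBad δ G i v σ := hcon i v
  unfold sdevavgBad at hu hv
  push Not at hu hv
  have h1 := hu j
  have h2 := hv j
  rw [sdevavg_card] at h1 h2
  rw [abs_le] at h1 h2
  linarith [h1.2, h2.1]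

theorem sdevavg_ind {m : ℕ} {δ : ℝ} (G : SimpleGraph (SV (I5 m))) (σ : Equiv.Perm (I5 m)) :
    ind (Dv δ σ G) ≤ ∑ i : Bool, ∑ u : Fin 5, ind (sdevavgBad δ G i u σ) := by
  have hnn : ∀ i : Bool, 0 ≤ ∑ u : Fin 5, ind (sdevavgBad δ G i u σ) :=
    fun i => Finset.sum_nonneg fun u _ => ind_nonneg _
  by_cases h : Dv δ σ G
  · obtain ⟨i, u, hb⟩ := sdevavg_imp h
    have h1 : ind (Dv δ σ G) = 1 := if_pos h
    have h2 : ind (sdevavgBad δ G i u σ) = 1 := if_pos hb
    rw [h1, ← h2]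
    refine le_trans ?_ (Finset.single_le_sum (f := fun i => ∑ u : Fin 5,
      ind (sdevavgBad δ G i u σ)) (fun i _ => hnn i) (Finset.mem_univ i))
    exact Finset.single_le_sum (f := fun u => ind (sdevavgBad δ G i u σ))
      (fun u _ => ind_nonneg _) (Finset.mem_univ u)
  · have h1 : ind (Dv δ σ G) = 0 := if_neg h
    rw [h1]
    exact Finset.sum_nonneg fun i _ => hnn i

theorem sdevavg_one {m : ℕ} {δ : ℝ} (hδ : 0 < δ) {G : SimpleGraph (SV (I5 m))} (hG : Tr G)
    (i : Bool) (u : Fin 5) :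
    avg (fun σ : Equiv.Perm (I5 m) => ind (sdevavgBad δ G i u σ)) ≤ 1 / (δ ^ 2 * m) := by
  have h := sampling (Rl G i) (Rl_equivalence hG i) (sdevavgS m u) δ hδ
  have h2 : ((sdevavgS m u).card : ℝ) = m := by rw [sdevavg_card]
  refine le_trans h ?_
  rw [h2]

theorem dev_avg {m : ℕ} {δ p : ℝ} (hδ : 0 < δ) {Ω : Type} [Fintype Ω] {w : Ω → ℝ}
    {W : Ω → SimpleGraph (SV (I5 m))} (h : SampleLaw p w W) :
    avg (fun σ : Equiv.Perm (I5 m) => pr w {ω | Dv δ σ (W ω)}) ≤ 10 / (δ ^ 2 * m) := by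
  refine avg_pr_le h.law (fun σ ω => Dv δ σ (W ω)) _ fun ω => ?_
  refine le_trans (avg_mono fun σ => sdevavg_ind (W ω) σ) ?_
  rw [avg_sum]
  have h1 : ∀ i ∈ (Finset.univ : Finset Bool),
      avg (fun σ : Equiv.Perm (I5 m) => ∑ u : Fin 5, ind (sdevavgBad δ (W ω) i u σ)) ≤
        5 * (1 / (δ ^ 2 * m)) := by
    intro i _
    rw [avg_sum]
    refine le_trans (Finset.sum_le_sum fun u _ => sdevavg_one hδ (h.tr ω) i u) ?_
    rw [Finset.sum_const, Finset.card_univ, Fintype.card_fin, nsmul_eq_mul]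
    norm_num
  refine le_trans (Finset.sum_le_sum h1) ?_
  rw [Finset.sum_const, Finset.card_univ, Fintype.card_bool, nsmul_eq_mul]
  apply le_of_eq
  push_cast
  ring

end Pool.Agent.OIP
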