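import Pool.Agent.OIP.SGoodDefs

/-! OIP: see the header of SGoodDev.lean -/

set_option autoImplicit false

open Finset
open scoped Classical

namespace Pool.Agent.OIP

/-- a class with at least `c` elements in the block `u`, containing an element of this block -/
def sMajClassA {m : ℕ} (c : ℝ) (σ : Equiv.Perm (I5 m)) (i : Bool) (u : Fin 5) :
    Set (SimpleGraph (SV (I5 m))) :=
  {G | ∃ j ∈ blk σ u, c ≤ (((blk σ u).filter (fun k => Rl G i j k)).card : ℝ)}

/-- leaves of layer `i` with index in the block `u` -/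
def sMajClassL {m : ℕ} (σ : Equiv.Perm (I5 m)) (i : Bool) (u : Fin 5) : Set (SV (I5 m)) :=
  {v | ∃ k ∈ blk σ u, v = lf (i, k)}

theorem sMajClass_dep {m : ℕ} (c : ℝ) (σ : Equiv.Perm (I5 m)) (i : Bool) (u : Fin 5) :
    DepOn (sMajClassL σ i u) (sMajClassA c σ i u) := by
  have key : ∀ G H : SimpleGraph (SV (I5 m)),
      (∀ a ∈ sMajClassL σ i u, ∀ b ∈ sMajClassL σ i u, (G.Adj a b ↔ H.Adj a b)) →
      G ∈ sMajClassA c σ i u → H ∈ sMajClassA c σ i u := by
    intro G H hGH hG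
    obtain ⟨j, hj, hc⟩ := hG
    refine ⟨j, hj, ?_⟩
    have : (blk σ u).filter (fun k => Rl G i j k) = (blk σ u).filter (fun k => Rl H i j k) := by
      refine Finset.filter_congr fun k hk => ?_
      unfold Rl
      rw [hGH (lf (i, j)) ⟨j, hj, rfl⟩ (lf (i, k)) ⟨k, hk, rfl⟩]
    rw [← this]
    exact hc
  intro G H hGH
  exact ⟨key G H hGH, key H G fun a ha b hb => (hGH a ha b hb).symm⟩

theorem sMajClass_disjoint {m : ℕ} (σ : Equiv.Perm (I5 m)) (i : Bool) :
    Disjoint (sMajClassL σ i 0) (sMajClassL σ i 1) := by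
  rw [Set.disjoint_left]
  rintro v ⟨k, hk, rfl⟩ ⟨k', hk', h⟩
  have hkk : k = k' := by
    have h1 := Sum.inl_injective h
    exact (Prod.mk.inj h1).2
  subst hkk
  exact Finset.disjoint_left.1 (blk_disjoint σ (by decide : (0 : Fin 5) ≠ 1)) hk hk'

/-- the probability of a large class in the block `0` -/
theorem sMajClass_prob {m : ℕ} {p : ℝ} (hp : 1 / 2 < p) (hm : 2 ≤ dl p * (m : ℝ)) {Ω : Type}
    [Fintype Ω] {w : Ω → ℝ} {W : Ω → SimpleGraph (SV (I5 m))} (h : SampleLaw p w W)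
    (σ : Equiv.Perm (I5 m)) (i : Bool) :
    10 * dl p ≤ pr w {ω | W ω ∈ sMajClassA ((1 / 2 + 6 * dl p) * (m : ℝ)) σ i 0} := by
  have hδ : 0 < dl p := by
    unfold dl
    linarith
  have hpδ : p = 1 / 2 + 16 * dl p := by
    unfold dl
    ring
  have hmpos : (0 : ℝ) < (m : ℝ) := by
    by_contra hcon
    push Not at hcon
    have : dl p * (m : ℝ) ≤ 0 := mul_nonpos_of_nonneg_of_nonpos hδ.le hcon
    linarith
  have h1 : p * (m : ℝ) ≤ ∑ k ∈ blk σ 0, pr w {ω | (W ω).Adj (hb i) (lf (i, k))} := by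
    calc p * (m : ℝ) = ∑ _k ∈ blk σ 0, p := by
          rw [Finset.sum_const, blk_card, nsmul_eq_mul, mul_comm]
      _ ≤ _ := Finset.sum_le_sum fun k _ => h.hubEdge i k
  rw [sum_pr_eq (w := w) (blk σ 0) (fun k ω => (W ω).Adj (hb i) (lf (i, k)))] at h1
  set A : Set Ω := {ω | W ω ∈ sMajClassA ((1 / 2 + 6 * dl p) * (m : ℝ)) σ i 0} with hA
  have h2 : ∀ ω, w ω * (((blk σ 0).filter (fun k => (W ω).Adj (hb i) (lf (i, k)))).card : ℝ) ≤
      (m : ℝ) * A.indicator w ω + w ω * ((1 / 2 + 6 * dl p) * (m : ℝ)) := by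
    intro ω
    have hw := h.law.nonneg ω
    have hcard : (((blk σ 0).filter (fun k => (W ω).Adj (hb i) (lf (i, k)))).card : ℝ) ≤ (m : ℝ) := by
      have : ((blk σ 0).filter (fun k => (W ω).Adj (hb i) (lf (i, k)))).card ≤ (blk σ 0).card :=
        Finset.card_filter_le _ _
      rw [blk_card] at this
      exact_mod_cast this
    by_cases hω : ω ∈ A
    · rw [Set.indicator_of_mem hω]
      have h3 := mul_le_mul_of_nonneg_left hcard hw
      have h4 : 0 ≤ w ω * ((1 / 2 + 6 * dl p) * (m : ℝ)) := by positivity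
      linarith [mul_comm (w ω) (m : ℝ)]
    · rw [Set.indicator_of_notMem hω, mul_zero, zero_add]
      refine mul_le_mul_of_nonneg_left ?_ hw
      by_contra hcon
      push Not at hcon
      apply hω
      have hne : ((blk σ 0).filter (fun k => (W ω).Adj (hb i) (lf (i, k)))).Nonempty := by
        rw [← Finset.card_pos]
        by_contra h0
        have h0' : ((blk σ 0).filter (fun k => (W ω).Adj (hb i) (lf (i, k)))).card = 0 := by omega
        rw [h0'] at hcon
        have : (0 : ℝ) < (1 / 2 + 6 * dl p) * (m : ℝ) := by positivity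
        push_cast at hcon
        linarith
      obtain ⟨j, hj⟩ := hne
      rw [Finset.mem_filter] at hj
      refine ⟨j, hj.1, ?_⟩
      refine hcon.le.trans ?_
      have hsub : (blk σ 0).filter (fun k => (W ω).Adj (hb i) (lf (i, k))) ⊆
          (blk σ 0).filter (fun k => Rl (W ω) i j k) := by
        intro k hk
        rw [Finset.mem_filter] at hk ⊢
        refine ⟨hk.1, ?_⟩
        unfold Rl
        by_cases hjk : j = k
        · exact Or.inl hjk
        · exact Or.inr (h.clique ω i j k hjk hj.2 hk.2)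
      exact_mod_cast Finset.card_le_card hsub
  have h3 := Finset.sum_le_sum fun ω (_ : ω ∈ (Finset.univ : Finset Ω)) => h2 ω
  rw [Finset.sum_add_distrib, ← Finset.mul_sum, ← Finset.sum_mul, h.law.total, one_mul] at h3
  have h4 : ∑ ω, A.indicator w ω = pr w A := rfl
  rw [h4] at h3
  have h5 : p * (m : ℝ) ≤ (pr w A + (1 / 2 + 6 * dl p)) * (m : ℝ) := by
    calc p * (m : ℝ) ≤ _ := h1
      _ ≤ _ := h3
      _ = _ := by ring
  have h6 := le_of_mul_le_mul_right h5 hmpos
  linarith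

/-- existence of a majority class for a fixed relabelling -/
theorem maj_class {m : ℕ} {p : ℝ} (hp : 1 / 2 < p) (hm : 2 ≤ dl p * (m : ℝ)) {Ω : Type} [Fintype Ω] {w : Ω → ℝ}
    {W : Ω → SimpleGraph (SV (I5 m))} (h : SampleLaw p w W) (σ : Equiv.Perm (I5 m)) (i : Bool) :
    (10 * dl p) * pr w {ω | ¬ ∃ j : I5 m, (1 / 2 + 4 * dl p) * (m : ℝ) ≤
      (((blk σ 1).filter (fun k => Rl (W ω) i j k)).card : ℝ)} ≤ pr w {ω | Dv (dl p) σ (W ω)} := by
  have hδ : 0 < dl p := by
    unfold dl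
    linarith
  have hmpos : (0 : ℝ) < (m : ℝ) := by
    by_contra hcon
    push Not at hcon
    have : dl p * (m : ℝ) ≤ 0 := mul_nonpos_of_nonneg_of_nonpos hδ.le hcon
    linarith
  set U : Set (SimpleGraph (SV (I5 m))) := sMajClassA ((1 / 2 + 6 * dl p) * (m : ℝ)) σ i 0 with hU
  set U' : Set (SimpleGraph (SV (I5 m))) := sMajClassA ((1 / 2 + 4 * dl p) * (m : ℝ)) σ i 1 with hU'
  have hind := h.indep (sMajClassL σ i 0) (sMajClassL σ i 1) (sMajClass_disjoint σ i) U U'ᶜ
    (sMajClass_dep _ σ i 0) (sMajClass_dep _ σ i 1).compl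
  have hpr := sMajClass_prob hp hm h σ i
  have h1 : pr w {ω | ¬ ∃ j : I5 m, (1 / 2 + 4 * dl p) * (m : ℝ) ≤
      (((blk σ 1).filter (fun k => Rl (W ω) i j k)).card : ℝ)} ≤ pr w {ω | W ω ∈ U'ᶜ} := by
    refine pr_mono h.law ?_
    intro ω hω hcon
    apply hω
    obtain ⟨j, _, hj⟩ := hcon
    exact ⟨j, hj⟩
  have h2 : pr w {ω | W ω ∈ U ∧ W ω ∈ U'ᶜ} ≤ pr w {ω | Dv (dl p) σ (W ω)} := by
    refine pr_mono h.law ?_
    rintro ω ⟨⟨j, hj, hc⟩, hn⟩
    refine ⟨i, j, 0, 1, ?_⟩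
    have heq := Rl_equivalence (h.tr ω) i
    have h3 : (((blk σ 1).filter (fun k => Rl (W ω) i j k)).card : ℝ) <
        (1 / 2 + 4 * dl p) * (m : ℝ) := by
      by_contra hcon
      push Not at hcon
      have hne : ((blk σ 1).filter (fun k => Rl (W ω) i j k)).Nonempty := by
        rw [← Finset.card_pos]
        by_contra h0
        have h0' : ((blk σ 1).filter (fun k => Rl (W ω) i j k)).card = 0 := by omega
        rw [h0'] at hcon
        have : (0 : ℝ) < (1 / 2 + 4 * dl p) * (m : ℝ) := by positivity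
        push_cast at hcon
        linarith
      obtain ⟨j', hj'⟩ := hne
      rw [Finset.mem_filter] at hj'
      apply hn
      refine ⟨j', hj'.1, hcon.trans ?_⟩
      have hsub : (blk σ 1).filter (fun k => Rl (W ω) i j k) ⊆
          (blk σ 1).filter (fun k => Rl (W ω) i j' k) := by
        intro k hk
        rw [Finset.mem_filter] at hk ⊢
        exact ⟨hk.1, heq.trans (heq.symm hj'.2) hk.2⟩
      exact_mod_cast Finset.card_le_card hsub
    have h4 : (1 / 2 + 6 * dl p) * (m : ℝ) = (1 / 2 + 4 * dl p) * (m : ℝ) + 2 * dl p * m := by ring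
    linarith
  have h5 : 0 ≤ pr w {ω | W ω ∈ U'ᶜ} := pr_nonneg h.law _
  calc (10 * dl p) * pr w {ω | ¬ ∃ j : I5 m, (1 / 2 + 4 * dl p) * (m : ℝ) ≤
      (((blk σ 1).filter (fun k => Rl (W ω) i j k)).card : ℝ)}
      ≤ (10 * dl p) * pr w {ω | W ω ∈ U'ᶜ} := mul_le_mul_of_nonneg_left h1 (by positivity)
    _ ≤ pr w {ω | W ω ∈ U} * pr w {ω | W ω ∈ U'ᶜ} := mul_le_mul_of_nonneg_right hpr h5
    _ = pr w {ω | W ω ∈ U ∧ W ω ∈ U'ᶜ} := hind.symm
    _ ≤ _ := h2

end Pool.Agent.OIP
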