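import Pool.Agent.OIP.SGoodDev
import Pool.Agent.OIP.SDevAvg
import Pool.Agent.OIP.SMajClass

/-! OIP: see the header of SGoodDev.lean -/

set_option autoImplicit false

open Finset
open scoped Classical

namespace Pool.Agent.OIP

theorem sgoodavg_point {m : ℕ} {p : ℝ} (hp : 1 / 2 < p) (hm : 2 ≤ dl p * (m : ℝ))
    {Ω : Type} [Fintype Ω] {w : Ω → ℝ} {W : Ω → SimpleGraph (SV (I5 m))} (h : SampleLaw p w W)
    (σ : Equiv.Perm (I5 m)) :
    pr w {ω | ¬ GoodG (dl p) σ (W ω)} ≤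
      (1 + 1 / (5 * dl p)) * pr w {ω | Dv (dl p) σ (W ω)} := by
  have hδ : 0 < dl p := by unfold dl; linarith
  set D : Set Ω := {ω | Dv (dl p) σ (W ω)} with hD
  set M : Bool → Set Ω := fun i => {ω | ¬ ∃ j : I5 m, (1 / 2 + 4 * dl p) * (m : ℝ) ≤
      (((blk σ 1).filter (fun k => Rl (W ω) i j k)).card : ℝ)} with hM
  have hsub : {ω | ¬ GoodG (dl p) σ (W ω)} ⊆ D ∪ (M false ∪ M true) := by
    intro ω hω
    by_contra hcon
    apply hω
    have h1 : ω ∉ D := fun h' => hcon (Or.inl h')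
    have h2 : ω ∉ M false := fun h' => hcon (Or.inr (Or.inl h'))
    have h3 : ω ∉ M true := fun h' => hcon (Or.inr (Or.inr h'))
    refine good_of_dev hδ hm σ (W ω) (h.tr ω) ?_ ?_
    · intro i j u v
      by_contra hc
      push Not at hc
      exact h1 ⟨i, j, u, v, hc⟩
    · intro i
      cases i
      · exact not_not.1 h2
      · exact not_not.1 h3
  have hmc : ∀ i, pr w (M i) ≤ pr w D / (10 * dl p) := by
    intro i
    rw [le_div_iff₀ (by linarith), mul_comm]
    exact maj_class hp hm h σ i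
  have e1 := pr_mono h.law hsub
  have e2 := pr_union_le h.law D (M false ∪ M true)
  have e3 := pr_union_le h.law (M false) (M true)
  have e4 := hmc false
  have e5 := hmc true
  have e6 : (1 + 1 / (5 * dl p)) * pr w D = pr w D + (pr w D / (10 * dl p) + pr w D / (10 * dl p)) := by
    field_simp
    ring
  rw [e6]
  linarith

theorem good_avg {m : ℕ} {p : ℝ} (hp : 1 / 2 < p) (hp1 : p ≤ 1) (hm : 2 ≤ dl p * (m : ℝ))
    {Ω : Type} [Fintype Ω] {w : Ω → ℝ} {W : Ω → SimpleGraph (SV (I5 m))} (h : SampleLaw p w W) :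
    avg (fun σ : Equiv.Perm (I5 m) => pr w {ω | ¬ GoodG (dl p) σ (W ω)}) ≤ 12 / ((dl p) ^ 3 * m) := by
  have hδ : 0 < dl p := by unfold dl; linarith
  have hδ1 : dl p ≤ 1 / 32 := by unfold dl; linarith
  have hm0 : (0 : ℝ) < (m : ℝ) := by
    by_contra hcon
    push Not at hcon
    have : dl p * (m : ℝ) ≤ 0 := mul_nonpos_of_nonneg_of_nonpos hδ.le hcon
    linarith
  have h1 : avg (fun σ : Equiv.Perm (I5 m) => pr w {ω | ¬ GoodG (dl p) σ (W ω)}) ≤
      (1 + 1 / (5 * dl p)) * avg (fun σ : Equiv.Perm (I5 m) => pr w {ω | Dv (dl p) σ (W ω)}) := by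
    rw [← avg_const_mul]
    exact avg_mono fun σ => sgoodavg_point hp hm h σ
  have h2 := dev_avg (δ := dl p) hδ h
  have h3 : (1 + 1 / (5 * dl p)) * avg (fun σ : Equiv.Perm (I5 m) => pr w {ω | Dv (dl p) σ (W ω)}) ≤
      (1 + 1 / (5 * dl p)) * (10 / ((dl p) ^ 2 * m)) :=
    mul_le_mul_of_nonneg_left h2 (by positivity)
  refine h1.trans (h3.trans ?_)
  have e : (1 + 1 / (5 * dl p)) * (10 / ((dl p) ^ 2 * m)) = (10 * dl p + 2) / ((dl p) ^ 3 * m) := by
    field_simp
    ring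
  rw [e]
  exact div_le_div_of_nonneg_right (by linarith) (by positivity)

end Pool.Agent.OIP
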