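import Pool.Agent.OIP.SGoodDefs

/-! OIP: exchangeability -/

set_option autoImplicit false

open Finset
open scoped Classical

namespace Pool.Agent.OIP

theorem sHub_sum_ind_le {ι : Type*} [Fintype ι] (B : ι → Prop)
    (h : ∀ a b, B a → B b → a = b) : ∑ o, ind (B o) ≤ 1 := by
  have h1 : ∑ o, ind (B o) = ((Finset.univ.filter B).card : ℝ) := by
    rw [Finset.card_filter]
    push_cast
    exact Finset.sum_congr rfl fun o _ => rfl
  rw [h1]
  have h2 : (Finset.univ.filter B).card ≤ 1 := by
    refine Finset.card_le_one.2 ?_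
    intro a ha b hb
    exact h a b (Finset.mem_filter.1 ha).2 (Finset.mem_filter.1 hb).2
  exact_mod_cast h2

/-- the index attached to `o` -/
def sHubIdx {m : ℕ} (u : Fin 5) (t : Fin m) : Option (Fin m) → I5 m
  | none => (4, t)
  | some r => (u, r)

/-- the transposition attached to `o` -/
def sHubTau {m : ℕ} (u : Fin 5) (t : Fin m) (o : Option (Fin m)) : Equiv.Perm (I5 m) :=
  Equiv.swap (4, t) (sHubIdx u t o)

/-- among the `m + 1` indices `σ (4,t)` and `blk σ u` (exchangeable) at most one can be the only one joined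
to the hub -/
theorem hub_avg {m : ℕ} {Ω : Type} [Fintype Ω] {w : Ω → ℝ} (hw : IsLaw w)
    (W : Ω → SimpleGraph (SV (I5 m))) (i : Bool) (u : Fin 5) (hu : u ≠ 4) (t : Fin m) :
    avg (fun σ : Equiv.Perm (I5 m) => hubErr w W σ i u t) ≤ 1 / ((m : ℝ) + 1) := by
  unfold hubErr
  refine avg_pr_le hw (fun (σ : Equiv.Perm (I5 m)) (ω : Ω) => (W ω).Adj (hb i) (lf (i, σ (4, t))) ∧
    ∀ k ∈ blk σ u, ¬ (W ω).Adj (hb i) (lf (i, k))) _ ?_
  intro ω
  set S : Set (I5 m) := {k | (W ω).Adj (hb i) (lf (i, k))} with hS
  set A : Equiv.Perm (I5 m) → Prop := fun σ => (W ω).Adj (hb i) (lf (i, σ (4, t))) ∧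
    ∀ k ∈ blk σ u, ¬ (W ω).Adj (hb i) (lf (i, k)) with hA
  have hAiff : ∀ σ : Equiv.Perm (I5 m), A σ ↔ σ (4, t) ∈ S ∧ ∀ s : Fin m, σ (u, s) ∉ S := by
    intro σ
    rw [hA]
    simp only [hS, Set.mem_ofPred_eq, blk, Finset.mem_image, Finset.mem_univ, true_and]
    refine and_congr Iff.rfl ?_
    constructor
    · intro h s
      exact h _ ⟨s, rfl⟩
    · rintro h k ⟨s, rfl⟩
      exact h s
  have hidx : ∀ o o' : Option (Fin m), sHubIdx u t o = sHubIdx u t o' → o = o' := by
    intro o o' h
    cases o with
    | none =>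
      cases o' with
      | none => rfl
      | some r =>
        exact absurd (congrArg Prod.fst h).symm hu
    | some r =>
      cases o' with
      | none => exact absurd (congrArg Prod.fst h) hu
      | some r' =>
        have := congrArg Prod.snd h
        simp only [sHubIdx] at this
        rw [this]
  have hkey : ∀ (σ : Equiv.Perm (I5 m)) (o : Option (Fin m)), A (σ * sHubTau u t o) →
      σ (sHubIdx u t o) ∈ S ∧ ∀ o' : Option (Fin m), o' ≠ o → σ (sHubIdx u t o') ∉ S := by
    intro σ o h
    rw [hAiff] at h
    obtain ⟨h1, h2⟩ := h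
    simp only [Equiv.Perm.mul_apply] at h1 h2
    have h3 : sHubTau u t o (4, t) = sHubIdx u t o := by
      unfold sHubTau
      exact Equiv.swap_apply_left _ _
    rw [h3] at h1
    refine ⟨h1, ?_⟩
    intro o' ho'
    cases o with
    | none =>
      cases o' with
      | none => exact absurd rfl ho'
      | some r =>
        have h4 := h2 r
        have h5 : sHubTau u t (none : Option (Fin m)) (u, r) = (u, r) := by
          unfold sHubTau sHubIdx
          simp
        rw [h5] at h4
        exact h4
    | some r =>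
      cases o' with
      | none =>
        have h4 := h2 r
        have h5 : sHubTau u t (some r) (u, r) = (4, t) := by
          unfold sHubTau sHubIdx
          exact Equiv.swap_apply_right _ _
        rw [h5] at h4
        exact h4
      | some s =>
        have h4 := h2 s
        have h6 : ((u, s) : I5 m) ≠ (u, r) := by
          intro h
          apply ho'
          have := congrArg Prod.snd h
          simp only at this
          rw [this]
        have h7 : ((u, s) : I5 m) ≠ (4, t) := by
          intro h
          exact hu (congrArg Prod.fst h)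
        have h5 : sHubTau u t (some r) (u, s) = (u, s) := by
          unfold sHubTau sHubIdx
          exact Equiv.swap_apply_of_ne_of_ne h7 h6
        rw [h5] at h4
        exact h4
  have hsum : ∀ σ : Equiv.Perm (I5 m), ∑ o : Option (Fin m), ind (A (σ * sHubTau u t o)) ≤ 1 := by
    intro σ
    refine sHub_sum_ind_le _ ?_
    intro a b ha hb
    by_contra hab
    exact (hkey σ b hb).2 a hab (hkey σ a ha).1
  have h1 : avg (fun σ : Equiv.Perm (I5 m) => ∑ o : Option (Fin m), ind (A (σ * sHubTau u t o))) ≤ 1 :=
    avg_le_of_le zero_le_one hsum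
  rw [avg_sum] at h1
  have h2 : ∀ o : Option (Fin m), avg (fun σ : Equiv.Perm (I5 m) => ind (A (σ * sHubTau u t o))) =
      avg (fun σ : Equiv.Perm (I5 m) => ind (A σ)) := fun o =>
    avg_perm_mul_right (sHubTau u t o) (fun σ => ind (A σ))
  rw [Finset.sum_congr rfl fun o _ => h2 o, Finset.sum_const, Finset.card_univ, Fintype.card_option,
    Fintype.card_fin, nsmul_eq_mul] at h1
  push_cast at h1
  have hm : (0 : ℝ) < (m : ℝ) + 1 := by positivity
  rw [le_div_iff₀ hm, mul_comm]
  exact h1

end Pool.Agent.OIP
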