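import Pool.Agent.OIP.ALExact

/-! OIP: compactness: all twelve numbers lie in `[0,1]`, all conditions are closed and continuous in `t`; if the
claim fails take solutions for `t = 1/(k+1)`, a convergent subsequence, and apply `AL_exact` to the limit. -/

set_option autoImplicit false

open Filter Topology

namespace Pool.Agent.OIP

/-- the system for a vector of twelve numbers -/
private def alrobustSys (p t : ℝ) (x : Fin 12 → ℝ) : Prop :=
  ALSys p t (x 0) (x 1) (x 2) (x 3) (x 4) (x 5) (x 6) (x 7) (x 8) (x 9) (x 10) (x 11)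

private theorem alrobust_mem {p t : ℝ} {x : Fin 12 → ℝ} (h : alrobustSys p t x) :
    x ∈ Set.Icc (0 : Fin 12 → ℝ) 1 := by
  obtain ⟨ha, hb, hal, hbe, ha', hb', hal', hbe', he, he', hn1, hn2, s1, s2, s3, s4, e1, e2,
    _, _, _, _⟩ := h
  have g1 : x 2 ≤ 1 := by nlinarith only [ha, hb, ha', hb', s2, e1]
  have g2 : x 5 ≤ 1 := by nlinarith only [ha, hb, ha', hb', s1, e2]
  constructor
  · intro i
    show (0 : ℝ) ≤ x i
    fin_cases i <;> simp <;> linarith
  · intro i
    show x i ≤ (1 : ℝ)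
    fin_cases i <;> simp <;> linarith

theorem AL_robust (p : ℝ) (hp : pc < p) :
    ∃ t : ℝ, 0 < t ∧ ∀ a a' e b b' e' al al' n1 be be' n2 : ℝ,
      ¬ ALSys p t a a' e b b' e' al al' n1 be be' n2 := by
  by_contra hcon
  push Not at hcon
  have hcon' : ∀ k : ℕ, ∃ x : Fin 12 → ℝ, alrobustSys p (1 / ((k : ℝ) + 1)) x := by
    intro k
    obtain ⟨a, a', e, b, b', e', al, al', n1, be, be', n2, h⟩ := hcon (1 / ((k : ℝ) + 1))
      Nat.one_div_pos_of_nat
    exact ⟨![a, a', e, b, b', e', al, al', n1, be, be', n2], h⟩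
  choose x hx using hcon'
  obtain ⟨y, -, φ, hφ, hy⟩ := isCompact_Icc.tendsto_subseq (fun k => alrobust_mem (hx k))
  have ht : Tendsto (fun k : ℕ => 1 / ((φ k : ℝ) + 1)) atTop (𝓝 0) :=
    (tendsto_one_div_add_atTop_nhds_zero_nat (𝕜 := ℝ)).comp hφ.tendsto_atTop
  have hq : Tendsto (fun k : ℕ => ((1 / ((φ k : ℝ) + 1), x (φ k)) : ℝ × (Fin 12 → ℝ))) atTop
      (𝓝 ((0 : ℝ), y)) := ht.prodMk_nhds hy
  have key : ∀ F G : ℝ × (Fin 12 → ℝ) → ℝ, Continuous F → Continuous G →
      (∀ k : ℕ, F (1 / ((φ k : ℝ) + 1), x (φ k)) ≤ G (1 / ((φ k : ℝ) + 1), x (φ k))) →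
      F (0, y) ≤ G (0, y) := by
    intro F G hF hG h
    exact le_of_tendsto_of_tendsto' ((hF.tendsto _).comp hq) ((hG.tendsto _).comp hq) h
  have hX : ∀ k, ALSys p (1 / ((φ k : ℝ) + 1)) (x (φ k) 0) (x (φ k) 1) (x (φ k) 2) (x (φ k) 3)
      (x (φ k) 4) (x (φ k) 5) (x (φ k) 6) (x (φ k) 7) (x (φ k) 8) (x (φ k) 9) (x (φ k) 10)
      (x (φ k) 11) := fun k => hx (φ k)
  have hlim : ALSys p 0 (y 0) (y 1) (y 2) (y 3) (y 4) (y 5) (y 6) (y 7) (y 8) (y 9) (y 10)
      (y 11) :=
    { ha := key (fun _ => 1 / 2) (fun q => q.2 0) (by fun_prop) (by fun_prop)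
        (fun k => (hX k).ha)
      hb := key (fun _ => 1 / 2) (fun q => q.2 3) (by fun_prop) (by fun_prop)
        (fun k => (hX k).hb)
      hal := key (fun _ => 1 / 2) (fun q => q.2 6) (by fun_prop) (by fun_prop)
        (fun k => (hX k).hal)
      hbe := key (fun _ => 1 / 2) (fun q => q.2 9) (by fun_prop) (by fun_prop)
        (fun k => (hX k).hbe)
      ha' := key (fun _ => 0) (fun q => q.2 1) (by fun_prop) (by fun_prop)
        (fun k => (hX k).ha')
      hb' := key (fun _ => 0) (fun q => q.2 4) (by fun_prop) (by fun_prop)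
        (fun k => (hX k).hb')
      hal' := key (fun _ => 0) (fun q => q.2 7) (by fun_prop) (by fun_prop)
        (fun k => (hX k).hal')
      hbe' := key (fun _ => 0) (fun q => q.2 10) (by fun_prop) (by fun_prop)
        (fun k => (hX k).hbe')
      he := key (fun _ => 0) (fun q => q.2 2) (by fun_prop) (by fun_prop)
        (fun k => (hX k).he)
      he' := key (fun _ => 0) (fun q => q.2 5) (by fun_prop) (by fun_prop)
        (fun k => (hX k).he')
      hn1 := key (fun _ => 0) (fun q => q.2 8) (by fun_prop) (by fun_prop)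
        (fun k => (hX k).hn1)
      hn2 := key (fun _ => 0) (fun q => q.2 11) (by fun_prop) (by fun_prop)
        (fun k => (hX k).hn2)
      s1 := key (fun q => q.2 0 + q.2 1) (fun _ => 1) (by fun_prop) (by fun_prop)
        (fun k => (hX k).s1)
      s2 := key (fun q => q.2 3 + q.2 4) (fun _ => 1) (by fun_prop) (by fun_prop)
        (fun k => (hX k).s2)
      s3 := key (fun q => q.2 6 + q.2 7 + q.2 8) (fun _ => 1) (by fun_prop) (by fun_prop)
        (fun k => (hX k).s3)
      s4 := key (fun q => q.2 9 + q.2 10 + q.2 11) (fun _ => 1) (by fun_prop) (by fun_prop)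
        (fun k => (hX k).s4)
      e1 := key (fun q => q.2 2) (fun q => (1 - q.2 0 - q.2 1) * q.2 3) (by fun_prop)
        (by fun_prop) (fun k => (hX k).e1)
      e2 := key (fun q => q.2 5) (fun q => (1 - q.2 3 - q.2 4) * q.2 0) (by fun_prop)
        (by fun_prop) (fun k => (hX k).e2)
      I1 := key (fun q => q.2 3 * (p - q.2 6 * q.2 0 - q.2 7 * q.2 1))
        (fun q => q.2 8 * q.2 2 + q.1) (by fun_prop) (by fun_prop) (fun k => (hX k).I1)
      I2 := key (fun q => q.2 0 * (p - q.2 9 * q.2 3 - q.2 10 * q.2 4))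
        (fun q => q.2 11 * q.2 5 + q.1) (by fun_prop) (by fun_prop) (fun k => (hX k).I2)
      I3 := key (fun q => q.2 0 * q.2 3 + q.2 1 * q.2 4 + q.2 2 + q.2 5)
        (fun q => 1 - p + q.1) (by fun_prop) (by fun_prop) (fun k => (hX k).I3)
      I4 := key (fun q => q.2 6 * q.2 9 + q.2 7 * q.2 10 + q.2 8 * q.2 9 + q.2 11 * q.2 6)
        (fun q => 1 - p + q.1) (by fun_prop) (by fun_prop) (fun k => (hX k).I4) }
  exact absurd (AL_exact p _ _ _ _ _ _ _ _ _ _ _ _ hlim) (not_le.2 hp)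

end Pool.Agent.OIP
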