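import Pool.Agent.OIP.SCoreL
import Pool.Agent.OIP.SCoreDep

/-! OIP: dominance -/

set_option autoImplicit false

open Finset
open scoped Classical

namespace Pool.Agent.OIP

variable {m : ℕ}

private theorem scoredom_mem_blk (σ : Equiv.Perm (I5 m)) (u : Fin 5) (t : Fin m) :
    σ (u, t) ∈ blk σ u := Finset.mem_image_of_mem _ (Finset.mem_univ t)

private theorem scoredom_ne (σ : Equiv.Perm (I5 m)) {u : Fin 5} (hu4 : u ≠ 4) (t : Fin m)
    {k : I5 m} (hk : k ∈ blk σ u) : σ (4, t) ≠ k := by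
  rintro rfl
  exact Finset.disjoint_left.1 (blk_disjoint σ hu4) hk (scoredom_mem_blk σ 4 t)

/-- outside the bad event the hub and the leaf are in the majority class simultaneously -/
private theorem scoredom_iff {Ω : Type} [Fintype Ω] {p δ : ℝ} {w : Ω → ℝ}
    {W : Ω → SimpleGraph (SV (I5 m))} (h : SampleLaw p w W) (σ : Equiv.Perm (I5 m)) (i : Bool)
    (u v : Fin 5) (hu4 : u ≠ 4) (t : Fin m) (ω : Ω) (hG : GoodG δ σ (W ω))
    (hE : (W ω).Adj (hb i) (lf (i, σ (4, t))))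
    (hk : ∃ k ∈ blk σ u, (W ω).Adj (hb i) (lf (i, k))) :
    W ω ∈ hubOwn σ i u ↔ W ω ∈ leafOwn σ i v (σ (4, t)) := by
  constructor
  · rintro ⟨k, hku, hadj, hM⟩
    have hne := scoredom_ne σ hu4 t hku
    have h1 : (W ω).Adj (lf (i, σ (4, t))) (lf (i, k)) := h.clique ω i _ _ hne hE hadj
    have h2 : Mj (W ω) (i, σ (4, t)) i (blk σ u) :=
      L1 (a := (i, σ (4, t))) (b := (i, k)) (h.tr ω) hG hne h1 hM
    exact (hG.1 (i, σ (4, t)) i u v).1 h2
  · intro hM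
    obtain ⟨k, hku, hadj⟩ := hk
    have hne := scoredom_ne σ hu4 t hku
    have h1 : (W ω).Adj (lf (i, k)) (lf (i, σ (4, t))) := h.clique ω i _ _ hne.symm hadj hE
    have hM' : Mj (W ω) (i, σ (4, t)) i (blk σ u) := (hG.1 (i, σ (4, t)) i v u).1 hM
    exact ⟨k, hku, hadj, L1 (a := (i, k)) (b := (i, σ (4, t))) (h.tr ω) hG hne.symm h1 hM'⟩

private theorem scoredom_disj (σ : Equiv.Perm (I5 m)) (i : Bool) (u v : Fin 5) (huv : u ≠ v)
    (hu4 : u ≠ 4) (t : Fin m) :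
    Disjoint (VS (blk σ u) ∪ {hb i}) (VS (blk σ v) ∪ {lf (i, σ (4, t))}) := by
  rw [Set.disjoint_left]
  rintro x (⟨i₁, k₁, hk₁, rfl⟩ | hx)
  · rintro (⟨i₂, k₂, hk₂, h2⟩ | h2)
    · have h3 : k₁ = k₂ := congrArg Prod.snd (Sum.inl.inj h2)
      subst h3
      exact Finset.disjoint_left.1 (blk_disjoint σ huv) hk₁ hk₂
    · have h3 : k₁ = σ (4, t) := congrArg Prod.snd (Sum.inl.inj h2)
      exact scoredom_ne σ hu4 t hk₁ h3.symm
  · rw [Set.mem_singleton_iff] at hx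
    subst hx
    rintro (⟨i₂, k₂, hk₂, h2⟩ | h2)
    · exact absurd h2 (by simp)
    · exact absurd h2 (by simp)

/-- dominance inequality: outside the bad event, an open hub edge to `(i, σ (4,t))` forces
`hubOwn ↔ leafOwn` (uses (L1) and `clique`) -/
theorem dominance {Ω : Type} [Fintype Ω] {p δ : ℝ} {w : Ω → ℝ} {W : Ω → SimpleGraph (SV (I5 m))}
    (h : SampleLaw p w W) (σ : Equiv.Perm (I5 m)) (i : Bool) (u v : Fin 5) (huv : u ≠ v)
    (hu4 : u ≠ 4) (hv4 : v ≠ 4) (t : Fin m) :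
    p ≤ pr w {ω | W ω ∈ hubOwn σ i u} * pr w {ω | W ω ∈ leafOwn σ i v (σ (4, t))} +
      (1 - pr w {ω | W ω ∈ hubOwn σ i u}) * (1 - pr w {ω | W ω ∈ leafOwn σ i v (σ (4, t))}) +
      hubErr w W σ i u t + pr w {ω | ¬ GoodG δ σ (W ω)} := by
  have hlaw := h.law
  have hdis := scoredom_disj σ i u v huv hu4 t
  have d1 := depOn_hubOwn σ i u
  have d2 := depOn_leafOwn σ i v (σ (4, t))
  have e1 : pr w {ω | W ω ∈ hubOwn σ i u ∧ W ω ∈ leafOwn σ i v (σ (4, t))} =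
      pr w {ω | W ω ∈ hubOwn σ i u} * pr w {ω | W ω ∈ leafOwn σ i v (σ (4, t))} :=
    h.indep _ _ hdis _ _ d1 d2
  have e2 : pr w {ω | W ω ∈ (hubOwn σ i u)ᶜ ∧ W ω ∈ (leafOwn σ i v (σ (4, t)))ᶜ} =
      pr w {ω | W ω ∈ (hubOwn σ i u)ᶜ} * pr w {ω | W ω ∈ (leafOwn σ i v (σ (4, t)))ᶜ} :=
    h.indep _ _ hdis _ _ d1.compl d2.compl
  have e3 : pr w {ω | W ω ∈ (hubOwn σ i u)ᶜ} = 1 - pr w {ω | W ω ∈ hubOwn σ i u} :=
    pr_compl hlaw {ω | W ω ∈ hubOwn σ i u}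
  have e4 : pr w {ω | W ω ∈ (leafOwn σ i v (σ (4, t)))ᶜ} =
      1 - pr w {ω | W ω ∈ leafOwn σ i v (σ (4, t))} :=
    pr_compl hlaw {ω | W ω ∈ leafOwn σ i v (σ (4, t))}
  rw [e3, e4] at e2
  rw [← e1, ← e2]
  refine (h.hubEdge i (σ (4, t))).trans ?_
  unfold hubErr
  refine (pr_mono hlaw (U' := (({ω | W ω ∈ hubOwn σ i u ∧ W ω ∈ leafOwn σ i v (σ (4, t))} ∪
    {ω | W ω ∈ (hubOwn σ i u)ᶜ ∧ W ω ∈ (leafOwn σ i v (σ (4, t)))ᶜ}) ∪
    {ω | (W ω).Adj (hb i) (lf (i, σ (4, t))) ∧ ∀ k ∈ blk σ u, ¬ (W ω).Adj (hb i) (lf (i, k))}) ∪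
    {ω | ¬ GoodG δ σ (W ω)}) ?_).trans ?_
  · intro ω hE
    by_cases hG : GoodG δ σ (W ω)
    · left
      by_cases hk : ∃ k ∈ blk σ u, (W ω).Adj (hb i) (lf (i, k))
      · left
        have hiff := scoredom_iff h σ i u v hu4 t ω hG hE hk
        by_cases h1 : W ω ∈ hubOwn σ i u
        · left
          exact ⟨h1, hiff.1 h1⟩
        · right
          exact ⟨h1, fun h2 => h1 (hiff.2 h2)⟩
      · right
        push Not at hk
        exact ⟨hE, hk⟩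
    · right
      exact hG
  · refine (pr_union_le hlaw _ _).trans (add_le_add ?_ le_rfl)
    refine (pr_union_le hlaw _ _).trans (add_le_add ?_ le_rfl)
    exact pr_union_le hlaw _ _

theorem avg_leafOwn {Ω : Type} [Fintype Ω] {p δ : ℝ} (hm : 1 ≤ m) (hδ : 0 ≤ δ) {w : Ω → ℝ}
    {W : Ω → SimpleGraph (SV (I5 m))}
    (h : SampleLaw p w W) (σ : Equiv.Perm (I5 m)) (i : Bool) (v : Fin 5) :
    (1 - pr w {ω | ¬ GoodG δ σ (W ω)}) * (1 / 2 + 2 * δ) ≤
      avg (fun t : Fin m => pr w {ω | W ω ∈ leafOwn σ i v (σ (4, t))}) := by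
  have hlaw := h.law
  have h1 : avg (fun t : Fin m => pr w {ω | W ω ∈ leafOwn σ i v (σ (4, t))}) =
      ∑ ω, w ω * avg (fun t : Fin m => ind (W ω ∈ leafOwn σ i v (σ (4, t)))) := by
    have h2 : (fun t : Fin m => pr w {ω | W ω ∈ leafOwn σ i v (σ (4, t))}) =
        fun t => ∑ ω, w ω * ind (W ω ∈ leafOwn σ i v (σ (4, t))) := by
      funext t
      exact pr_eq_sum_ind w _
    rw [h2, avg_sum]
    exact Finset.sum_congr rfl fun ω _ => avg_const_mul _ _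
  have h3 : 1 - pr w {ω | ¬ GoodG δ σ (W ω)} = pr w {ω | GoodG δ σ (W ω)} := by
    have h4 := pr_compl hlaw {ω | GoodG δ σ (W ω)}
    have h5 : ({ω | GoodG δ σ (W ω)} : Set Ω)ᶜ = {ω | ¬ GoodG δ σ (W ω)} := rfl
    rw [h5] at h4
    linarith
  rw [h1, h3, pr_eq_sum_ind, Finset.sum_mul]
  refine Finset.sum_le_sum fun ω _ => ?_
  rw [mul_assoc]
  refine mul_le_mul_of_nonneg_left ?_ (hlaw.nonneg ω)
  by_cases hG : GoodG δ σ (W ω)
  · have h6 : ind (ω ∈ {ω | GoodG δ σ (W ω)}) = 1 := if_pos hG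
    rw [h6, one_mul]
    have h7 := hG.2 i 4
    have h8 : ((blk σ 4).filter (fun k => Mj (W ω) (i, k) i (blk σ 4))).card =
        (Finset.univ.filter (fun t : Fin m => W ω ∈ leafOwn σ i v (σ (4, t)))).card := by
      symm
      refine Finset.card_bij (fun t _ => σ (4, t)) ?_ ?_ ?_
      · intro t ht
        rw [Finset.mem_filter] at ht ⊢
        exact ⟨scoredom_mem_blk σ 4 t, (hG.1 (i, σ (4, t)) i v 4).1 ht.2⟩
      · intro t _ t' _ htt
        exact congrArg Prod.snd (σ.injective htt)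
      · intro k hk
        rw [Finset.mem_filter] at hk
        obtain ⟨t, -, rfl⟩ := Finset.mem_image.1 hk.1
        exact ⟨t, Finset.mem_filter.2 ⟨Finset.mem_univ _,
          (hG.1 (i, σ (4, t)) i 4 v).1 hk.2⟩, rfl⟩
    have hm0 : (0 : ℝ) < (m : ℝ) := by exact_mod_cast hm
    unfold avg
    rw [Fintype.card_fin, le_div_iff₀ hm0]
    refine h7.trans ?_
    rw [h8, Finset.card_filter]
    push_cast
    refine Finset.sum_le_sum fun t _ => ?_
    unfold ind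
    split_ifs <;> simp
  · have h6 : ind (ω ∈ {ω | GoodG δ σ (W ω)}) = 0 := if_neg hG
    rw [h6, zero_mul]
    exact avg_nonneg fun t => ind_nonneg _

/-- consequences of `dominance` and `avg_leafOwn` -/
theorem half_lt {Ω : Type} [Fintype Ω] {p η : ℝ} (hp : 1 / 2 < p) (hp1 : p ≤ 1) (hm : 1 ≤ m) {w : Ω → ℝ}
    {W : Ω → SimpleGraph (SV (I5 m))}
    (h : SampleLaw p w W) (σ : Equiv.Perm (I5 m)) (i : Bool) (u v : Fin 5) (huv : u ≠ v)
    (hu4 : u ≠ 4) (hv4 : v ≠ 4) (hη : η ≤ dl p) (hgood : pr w {ω | ¬ GoodG (dl p) σ (W ω)} ≤ η)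
    (herr : avg (fun t : Fin m => hubErr w W σ i u t) ≤ η) :
    1 / 2 ≤ pr w {ω | W ω ∈ hubOwn σ i u} ∧
    ∀ t : Fin m, hubErr w W σ i u t ≤ η → 1 / 2 ≤ pr w {ω | W ω ∈ leafOwn σ i v (σ (4, t))} := by
  have hlaw := h.law
  have : Nonempty (Fin m) := ⟨⟨0, hm⟩⟩
  obtain ⟨x, hx⟩ : ∃ x, x = pr w {ω | W ω ∈ hubOwn σ i u} := ⟨_, rfl⟩
  obtain ⟨y, hy⟩ : ∃ y : Fin m → ℝ, y = fun t => pr w {ω | W ω ∈ leafOwn σ i v (σ (4, t))} :=
    ⟨_, rfl⟩
  obtain ⟨c, hc⟩ : ∃ c, c = pr w {ω | ¬ GoodG (dl p) σ (W ω)} := ⟨_, rfl⟩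
  have hc0 : 0 ≤ c := hc ▸ pr_nonneg hlaw _
  have hcη : c ≤ η := hc ▸ hgood
  have hδ : 16 * dl p = p - 1 / 2 := by unfold dl; ring
  have hδ0 : 0 < dl p := by linarith
  have hδ1 : dl p ≤ 1 / 32 := by linarith
  have hdom : ∀ t : Fin m, p ≤ x * y t + (1 - x) * (1 - y t) + hubErr w W σ i u t + c := by
    intro t
    rw [hx, hy, hc]
    exact dominance h σ i u v huv hu4 hv4 t
  have hav : (1 - c) * (1 / 2 + 2 * dl p) ≤ avg y := by
    rw [hc, hy]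
    exact avg_leafOwn hm hδ0.le h σ i v
  have hsum : p ≤ (2 * x - 1) * avg y + (1 - x) + avg (fun t : Fin m => hubErr w W σ i u t) + c := by
    have h1 : avg (fun t : Fin m => (2 * x - 1) * y t + (((1 - x) + c) + hubErr w W σ i u t)) =
        (2 * x - 1) * avg y + (((1 - x) + c) + avg (fun t : Fin m => hubErr w W σ i u t)) := by
      rw [avg_add, avg_const_mul, avg_add, avg_const]
    have h2 : p ≤ avg (fun t : Fin m =>
        (2 * x - 1) * y t + (((1 - x) + c) + hubErr w W σ i u t)) := by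
      calc p = avg (fun _ : Fin m => p) := (avg_const p).symm
        _ ≤ _ := avg_mono fun t => by
          have := hdom t
          nlinarith
    rw [h1] at h2
    linarith
  have hY : 0 < avg y - 1 / 2 := by nlinarith
  have hX : 0 < x - 1 / 2 := by
    by_contra hcon
    push Not at hcon
    nlinarith [mul_nonneg (neg_nonneg.2 hcon) hY.le]
  refine ⟨by rw [← hx]; linarith, fun t ht => ?_⟩
  have h1 := hdom t
  have h2 : y t = pr w {ω | W ω ∈ leafOwn σ i v (σ (4, t))} := by rw [hy]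
  rw [← h2]
  by_contra hcon
  push Not at hcon
  nlinarith [mul_pos hX (sub_pos.2 hcon)]

end Pool.Agent.OIP
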