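import Pool.Agent.OIP.SCoreSys
import Pool.Agent.OIP.SCoreDom
import Pool.Agent.OIP.ALRobust

/-! OIP: end of the core argument -/

set_option autoImplicit false

open Finset
open scoped Classical

namespace Pool.Agent.OIP

variable {m : ℕ}

theorem sCoreFin_mono {p t t' a a' e b b' e' al al' n1 be be' n2 : ℝ} (ht : t ≤ t')
    (key : ALSys p t a a' e b b' e' al al' n1 be be' n2) :
    ALSys p t' a a' e b b' e' al al' n1 be be' n2 where
  ha := key.ha
  hb := key.hb
  hal := key.hal
  hbe := key.hbe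
  ha' := key.ha'
  hb' := key.hb'
  hal' := key.hal'
  hbe' := key.hbe'
  he := key.he
  he' := key.he'
  hn1 := key.hn1
  hn2 := key.hn2
  s1 := key.s1
  s2 := key.s2
  s3 := key.s3
  s4 := key.s4
  e1 := key.e1
  e2 := key.e2
  I1 := key.I1.trans (by linarith)
  I2 := key.I2.trans (by linarith)
  I3 := key.I3.trans (by linarith)
  I4 := key.I4.trans (by linarith)

/-- conclusion: a sample law with `p > pc` and a good relabelling has a link with non-negligible probability -/
theorem core (p : ℝ) (hp : pc < p) (hp1 : p ≤ 1) : ∃ η : ℝ, 0 < η ∧ ∀ (m : ℕ), 4 ≤ m →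
    ∀ (Ω : Type) [Fintype Ω] (w : Ω → ℝ) (W : Ω → SimpleGraph (SV (I5 m))), SampleLaw p w W →
    ∀ σ : Equiv.Perm (I5 m), pr w {ω | ¬ GoodG (dl p) σ (W ω)} ≤ η →
      avg (fun t : Fin m => hubErr w W σ false 0 t + hubErr w W σ true 1 t) ≤ η →
      η < pr w {ω | W ω ∈ LkE σ 0} := by
  have hhalf : 1 / 2 < p := by
    refine lt_of_lt_of_le ?_ hp.le
    unfold pc
    have h3 : Real.sqrt 3 < 7 / 4 := by
      rw [Real.sqrt_lt' (by norm_num)]
      norm_num
    linarith
  obtain ⟨t0, ht0, hAL⟩ := AL_robust p hp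
  have hdl : 0 < dl p := by
    unfold dl
    linarith
  refine ⟨min (dl p) (t0 / 5), lt_min hdl (by positivity), ?_⟩
  intro m hm Ω _ w W h σ hgood havg
  set η : ℝ := min (dl p) (t0 / 5) with hη
  have hη1 : η ≤ dl p := min_le_left _ _
  have hη2 : 5 * η ≤ t0 := by
    have : η ≤ t0 / 5 := min_le_right _ _
    linarith
  by_contra hlk
  rw [not_lt] at hlk
  have hlaw : IsLaw w := h.toStarLaw.law
  have hne : ∀ (i : Bool) (u : Fin 5) (t : Fin m), 0 ≤ hubErr w W σ i u t := fun i u t =>
    pr_nonneg hlaw _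
  have hm1 : 1 ≤ m := by omega
  have : Nonempty (Fin m) := ⟨⟨0, by omega⟩⟩
  have hA0 : avg (fun t : Fin m => hubErr w W σ false 0 t) ≤ η := by
    refine le_trans (avg_mono fun t => ?_) havg
    have := hne true 1 t
    linarith
  have hA1 : avg (fun t : Fin m => hubErr w W σ true 1 t) ≤ η := by
    refine le_trans (avg_mono fun t => ?_) havg
    have := hne false 0 t
    linarith
  obtain ⟨t, ht⟩ := exists_le_avg (fun t : Fin m => hubErr w W σ false 0 t + hubErr w W σ true 1 t)
  have ht' : hubErr w W σ false 0 t + hubErr w W σ true 1 t ≤ η := ht.trans havg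
  have he0 : hubErr w W σ false 0 t ≤ η := by
    have := hne true 1 t
    linarith
  have he1 : hubErr w W σ true 1 t ≤ η := by
    have := hne false 0 t
    linarith
  have hF := half_lt hhalf hp1 hm1 h σ false 0 2 (by decide) (by decide) (by decide) hη1 hgood hA0
  have hT := half_lt hhalf hp1 hm1 h σ true 1 3 (by decide) (by decide) (by decide) hη1 hgood hA1
  have key := core_sys hdl.le hm h σ t hgood hlk he0 he1 (hF.2 t he0) (hT.2 t he1) hF.1 hT.1
  exact hAL _ _ _ _ _ _ _ _ _ _ _ _ (sCoreFin_mono hη2 key)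

end Pool.Agent.OIP
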