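import Pool.Agent.OIP.SCoreDefs

/-! OIP: see the header of SCoreDefs.lean -/

set_option autoImplicit false

open Finset
open scoped Classical

namespace Pool.Agent.OIP

/-- monotonicity of majorities, general index set -/
theorem scoreL_Mj_of_imp {κ : Type} {G : SimpleGraph (SV κ)} {a b : Bool × κ} {i : Bool}
    {S : Finset κ} (h : ∀ k ∈ S, k ≠ b.2 → G.Adj (lf b) (lf (i, k)) →
      k ≠ a.2 ∧ G.Adj (lf a) (lf (i, k))) (hb : Mj G b i S) : Mj G a i S := by
  unfold Mj cnt at hb ⊢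
  refine lt_of_lt_of_le hb (Nat.mul_le_mul_left 2 (Finset.card_le_card ?_))
  intro k hk
  rw [Finset.mem_filter] at hk ⊢
  exact ⟨hk.1, h k hk.1 hk.2.1 hk.2.2⟩

/-- two majorities of the same set have a common element -/
theorem scoreL_Mj_common {κ : Type} {G : SimpleGraph (SV κ)} {a b : Bool × κ} {i : Bool}
    {S : Finset κ} (ha : Mj G a i S) (hb : Mj G b i S) :
    ∃ k ∈ S, (k ≠ a.2 ∧ G.Adj (lf a) (lf (i, k))) ∧ (k ≠ b.2 ∧ G.Adj (lf b) (lf (i, k))) := by
  by_contra hcon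
  push Not at hcon
  unfold Mj cnt at ha hb
  have hdis : Disjoint (S.filter (fun k => k ≠ a.2 ∧ G.Adj (lf a) (lf (i, k))))
      (S.filter (fun k => k ≠ b.2 ∧ G.Adj (lf b) (lf (i, k)))) := by
    rw [Finset.disjoint_left]
    intro k hk hk'
    rw [Finset.mem_filter] at hk hk'
    exact hcon k hk.1 hk.2 hk'.2.1 hk'.2.2
  have h2 : ((S.filter (fun k => k ≠ a.2 ∧ G.Adj (lf a) (lf (i, k)))) ∪
      (S.filter (fun k => k ≠ b.2 ∧ G.Adj (lf b) (lf (i, k))))).card ≤ S.card :=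
    Finset.card_le_card (Finset.union_subset (Finset.filter_subset _ _) (Finset.filter_subset _ _))
  rw [Finset.card_union_of_disjoint hdis] at h2
  omega

variable {m : ℕ}

/-- an index lies in at most one block -/
theorem scoreL_blk_unique (σ : Equiv.Perm (I5 m)) {x : I5 m} {u v : Fin 5} (hu : x ∈ blk σ u)
    (hv : x ∈ blk σ v) : u = v := by
  unfold blk at hu hv
  rw [Finset.mem_image] at hu hv
  obtain ⟨s, _, hs⟩ := hu
  obtain ⟨t, _, ht⟩ := hv
  have h := σ.injective (hs.trans ht.symm)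
  exact congrArg Prod.fst h

/-- two indices miss some block -/
theorem scoreL_exists_blk (σ : Equiv.Perm (I5 m)) (x y : I5 m) :
    ∃ v : Fin 5, x ∉ blk σ v ∧ y ∉ blk σ v := by
  by_contra hcon
  push Not at hcon
  have h : ∀ v : Fin 5, x ∈ blk σ v ∨ y ∈ blk σ v := fun v => by
    by_cases hx : x ∈ blk σ v
    · exact Or.inl hx
    · exact Or.inr (hcon v hx)
  have key : ∀ u v w : Fin 5, u ≠ v → u ≠ w → v ≠ w → False := by
    intro u v w huv huw hvw
    rcases h u with h1 | h1 <;> rcases h v with h2 | h2 <;> rcases h w with h3 | h3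
    · exact huv (scoreL_blk_unique σ h1 h2)
    · exact huv (scoreL_blk_unique σ h1 h2)
    · exact huw (scoreL_blk_unique σ h1 h3)
    · exact hvw (scoreL_blk_unique σ h2 h3)
    · exact hvw (scoreL_blk_unique σ h2 h3)
    · exact huw (scoreL_blk_unique σ h1 h3)
    · exact huv (scoreL_blk_unique σ h1 h2)
    · exact huv (scoreL_blk_unique σ h1 h2)
  exact key 0 1 2 (by decide) (by decide) (by decide)

theorem L1 {δ : ℝ} {σ : Equiv.Perm (I5 m)} {G : SimpleGraph (SV (I5 m))} (hT : Tr G) (hG : GoodG δ σ G)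
    {a b : Bool × I5 m} (hab : a.2 ≠ b.2) (h : G.Adj (lf a) (lf b)) {i : Bool} {u : Fin 5}
    (hb : Mj G b i (blk σ u)) : Mj G a i (blk σ u) := by
  obtain ⟨v, hav, hbv⟩ := scoreL_exists_blk σ a.2 b.2
  rw [hG.1 a i u v]
  rw [hG.1 b i u v] at hb
  refine scoreL_Mj_of_imp (fun k hkS hkb hadj => ?_) hb
  have hka : k ≠ a.2 := fun e => hav (e ▸ hkS)
  exact ⟨hka, hT.1 a b (i, k) hab hkb.symm hka.symm h hadj⟩

theorem L2 {S : Finset (I5 m)} {G : SimpleGraph (SV (I5 m))} (hT : Tr G)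
    {a b : Bool × I5 m} (hab : a.2 ≠ b.2) {i : Bool} (ha : Mj G a i S) (hb : Mj G b i S) :
    G.Adj (lf a) (lf b) := by
  obtain ⟨k, _, ⟨hka, hadja⟩, ⟨hkb, hadjb⟩⟩ := scoreL_Mj_common ha hb
  exact hT.1 a (i, k) b hka.symm hkb hab hadja hadjb.symm

theorem L3 {δ : ℝ} {σ : Equiv.Perm (I5 m)} {G : SimpleGraph (SV (I5 m))} (hδ : 0 ≤ δ) (hm : 4 ≤ m) (hT : Tr G)
    (hG : GoodG δ σ G) (a : Bool × I5 m) (u : Fin 5) (h0 : Mj G a false (blk σ u)) (h1 : Mj G a true (blk σ u))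
    (v : Fin 5) : G ∈ LkE σ v := by
  rw [hG.1 a false u v] at h0
  rw [hG.1 a true u v] at h1
  have hcard := hG.2 false v
  have hm' : (4 : ℝ) ≤ (m : ℝ) := by exact_mod_cast hm
  have h2 : (2 : ℝ) ≤ (((blk σ v).filter (fun k => Mj G (false, k) false (blk σ v))).card : ℝ) := by
    have : (2 : ℝ) ≤ (1 / 2 + 2 * δ) * (m : ℝ) := by nlinarith
    linarith
  have h3 : 1 < ((blk σ v).filter (fun k => Mj G (false, k) false (blk σ v))).card := by
    have : (2 : ℕ) ≤ ((blk σ v).filter (fun k => Mj G (false, k) false (blk σ v))).card := by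
      exact_mod_cast h2
    omega
  obtain ⟨k, hk, hka⟩ := Finset.exists_mem_ne h3 a.2
  rw [Finset.mem_filter] at hk
  have hadj : G.Adj (lf (false, k)) (lf a) := L2 hT (a := (false, k)) (b := a) hka hk.2 h0
  exact ⟨k, hk.1, hk.2, L1 hT hG (a := (false, k)) (b := a) hka hadj h1⟩

end Pool.Agent.OIP
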