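import Pool.Agent.OIP.SGoodDefs

/-!
# OIP: the core inequalities for a sample law

Fixed relabelling `σ`.  Blocks: `0` for the hub of layer `false`, `1` for the hub of layer `true`, `2` and `3`
for the leaves of index `j = σ (4, t)` in layer `false` resp. `true`.

Own majority class of layer `i`: the leaves `a` with `Mj G a i (blk σ u)` (by `GoodG` this does not depend on `u`).
Event `LkE σ u`: the two majority classes are joined.  In `core` we assume that this has tiny probability.

Basic facts for `G` with `Tr G`, `GoodG δ σ G`: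
* (L1) `Adj a b`, `a.2 ≠ b.2`, `Mj G b i (blk σ u)` imply `Mj G a i (blk σ u)` (pass to a block not containing `a.2`);
* (L2) `Mj G a i (blk σ u)`, `Mj G b i (blk σ u)`, `a.2 ≠ b.2` imply `Adj a b` (common neighbour);
* (L3) if moreover `¬ LkE σ 0` then no leaf has both `Mj G a false (blk σ u)` and `Mj G a true (blk σ u)`.
-/

set_option autoImplicit false

open Finset
open scoped Classical

namespace Pool.Agent.OIP

noncomputable section

variable {m : ℕ}

/-- the two majority classes are joined (seen inside block `u`) -/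
def LkE (σ : Equiv.Perm (I5 m)) (u : Fin 5) : Set (SimpleGraph (SV (I5 m))) :=
  {G | ∃ k ∈ blk σ u, Mj G (false, k) false (blk σ u) ∧ Mj G (false, k) true (blk σ u)}

/-- the hub `i` is joined to a leaf of block `u` in the majority class of layer `i` -/
def hubOwn (σ : Equiv.Perm (I5 m)) (i : Bool) (u : Fin 5) : Set (SimpleGraph (SV (I5 m))) :=
  {G | ∃ k ∈ blk σ u, G.Adj (hb i) (lf (i, k)) ∧ Mj G (i, k) i (blk σ u)}

/-- the hub `i` is joined to a leaf of block `u` in the majority class of the other layer (and not `hubOwn`) -/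
def hubOth (σ : Equiv.Perm (I5 m)) (i : Bool) (u : Fin 5) : Set (SimpleGraph (SV (I5 m))) :=
  {G | ∃ k ∈ blk σ u, G.Adj (hb i) (lf (i, k)) ∧ Mj G (i, k) (!i) (blk σ u)} \ hubOwn σ i u

/-- the hub `i` is joined to a leaf of block `u`, but neither `hubOwn` nor `hubOth` -/
def hubNon (σ : Equiv.Perm (I5 m)) (i : Bool) (u : Fin 5) : Set (SimpleGraph (SV (I5 m))) :=
  {G | ∃ k ∈ blk σ u, G.Adj (hb i) (lf (i, k))} \ (hubOwn σ i u ∪ hubOth σ i u)

def leafOwn (σ : Equiv.Perm (I5 m)) (i : Bool) (u : Fin 5) (j : I5 m) : Set (SimpleGraph (SV (I5 m))) :=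
  {G | Mj G (i, j) i (blk σ u)}

def leafOth (σ : Equiv.Perm (I5 m)) (i : Bool) (u : Fin 5) (j : I5 m) : Set (SimpleGraph (SV (I5 m))) :=
  {G | Mj G (i, j) (!i) (blk σ u)} \ leafOwn σ i u j

def leafNon (σ : Equiv.Perm (I5 m)) (i : Bool) (u : Fin 5) (j : I5 m) : Set (SimpleGraph (SV (I5 m))) :=
  (leafOwn σ i u j ∪ leafOth σ i u j)ᶜ

/-- all leaves with index in `S` -/
def VS (S : Finset (I5 m)) : Set (SV (I5 m)) := {v | ∃ i : Bool, ∃ k ∈ S, v = lf (i, k)}

end

end Pool.Agent.OIP
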