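import Pool.Agent.OIP.BDefs
import Pool.Agent.OIP.Samp

/-! OIP: from the sample to the whole star -/

set_option autoImplicit false

open Finset
open scoped Classical

namespace Pool.Agent.OIP

/-- the equivalence relation `connected inside the leaves` on one layer -/
theorem bsamp_equiv {n : ℕ} (G : SimpleGraph (SV (Fin n))) (i : Bool) :
    Equivalence (fun j l : Fin n => Cn G (Set.range Sum.inl) (lf (i, j)) (lf (i, l))) where
  refl _ := Cn.refl G _ _
  symm h := h.symm
  trans h h' := h.trans h'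

/-- an adjacent pair of leaves of the derived graph is connected inside the leaves -/
theorem bsamp_cn {κ : Type} {n : ℕ} {σ : Equiv.Perm (Fin n)} {e : κ → Fin n} {P : Finset (Fin n)}
    {G : SimpleGraph (SV (Fin n))} {a b : Bool × κ} (hab : a.2 ≠ b.2)
    (h : (der (xB σ e) (leafR σ P) G).Adj (lf a) (lf b)) :
    Cn G (Set.range Sum.inl) (lf (a.1, σ (e a.2))) (lf (b.1, σ (e b.2))) := by
  rw [der_adj_leaf hab] at h
  refine Cn.mono h ?_
  intro v hv
  rcases hv with ⟨i, q, _, rfl⟩ | hv
  · exact ⟨_, rfl⟩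
  · rcases hv with rfl | hv
    · exact ⟨_, rfl⟩
    · rw [Set.mem_singleton_iff] at hv
      subst hv
      exact ⟨_, rfl⟩

theorem bsamp_cnt_pos {κ : Type} {H : SimpleGraph (SV κ)} {a : Bool × κ} {i : Bool} {S : Finset κ}
    (h : 0 < cnt H a i S) : ∃ k ∈ S, k ≠ a.2 ∧ H.Adj (lf a) (lf (i, k)) := by
  unfold cnt at h
  obtain ⟨k, hk⟩ := Finset.card_pos.1 h
  rw [Finset.mem_filter] at hk
  exact ⟨k, hk.1, hk.2⟩

theorem bsamp_cnt_le {κ : Type} {n : ℕ} {H : SimpleGraph (SV κ)} {a : Bool × κ} {i : Bool} {S : Finset κ}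
    (f : κ → Fin n) (hf : Function.Injective f) (T : Finset (Fin n))
    (h : ∀ k ∈ S, k ≠ a.2 → H.Adj (lf a) (lf (i, k)) → f k ∈ T) : cnt H a i S ≤ T.card := by
  unfold cnt
  refine Finset.card_le_card_of_injOn f ?_ hf.injOn
  intro k hk
  rw [Finset.mem_coe, Finset.mem_filter] at hk
  exact h k hk.1 hk.2.1 hk.2.2

/-- pointwise statement: if the sample is representative for both layers then a majority in the sample is a
majority in the star -/
theorem bsamp_det {κ : Type} [Fintype κ] [DecidableEq κ] {n : ℕ} (e : κ → Fin n) (he : Function.Injective e)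
    (P : Finset (Fin n)) (G : SimpleGraph (SV (Fin n))) (δ : ℝ) (hδ : 0 < δ) (σ : Equiv.Perm (Fin n))
    (hM : MajS δ (der (xB σ e) (leafR σ P) G))
    (hgood : ∀ i : Bool, ¬ ∃ j : Fin n, δ / 2 * ((Finset.univ.image e).card : ℝ) <
      |(((Finset.univ.image e).filter
          (fun s => Cn G (Set.range Sum.inl) (lf (i, j)) (lf (i, σ s)))).card : ℝ) -
        ((Finset.univ.image e).card : ℝ) *
          ((Finset.univ.filter (fun k => Cn G (Set.range Sum.inl) (lf (i, j)) (lf (i, k)))).card : ℝ) /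
            (Fintype.card (Fin n) : ℝ)|) :
    MajW (δ / 2) G := by
  obtain ⟨a, ha⟩ := hM
  have hcard : (Finset.univ.image e).card = Fintype.card κ := by
    rw [Finset.card_image_of_injective _ he, Finset.card_univ]
  have hm : (0 : ℝ) < (Fintype.card κ : ℝ) := by
    exact_mod_cast Fintype.card_pos_iff.2 ⟨a.2⟩
  have hn : (0 : ℝ) < (Fintype.card (Fin n) : ℝ) := by
    exact_mod_cast Fintype.card_pos_iff.2 ⟨e a.2⟩
  refine ⟨(a.1, σ (e a.2)), fun i => ?_⟩
  have hai := ha i
  have hpos : 0 < (cnt (der (xB σ e) (leafR σ P) G) a i Finset.univ : ℝ) := by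
    refine lt_of_lt_of_le ?_ hai
    positivity
  have hpos' : 0 < cnt (der (xB σ e) (leafR σ P) G) a i Finset.univ := by exact_mod_cast hpos
  obtain ⟨k0, _, hk0, hk0'⟩ := bsamp_cnt_pos hpos'
  have hcn0 : Cn G (Set.range Sum.inl) (lf (a.1, σ (e a.2))) (lf (i, σ (e k0))) :=
    bsamp_cn (a := a) (b := (i, k0)) (Ne.symm hk0) hk0'
  have hg := hgood i
  push Not at hg
  have hg0 := hg (σ (e k0))
  rw [hcard] at hg0
  have hset : (Finset.univ.filter
      (fun k => Cn G (Set.range Sum.inl) (lf (i, σ (e k0))) (lf (i, k)))) =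
      (Finset.univ.filter
        (fun k : Fin n => Cn G (Set.range Sum.inl) (lf (a.1, σ (e a.2))) (lf (i, k)))) := by
    refine Finset.filter_congr fun k _ => ?_
    exact ⟨fun h => hcn0.trans h, fun h => hcn0.symm.trans h⟩
  rw [hset] at hg0
  have hle : cnt (der (xB σ e) (leafR σ P) G) a i Finset.univ ≤
      ((Finset.univ.image e).filter
        (fun s => Cn G (Set.range Sum.inl) (lf (i, σ (e k0))) (lf (i, σ s)))).card := by
    refine bsamp_cnt_le e he _ ?_
    intro k _ hk hk'
    rw [Finset.mem_filter]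
    refine ⟨Finset.mem_image_of_mem _ (Finset.mem_univ _), ?_⟩
    exact hcn0.symm.trans (bsamp_cn (a := a) (b := (i, k)) (Ne.symm hk) hk')
  have hle' : (cnt (der (xB σ e) (leafR σ P) G) a i Finset.univ : ℝ) ≤
      (((Finset.univ.image e).filter
        (fun s => Cn G (Set.range Sum.inl) (lf (i, σ (e k0))) (lf (i, σ s)))).card : ℝ) := by
    exact_mod_cast hle
  have h1 := (abs_le.1 hg0).2
  set c : ℝ := ((Finset.univ.filter
      (fun k : Fin n => Cn G (Set.range Sum.inl) (lf (a.1, σ (e a.2))) (lf (i, k)))).card : ℝ) with hc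
  set m : ℝ := (Fintype.card κ : ℝ) with hmdef
  set N : ℝ := (Fintype.card (Fin n) : ℝ) with hNdef
  have h2 : (1 / 2 + δ / 2) * m ≤ m * c / N := by linarith
  have h3 : (1 / 2 + δ / 2) * m * N ≤ m * c := (le_div_iff₀ hn).1 h2
  have h4 : m * ((1 / 2 + δ / 2) * N) ≤ m * c := by linarith
  exact le_of_mul_le_mul_left h4 hm

/-- A component with density at least `1/2 + δ` in the sample has density at least `1/2 + δ/2` in the whole
star, except with small probability: apply `sampling` (on `Fin n`, `S = univ.image e`) to the equivalence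
relations `Cn G leaves (i, k) (i, l)` of the two layers `i`. -/
theorem majW_of_sample {κ : Type} [Fintype κ] [DecidableEq κ] {n : ℕ} (e : κ → Fin n) (he : Function.Injective e)
    (P : Finset (Fin n)) (G : SimpleGraph (SV (Fin n))) (δ : ℝ) (hδ : 0 < δ) :
    avg (fun σ : Equiv.Perm (Fin n) => ind (MajS δ (der (xB σ e) (leafR σ P) G) ∧ ¬ MajW (δ / 2) G)) ≤
      8 / (δ ^ 2 * (Fintype.card κ : ℝ)) := by
  have hcard : (Finset.univ.image e).card = Fintype.card κ := by
    rw [Finset.card_image_of_injective _ he, Finset.card_univ]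
  set B : Bool → Equiv.Perm (Fin n) → Prop := fun i σ =>
    ∃ j : Fin n, δ / 2 * ((Finset.univ.image e).card : ℝ) <
      |(((Finset.univ.image e).filter
          (fun s => Cn G (Set.range Sum.inl) (lf (i, j)) (lf (i, σ s)))).card : ℝ) -
        ((Finset.univ.image e).card : ℝ) *
          ((Finset.univ.filter (fun k => Cn G (Set.range Sum.inl) (lf (i, j)) (lf (i, k)))).card : ℝ) /
            (Fintype.card (Fin n) : ℝ)| with hB
  have hs : ∀ i : Bool, avg (fun σ : Equiv.Perm (Fin n) => ind (B i σ)) ≤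
      1 / ((δ / 2) ^ 2 * (Fintype.card κ : ℝ)) := by
    intro i
    have h := sampling (fun j l : Fin n => Cn G (Set.range Sum.inl) (lf (i, j)) (lf (i, l)))
      (bsamp_equiv G i) (Finset.univ.image e) (δ / 2) (half_pos hδ)
    rw [hcard] at h
    simp only [hB, hcard]
    exact h
  have hpt : ∀ σ : Equiv.Perm (Fin n),
      ind (MajS δ (der (xB σ e) (leafR σ P) G) ∧ ¬ MajW (δ / 2) G) ≤ ind (B false σ) + ind (B true σ) := by
    intro σ
    by_cases h : MajS δ (der (xB σ e) (leafR σ P) G) ∧ ¬ MajW (δ / 2) G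
    · have hex : ∃ i : Bool, B i σ := by
        by_contra hcon
        push Not at hcon
        exact h.2 (bsamp_det e he P G δ hδ σ h.1 hcon)
      obtain ⟨i, hi⟩ := hex
      have h1 : ind (B i σ) = 1 := by
        unfold ind
        rw [if_pos hi]
      have h0 := ind_nonneg (B false σ)
      have h0' := ind_nonneg (B true σ)
      have hle := ind_le_one (MajS δ (der (xB σ e) (leafR σ P) G) ∧ ¬ MajW (δ / 2) G)
      cases i
      · linarith
      · linarith
    · have h1 : ind (MajS δ (der (xB σ e) (leafR σ P) G) ∧ ¬ MajW (δ / 2) G) = 0 := by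
        unfold ind
        rw [if_neg h]
      rw [h1]
      exact add_nonneg (ind_nonneg _) (ind_nonneg _)
  calc avg (fun σ : Equiv.Perm (Fin n) => ind (MajS δ (der (xB σ e) (leafR σ P) G) ∧ ¬ MajW (δ / 2) G))
      ≤ avg (fun σ : Equiv.Perm (Fin n) => ind (B false σ) + ind (B true σ)) := avg_mono hpt
    _ = avg (fun σ : Equiv.Perm (Fin n) => ind (B false σ)) +
          avg (fun σ : Equiv.Perm (Fin n) => ind (B true σ)) := avg_add _ _
    _ ≤ 1 / ((δ / 2) ^ 2 * (Fintype.card κ : ℝ)) + 1 / ((δ / 2) ^ 2 * (Fintype.card κ : ℝ)) :=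
        add_le_add (hs false) (hs true)
    _ = 8 / (δ ^ 2 * (Fintype.card κ : ℝ)) := by
        rcases eq_or_ne ((Fintype.card κ : ℝ)) 0 with h0 | h0
        · rw [h0]
          simp
        · have hδ' : δ ≠ 0 := hδ.ne'
          field_simp
          ring

end Pool.Agent.OIP
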