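import Pool.Agent.OIP.Avg

/-! OIP: definitions for the good event of a sample law -/

set_option autoImplicit false

open Finset
open scoped Classical

namespace Pool.Agent.OIP

noncomputable section

def dl (p : ℝ) : ℝ := (p - 1 / 2) / 16

abbrev I5 (m : ℕ) := Fin 5 × Fin m

def blk {m : ℕ} (σ : Equiv.Perm (I5 m)) (u : Fin 5) : Finset (I5 m) :=
  Finset.univ.image (fun t : Fin m => σ (u, t))

/-- good event for the relabelling `σ` -/
def GoodG {m : ℕ} (δ : ℝ) (σ : Equiv.Perm (I5 m)) (G : SimpleGraph (SV (I5 m))) : Prop :=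
  (∀ (a : Bool × I5 m) (i : Bool) (u v : Fin 5), Mj G a i (blk σ u) ↔ Mj G a i (blk σ v)) ∧
  (∀ (i : Bool) (u : Fin 5), (1 / 2 + 2 * δ) * (m : ℝ) ≤
    (((blk σ u).filter (fun k => Mj G (i, k) i (blk σ u))).card : ℝ))

theorem blk_card {m : ℕ} (σ : Equiv.Perm (I5 m)) (u : Fin 5) : (blk σ u).card = m := by
  unfold blk
  rw [Finset.card_image_of_injective]
  · simp
  · intro s t hst
    have h := σ.injective hst
    exact (Prod.mk.inj h).2

theorem blk_disjoint {m : ℕ} (σ : Equiv.Perm (I5 m)) {u v : Fin 5} (h : u ≠ v) :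
    Disjoint (blk σ u) (blk σ v) := by
  rw [Finset.disjoint_left]
  intro x hx hy
  unfold blk at hx hy
  rw [Finset.mem_image] at hx hy
  obtain ⟨s, _, hs⟩ := hx
  obtain ⟨t, _, ht⟩ := hy
  exact h (Prod.mk.inj (σ.injective (hs.trans ht.symm))).1

/-- the relation of lying in the same class, on the indices of layer `i` -/
def Rl {κ : Type} (G : SimpleGraph (SV κ)) (i : Bool) (j k : κ) : Prop :=
  j = k ∨ G.Adj (lf (i, j)) (lf (i, k))

theorem Rl_equivalence {κ : Type} {G : SimpleGraph (SV κ)} (hG : Tr G) (i : Bool) :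
    Equivalence (Rl G i) := by
  refine ⟨fun x => Or.inl rfl, ?_, ?_⟩
  · rintro x y (h | h)
    · exact Or.inl h.symm
    · exact Or.inr h.symm
  · rintro x y z (h | h) (h' | h')
    · exact Or.inl (h.trans h')
    · subst h
      exact Or.inr h'
    · subst h'
      exact Or.inr h
    · by_cases hxz : x = z
      · exact Or.inl hxz
      · right
        have hxy : x ≠ y := by
          rintro rfl
          exact h.ne rfl
        have hyz : y ≠ z := by
          rintro rfl
          exact h'.ne rfl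
        exact hG.1 (i, x) (i, y) (i, z) hxy hyz hxz h h'

/-- deviations between blocks -/
def Dv {m : ℕ} (δ : ℝ) (σ : Equiv.Perm (I5 m)) (G : SimpleGraph (SV (I5 m))) : Prop :=
  ∃ (i : Bool) (j : I5 m) (u v : Fin 5),
    (((blk σ v).filter (fun k => Rl G i j k)).card : ℝ) + 2 * δ * m <
      (((blk σ u).filter (fun k => Rl G i j k)).card : ℝ)

/-- the hub `i` is joined to the leaf with index `σ (4, t)` but to no leaf with index in `blk σ u` -/
def hubErr {m : ℕ} {Ω : Type} [Fintype Ω] (w : Ω → ℝ) (W : Ω → SimpleGraph (SV (I5 m)))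
    (σ : Equiv.Perm (I5 m)) (i : Bool) (u : Fin 5) (t : Fin m) : ℝ :=
  pr w {ω | (W ω).Adj (hb i) (lf (i, σ (4, t))) ∧ ∀ k ∈ blk σ u, ¬ (W ω).Adj (hb i) (lf (i, k))}

end

end Pool.Agent.OIP
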