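import Pool.Agent.OIP.DFHDefs

/-! OIP: the DFH model is 1-independent with edge probabilities at least `4 - 2√3`

Take `μ0` the product measure (`MeasureTheory.Measure.infinitePi`) on `(Fin n → ℤ) → Bool` with
`P(σ u = true) = (3 - √3)/2` if `rn u ≡ 1 mod 3`, `√3 - 1` if `rn u ≡ 2 mod 3`, and `1` otherwise.  `bondC` is
measurable, the bond `e` depends only on the states of its two ends. -/

set_option autoImplicit false

open MeasureTheory ProbabilityTheory

namespace Pool.Agent.OIP

/-- probability that a vertex with norm `r` has state `true` -/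
noncomputable def dfhprob_q (r : ℕ) : ℝ :=
  if r % 3 = 1 then (3 - Real.sqrt 3) / 2 else if r % 3 = 2 then Real.sqrt 3 - 1 else 1

/-- Bernoulli measure -/
noncomputable def dfhprob_bern (q : ℝ) : Measure Bool :=
  ENNReal.ofReal q • Measure.dirac true + ENNReal.ofReal (1 - q) • Measure.dirac false

theorem dfhprob_sqrt_lo : (1 : ℝ) ≤ Real.sqrt 3 := by
  rw [show (1 : ℝ) = Real.sqrt 1 by simp]
  exact Real.sqrt_le_sqrt (by norm_num)

theorem dfhprob_sqrt_hi : Real.sqrt 3 ≤ 2 := by
  rw [Real.sqrt_le_left (by norm_num)]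
  norm_num

theorem dfhprob_sqrt_sq : Real.sqrt 3 * Real.sqrt 3 = 3 := Real.mul_self_sqrt (by norm_num)

theorem dfhprob_q_nonneg (r : ℕ) : 0 ≤ dfhprob_q r := by
  have h1 := dfhprob_sqrt_lo
  have h2 := dfhprob_sqrt_hi
  unfold dfhprob_q
  split_ifs <;> linarith

theorem dfhprob_q_le_one (r : ℕ) : dfhprob_q r ≤ 1 := by
  have h1 := dfhprob_sqrt_lo
  have h2 := dfhprob_sqrt_hi
  unfold dfhprob_q
  split_ifs <;> linarith

theorem dfhprob_bern_true {q : ℝ} : dfhprob_bern q {true} = ENNReal.ofReal q := by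
  simp [dfhprob_bern]

theorem dfhprob_bern_false {q : ℝ} : dfhprob_bern q {false} = ENNReal.ofReal (1 - q) := by
  simp [dfhprob_bern]

theorem dfhprob_bern_prob {q : ℝ} (h0 : 0 ≤ q) (h1 : q ≤ 1) : IsProbabilityMeasure (dfhprob_bern q) := by
  constructor
  simp only [dfhprob_bern, Measure.coe_add, Measure.coe_smul, Pi.add_apply, Pi.smul_apply, measure_univ,
    smul_eq_mul, mul_one]
  rw [← ENNReal.ofReal_add h0 (by linarith)]
  simp

instance dfhprob_inst (r : ℕ) : IsProbabilityMeasure (dfhprob_bern (dfhprob_q r)) :=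
  dfhprob_bern_prob (dfhprob_q_nonneg r) (dfhprob_q_le_one r)

/-- the measure on vertex states -/
noncomputable def dfhprob_mu (n : ℕ) : Measure ((Fin n → ℤ) → Bool) :=
  Measure.infinitePi (fun u : Fin n → ℤ => dfhprob_bern (dfhprob_q (rn u)))

instance dfhprob_inst2 (n : ℕ) : IsProbabilityMeasure (dfhprob_mu n) := by
  unfold dfhprob_mu
  infer_instance

theorem dfhprob_single {n : ℕ} (u : Fin n → ℤ) :
    dfhprob_mu n {σ | σ u = true} = ENNReal.ofReal (dfhprob_q (rn u)) := by
  have h := Measure.infinitePi_map_eval (fun u : Fin n → ℤ => dfhprob_bern (dfhprob_q (rn u))) u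
  have h2 : (dfhprob_mu n).map (fun σ => σ u) {true} = ENNReal.ofReal (dfhprob_q (rn u)) := by
    unfold dfhprob_mu
    rw [← dfhprob_bern_true, ← h]
  rw [Measure.map_apply (by fun_prop) (by simp)] at h2
  rw [← h2]
  congr 1

theorem dfhprob_pair {n : ℕ} (u v : Fin n → ℤ) (huv : u ≠ v) (g : Bool → Bool → Bool) :
    dfhprob_mu n {σ | g (σ u) (σ v) = true} =
      (if g true true = true then ENNReal.ofReal (dfhprob_q (rn u) * dfhprob_q (rn v)) else 0) +
      (if g true false = true then ENNReal.ofReal (dfhprob_q (rn u) * (1 - dfhprob_q (rn v))) else 0) +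
      (if g false true = true then ENNReal.ofReal ((1 - dfhprob_q (rn u)) * dfhprob_q (rn v)) else 0) +
      (if g false false = true then ENNReal.ofReal ((1 - dfhprob_q (rn u)) * (1 - dfhprob_q (rn v))) else 0) := by
  have h := Measure.infinitePi_map_eval_prod (P := fun u : Fin n → ℤ => dfhprob_bern (dfhprob_q (rn u))) huv
  have h2 : dfhprob_mu n {σ | g (σ u) (σ v) = true} =
      ((dfhprob_bern (dfhprob_q (rn u))).prod (dfhprob_bern (dfhprob_q (rn v)))) {ab | g ab.1 ab.2 = true} := by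
    rw [← h, Measure.map_apply (by fun_prop) (Set.toFinite _).measurableSet]
    rfl
  rw [h2]
  have hs : ({ab : Bool × Bool | g ab.1 ab.2 = true}) =
      ((Finset.univ.filter (fun ab : Bool × Bool => g ab.1 ab.2 = true) : Finset (Bool × Bool)) : Set (Bool × Bool)) := by
    ext ab
    simp
  rw [hs, ← sum_measure_singleton, Finset.sum_filter]
  have hp : ∀ a b : Bool, ((dfhprob_bern (dfhprob_q (rn u))).prod (dfhprob_bern (dfhprob_q (rn v)))) {(a, b)} =
      dfhprob_bern (dfhprob_q (rn u)) {a} * dfhprob_bern (dfhprob_q (rn v)) {b} := by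
    intro a b
    rw [← Set.singleton_prod_singleton, Measure.prod_prod]
  have e1 := dfhprob_q_nonneg (rn u)
  have e2 := dfhprob_q_le_one (rn u)
  rw [Fintype.sum_prod_type]
  simp only [Fintype.sum_bool, hp, dfhprob_bern_true, dfhprob_bern_false]
  rw [ENNReal.ofReal_mul e1, ENNReal.ofReal_mul e1, ENNReal.ofReal_mul (by linarith : 0 ≤ 1 - dfhprob_q (rn u)),
    ENNReal.ofReal_mul (by linarith : 0 ≤ 1 - dfhprob_q (rn u))]
  ring

theorem dfhprob_rn_le {n : ℕ} (u v : Fin n → ℤ) (h : ∀ i, (v i).natAbs ≤ (u i).natAbs + 1) :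
    rn v ≤ rn u + 1 := by
  unfold rn
  refine Finset.sup_le (fun i _ => (h i).trans ?_)
  have := Finset.le_sup (f := fun i => (u i).natAbs) (Finset.mem_univ i)
  omega

theorem dfhprob_rn_edge {n : ℕ} (u : Fin n → ℤ) (i : Fin n) :
    rn u ≤ rn (u + Pi.single i 1) + 1 ∧ rn (u + Pi.single i 1) ≤ rn u + 1 := by
  constructor
  · refine dfhprob_rn_le _ _ (fun j => ?_)
    by_cases hj : j = i
    · subst hj
      simp
      omega
    · simp [hj]
  · refine dfhprob_rn_le _ _ (fun j => ?_)
    by_cases hj : j = i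
    · subst hj
      simp
      omega
    · simp [hj]

theorem dfhprob_ne {n : ℕ} (u : Fin n → ℤ) (i : Fin n) : u ≠ u + Pi.single i 1 := by
  intro h
  have := congrFun h i
  simp at this

theorem dfhprob_half {n : ℕ} (u v : Fin n → ℤ) (huv : u ≠ v) (h1 : rn u ≤ rn v) (h2 : rn v ≤ rn u + 1) :
    ENNReal.ofReal pc ≤ dfhprob_mu n {σ | half σ u v = true} := by
  have s1 := dfhprob_sqrt_lo
  have s2 := dfhprob_sqrt_hi
  have s3 := dfhprob_sqrt_sq
  have hr : rn u = rn v ∨ rn v = rn u + 1 := by omega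
  have hm : rn v % 3 = 0 ∨ rn v % 3 = 1 ∨ rn v % 3 = 2 := by omega
  rcases hm with hm | hm | hm <;> rcases hr with hr | hr
  · have : {σ : (Fin n → ℤ) → Bool | half σ u v = true} = Set.univ := by
      ext σ
      simp [half, hm, hr]
    rw [this, measure_univ]
    rw [ENNReal.ofReal_le_one]
    unfold pc
    nlinarith
  · have hne : rn u ≠ rn v := by omega
    have hu : rn u % 3 = 2 := by omega
    have : {σ : (Fin n → ℤ) → Bool | half σ u v = true} = {σ | σ u = true} := by
      ext σ
      simp [half, hm, hne]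
    rw [this, dfhprob_single]
    refine ENNReal.ofReal_le_ofReal ?_
    simp only [dfhprob_q, hu, pc]
    norm_num
    nlinarith
  · have : {σ : (Fin n → ℤ) → Bool | half σ u v = true} =
        {σ | (fun a b => (a == b)) (σ u) (σ v) = true} := by
      ext σ
      simp [half, hm, hr]
    rw [this, dfhprob_pair u v huv (fun a b => (a == b))]
    have hu : rn u % 3 = 1 := by omega
    have q1 : dfhprob_q (rn u) = (3 - Real.sqrt 3) / 2 := by simp [dfhprob_q, hu]
    have q2 : dfhprob_q (rn v) = (3 - Real.sqrt 3) / 2 := by simp [dfhprob_q, hm]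
    simp only [q1, q2]
    norm_num
    rw [← ENNReal.ofReal_add (by nlinarith) (by nlinarith)]
    refine ENNReal.ofReal_le_ofReal ?_
    unfold pc
    nlinarith
  · have hne : rn u ≠ rn v := by omega
    have : {σ : (Fin n → ℤ) → Bool | half σ u v = true} = {σ | σ v = true} := by
      ext σ
      simp [half, hm, hne]
    rw [this, dfhprob_single]
    refine ENNReal.ofReal_le_ofReal ?_
    simp only [dfhprob_q, hm, pc]
    norm_num
    nlinarith
  · have : {σ : (Fin n → ℤ) → Bool | half σ u v = true} =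
        {σ | (fun a b => (a && b)) (σ u) (σ v) = true} := by
      ext σ
      simp [half, hm, hr]
    rw [this, dfhprob_pair u v huv (fun a b => (a && b))]
    have hu : rn u % 3 = 2 := by omega
    have q1 : dfhprob_q (rn u) = Real.sqrt 3 - 1 := by simp [dfhprob_q, hu]
    have q2 : dfhprob_q (rn v) = Real.sqrt 3 - 1 := by simp [dfhprob_q, hm]
    simp only [q1, q2]
    norm_num
    rw [← ENNReal.ofReal_mul (by linarith)]
    refine ENNReal.ofReal_le_ofReal ?_
    unfold pc
    nlinarith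
  · have hne : rn u ≠ rn v := by omega
    have : {σ : (Fin n → ℤ) → Bool | half σ u v = true} =
        {σ | (fun a b => (!b || !a)) (σ u) (σ v) = true} := by
      ext σ
      simp [half, hm, hne]
    rw [this, dfhprob_pair u v huv (fun a b => (!b || !a))]
    have hu : rn u % 3 = 1 := by omega
    have q1 : dfhprob_q (rn u) = (3 - Real.sqrt 3) / 2 := by simp [dfhprob_q, hu]
    have q2 : dfhprob_q (rn v) = Real.sqrt 3 - 1 := by simp [dfhprob_q, hm]
    simp only [q1, q2]
    norm_num
    rw [← ENNReal.ofReal_add (by nlinarith) (by nlinarith), ← ENNReal.ofReal_add (by nlinarith) (by nlinarith)]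
    refine ENNReal.ofReal_le_ofReal ?_
    unfold pc
    nlinarith

theorem dfhprob_bd {n : ℕ} (u : Fin n → ℤ) (i : Fin n) :
    ENNReal.ofReal pc ≤ dfhprob_mu n {σ | bdS σ u (u + Pi.single i 1) = true} := by
  obtain ⟨h1, h2⟩ := dfhprob_rn_edge u i
  by_cases h : rn u ≤ rn (u + Pi.single i 1)
  · have : {σ : (Fin n → ℤ) → Bool | bdS σ u (u + Pi.single i 1) = true} =
        {σ | half σ u (u + Pi.single i 1) = true} := by
      ext σ
      simp [bdS, h]
    rw [this]
    exact dfhprob_half _ _ (dfhprob_ne u i) h h2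
  · have : {σ : (Fin n → ℤ) → Bool | bdS σ u (u + Pi.single i 1) = true} =
        {σ | half σ (u + Pi.single i 1) u = true} := by
      ext σ
      simp [bdS, h]
    rw [this]
    exact dfhprob_half _ _ (dfhprob_ne u i).symm (by omega) h1

/-- the state of a bond is a function of the states of the ends -/
theorem dfhprob_fun {n : ℕ} (u v : Fin n → ℤ) :
    ∃ g : Bool → Bool → Bool, ∀ σ : (Fin n → ℤ) → Bool, bdS σ u v = g (σ u) (σ v) := by
  by_cases h : rn u ≤ rn v
  · refine ⟨fun a b => if rn v % 3 = 0 then (if rn u = rn v then true else a)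
      else if rn v % 3 = 1 then (if rn u = rn v then (a == b) else b)
      else (if rn u = rn v then (a && b) else (!b || !a)), fun σ => ?_⟩
    simp [bdS, h, half]
  · refine ⟨fun b a => if rn u % 3 = 0 then (if rn v = rn u then true else a)
      else if rn u % 3 = 1 then (if rn v = rn u then (a == b) else b)
      else (if rn v = rn u then (a && b) else (!b || !a)), fun σ => ?_⟩
    simp [bdS, h, half]

theorem dfhprob_meas (n : ℕ) : Measurable (fun σ : (Fin n → ℤ) → Bool => bondC σ) := by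
  rw [measurable_pi_iff]
  intro e
  obtain ⟨g, hg⟩ := dfhprob_fun e.1 (e.1 + Pi.single e.2 1)
  have : (fun σ : (Fin n → ℤ) → Bool => bondC σ e) =
      (fun p : Bool × Bool => g p.1 p.2) ∘ (fun σ => (σ e.1, σ (e.1 + Pi.single e.2 1))) := by
    funext σ
    exact hg σ
  rw [this]
  exact (measurable_of_finite _).comp (by fun_prop)

theorem dfhprob_comap_le {n : ℕ} (e : (Fin n → ℤ) × Fin n) :
    MeasurableSpace.comap (fun σ : (Fin n → ℤ) → Bool => bondC σ e) (⊤ : MeasurableSpace Bool) ≤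
      ⨆ u ∈ ({e.1, e.1 + Pi.single e.2 1} : Set (Fin n → ℤ)),
        MeasurableSpace.comap (fun σ : (Fin n → ℤ) → Bool => σ u) (⊤ : MeasurableSpace Bool) := by
  set m := ⨆ u ∈ ({e.1, e.1 + Pi.single e.2 1} : Set (Fin n → ℤ)),
        MeasurableSpace.comap (fun σ : (Fin n → ℤ) → Bool => σ u) (⊤ : MeasurableSpace Bool) with hm
  obtain ⟨g, hg⟩ := dfhprob_fun e.1 (e.1 + Pi.single e.2 1)
  have hle : ∀ u ∈ ({e.1, e.1 + Pi.single e.2 1} : Set (Fin n → ℤ)),
      MeasurableSpace.comap (fun σ : (Fin n → ℤ) → Bool => σ u) (⊤ : MeasurableSpace Bool) ≤ m := by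
    intro u hu
    exact le_iSup₂_of_le u hu le_rfl
  have h1 : Measurable[m] (fun σ : (Fin n → ℤ) → Bool => σ e.1) :=
    measurable_iff_comap_le.2 (hle e.1 (by simp))
  have h2 : Measurable[m] (fun σ : (Fin n → ℤ) → Bool => σ (e.1 + Pi.single e.2 1)) :=
    measurable_iff_comap_le.2 (hle _ (by simp))
  have h3 : Measurable[m] (fun σ : (Fin n → ℤ) → Bool => bondC σ e) := by
    have : (fun σ : (Fin n → ℤ) → Bool => bondC σ e) =
        (fun p : Bool × Bool => g p.1 p.2) ∘ (fun σ => (σ e.1, σ (e.1 + Pi.single e.2 1))) := by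
      funext σ
      exact hg σ
    rw [this]
    exact (measurable_of_finite _).comp (h1.prodMk h2)
  exact measurable_iff_comap_le.1 h3

theorem dfhprob_indep {n : ℕ} (A B : Set ((Fin n → ℤ) × Fin n))
    (hAB : ∀ a ∈ A, ∀ b ∈ B,
      Disjoint ({a.1, a.1 + Pi.single a.2 1} : Set (Fin n → ℤ))
        ({b.1, b.1 + Pi.single b.2 1} : Set (Fin n → ℤ))) :
    Indep (⨆ a ∈ A, MeasurableSpace.comap (fun ω : (Fin n → ℤ) × Fin n → Bool => ω a)
              (⊤ : MeasurableSpace Bool))
          (⨆ b ∈ B, MeasurableSpace.comap (fun ω : (Fin n → ℤ) × Fin n → Bool => ω b)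
              (⊤ : MeasurableSpace Bool)) ((dfhprob_mu n).map (fun σ => bondC σ)) := by
  have hmeas := dfhprob_meas n
  -- the independence of the vertex states
  have hind : iIndepFun (fun (u : Fin n → ℤ) (σ : (Fin n → ℤ) → Bool) => σ u) (dfhprob_mu n) :=
    iIndepFun_infinitePi (X := fun (u : Fin n → ℤ) (b : Bool) => b) (fun u => measurable_id)
  have hind2 := (iIndepFun_iff_iIndep _ _ _).1 hind
  set VA : Set (Fin n → ℤ) := ⋃ a ∈ A, {a.1, a.1 + Pi.single a.2 1} with hVA
  set VB : Set (Fin n → ℤ) := ⋃ b ∈ B, {b.1, b.1 + Pi.single b.2 1} with hVB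
  have hdis : Disjoint VA VB := by
    rw [Set.disjoint_left]
    intro x hx hx2
    simp only [hVA, hVB, Set.mem_iUnion] at hx hx2
    obtain ⟨a, ha, hxa⟩ := hx
    obtain ⟨b, hb, hxb⟩ := hx2
    exact Set.disjoint_left.1 (hAB a ha b hb) hxa hxb
  have hi := indep_iSup_of_disjoint (fun u => (measurable_pi_apply u).comap_le) hind2 hdis
  have key : ∀ (C : Set ((Fin n → ℤ) × Fin n)) (t : Set ((Fin n → ℤ) × Fin n → Bool)),
      MeasurableSet[⨆ a ∈ C, MeasurableSpace.comap (fun ω : (Fin n → ℤ) × Fin n → Bool => ω a)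
              (⊤ : MeasurableSpace Bool)] t →
      MeasurableSet[⨆ u ∈ (⋃ a ∈ C, {a.1, a.1 + Pi.single a.2 1} : Set (Fin n → ℤ)),
        MeasurableSpace.comap (fun σ : (Fin n → ℤ) → Bool => σ u) (⊤ : MeasurableSpace Bool)]
        ((fun σ : (Fin n → ℤ) → Bool => bondC σ) ⁻¹' t) := by
    intro C t ht
    have hle : MeasurableSpace.comap (fun σ : (Fin n → ℤ) → Bool => bondC σ)
        (⨆ a ∈ C, MeasurableSpace.comap (fun ω : (Fin n → ℤ) × Fin n → Bool => ω a)
              (⊤ : MeasurableSpace Bool)) ≤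
        ⨆ u ∈ (⋃ a ∈ C, {a.1, a.1 + Pi.single a.2 1} : Set (Fin n → ℤ)),
        MeasurableSpace.comap (fun σ : (Fin n → ℤ) → Bool => σ u) (⊤ : MeasurableSpace Bool) := by
      rw [MeasurableSpace.comap_iSup]
      refine iSup_le (fun a => ?_)
      rw [MeasurableSpace.comap_iSup]
      refine iSup_le (fun ha => ?_)
      rw [MeasurableSpace.comap_comp]
      refine (dfhprob_comap_le a).trans ?_
      refine iSup₂_le (fun u hu => ?_)
      exact le_iSup₂_of_le u (Set.mem_iUnion₂.2 ⟨a, ha, hu⟩) le_rfl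
    exact hle _ ⟨t, ht, rfl⟩
  have hle0 : ∀ C : Set ((Fin n → ℤ) × Fin n),
      (⨆ a ∈ C, MeasurableSpace.comap (fun ω : (Fin n → ℤ) × Fin n → Bool => ω a)
              (⊤ : MeasurableSpace Bool)) ≤ MeasurableSpace.pi := by
    intro C
    refine iSup₂_le (fun a _ => (measurable_pi_apply a).comap_le)
  rw [Indep_iff]
  intro t1 t2 ht1 ht2
  rw [Measure.map_apply hmeas ((hle0 A t1 ht1).inter (hle0 B t2 ht2)),
    Measure.map_apply hmeas (hle0 A t1 ht1), Measure.map_apply hmeas (hle0 B t2 ht2), Set.preimage_inter]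
  exact (Indep_iff _ _ _).1 hi _ _ (key A t1 ht1) (key B t2 ht2)

theorem dfh_prob (n : ℕ) : ∃ μ0 : Measure ((Fin n → ℤ) → Bool), IsProbabilityMeasure μ0 ∧
    Measurable (fun σ : (Fin n → ℤ) → Bool => bondC σ) ∧ LatModel n pc (μ0.map (fun σ => bondC σ)) := by
  refine ⟨dfhprob_mu n, inferInstance, dfhprob_meas n, ?_⟩
  refine ⟨Measure.isProbabilityMeasure_map (dfhprob_meas n).aemeasurable, dfhprob_indep, ?_⟩
  intro e
  rw [Measure.map_apply (dfhprob_meas n)]
  · exact dfhprob_bd e.1 e.2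
  · have hme : Measurable (fun ω : (Fin n → ℤ) × Fin n → Bool => ω e) := measurable_pi_apply e
    exact hme (measurableSet_singleton true)

end Pool.Agent.OIP
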