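import Pool.Agent.OIP.LatDefs

/-! OIP: measurability of the event that all clusters are finite

`Reachable x y` is the countable union over finite sequences of vertices; an infinite subset of a countable
set is described by countably many conditions: the cluster of `x` is finite iff there is `N` such that all its
elements have all coordinates bounded by `N`. -/

set_option autoImplicit false

open MeasureTheory ProbabilityTheory

namespace Pool.Agent.OIP

theorem latmeas_adj {n : ℕ} (u v : Fin n → ℤ) :
    MeasurableSet {ω : (Fin n → ℤ) × Fin n → Bool | (latG ω).Adj u v} := by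
  have hc : ∀ e : (Fin n → ℤ) × Fin n,
      MeasurableSet ((fun ω : (Fin n → ℤ) × Fin n → Bool => ω e) ⁻¹' {true}) :=
    fun e => (measurable_pi_apply e) (MeasurableSet.singleton true)
  have key : {ω : (Fin n → ℤ) × Fin n → Bool | (latG ω).Adj u v} =
      {ω | u ≠ v} ∩ ((⋃ i : Fin n, ({ω | v = u + Pi.single i 1} ∩ {ω | ω (u, i) = true})) ∪
        ⋃ i : Fin n, ({ω | u = v + Pi.single i 1} ∩ {ω | ω (v, i) = true})) := by
    ext ω
    simp only [latG, SimpleGraph.fromRel_adj, Set.mem_ofPred_eq, Set.mem_inter_iff, Set.mem_union,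
      Set.mem_iUnion]
  rw [key]
  exact (MeasurableSet.const _).inter
    ((MeasurableSet.iUnion fun i => (MeasurableSet.const _).inter (hc _)).union
      (MeasurableSet.iUnion fun i => (MeasurableSet.const _).inter (hc _)))

/-- reachable in exactly `k` steps -/
def latmeasIn {n : ℕ} (G : SimpleGraph (Fin n → ℤ)) : ℕ → (Fin n → ℤ) → (Fin n → ℤ) → Prop
  | 0, x, y => x = y
  | k + 1, x, y => ∃ z, G.Adj x z ∧ latmeasIn G k z y

theorem latmeas_reach {n : ℕ} (G : SimpleGraph (Fin n → ℤ)) (x y : Fin n → ℤ) :
    G.Reachable x y ↔ ∃ k, latmeasIn G k x y := by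
  constructor
  · rintro ⟨w⟩
    induction w with
    | nil => exact ⟨0, rfl⟩
    | cons h _ ih =>
      obtain ⟨k, hk⟩ := ih
      exact ⟨k + 1, _, h, hk⟩
  · rintro ⟨k, hk⟩
    induction k generalizing x with
    | zero => 
      have : x = y := hk
      rw [this]
    | succ k ih =>
      obtain ⟨z, hz, hk⟩ := hk
      exact hz.reachable.trans (ih z hk)

theorem latmeas_in {n : ℕ} (k : ℕ) (x y : Fin n → ℤ) :
    MeasurableSet {ω : (Fin n → ℤ) × Fin n → Bool | latmeasIn (latG ω) k x y} := by
  induction k generalizing x with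
  | zero => exact MeasurableSet.const _
  | succ k ih =>
    have key : {ω : (Fin n → ℤ) × Fin n → Bool | latmeasIn (latG ω) (k + 1) x y} =
        ⋃ z, ({ω | (latG ω).Adj x z} ∩ {ω | latmeasIn (latG ω) k z y}) := by
      ext ω
      simp only [latmeasIn, Set.mem_ofPred_eq, Set.mem_iUnion, Set.mem_inter_iff]
    rw [key]
    exact MeasurableSet.iUnion fun z => (latmeas_adj x z).inter (ih z)

theorem measurableSet_reachable {n : ℕ} (x y : Fin n → ℤ) :
    MeasurableSet {ω : (Fin n → ℤ) × Fin n → Bool | (latG ω).Reachable x y} := by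
  have key : {ω : (Fin n → ℤ) × Fin n → Bool | (latG ω).Reachable x y} =
      ⋃ k, {ω | latmeasIn (latG ω) k x y} := by
    ext ω
    simp only [latmeas_reach, Set.mem_ofPred_eq, Set.mem_iUnion]
  rw [key]
  exact MeasurableSet.iUnion fun k => latmeas_in k x y

theorem measurableSet_allFinite (n : ℕ) :
    MeasurableSet {ω : (Fin n → ℤ) × Fin n → Bool | ∀ x : Fin n → ℤ,
      {y : Fin n → ℤ | (latG ω).Reachable x y}.Finite} := by
  have key : {ω : (Fin n → ℤ) × Fin n → Bool | ∀ x : Fin n → ℤ,
      {y : Fin n → ℤ | (latG ω).Reachable x y}.Finite} =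
      ⋂ x : Fin n → ℤ, ⋃ s : Finset (Fin n → ℤ), ⋂ y : Fin n → ℤ,
        ({ω | (latG ω).Reachable x y}ᶜ ∪ {ω | y ∈ s}) := by
    ext ω
    simp only [Set.mem_ofPred_eq, Set.mem_iInter, Set.mem_iUnion, Set.mem_union, Set.mem_compl_iff]
    refine forall_congr' fun x => ?_
    constructor
    · intro hf
      refine ⟨hf.toFinset, fun y => ?_⟩
      by_cases hy : (latG ω).Reachable x y
      · right
        simpa using hy
      · left
        exact hy
    · rintro ⟨s, hs⟩
      refine s.finite_toSet.subset fun y hy => ?_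
      rcases hs y with h | h
      · exact absurd hy h
      · exact h
  rw [key]
  exact MeasurableSet.iInter fun x => MeasurableSet.iUnion fun s => MeasurableSet.iInter fun y =>
    (measurableSet_reachable x y).compl.union (MeasurableSet.const _)

end Pool.Agent.OIP
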