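import Pool.Agent.OIP.DFHDet
import Pool.Agent.OIP.DFHProb
import Pool.Agent.OIP.LatMeas

/-! OIP: the lower bound of Day, Falgas-Ravry and Hancock -/

set_option autoImplicit false

open MeasureTheory ProbabilityTheory

namespace Pool.Agent.OIP

theorem dfh_lower (n : ℕ) : ∃ μ : Measure ((Fin n → ℤ) × Fin n → Bool), LatModel n pc μ ∧
    ∀ᵐ ω ∂μ, ∀ x : Fin n → ℤ, {y : Fin n → ℤ | (latG ω).Reachable x y}.Finite := by
  obtain ⟨μ0, _, hm, hl⟩ := dfh_prob n
  refine ⟨μ0.map (fun σ => bondC σ), hl, ?_⟩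
  rw [ae_map_iff hm.aemeasurable (measurableSet_allFinite n)]
  exact Filter.Eventually.of_forall fun σ x => dfh_det σ x

end Pool.Agent.OIP
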