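import Pool.Agent.OIP.InfLinkDefs
import Pool.Agent.OIP.InfMarg

/-! OIP: links -/

set_option autoImplicit false

open MeasureTheory ProbabilityTheory
open scoped Classical

namespace Pool.Agent.OIP

private theorem inflink_swap {N n : ℕ} {G : SimpleGraph ((ℤ × ℤ) × Finset (Fin N))} {z z' : ℤ × ℤ}
    {ι ι' : Fin n → Fin N} (h : linkS G z z' ι ι') : linkS G z' z ι' ι := by
  unfold linkS at *
  exact h.symm.mono fun v hv => hv.symm

theorem linkS_symm {N n : ℕ} (G : SimpleGraph ((ℤ × ℤ) × Finset (Fin N))) (z z' : ℤ × ℤ)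
    (ι ι' : Fin n → Fin N) : linkS G z z' ι ι' ↔ linkS G z' z ι' ι :=
  ⟨inflink_swap, inflink_swap⟩

private theorem inflink_reach {V : Type} {G : SimpleGraph V} {R : Set V} {a b : V}
    (h : Cn G R a b) : G.Reachable a b := by
  rw [SimpleGraph.reachable_iff_reflTransGen]
  unfold Cn at h
  induction h with
  | refl => exact Relation.ReflTransGen.refl
  | tail _ hbc ih => exact Relation.ReflTransGen.tail ih hbc.1

/-- a connected component of links gives a connected component of the graph -/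
theorem infinite_of_links {N n : ℕ} (G : SimpleGraph ((ℤ × ℤ) × Finset (Fin N))) (ι : ℤ × ℤ → Fin n → Fin N)
    (z : ℤ × ℤ) (h : {z' : ℤ × ℤ | Relation.ReflTransGen
      (fun a b => Nb a b ∧ linkS G a b (ι a) (ι b)) z z'}.Infinite) :
    ∃ v, {u | G.Reachable v u}.Infinite := by
  have key : ∀ z', Relation.TransGen (fun a b => Nb a b ∧ linkS G a b (ι a) (ι b)) z z' →
      ML G Set.univ (fun k => (z, lvs ∅ (ι z) k)) (fun k => (z', lvs ∅ (ι z') k)) := by
    intro z' hz
    induction hz with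
    | single hab => exact ML.mono hab.2 (Set.subset_univ _)
    | tail _ hbc ih => exact ML.mono (ML.trans ih hbc.2) (Set.subset_univ _)
  set S : Set (ℤ × ℤ) := {z' : ℤ × ℤ | Relation.ReflTransGen
      (fun a b => Nb a b ∧ linkS G a b (ι a) (ι b)) z z'} \ {z} with hS
  have hSinf : S.Infinite := h.sdiff (Set.finite_singleton z)
  have hSml : ∀ z' ∈ S, ML G Set.univ (fun k => (z, lvs ∅ (ι z) k))
      (fun k => (z', lvs ∅ (ι z') k)) := by
    rintro z' ⟨h1, h2⟩
    rcases Relation.reflTransGen_iff_eq_or_transGen.1 h1 with h3 | h3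
    · exact absurd h3 h2
    · exact key z' h3
  obtain ⟨z1, hz1⟩ := hSinf.nonempty
  obtain ⟨u0, hu0, -⟩ := hSml z1 hz1
  refine ⟨u0, ?_⟩
  have hsub : S ⊆ Prod.fst '' {u | G.Reachable u0 u} := by
    intro z' hz'
    obtain ⟨u1, h1, h2⟩ := hSml z' hz'
    have hne : ((Finset.univ.filter (fun k : Fin n => Cn G Set.univ (z, lvs ∅ (ι z) k) u0)) ∩
        (Finset.univ.filter (fun k : Fin n => Cn G Set.univ (z, lvs ∅ (ι z) k) u1))).Nonempty := by
      refine Finset.inter_nonempty_of_card_lt_card_add_card (Finset.subset_univ _)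
        (Finset.subset_univ _) ?_
      rw [Finset.card_univ, Fintype.card_fin]
      have e1 := hu0
      have e2 := h1
      simp only at e1 e2
      omega
    obtain ⟨k, hk⟩ := hne
    rw [Finset.mem_inter, Finset.mem_filter, Finset.mem_filter] at hk
    have hne2 : (Finset.univ.filter (fun k : Fin n => Cn G Set.univ (z', lvs ∅ (ι z') k) u1)).Nonempty := by
      rw [← Finset.card_pos]
      have e2 := h2
      simp only at e2
      omega
    obtain ⟨k', hk'⟩ := hne2
    rw [Finset.mem_filter] at hk'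
    refine ⟨(z', lvs ∅ (ι z') k'), ?_, rfl⟩
    exact ((inflink_reach hk.1.2).symm.trans (inflink_reach hk.2.2)).trans (inflink_reach hk'.2).symm
  intro hfin
  exact hSinf ((hfin.image Prod.fst).subset hsub)

/-- paths with `m` steps -/
private def inflinkStep {V : Type} (r : V → V → Prop) : ℕ → V → V → Prop
  | 0, a, b => a = b
  | m + 1, a, b => ∃ c, inflinkStep r m a c ∧ r c b

private theorem inflink_step_iff {V : Type} (r : V → V → Prop) (a b : V) :
    Relation.ReflTransGen r a b ↔ ∃ m, inflinkStep r m a b := by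
  constructor
  · intro h
    induction h with
    | refl => exact ⟨0, rfl⟩
    | tail _ hbc ih =>
      obtain ⟨m, hm⟩ := ih
      exact ⟨m + 1, _, hm, hbc⟩
  · rintro ⟨m, hm⟩
    induction m generalizing b with
    | zero =>
      have h1 : a = b := hm
      rw [h1]
    | succ m ih =>
      obtain ⟨c, hc, hcb⟩ := hm
      exact (ih c hc).tail hcb

private theorem inflink_meas_cn {Ω V : Type} [Countable V] (W : Ω → SimpleGraph V) (A : Set V)
    (a b : V) : MeasurableSet[sigV W A] {ω | Cn (W ω) A a b} := by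
  let _ : MeasurableSpace Ω := sigV W A
  have h1 : ∀ (m : ℕ) (b : V), MeasurableSet {ω | inflinkStep
      (fun u v => (W ω).Adj u v ∧ u ∈ A ∧ v ∈ A) m a b} := by
    intro m
    induction m with
    | zero =>
      intro b
      exact MeasurableSet.const (a = b)
    | succ m ih =>
      intro b
      have h2 : {ω | inflinkStep (fun u v => (W ω).Adj u v ∧ u ∈ A ∧ v ∈ A) (m + 1) a b} =
          ⋃ c : V, ({ω | inflinkStep (fun u v => (W ω).Adj u v ∧ u ∈ A ∧ v ∈ A) m a c} ∩
            {ω | (W ω).Adj c b ∧ c ∈ A ∧ b ∈ A}) := by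
        ext ω
        rw [Set.mem_iUnion]
        rfl
      rw [h2]
      refine MeasurableSet.iUnion fun c => (ih c).inter ?_
      by_cases h3 : c ∈ A ∧ b ∈ A
      · have h4 : {ω | (W ω).Adj c b ∧ c ∈ A ∧ b ∈ A} = {ω | (W ω).Adj c b} := by
          ext ω
          exact ⟨fun h => h.1, fun h => ⟨h, h3⟩⟩
        rw [h4]
        exact MeasurableSpace.measurableSet_generateFrom ⟨c, h3.1, b, h3.2, rfl⟩
      · have h4 : {ω | (W ω).Adj c b ∧ c ∈ A ∧ b ∈ A} = ∅ := by
          ext ω
          exact ⟨fun h => h3 h.2, fun h => h.elim⟩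
        rw [h4]
        exact MeasurableSet.empty
  have h5 : {ω | Cn (W ω) A a b} = ⋃ m : ℕ, {ω | inflinkStep
      (fun u v => (W ω).Adj u v ∧ u ∈ A ∧ v ∈ A) m a b} := by
    ext ω
    rw [Set.mem_iUnion]
    exact inflink_step_iff _ a b
  rw [h5]
  exact MeasurableSet.iUnion fun m => h1 m b

private theorem inflink_maj_iff {n : ℕ} (P : Fin n → Prop) :
    n < 2 * (Finset.univ.filter (fun k : Fin n => P k)).card ↔
      ∃ K : Finset (Fin n), n < 2 * K.card ∧ ∀ k ∈ K, P k := by
  constructor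
  · intro h
    exact ⟨_, h, fun k hk => (Finset.mem_filter.1 hk).2⟩
  · rintro ⟨K, hK, hP⟩
    have h1 : K.card ≤ (Finset.univ.filter (fun k : Fin n => P k)).card :=
      Finset.card_le_card fun k hk => Finset.mem_filter.2 ⟨Finset.mem_univ k, hP k hk⟩
    omega

/-- the link event is measurable for the sigma-algebra of the two fibres -/
theorem measurableSet_linkS {Ω : Type} {N n : ℕ} (W : Ω → SimpleGraph ((ℤ × ℤ) × Finset (Fin N)))
    (z z' : ℤ × ℤ) (ι ι' : Fin n → Fin N) :
    MeasurableSet[sigV W {v | v.1 = z ∨ v.1 = z'}] {ω | linkS (W ω) z z' ι ι'} := by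
  let _ : MeasurableSpace Ω := sigV W {v | v.1 = z ∨ v.1 = z'}
  have h1 : ∀ (L : Fin n → (ℤ × ℤ) × Finset (Fin N)) (u : (ℤ × ℤ) × Finset (Fin N)),
      MeasurableSet {ω | n < 2 * (Finset.univ.filter
        (fun k : Fin n => Cn (W ω) {v | v.1 = z ∨ v.1 = z'} (L k) u)).card} := by
    intro L u
    have h2 : {ω | n < 2 * (Finset.univ.filter
        (fun k : Fin n => Cn (W ω) {v | v.1 = z ∨ v.1 = z'} (L k) u)).card} =
        ⋃ K : Finset (Fin n), ({_ω | n < 2 * K.card} ∩
          ⋂ k ∈ K, {ω | Cn (W ω) {v | v.1 = z ∨ v.1 = z'} (L k) u}) := by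
      ext ω
      rw [Set.mem_iUnion]
      refine (inflink_maj_iff _).trans ?_
      refine exists_congr fun K => ?_
      rw [Set.mem_inter_iff, Set.mem_iInter₂]
      rfl
    rw [h2]
    refine MeasurableSet.iUnion fun K => (MeasurableSet.const _).inter ?_
    exact MeasurableSet.biInter (Set.to_countable _) fun k _ => inflink_meas_cn W _ _ _
  have h3 : {ω | linkS (W ω) z z' ι ι'} = ⋃ u : (ℤ × ℤ) × Finset (Fin N),
      ({ω | n < 2 * (Finset.univ.filter
        (fun k : Fin n => Cn (W ω) {v | v.1 = z ∨ v.1 = z'} (z, lvs ∅ ι k) u)).card} ∩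
      {ω | n < 2 * (Finset.univ.filter
        (fun k : Fin n => Cn (W ω) {v | v.1 = z ∨ v.1 = z'} (z', lvs ∅ ι' k) u)).card}) := by
    ext ω
    rw [Set.mem_iUnion]
    rfl
  rw [h3]
  exact MeasurableSet.iUnion fun u => (h1 _ u).inter (h1 _ u)

end Pool.Agent.OIP
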