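import Pool.Agent.OIP.PercDefs

/-! OIP: probability estimate for the renormalized bonds

`cube2 k z` is the set of level-`0` sites below the level-`k` site `z`.  The level-`k` bond event is measurable
for `sigL L (cube2 k z ∪ cube2 k z')` (induction on `k`).  A rectangle contains at most `20` ordered bonds, so
`closed_{k+1} ≤ 400 closed_k²` for upper bounds, as vertex-disjoint bonds are independent. -/

set_option autoImplicit false

open MeasureTheory ProbabilityTheory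
open scoped Classical

namespace Pool.Agent.OIP

/-- the sigma-algebra generated by the events `L z z'` with `z, z' ∈ A` -/
@[reducible] def sigL {Ω : Type} (L : ℤ × ℤ → ℤ × ℤ → Set Ω) (A : Set (ℤ × ℤ)) : MeasurableSpace Ω :=
  MeasurableSpace.generateFrom {U | ∃ z ∈ A, ∃ z' ∈ A, U = L z z'}

def cube2 : ℕ → ℤ × ℤ → Set (ℤ × ℤ)
  | 0, z => {z}
  | k + 1, z => {a | ∃ y ∈ blkZ z, a ∈ cube2 k y}

theorem cube2_disjoint (k : ℕ) {z z' : ℤ × ℤ} (h : z ≠ z') : Disjoint (cube2 k z) (cube2 k z') := by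
  induction k generalizing z z' with
  | zero =>
    rw [Set.disjoint_left]
    intro a ha ha'
    exact h ((Set.mem_singleton_iff.1 ha).symm.trans (Set.mem_singleton_iff.1 ha'))
  | succ k ih =>
    rw [Set.disjoint_left]
    rintro a ⟨y, hy, hay⟩ ⟨y', hy', hay'⟩
    have hne : y ≠ y' := by
      rintro rfl
      apply h
      obtain ⟨h1, h2⟩ := hy
      obtain ⟨h3, h4⟩ := hy'
      exact Prod.ext (by omega) (by omega)
    exact Set.disjoint_left.1 (ih hne) hay hay'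

theorem percprob_sigL_mono {Ω : Type} (L : ℤ × ℤ → ℤ × ℤ → Set Ω) {A B : Set (ℤ × ℤ)} (h : A ⊆ B) :
    sigL L A ≤ sigL L B := by
  refine MeasurableSpace.generateFrom_mono ?_
  rintro U ⟨z, hz, z', hz', rfl⟩
  exact ⟨z, h hz, z', h hz', rfl⟩

theorem percprob_cube2_sub (k : ℕ) {z z' a : ℤ × ℤ} (ha : a ∈ rect z z') :
    cube2 k a ⊆ cube2 (k + 1) z ∪ cube2 (k + 1) z' := by
  intro x hx
  rcases ha with ha | ha
  · exact Or.inl ⟨a, ha, hx⟩
  · exact Or.inr ⟨a, ha, hx⟩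

theorem measurable_lev {Ω : Type} (L : ℤ × ℤ → ℤ × ℤ → Set Ω) (k : ℕ) (z z' : ℤ × ℤ) :
    MeasurableSet[sigL L (cube2 k z ∪ cube2 k z')] {ω | lev (fun a b => ω ∈ L a b) k z z'} := by
  induction k generalizing z z' with
  | zero =>
    refine MeasurableSpace.measurableSet_generateFrom ?_
    exact ⟨z, Or.inl rfl, z', Or.inr rfl, rfl⟩
  | succ k ih =>
    have hset : {ω | lev (fun a b => ω ∈ L a b) (k + 1) z z'} =
        ⋂ (q : (ℤ × ℤ) × (ℤ × ℤ) × (ℤ × ℤ) × (ℤ × ℤ)),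
          {ω | (q.1 ∈ rect z z' ∧ q.2.1 ∈ rect z z' ∧ q.2.2.1 ∈ rect z z' ∧ q.2.2.2 ∈ rect z z' ∧
            Nb q.1 q.2.1 ∧ Nb q.2.2.1 q.2.2.2 ∧ q.1 ≠ q.2.2.1 ∧ q.1 ≠ q.2.2.2 ∧ q.2.1 ≠ q.2.2.1 ∧
            q.2.1 ≠ q.2.2.2) → (lev (fun a b => ω ∈ L a b) k q.1 q.2.1 ∨
              lev (fun a b => ω ∈ L a b) k q.2.2.1 q.2.2.2)} := by
      ext ω
      simp only [Set.mem_iInter, Set.mem_setOf_eq]
      constructor
      · rintro h ⟨a, b, c, d⟩ ⟨ha, hb, hc, hd, hab, hcd, h1, h2, h3, h4⟩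
        exact h a b c d ha hb hc hd hab hcd h1 h2 h3 h4
      · intro h a b c d ha hb hc hd hab hcd h1 h2 h3 h4
        exact h (a, b, c, d) ⟨ha, hb, hc, hd, hab, hcd, h1, h2, h3, h4⟩
    rw [hset]
    refine @MeasurableSet.iInter _ _ (sigL L (cube2 (k + 1) z ∪ cube2 (k + 1) z')) _ _ fun q => ?_
    by_cases hq : (q.1 ∈ rect z z' ∧ q.2.1 ∈ rect z z' ∧ q.2.2.1 ∈ rect z z' ∧ q.2.2.2 ∈ rect z z' ∧
            Nb q.1 q.2.1 ∧ Nb q.2.2.1 q.2.2.2 ∧ q.1 ≠ q.2.2.1 ∧ q.1 ≠ q.2.2.2 ∧ q.2.1 ≠ q.2.2.1 ∧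
            q.2.1 ≠ q.2.2.2)
    · have hs : {ω | (q.1 ∈ rect z z' ∧ q.2.1 ∈ rect z z' ∧ q.2.2.1 ∈ rect z z' ∧ q.2.2.2 ∈ rect z z' ∧
            Nb q.1 q.2.1 ∧ Nb q.2.2.1 q.2.2.2 ∧ q.1 ≠ q.2.2.1 ∧ q.1 ≠ q.2.2.2 ∧ q.2.1 ≠ q.2.2.1 ∧
            q.2.1 ≠ q.2.2.2) → (lev (fun a b => ω ∈ L a b) k q.1 q.2.1 ∨
              lev (fun a b => ω ∈ L a b) k q.2.2.1 q.2.2.2)} =
          {ω | lev (fun a b => ω ∈ L a b) k q.1 q.2.1} ∪
            {ω | lev (fun a b => ω ∈ L a b) k q.2.2.1 q.2.2.2} := by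
        ext ω
        simp only [Set.mem_setOf_eq, Set.mem_union]
        exact ⟨fun h => h hq, fun h _ => h⟩
      rw [hs]
      refine @MeasurableSet.union _ (sigL L (cube2 (k + 1) z ∪ cube2 (k + 1) z')) _ _ ?_ ?_
      · exact percprob_sigL_mono L (Set.union_subset (percprob_cube2_sub k hq.1)
          (percprob_cube2_sub k hq.2.1)) _ (ih q.1 q.2.1)
      · exact percprob_sigL_mono L (Set.union_subset (percprob_cube2_sub k hq.2.2.1)
          (percprob_cube2_sub k hq.2.2.2.1)) _ (ih q.2.2.1 q.2.2.2)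
    · have hs : {ω | (q.1 ∈ rect z z' ∧ q.2.1 ∈ rect z z' ∧ q.2.2.1 ∈ rect z z' ∧ q.2.2.2 ∈ rect z z' ∧
            Nb q.1 q.2.1 ∧ Nb q.2.2.1 q.2.2.2 ∧ q.1 ≠ q.2.2.1 ∧ q.1 ≠ q.2.2.2 ∧ q.2.1 ≠ q.2.2.1 ∧
            q.2.1 ≠ q.2.2.2) → (lev (fun a b => ω ∈ L a b) k q.1 q.2.1 ∨
              lev (fun a b => ω ∈ L a b) k q.2.2.1 q.2.2.2)} = Set.univ := by
        ext ω
        simp only [Set.mem_setOf_eq, Set.mem_univ, iff_true]
        exact fun h => absurd h hq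
      rw [hs]
      exact @MeasurableSet.univ _ (sigL L (cube2 (k + 1) z ∪ cube2 (k + 1) z'))

/-- ordered bonds of the `4 × 2` ladder -/
def percprobE : Finset ((Fin 4 × Fin 2) × (Fin 4 × Fin 2)) :=
  @Finset.filter _ (fun e => (e.1.1.val + 1 = e.2.1.val ∧ e.1.2.val = e.2.2.val) ∨
    (e.2.1.val + 1 = e.1.1.val ∧ e.1.2.val = e.2.2.val) ∨
    (e.1.1.val = e.2.1.val ∧ e.1.2.val + 1 = e.2.2.val) ∨
    (e.1.1.val = e.2.1.val ∧ e.2.2.val + 1 = e.1.2.val))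
    (fun _ => instDecidableOr) Finset.univ

theorem percprobE_card : percprobE.card = 20 := by
  decide

theorem percprob_fin (u v : ℤ) (hu : 0 ≤ u) (hu' : u < 4) (hv : 0 ≤ v) (hv' : v < 2) :
    ∃ s : Fin 4 × Fin 2, (s.1.val : ℤ) = u ∧ (s.2.val : ℤ) = v := by
  refine ⟨(⟨u.toNat, by omega⟩, ⟨v.toNat, by omega⟩), ?_, ?_⟩
  · simp only; omega
  · simp only; omega

theorem percprob_param {z z' : ℤ × ℤ} (hz : Nb z z') :
    ∃ φ : Fin 4 × Fin 2 → ℤ × ℤ, ∀ a b : ℤ × ℤ, a ∈ rect z z' → b ∈ rect z z' → Nb a b →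
      ∃ e ∈ percprobE, φ e.1 = a ∧ φ e.2 = b := by
  obtain ⟨z1, z2⟩ := z
  obtain ⟨z1', z2'⟩ := z'
  rcases hz with hz | hz | hz | hz
  · simp only [Prod.mk.injEq] at hz
    obtain ⟨rfl, rfl⟩ := hz
    refine ⟨fun s => (2 * z1 + s.1.val, 2 * z2' + s.2.val), ?_⟩
    rintro ⟨a1, a2⟩ ⟨b1, b2⟩ ha hb hab
    simp only [rect, blkZ, Set.mem_union, Set.mem_setOf_eq] at ha hb
    obtain ⟨s, hs1, hs2⟩ := percprob_fin (a1 - 2 * z1) (a2 - 2 * z2') (by omega) (by omega) (by omega) (by omega)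
    obtain ⟨t, ht1, ht2⟩ := percprob_fin (b1 - 2 * z1) (b2 - 2 * z2') (by omega) (by omega) (by omega) (by omega)
    refine ⟨(s, t), ?_, ?_, ?_⟩
    · unfold percprobE
      rw [Finset.mem_filter]
      refine ⟨Finset.mem_univ _, ?_⟩
      simp only [Nb, Prod.mk.injEq] at hab
      simp only
      omega
    · exact Prod.ext (by simp only; omega) (by simp only; omega)
    · exact Prod.ext (by simp only; omega) (by simp only; omega)
  · simp only [Prod.mk.injEq] at hz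
    obtain ⟨rfl, rfl⟩ := hz
    refine ⟨fun s => (2 * z1 - 2 + s.1.val, 2 * z2' + s.2.val), ?_⟩
    rintro ⟨a1, a2⟩ ⟨b1, b2⟩ ha hb hab
    simp only [rect, blkZ, Set.mem_union, Set.mem_setOf_eq] at ha hb
    obtain ⟨s, hs1, hs2⟩ := percprob_fin (a1 - (2 * z1 - 2)) (a2 - 2 * z2') (by omega) (by omega) (by omega) (by omega)
    obtain ⟨t, ht1, ht2⟩ := percprob_fin (b1 - (2 * z1 - 2)) (b2 - 2 * z2') (by omega) (by omega) (by omega) (by omega)
    refine ⟨(s, t), ?_, ?_, ?_⟩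
    · unfold percprobE
      rw [Finset.mem_filter]
      refine ⟨Finset.mem_univ _, ?_⟩
      simp only [Nb, Prod.mk.injEq] at hab
      simp only
      omega
    · exact Prod.ext (by simp only; omega) (by simp only; omega)
    · exact Prod.ext (by simp only; omega) (by simp only; omega)
  · simp only [Prod.mk.injEq] at hz
    obtain ⟨rfl, rfl⟩ := hz
    refine ⟨fun s => (2 * z1' + s.2.val, 2 * z2 + s.1.val), ?_⟩
    rintro ⟨a1, a2⟩ ⟨b1, b2⟩ ha hb hab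
    simp only [rect, blkZ, Set.mem_union, Set.mem_setOf_eq] at ha hb
    obtain ⟨s, hs1, hs2⟩ := percprob_fin (a2 - 2 * z2) (a1 - 2 * z1') (by omega) (by omega) (by omega) (by omega)
    obtain ⟨t, ht1, ht2⟩ := percprob_fin (b2 - 2 * z2) (b1 - 2 * z1') (by omega) (by omega) (by omega) (by omega)
    refine ⟨(s, t), ?_, ?_, ?_⟩
    · unfold percprobE
      rw [Finset.mem_filter]
      refine ⟨Finset.mem_univ _, ?_⟩
      simp only [Nb, Prod.mk.injEq] at hab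
      simp only
      omega
    · exact Prod.ext (by simp only; omega) (by simp only; omega)
    · exact Prod.ext (by simp only; omega) (by simp only; omega)
  · simp only [Prod.mk.injEq] at hz
    obtain ⟨rfl, rfl⟩ := hz
    refine ⟨fun s => (2 * z1' + s.2.val, 2 * z2 - 2 + s.1.val), ?_⟩
    rintro ⟨a1, a2⟩ ⟨b1, b2⟩ ha hb hab
    simp only [rect, blkZ, Set.mem_union, Set.mem_setOf_eq] at ha hb
    obtain ⟨s, hs1, hs2⟩ := percprob_fin (a2 - (2 * z2 - 2)) (a1 - 2 * z1') (by omega) (by omega) (by omega) (by omega)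
    obtain ⟨t, ht1, ht2⟩ := percprob_fin (b2 - (2 * z2 - 2)) (b1 - 2 * z1') (by omega) (by omega) (by omega) (by omega)
    refine ⟨(s, t), ?_, ?_, ?_⟩
    · unfold percprobE
      rw [Finset.mem_filter]
      refine ⟨Finset.mem_univ _, ?_⟩
      simp only [Nb, Prod.mk.injEq] at hab
      simp only
      omega
    · exact Prod.ext (by simp only; omega) (by simp only; omega)
    · exact Prod.ext (by simp only; omega) (by simp only; omega)

theorem lev_bound {Ω : Type} [MeasurableSpace Ω] (μ : Measure Ω) [IsProbabilityMeasure μ]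
    (L : ℤ × ℤ → ℤ × ℤ → Set Ω) (hmeas : ∀ z z', MeasurableSet (L z z'))
    (hind : ∀ A B : Set (ℤ × ℤ), Disjoint A B → Indep (sigL L A) (sigL L B) μ)
    (hedge : ∀ z z', Nb z z' → 1 - 1 / 1000 ≤ μ.real (L z z')) (k : ℕ) (z z' : ℤ × ℤ) (hz : Nb z z') :
    μ.real {ω | ¬ lev (fun a b => ω ∈ L a b) k z z'} ≤ (1 / 400) * (2 / 5 : ℝ) ^ (2 ^ k) := by
  induction k generalizing z z' with
  | zero =>
    have h1 : {ω | ¬ lev (fun a b => ω ∈ L a b) 0 z z'} = (L z z')ᶜ := rfl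
    rw [h1, probReal_compl_eq_one_sub (hmeas z z')]
    have h2 := hedge z z' hz
    norm_num at h2 ⊢
    linarith
  | succ k ih =>
    obtain ⟨φ, hφ⟩ := percprob_param hz
    set b : ℝ := (1 / 400) * (2 / 5 : ℝ) ^ (2 ^ k) with hb
    have hb0 : 0 ≤ b := by positivity
    set F : ((Fin 4 × Fin 2) × (Fin 4 × Fin 2)) × ((Fin 4 × Fin 2) × (Fin 4 × Fin 2)) → Set Ω :=
      fun q => {ω | (Nb (φ q.1.1) (φ q.1.2) ∧ Nb (φ q.2.1) (φ q.2.2) ∧ φ q.1.1 ≠ φ q.2.1 ∧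
        φ q.1.1 ≠ φ q.2.2 ∧ φ q.1.2 ≠ φ q.2.1 ∧ φ q.1.2 ≠ φ q.2.2) ∧
        (¬ lev (fun a b => ω ∈ L a b) k (φ q.1.1) (φ q.1.2) ∧
          ¬ lev (fun a b => ω ∈ L a b) k (φ q.2.1) (φ q.2.2))} with hF
    have hsub : {ω | ¬ lev (fun a b => ω ∈ L a b) (k + 1) z z'} ⊆
        ⋃ q ∈ percprobE ×ˢ percprobE, F q := by
      intro ω hω
      have hω' : ¬ ren (lev (fun a b => ω ∈ L a b) k) z z' := hω
      unfold ren at hω'
      push Not at hω'
      obtain ⟨a, b, c, d, ha, hb, hc, hd, hab, hcd, h1, h2, h3, h4, h5, h6⟩ := hω'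
      obtain ⟨e, he, rfl, rfl⟩ := hφ a b ha hb hab
      obtain ⟨e', he', rfl, rfl⟩ := hφ c d hc hd hcd
      refine Set.mem_biUnion (x := (e, e')) ?_ ?_
      · exact Finset.mem_coe.2 (Finset.mem_product.2 ⟨he, he'⟩)
      · exact ⟨⟨hab, hcd, h1, h2, h3, h4⟩, h5, h6⟩
    have hFb : ∀ q ∈ percprobE ×ˢ percprobE, μ.real (F q) ≤ b * b := by
      intro q _
      by_cases hq : Nb (φ q.1.1) (φ q.1.2) ∧ Nb (φ q.2.1) (φ q.2.2) ∧ φ q.1.1 ≠ φ q.2.1 ∧
        φ q.1.1 ≠ φ q.2.2 ∧ φ q.1.2 ≠ φ q.2.1 ∧ φ q.1.2 ≠ φ q.2.2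
      · have hFq : F q = {ω | ¬ lev (fun a b => ω ∈ L a b) k (φ q.1.1) (φ q.1.2)} ∩
            {ω | ¬ lev (fun a b => ω ∈ L a b) k (φ q.2.1) (φ q.2.2)} := by
          ext ω
          exact ⟨fun h => h.2, fun h => ⟨hq, h⟩⟩
        have hdisj : Disjoint (cube2 k (φ q.1.1) ∪ cube2 k (φ q.1.2))
            (cube2 k (φ q.2.1) ∪ cube2 k (φ q.2.2)) := by
          rw [Set.disjoint_union_left, Set.disjoint_union_right, Set.disjoint_union_right]
          exact ⟨⟨cube2_disjoint k hq.2.2.1, cube2_disjoint k hq.2.2.2.1⟩,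
            cube2_disjoint k hq.2.2.2.2.1, cube2_disjoint k hq.2.2.2.2.2⟩
        have hi := (Indep_iff _ _ μ).1 (hind _ _ hdisj)
          {ω | ¬ lev (fun a b => ω ∈ L a b) k (φ q.1.1) (φ q.1.2)}
          {ω | ¬ lev (fun a b => ω ∈ L a b) k (φ q.2.1) (φ q.2.2)}
          (@MeasurableSet.compl _ _ (sigL L (cube2 k (φ q.1.1) ∪ cube2 k (φ q.1.2)))
            (measurable_lev L k (φ q.1.1) (φ q.1.2)))
          (@MeasurableSet.compl _ _ (sigL L (cube2 k (φ q.2.1) ∪ cube2 k (φ q.2.2)))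
            (measurable_lev L k (φ q.2.1) (φ q.2.2)))
        rw [hFq]
        have hi' : μ.real ({ω | ¬ lev (fun a b => ω ∈ L a b) k (φ q.1.1) (φ q.1.2)} ∩
            {ω | ¬ lev (fun a b => ω ∈ L a b) k (φ q.2.1) (φ q.2.2)}) =
            μ.real {ω | ¬ lev (fun a b => ω ∈ L a b) k (φ q.1.1) (φ q.1.2)} *
              μ.real {ω | ¬ lev (fun a b => ω ∈ L a b) k (φ q.2.1) (φ q.2.2)} := by
          simp only [Measure.real]
          rw [hi, ENNReal.toReal_mul]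
        rw [hi']
        exact mul_le_mul (ih _ _ hq.1) (ih _ _ hq.2.1) measureReal_nonneg hb0
      · have hFq : F q = ∅ := by
          ext ω
          simp only [hF, Set.mem_setOf_eq, Set.mem_empty_iff_false, iff_false]
          exact fun h => hq h.1
        rw [hFq]
        simp only [measureReal_empty]
        positivity
    calc μ.real {ω | ¬ lev (fun a b => ω ∈ L a b) (k + 1) z z'}
        ≤ μ.real (⋃ q ∈ percprobE ×ˢ percprobE, F q) := measureReal_mono hsub (measure_ne_top _ _)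
      _ ≤ ∑ q ∈ percprobE ×ˢ percprobE, μ.real (F q) := measureReal_biUnion_finset_le _ _
      _ ≤ ∑ _q ∈ percprobE ×ˢ percprobE, b * b := Finset.sum_le_sum hFb
      _ = (1 / 400) * (2 / 5 : ℝ) ^ (2 ^ (k + 1)) := by
        rw [Finset.sum_const, Finset.card_product, percprobE_card, hb, pow_succ 2 k, pow_mul]
        simp only [nsmul_eq_mul]
        push_cast
        ring

end Pool.Agent.OIP
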