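import Pool.Agent.OIP.PercDet2
import Pool.Agent.OIP.PercProb

set_option autoImplicit false

open MeasureTheory ProbabilityTheory
open scoped Classical

namespace Pool.Agent.OIP

theorem perc_Z2 {Ω : Type} [MeasurableSpace Ω] (μ : Measure Ω) [IsProbabilityMeasure μ]
    (L : ℤ × ℤ → ℤ × ℤ → Set Ω) (hmeas : ∀ z z', MeasurableSet (L z z')) (hsymm : ∀ z z', L z z' = L z' z)
    (hind : ∀ A B : Set (ℤ × ℤ), Disjoint A B → Indep (sigL L A) (sigL L B) μ)
    (hedge : ∀ z z', Nb z z' → 1 - 1 / 1000 ≤ μ.real (L z z')) :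
    0 < μ {ω | ∃ z : ℤ × ℤ,
      {z' : ℤ × ℤ | Relation.ReflTransGen (fun a b => Nb a b ∧ ω ∈ L a b) z z'}.Infinite} := by
  set B : ℕ → Set Ω := fun k => {ω | ¬ lev (fun a b => ω ∈ L a b) k (0, 0) (1, 0)} with hB
  have hnb : Nb (0, 0) (1, 0) := Or.inl (by simp)
  have hb : ∀ k, μ (B k) ≤ ENNReal.ofReal ((1 / 400) * (2 / 5 : ℝ) ^ (k + 1)) := by
    intro k
    have h1 := lev_bound μ L hmeas hind hedge k (0, 0) (1, 0) hnb
    have h2 : μ (B k) = ENNReal.ofReal (μ.real (B k)) := by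
      rw [Measure.real, ENNReal.ofReal_toReal (measure_ne_top μ _)]
    rw [h2]
    refine ENNReal.ofReal_le_ofReal (h1.trans ?_)
    refine mul_le_mul_of_nonneg_left ?_ (by norm_num)
    refine pow_le_pow_of_le_one (by norm_num) (by norm_num) ?_
    exact Nat.succ_le_of_lt k.lt_two_pow_self
  have hsum : μ (⋃ k, B k) ≤ ENNReal.ofReal (1 / 600) := by
    refine (measure_iUnion_le B).trans ?_
    refine (ENNReal.tsum_le_tsum hb).trans ?_
    have hs : HasSum (fun k : ℕ => (1 / 400) * (2 / 5 : ℝ) ^ (k + 1)) (1 / 600) := by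
      have h0 := (hasSum_geometric_of_lt_one (r := (2 / 5 : ℝ)) (by norm_num) (by norm_num)).mul_left
        ((1 / 400) * (2 / 5 : ℝ))
      have e1 : (1 / 400) * (2 / 5 : ℝ) * (1 - 2 / 5)⁻¹ = 1 / 600 := by norm_num
      have e2 : (fun k : ℕ => (1 / 400) * (2 / 5 : ℝ) ^ (k + 1)) =
          fun k : ℕ => (1 / 400) * (2 / 5 : ℝ) * (2 / 5) ^ k := by
        funext k
        ring
      rw [e1] at h0
      rw [e2]
      exact h0
    rw [← ENNReal.ofReal_tsum_of_nonneg (fun k => by positivity) hs.summable, hs.tsum_eq]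
  have hpos : 0 < μ (⋃ k, B k)ᶜ := by
    by_contra hcon
    have h0 : μ (⋃ k, B k)ᶜ = 0 := by simpa using hcon
    have h1 : (1 : ENNReal) ≤ μ (⋃ k, B k) + μ (⋃ k, B k)ᶜ := by
      rw [← measure_univ (μ := μ), ← Set.union_compl_self (⋃ k, B k)]
      exact measure_union_le _ _
    rw [h0, add_zero] at h1
    have h2 := h1.trans hsum
    rw [ENNReal.one_le_ofReal] at h2
    norm_num at h2
  refine lt_of_lt_of_le hpos (measure_mono ?_)
  intro ω hω
  refine ⟨(0, 0), ?_⟩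
  have hall : ∀ k, lev (fun a b => ω ∈ L a b) k (0, 0) (1, 0) := by
    intro k
    by_contra hk
    exact hω (Set.mem_iUnion.2 ⟨k, hk⟩)
  exact infinite_of_lev (O := fun a b => ω ∈ L a b) (fun a b h => by rw [← hsymm]; exact h) hall

end Pool.Agent.OIP
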