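import Pool.Agent.OIP.Avg

/-!
# OIP: choosing the stars

Even sites first: choose `x z` with `∑_{z' ~ z} avg_y g z z' (x z) y ≤ 4 ε` (average over `x` is at most `4 ε`).
Then for an odd site `z'` the average over `y` of `∑_{z ~ z'} g z z' (x z) y` is at most `16 ε`.
-/

set_option autoImplicit false

open Finset
open scoped Classical

namespace Pool.Agent.OIP

/-- nearest neighbours in the square lattice -/
def Nb (z z' : ℤ × ℤ) : Prop :=
  z' = (z.1 + 1, z.2) ∨ z' = (z.1 - 1, z.2) ∨ z' = (z.1, z.2 + 1) ∨ z' = (z.1, z.2 - 1)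

theorem Nb.symm {z z' : ℤ × ℤ} (h : Nb z z') : Nb z' z := by
  unfold Nb at h ⊢
  rcases h with h | h | h | h <;> subst h <;> simp

/-- the four neighbours -/
def select_nb (z : ℤ × ℤ) : Fin 4 → ℤ × ℤ :=
  ![(z.1 + 1, z.2), (z.1 - 1, z.2), (z.1, z.2 + 1), (z.1, z.2 - 1)]

theorem select_nb_spec (z : ℤ × ℤ) (i : Fin 4) : Nb z (select_nb z i) := by
  unfold Nb
  fin_cases i <;> simp [select_nb]

theorem select_exists_nb {z z' : ℤ × ℤ} (h : Nb z z') : ∃ i, z' = select_nb z i := by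
  rcases h with h | h | h | h
  · exact ⟨0, h⟩
  · exact ⟨1, h⟩
  · exact ⟨2, h⟩
  · exact ⟨3, h⟩

theorem select_parity {z z' : ℤ × ℤ} (h : Nb z z') : Even (z.1 + z.2) ↔ ¬ Even (z'.1 + z'.2) := by
  rcases h with h | h | h | h <;> subst h <;> simp only [Int.even_iff] <;> omega

theorem select_one {X : Type} [Fintype X] [Nonempty X] (G : Fin 4 → X → ℝ)
    (hG : ∀ i x, 0 ≤ G i x) (c : ℝ) (h : ∀ i, avg (G i) ≤ c) : ∃ x, ∀ i, G i x ≤ 4 * c := by
  obtain ⟨x, hx⟩ := exists_le_avg (fun x => ∑ i : Fin 4, G i x)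
  refine ⟨x, fun i => ?_⟩
  have h1 : G i x ≤ ∑ i : Fin 4, G i x :=
    Finset.single_le_sum (f := fun i => G i x) (fun j _ => hG j x) (Finset.mem_univ i)
  rw [avg_sum] at hx
  have h2 : ∑ i : Fin 4, avg (G i) ≤ ∑ _i : Fin 4, c := Finset.sum_le_sum fun i _ => h i
  rw [Finset.sum_const, Finset.card_univ, Fintype.card_fin, nsmul_eq_mul] at h2
  push_cast at h2
  linarith

theorem select {X : Type} [Fintype X] [Nonempty X] (g : ℤ × ℤ → ℤ × ℤ → X → X → ℝ)
    (hg : ∀ z z' x y, 0 ≤ g z z' x y) (hsymm : ∀ z z' x y, g z z' x y = g z' z y x) (ε : ℝ)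
    (havg : ∀ z z', Nb z z' → avg (fun x => avg (fun y => g z z' x y)) ≤ ε) :
    ∃ x : ℤ × ℤ → X, ∀ z z', Nb z z' → g z z' (x z) (x z') ≤ 16 * ε := by
  have h1 : ∀ z : ℤ × ℤ, ∃ x : X, ∀ i : Fin 4, avg (fun y => g z (select_nb z i) x y) ≤ 4 * ε := by
    intro z
    exact select_one (fun i x => avg (fun y => g z (select_nb z i) x y))
      (fun i x => avg_nonneg fun y => hg _ _ _ _) ε (fun i => havg _ _ (select_nb_spec z i))
  choose a ha using h1
  have h2 : ∀ z' : ℤ × ℤ, ∃ y : X, ∀ i : Fin 4,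
      g (select_nb z' i) z' (a (select_nb z' i)) y ≤ 4 * (4 * ε) := by
    intro z'
    refine select_one (fun i y => g (select_nb z' i) z' (a (select_nb z' i)) y)
      (fun i y => hg _ _ _ _) (4 * ε) (fun i => ?_)
    obtain ⟨j, hj⟩ := select_exists_nb (select_nb_spec z' i).symm
    have h3 := ha (select_nb z' i) j
    rw [← hj] at h3
    exact h3
  choose b hb using h2
  refine ⟨fun z => if Even (z.1 + z.2) then a z else b z, fun z z' hz => ?_⟩
  have key : ∀ z z' : ℤ × ℤ, Nb z z' → Even (z.1 + z.2) → g z z' (a z) (b z') ≤ 16 * ε := by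
    intro z z' hz _
    obtain ⟨i, hi⟩ := select_exists_nb hz.symm
    have h3 := hb z' i
    rw [← hi] at h3
    linarith
  by_cases he : Even (z.1 + z.2)
  · have he' : ¬ Even (z'.1 + z'.2) := (select_parity hz).1 he
    simp only [if_pos he, if_neg he']
    exact key z z' hz he
  · have he' : Even (z'.1 + z'.2) := by
      by_contra hcon
      exact he ((select_parity hz).2 hcon)
    simp only [if_neg he, if_pos he']
    rw [hsymm]
    exact key z' z hz.symm he'

end Pool.Agent.OIP
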