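import Pool.Agent.OIP.InfAvg
import Pool.Agent.OIP.InfLink
import Pool.Agent.OIP.Perc
import Pool.Agent.OIP.Select

/-! OIP: see the header of InfDefs.lean -/

set_option autoImplicit false

open MeasureTheory ProbabilityTheory
open scoped Classical

namespace Pool.Agent.OIP

theorem infmain_sigV_le {Ω V : Type} [mΩ : MeasurableSpace Ω] (W : Ω → SimpleGraph V)
    (hW : ∀ a b, MeasurableSet {ω | (W ω).Adj a b}) (A : Set V) : sigV W A ≤ mΩ := by
  refine MeasurableSpace.generateFrom_le ?_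
  rintro U ⟨a, _, b, _, rfl⟩
  exact hW a b

theorem infmain_sigV_mono {Ω V : Type} (W : Ω → SimpleGraph V) {A B : Set V} (h : A ⊆ B) :
    sigV W A ≤ sigV W B := by
  refine MeasurableSpace.generateFrom_mono ?_
  rintro U ⟨a, ha, b, hb, rfl⟩
  exact ⟨a, h ha, b, h hb, rfl⟩

theorem inf_main (p : ℝ) (hp : pc < p) (hp1 : p ≤ 1) :
    ∃ N₀ : ℕ, ∀ N : ℕ, N₀ ≤ N → ∀ (Ω : Type) [MeasurableSpace Ω] (μ : Measure Ω)
      [IsProbabilityMeasure μ] (W : Ω → SimpleGraph ((ℤ × ℤ) × Finset (Fin N))),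
      (∀ a b, MeasurableSet {ω | (W ω).Adj a b}) → OneIndepM μ W →
      (∀ (z : ℤ × ℤ) (S : Finset (Fin N)) (d : Fin N), d ∉ S →
        p ≤ μ.real {ω | (W ω).Adj (z, S) (z, insert d S)}) →
      (∀ (z z' : ℤ × ℤ) (S : Finset (Fin N)), Nb z z' → p ≤ μ.real {ω | (W ω).Adj (z, S) (z', S)}) →
      0 < μ {ω | ∃ v, {u | (W ω).Reachable v u}.Infinite} := by
  obtain ⟨n, _, N₀, hN₀⟩ := link_avg p hp hp1 (1 / 16000) (by norm_num)
  refine ⟨max N₀ 1, ?_⟩
  intro N hN Ω _ μ _ W hW hind hcube hlat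
  have hNpos : 0 < N := lt_of_lt_of_le Nat.one_pos ((le_max_right N₀ 1).trans hN)
  have : Nonempty (Fin N) := ⟨⟨0, hNpos⟩⟩
  have havg := hN₀ N ((le_max_left N₀ 1).trans hN) Ω μ W hW hind hcube hlat
  obtain ⟨x, hx⟩ := select
    (g := fun z z' (ι ι' : Fin n → Fin N) =>
      if Nb z z' then μ.real {ω | ¬ linkS (W ω) z z' ι ι'} else 0)
    (fun z z' ι ι' => by
      split_ifs
      · exact measureReal_nonneg
      · exact le_refl _)
    (fun z z' ι ι' => by
      by_cases h : Nb z z'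
      · rw [if_pos h, if_pos h.symm]
        congr 1
        ext ω
        exact not_congr (linkS_symm _ _ _ _ _)
      · rw [if_neg h, if_neg (fun h' => h h'.symm)])
    (1 / 16000)
    (fun z z' h => by
      simp only [if_pos h]
      exact havg z z' h)
  have hLmeas : ∀ z z' : ℤ × ℤ, MeasurableSet {ω | linkS (W ω) z z' (x z) (x z')} := fun z z' =>
    infmain_sigV_le W hW _ _ (measurableSet_linkS W z z' (x z) (x z'))
  have hle : ∀ A : Set (ℤ × ℤ), sigL (fun z z' => {ω | linkS (W ω) z z' (x z) (x z')}) A ≤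
      sigV W {v | v.1 ∈ A} := by
    intro A
    refine MeasurableSpace.generateFrom_le ?_
    rintro U ⟨z, hz, z', hz', rfl⟩
    refine infmain_sigV_mono W ?_ _ (measurableSet_linkS W z z' (x z) (x z'))
    rintro v (hv | hv)
    · change v.1 ∈ A
      rw [hv]
      exact hz
    · change v.1 ∈ A
      rw [hv]
      exact hz'
  have hperc := perc_Z2 μ (fun z z' => {ω | linkS (W ω) z z' (x z) (x z')}) hLmeas
    (fun z z' => by
      ext ω
      exact linkS_symm _ _ _ _ _)
    (fun A B hAB => by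
      have h1 : Indep (sigV W {v | v.1 ∈ A}) (sigV W {v | v.1 ∈ B}) μ := by
        refine hind _ _ ?_
        rw [Set.disjoint_left]
        intro v hv hv'
        exact Set.disjoint_left.1 hAB hv hv'
      exact indep_of_indep_of_le_right (indep_of_indep_of_le_left h1 (hle A)) (hle B))
    (fun z z' h => by
      have h1 := hx z z' h
      rw [if_pos h] at h1
      have h2 : {ω | ¬ linkS (W ω) z z' (x z) (x z')} =
          {ω | linkS (W ω) z z' (x z) (x z')}ᶜ := rfl
      rw [h2, measureReal_compl (hLmeas z z'), probReal_univ] at h1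
      linarith)
  refine lt_of_lt_of_le hperc (measure_mono ?_)
  rintro ω ⟨z, hz⟩
  exact infinite_of_links (W ω) x z hz

end Pool.Agent.OIP
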