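import Pool.Agent.OIP.LatBasic
import Pool.Agent.OIP.InfMain

/-! OIP: transfer to the lattice: `inf_main` for `W ω = (latG ω).comap (embL N)`, `n = 2 + N` -/

set_option autoImplicit false

open MeasureTheory ProbabilityTheory

namespace Pool.Agent.OIP

theorem latMain_prob {n : ℕ} {p : ℝ} {μ : Measure ((Fin n → ℤ) × Fin n → Bool)}
    (h : LatModel n p μ) {u v : Fin n → ℤ} (huv : u ≠ v) {i : Fin n}
    (hi : v = u + Pi.single i 1) : p ≤ μ.real {ω | (latG ω).Adj u v} := by
  have := h.prob
  have h1 := h.edge (u, i)
  have h2 : p ≤ μ.real {ω | ω (u, i) = true} :=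
    (ENNReal.ofReal_le_iff_le_toReal (measure_ne_top μ _)).1 h1
  refine h2.trans (measureReal_mono ?_ (measure_ne_top μ _))
  intro ω hω
  exact ⟨huv, Or.inl ⟨i, hi, hω⟩⟩

theorem latMain_prob' {n : ℕ} {p : ℝ} {μ : Measure ((Fin n → ℤ) × Fin n → Bool)}
    (h : LatModel n p μ) {u v : Fin n → ℤ} (huv : u ≠ v) {i : Fin n}
    (hi : u = v + Pi.single i 1) : p ≤ μ.real {ω | (latG ω).Adj u v} := by
  have h1 := latMain_prob h huv.symm hi
  have h2 : {ω : (Fin n → ℤ) × Fin n → Bool | (latG ω).Adj u v} =
      {ω | (latG ω).Adj v u} := by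
    ext ω
    exact (latG ω).adj_comm u v
  rw [h2]
  exact h1

theorem latMain_embL_insert {N : ℕ} (z : ℤ × ℤ) {S : Finset (Fin N)} {d : Fin N} (hd : d ∉ S) :
    embL N (z, insert d S) = embL N (z, S) + Pi.single (Fin.natAdd 2 d) 1 := by
  classical
  funext j
  refine Fin.addCases (fun k => ?_) (fun k => ?_) j
  · have hne : Fin.castAdd N k ≠ Fin.natAdd 2 d := by
      intro h
      have := congrArg Fin.val h
      simp only [Fin.val_castAdd, Fin.val_natAdd] at this
      omega
    simp [embL, Fin.append_left, hne]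
  · by_cases hk : k = d
    · subst hk
      simp [embL, Fin.append_right, hd]
    · have hne : Fin.natAdd 2 k ≠ Fin.natAdd 2 d := fun h => hk (Fin.natAdd_injective _ _ h)
      simp [embL, Fin.append_right, Finset.mem_insert, hk, hne]

theorem latMain_embL_fst {N : ℕ} (a b : ℤ) (S : Finset (Fin N)) :
    embL N ((a + 1, b), S) = embL N ((a, b), S) + Pi.single (Fin.castAdd N 0) 1 := by
  classical
  funext j
  refine Fin.addCases (fun k => ?_) (fun k => ?_) j
  · fin_cases k
    · simp [embL, Fin.append_left]
    · have hne : Fin.castAdd N (1 : Fin 2) ≠ Fin.castAdd N 0 := by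
        intro h
        have := congrArg Fin.val h
        simp at this
      simp [embL, Fin.append_left, hne]
  · have hne : Fin.natAdd 2 k ≠ Fin.castAdd N 0 := by
      intro h
      have := congrArg Fin.val h
      simp at this
    simp [embL, Fin.append_right, hne]

theorem latMain_embL_snd {N : ℕ} (a b : ℤ) (S : Finset (Fin N)) :
    embL N ((a, b + 1), S) = embL N ((a, b), S) + Pi.single (Fin.castAdd N 1) 1 := by
  classical
  funext j
  refine Fin.addCases (fun k => ?_) (fun k => ?_) j
  · fin_cases k
    · have hne : Fin.castAdd N (0 : Fin 2) ≠ Fin.castAdd N 1 := by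
        intro h
        have := congrArg Fin.val h
        simp at this
      simp [embL, Fin.append_left, hne]
    · simp [embL, Fin.append_left]
  · have hne : Fin.natAdd 2 k ≠ Fin.castAdd N 1 := by
      intro h
      have := congrArg Fin.val h
      simp at this
      omega
    simp [embL, Fin.append_right, hne]

/-- above `4 - 2√3` every model percolates in high dimension -/
theorem lattice_main (p : ℝ) (hp : pc < p) : ∃ n₀ : ℕ, ∀ n : ℕ, n₀ ≤ n →
    ∀ μ : Measure ((Fin n → ℤ) × Fin n → Bool), LatModel n p μ →
      ¬ ∀ᵐ ω ∂μ, ∀ x : Fin n → ℤ, {y : Fin n → ℤ | (latG ω).Reachable x y}.Finite := by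
  by_cases hp1 : p ≤ 1
  · obtain ⟨N₀, hN₀⟩ := inf_main p hp hp1
    refine ⟨2 + N₀, fun n hn μ hμ hae => ?_⟩
    obtain ⟨N, rfl⟩ : ∃ N, n = 2 + N := ⟨n - 2, by omega⟩
    have := hμ.prob
    have key := hN₀ N (by omega) ((Fin (2 + N) → ℤ) × Fin (2 + N) → Bool) μ
      (fun ω => (latG ω).comap (embL N)) (fun a b => measurableSet_latG _ _)
      ((oneIndepM_latG hμ).comap (embL_injective N)) ?_ ?_
    · refine key.ne' (le_antisymm (le_trans (measure_mono ?_) (ae_iff.1 hae).le) bot_le)
      rintro ω ⟨v, hv⟩ hfin
      refine hv ?_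
      have h1 := (hfin (embL N v)).preimage ((embL_injective N).injOn (s := embL N ⁻¹'
        {y | (latG ω).Reachable (embL N v) y}))
      refine h1.subset ?_
      intro u hu
      exact SimpleGraph.Reachable.map (⟨embL N, fun h => h⟩ :
        (latG ω).comap (embL N) →g latG ω) hu
    · intro z S d hd
      refine latMain_prob hμ ?_ (latMain_embL_insert z hd)
      intro h
      have h1 := embL_injective N h
      have h2 : S = insert d S := congrArg Prod.snd h1
      exact hd (h2 ▸ Finset.mem_insert_self d S)
    · intro z z' S hz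
      have hne : embL N (z, S) ≠ embL N (z', S) := by
        intro h
        have h1 := embL_injective N h
        have h2 : z = z' := congrArg Prod.fst h1
        subst h2
        obtain ⟨a, b⟩ := z
        rcases hz with h | h | h | h <;> rw [Prod.ext_iff] at h <;> dsimp only at h <;> omega
      obtain ⟨a, b⟩ := z
      rcases hz with rfl | rfl | rfl | rfl
      · exact latMain_prob hμ hne (latMain_embL_fst a b S)
      · refine latMain_prob' hμ hne ?_ (i := Fin.castAdd N 0)
        have := latMain_embL_fst (a - 1) b S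
        rwa [sub_add_cancel] at this
      · exact latMain_prob hμ hne (latMain_embL_snd a b S)
      · refine latMain_prob' hμ hne ?_ (i := Fin.castAdd N 1)
        have := latMain_embL_snd a (b - 1) S
        rwa [sub_add_cancel] at this
  · refine ⟨1, fun n hn μ hμ _ => hp1 ?_⟩
    have := hμ.prob
    have h1 := hμ.edge (0, ⟨0, by omega⟩)
    have h2 := h1.trans prob_le_one
    exact ENNReal.ofReal_le_one.1 h2

end Pool.Agent.OIP
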