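import Pool.Agent.OIP.Defs

/-!
# OIP: elementary facts about `pr`, `DepOn`, `Cn`
-/

set_option autoImplicit false

open Finset
open scoped Classical

namespace Pool.Agent.OIP

section prob

variable {Ω : Type*} [Fintype Ω] {w : Ω → ℝ}

theorem pr_nonneg (hw : IsLaw w) (U : Set Ω) : 0 ≤ pr w U := by
  unfold pr
  exact Finset.sum_nonneg fun x _ => Set.indicator_nonneg (fun y _ => hw.nonneg y) x

theorem pr_mono (hw : IsLaw w) {U U' : Set Ω} (h : U ⊆ U') : pr w U ≤ pr w U' := by
  unfold pr
  exact Finset.sum_le_sum fun x _ =>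
    Set.indicator_le_indicator_of_subset h (fun y => hw.nonneg y) x

theorem pr_univ (hw : IsLaw w) : pr w Set.univ = 1 := by
  unfold pr
  simp [hw.total]

theorem pr_empty : pr w (∅ : Set Ω) = 0 := by
  unfold pr
  simp

theorem pr_le_one (hw : IsLaw w) (U : Set Ω) : pr w U ≤ 1 := by
  rw [← pr_univ hw]
  exact pr_mono hw (Set.subset_univ _)

theorem pr_inter_add_diff (U U' : Set Ω) : pr w (U ∩ U') + pr w (U \ U') = pr w U := by
  unfold pr
  rw [← Finset.sum_add_distrib]
  refine Finset.sum_congr rfl fun x _ => ?_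
  by_cases h1 : x ∈ U <;> by_cases h2 : x ∈ U' <;> simp [h1, h2]

theorem pr_union_disjoint {U U' : Set Ω} (h : Disjoint U U') : pr w (U ∪ U') = pr w U + pr w U' := by
  rw [← pr_inter_add_diff (U ∪ U') U]
  congr 1
  · congr 1
    ext x
    constructor
    · exact fun h => h.2
    · exact fun h => ⟨Or.inl h, h⟩
  · congr 1
    ext x
    constructor
    · rintro ⟨h1 | h1, h2⟩
      · exact absurd h1 h2
      · exact h1
    · intro hx
      exact ⟨Or.inr hx, fun h' => Set.disjoint_left.1 h h' hx⟩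

theorem pr_compl (hw : IsLaw w) (U : Set Ω) : pr w Uᶜ = 1 - pr w U := by
  have := pr_union_disjoint (w := w) (disjoint_compl_right (a := U))
  rw [Set.union_compl_self, pr_univ hw] at this
  linarith

theorem pr_union_le (hw : IsLaw w) (U U' : Set Ω) : pr w (U ∪ U') ≤ pr w U + pr w U' := by
  have h1 := pr_inter_add_diff (w := w) (U ∪ U') U
  have h2 : pr w ((U ∪ U') ∩ U) ≤ pr w U := pr_mono hw Set.inter_subset_right
  have h3 : pr w ((U ∪ U') \ U) ≤ pr w U' := pr_mono hw (by
    rintro x ⟨h1 | h1, h2⟩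
    · exact absurd h1 h2
    · exact h1)
  linarith

/-- union bound -/
theorem pr_exists_le (hw : IsLaw w) {ι : Type*} (s : Finset ι) (P : ι → Ω → Prop) :
    pr w {ω | ∃ i ∈ s, P i ω} ≤ ∑ i ∈ s, pr w {ω | P i ω} := by
  induction s using Finset.induction_on with
  | empty => simp [pr_empty]
  | insert a s ha ih =>
    rw [Finset.sum_insert ha]
    refine le_trans ?_ (add_le_add le_rfl ih)
    refine le_trans ?_ (pr_union_le hw _ _)
    refine pr_mono hw ?_
    intro ω hω
    obtain ⟨i, hi, hP⟩ := hω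
    rcases Finset.mem_insert.1 hi with rfl | hi
    · exact Or.inl hP
    · exact Or.inr ⟨i, hi, hP⟩

theorem pr_le_add_diff (hw : IsLaw w) (U U' : Set Ω) : pr w U ≤ pr w U' + pr w (U \ U') := by
  have h1 := pr_inter_add_diff (w := w) U U'
  have h2 : pr w (U ∩ U') ≤ pr w U' := pr_mono hw Set.inter_subset_right
  linarith

/-- events that agree outside `B` have probabilities differing by at most `pr w B` -/
theorem abs_pr_sub_le (hw : IsLaw w) {U U' B : Set Ω} (h : ∀ ω, ω ∉ B → (ω ∈ U ↔ ω ∈ U')) :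
    |pr w U - pr w U'| ≤ pr w B := by
  have key : ∀ U U' : Set Ω, (∀ ω, ω ∉ B → (ω ∈ U → ω ∈ U')) → pr w U ≤ pr w U' + pr w B := by
    intro U U' h
    refine le_trans (pr_mono hw ?_) (pr_union_le hw _ _)
    intro ω hω
    by_cases hB : ω ∈ B
    · exact Or.inr hB
    · exact Or.inl (h ω hB hω)
  rw [abs_le]
  constructor
  · linarith [key U' U (fun ω hω => (h ω hω).2)]
  · linarith [key U U' (fun ω hω => (h ω hω).1)]

/-- expectation as a sum of probabilities for counting variables -/
theorem sum_pr_eq {ι : Type*} (s : Finset ι) (P : ι → Ω → Prop) :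
    ∑ i ∈ s, pr w {ω | P i ω} = ∑ ω, w ω * ((s.filter (fun i => P i ω)).card : ℝ) := by
  unfold pr
  rw [Finset.sum_comm]
  refine Finset.sum_congr rfl fun ω _ => ?_
  rw [Finset.card_filter]
  push_cast
  rw [Finset.mul_sum]
  refine Finset.sum_congr rfl fun i _ => ?_
  by_cases h : P i ω <;> simp [h]

end prob

section dep

variable {V : Type*}

theorem DepOn.mono {A B : Set V} {U : Set (SimpleGraph V)} (h : DepOn A U) (hAB : A ⊆ B) :
    DepOn B U := fun G H hGH => h G H fun a ha b hb => hGH a (hAB ha) b (hAB hb)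

theorem DepOn.compl {A : Set V} {U : Set (SimpleGraph V)} (h : DepOn A U) : DepOn A Uᶜ :=
  fun G H hGH => not_congr (h G H hGH)

theorem DepOn.inter {A : Set V} {U U' : Set (SimpleGraph V)} (h : DepOn A U) (h' : DepOn A U') :
    DepOn A (U ∩ U') := fun G H hGH => and_congr (h G H hGH) (h' G H hGH)

theorem DepOn.union {A : Set V} {U U' : Set (SimpleGraph V)} (h : DepOn A U) (h' : DepOn A U') :
    DepOn A (U ∪ U') := fun G H hGH => or_congr (h G H hGH) (h' G H hGH)

theorem depOn_adj {A : Set V} {a b : V} (ha : a ∈ A) (hb : b ∈ A) :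
    DepOn A {G : SimpleGraph V | G.Adj a b} := fun _ _ hGH => hGH a ha b hb

theorem Cn.mono {G : SimpleGraph V} {R R' : Set V} {a b : V} (h : Cn G R a b) (hR : R ⊆ R') :
    Cn G R' a b := by
  unfold Cn at *
  induction h with
  | refl => exact Relation.ReflTransGen.refl
  | tail _ hbc ih => exact Relation.ReflTransGen.tail ih ⟨hbc.1, hR hbc.2.1, hR hbc.2.2⟩

theorem Cn.trans {G : SimpleGraph V} {R : Set V} {a b c : V} (h : Cn G R a b) (h' : Cn G R b c) :
    Cn G R a c := Relation.ReflTransGen.trans h h'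

theorem Cn.refl (G : SimpleGraph V) (R : Set V) (a : V) : Cn G R a a := Relation.ReflTransGen.refl

theorem Cn.symm {G : SimpleGraph V} {R : Set V} {a b : V} (h : Cn G R a b) : Cn G R b a := by
  unfold Cn at *
  induction h with
  | refl => exact Relation.ReflTransGen.refl
  | tail _ hbc ih => exact Relation.ReflTransGen.head ⟨hbc.1.symm, hbc.2.2, hbc.2.1⟩ ih

theorem Cn.of_adj {G : SimpleGraph V} {R : Set V} {a b : V} (h : G.Adj a b) (ha : a ∈ R) (hb : b ∈ R) :
    Cn G R a b := Relation.ReflTransGen.single ⟨h, ha, hb⟩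

theorem depOn_Cn (A : Set V) (a b : V) : DepOn A {G : SimpleGraph V | Cn G A a b} := by
  have key : ∀ G H : SimpleGraph V, (∀ a ∈ A, ∀ b ∈ A, (G.Adj a b ↔ H.Adj a b)) →
      Cn G A a b → Cn H A a b := by
    intro G H hGH h
    unfold Cn at *
    induction h with
    | refl => exact Relation.ReflTransGen.refl
    | tail _ huv ih =>
      exact Relation.ReflTransGen.tail ih ⟨(hGH _ huv.2.1 _ huv.2.2).1 huv.1, huv.2⟩
  intro G H hGH
  exact ⟨key G H hGH, key H G fun a ha b hb => (hGH a ha b hb).symm⟩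

theorem depOn_of_forall {A : Set V} {ι : Type*} (U : ι → Set (SimpleGraph V)) (h : ∀ i, DepOn A (U i)) :
    DepOn A {G | ∀ i, G ∈ U i} := fun G H hGH => forall_congr' fun i => h i G H hGH

theorem depOn_of_exists {A : Set V} {ι : Type*} (U : ι → Set (SimpleGraph V)) (h : ∀ i, DepOn A (U i)) :
    DepOn A {G | ∃ i, G ∈ U i} := fun G H hGH => exists_congr fun i => h i G H hGH

theorem depOn_const {A : Set V} (P : Prop) : DepOn A {_G : SimpleGraph V | P} :=
  fun _ _ _ => Iff.rfl

/-- a graph event determined by finitely many `A`-dependent propositions -/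
theorem depOn_of_congr {A : Set V} {U : Set (SimpleGraph V)} {ι : Type*} (P : ι → SimpleGraph V → Prop)
    (hP : ∀ i, DepOn A {G | P i G})
    (hU : ∀ G H : SimpleGraph V, (∀ i, (P i G ↔ P i H)) → (G ∈ U ↔ H ∈ U)) : DepOn A U :=
  fun G H hGH => hU G H fun i => hP i G H hGH

end dep

/-- disjoint union bound for complements: if `E1ᶜ` and `E2ᶜ` ... product form of independence -/
theorem OneIndep.compl_left {Ω V : Type*} [Fintype Ω] {w : Ω → ℝ} {W : Ω → SimpleGraph V}
    (h : OneIndep w W) {A B : Set V} (hAB : Disjoint A B) {U U' : Set (SimpleGraph V)}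
    (hU : DepOn A U) (hU' : DepOn B U') :
    pr w {ω | W ω ∉ U ∧ W ω ∈ U'} = pr w {ω | W ω ∉ U} * pr w {ω | W ω ∈ U'} :=
  h A B hAB Uᶜ U' hU.compl hU'

end Pool.Agent.OIP
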