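import Pool.Agent.OIP.Defs

set_option autoImplicit false

namespace Pool.Agent.OIP

/-- the system of inequalities with slack `t` -/
structure ALSys (p t a a' e b b' e' al al' n1 be be' n2 : ℝ) : Prop where
  ha : 1 / 2 ≤ a
  hb : 1 / 2 ≤ b
  hal : 1 / 2 ≤ al
  hbe : 1 / 2 ≤ be
  ha' : 0 ≤ a'
  hb' : 0 ≤ b'
  hal' : 0 ≤ al'
  hbe' : 0 ≤ be'
  he : 0 ≤ e
  he' : 0 ≤ e'
  hn1 : 0 ≤ n1
  hn2 : 0 ≤ n2
  s1 : a + a' ≤ 1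
  s2 : b + b' ≤ 1
  s3 : al + al' + n1 ≤ 1
  s4 : be + be' + n2 ≤ 1
  e1 : e ≤ (1 - a - a') * b
  e2 : e' ≤ (1 - b - b') * a
  I1 : b * (p - al * a - al' * a') ≤ n1 * e + t
  I2 : a * (p - be * b - be' * b') ≤ n2 * e' + t
  I3 : a * b + a' * b' + e + e' ≤ 1 - p + t
  I4 : al * be + al' * be' + n1 * be + n2 * al ≤ 1 - p + t

end Pool.Agent.OIP
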