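import Pool.Agent.OIP.Avg

/-!
# OIP: approximate laws and compactness

Both theorems: suppose not; then for every `k` there is an approximate law with `η = 1 / (k + 1)` and
`pr {W ∈ E} < c - ε`.  Push forward to weights `q_k` on the finite type `X = SimpleGraph (SV κ)`
(`q_k G = pr w {ω | W ω = G}`), an element of the compact `stdSimplex ℝ X`.  A subsequence converges to `q`.
All conditions pass to the limit (finite sums are continuous), so `q` restricted to the finite type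
`{G : SimpleGraph (SV κ) // q G ≠ 0}` with `W = Subtype.val` is an exact law and has
`pr {W ∈ E} ≤ c - ε < c`, a contradiction.  (General lemma: for continuous `D`, `F` on a compact set, if
`D q ≤ 0 → c ≤ F q` then for all `ε > 0` there is `η > 0` with `D q ≤ η → c - ε ≤ F q`.)
-/

set_option autoImplicit false

open Finset
open scoped Classical

namespace Pool.Agent.OIP

/-- approximate star law -/
structure NearStar {Ω : Type} [Fintype Ω] {κ : Type} (η p : ℝ) (w : Ω → ℝ) (W : Ω → SimpleGraph (SV κ)) : Prop where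
  law : IsLaw w
  indep : ∀ A B : Set (SV κ), Disjoint A B → ∀ U U' : Set (SimpleGraph (SV κ)), DepOn A U → DepOn B U' →
    |pr w {ω | W ω ∈ U ∧ W ω ∈ U'} - pr w {ω | W ω ∈ U} * pr w {ω | W ω ∈ U'}| ≤ η
  hubEdge : ∀ (i : Bool) (k : κ), p ≤ pr w {ω | (W ω).Adj (hb i) (lf (i, k))}
  vert : ∀ k : κ, p ≤ pr w {ω | (W ω).Adj (lf (false, k)) (lf (true, k))}
  hubVert : p ≤ pr w {ω | (W ω).Adj (hb false) (hb true)}
  clique : ∀ (i : Bool) (j k : κ), j ≠ k → pr w {ω | (W ω).Adj (hb i) (lf (i, j)) ∧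
    (W ω).Adj (hb i) (lf (i, k)) ∧ ¬ (W ω).Adj (lf (i, j)) (lf (i, k))} ≤ η
  cross : ∀ j k : κ, j ≠ k → pr w {ω | (W ω).Adj (hb false) (lf (false, j)) ∧
    (W ω).Adj (hb false) (hb true) ∧ (W ω).Adj (hb true) (lf (true, k)) ∧
    ¬ (W ω).Adj (lf (false, j)) (lf (true, k))} ≤ η

/-- approximate sample law -/
structure NearSample {Ω : Type} [Fintype Ω] {κ : Type} (η p : ℝ) (w : Ω → ℝ) (W : Ω → SimpleGraph (SV κ)) : Prop
    extends NearStar η p w W where
  tr1 : ∀ a b c : Bool × κ, a.2 ≠ b.2 → b.2 ≠ c.2 → a.2 ≠ c.2 →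
    pr w {ω | (W ω).Adj (lf a) (lf b) ∧ (W ω).Adj (lf b) (lf c) ∧ ¬ (W ω).Adj (lf a) (lf c)} ≤ η
  tr2 : ∀ (a b : Bool × κ) (k : κ), a.2 ≠ k → b.2 ≠ k → a.2 ≠ b.2 →
    pr w {ω | (W ω).Adj (lf a) (lf (false, k)) ∧ (W ω).Adj (lf (false, k)) (lf (true, k)) ∧
      (W ω).Adj (lf (true, k)) (lf b) ∧ ¬ (W ω).Adj (lf a) (lf b)} ≤ η

/-- push forward weights -/
noncomputable def push {Ω : Type*} [Fintype Ω] {X : Type*} (w : Ω → ℝ) (W : Ω → X) (G : X) : ℝ :=
  pr w {ω | W ω = G}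

end Pool.Agent.OIP
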