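import Pool.Agent.OIP.Der
import Pool.Agent.OIP.CompactDefs

/-!
# OIP: from star laws to sample laws

`e : κ → Fin n` injective, `σ` a permutation of `Fin n`: the sample consists of the leaves `(i, σ (e k))`.
Region `leafR σ P`: the leaves with index in `σ P`.
-/

set_option autoImplicit false

open Finset
open scoped Classical

namespace Pool.Agent.OIP

section B

variable {n : ℕ} {κ : Type}

/-- positions of the sampled star -/
def xB (σ : Equiv.Perm (Fin n)) (e : κ → Fin n) : SV κ → SV (Fin n)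
  | Sum.inl a => lf (a.1, σ (e a.2))
  | Sum.inr i => hb i

def leafR (σ : Equiv.Perm (Fin n)) (P : Finset (Fin n)) : Set (SV (Fin n)) :=
  {v | ∃ i : Bool, ∃ q ∈ P, v = lf (i, σ q)}

/-- saturation fails: some pair of sampled leaves is connected with the help of `P0 ∪ P1 ∪ P2` and at most one
further sampled index, but not with the help of one of `P0`, `P1`, `P2` alone -/
def badB (σ : Equiv.Perm (Fin n)) (e : κ → Fin n) (P0 P1 P2 : Finset (Fin n)) (G : SimpleGraph (SV (Fin n))) :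
    Prop :=
  ∃ P : Finset (Fin n), (P = P0 ∨ P = P1 ∨ P = P2) ∧ ∃ a b : Bool × κ, a.2 ≠ b.2 ∧
    ((der (xB σ e) (leafR σ (P0 ∪ P1 ∪ P2)) G).Adj (lf a) (lf b) ∨
      ∃ k : κ, k ≠ a.2 ∧ k ≠ b.2 ∧ (der (xB σ e) (leafR σ (P0 ∪ P1 ∪ P2 ∪ {e k})) G).Adj (lf a) (lf b)) ∧
    ¬ (der (xB σ e) (leafR σ P) G).Adj (lf a) (lf b)

end B

end Pool.Agent.OIP
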