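import Pool.Agent.OIP.BDefs

/-! OIP: uses `near_indep` of Der.lean; all differences of derived graphs and all violations of the transitivity
properties are contained in `badB`; `clique`, `cross` are never violated. -/

set_option autoImplicit false

open Finset
open scoped Classical

namespace Pool.Agent.OIP

theorem bNear_leafR_mono {n : ℕ} (σ : Equiv.Perm (Fin n)) {P Q : Finset (Fin n)} (h : P ⊆ Q) :
    leafR σ P ⊆ leafR σ Q := by
  rintro v ⟨i, q, hq, rfl⟩
  exact ⟨i, q, h hq, rfl⟩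

theorem bNear_leafR_disjoint {n : ℕ} (σ : Equiv.Perm (Fin n)) {P Q : Finset (Fin n)} (h : Disjoint P Q) :
    Disjoint (leafR σ P) (leafR σ Q) := by
  rw [Set.disjoint_left]
  rintro v ⟨i, q, hq, rfl⟩ ⟨j, r, hr, hv⟩
  have h1 : (i, σ q) = (j, σ r) := Sum.inl.inj hv
  have h2 : σ q = σ r := congrArg Prod.snd h1
  have h3 : q = r := σ.injective h2
  subst h3
  exact Finset.disjoint_left.1 h hq hr

theorem bNear_disjoint_range {κ : Type} [Fintype κ] [DecidableEq κ] {n : ℕ} (e : κ → Fin n)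
    (σ : Equiv.Perm (Fin n)) {P : Finset (Fin n)} (h : Disjoint P (Finset.univ.image e)) :
    Disjoint (leafR σ P) (Set.range (xB σ e)) := by
  rw [Set.disjoint_left]
  rintro v ⟨i, q, hq, rfl⟩ ⟨s, hs⟩
  rcases s with a | j
  · have h1 : (a.1, σ (e a.2)) = (i, σ q) := Sum.inl.inj hs
    have h2 : σ (e a.2) = σ q := congrArg Prod.snd h1
    have h3 : e a.2 = q := σ.injective h2
    subst h3
    exact Finset.disjoint_left.1 h hq (Finset.mem_image_of_mem _ (Finset.mem_univ _))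
  · exact absurd hs (by simp [xB, hb, lf])

theorem bNear_xB_injective {κ : Type} {n : ℕ} (e : κ → Fin n) (he : Function.Injective e)
    (σ : Equiv.Perm (Fin n)) : Function.Injective (xB σ e) := by
  intro s t hst
  rcases s with a | i <;> rcases t with b | j
  · have h1 : (a.1, σ (e a.2)) = (b.1, σ (e b.2)) := Sum.inl.inj hst
    have h2 : a.1 = b.1 := (Prod.ext_iff.1 h1).1
    have h3 : a.2 = b.2 := he (σ.injective (Prod.ext_iff.1 h1).2)
    exact congrArg Sum.inl (Prod.ext h2 h3)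
  · exact absurd hst (by simp [xB, hb, lf])
  · exact absurd hst (by simp [xB, hb, lf])
  · exact congrArg Sum.inr (Sum.inr.inj hst)

/-- outside the bad event the derived graphs for `P0 ∪ P1 ∪ P2` and for `P` have the same leaf pairs -/
theorem bNear_sat {κ : Type} {n : ℕ} {e : κ → Fin n} {σ : Equiv.Perm (Fin n)} {P0 P1 P2 : Finset (Fin n)}
    {G : SimpleGraph (SV (Fin n))} (hG : ¬ badB σ e P0 P1 P2 G) {P : Finset (Fin n)}
    (hP : P = P0 ∨ P = P1 ∨ P = P2) {a b : Bool × κ} (hab : a.2 ≠ b.2) :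
    (der (xB σ e) (leafR σ P) G).Adj (lf a) (lf b) ↔
      (der (xB σ e) (leafR σ (P0 ∪ P1 ∪ P2)) G).Adj (lf a) (lf b) := by
  constructor
  · intro h
    refine der_mono (bNear_leafR_mono σ ?_) G h
    rcases hP with rfl | rfl | rfl
    · exact Finset.subset_union_left.trans Finset.subset_union_left
    · exact Finset.subset_union_right.trans Finset.subset_union_left
    · exact Finset.subset_union_right
  · intro h
    by_contra hn
    exact hG ⟨P, hP, a, b, hab, Or.inl h, hn⟩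

theorem bNear_eq {κ : Type} {n : ℕ} {e : κ → Fin n} {σ : Equiv.Perm (Fin n)} {P0 P1 P2 : Finset (Fin n)}
    {G : SimpleGraph (SV (Fin n))} (hG : ¬ badB σ e P0 P1 P2 G) {P Q : Finset (Fin n)}
    (hP : P = P0 ∨ P = P1 ∨ P = P2) (hQ : Q = P0 ∨ Q = P1 ∨ Q = P2) :
    der (xB σ e) (leafR σ P) G = der (xB σ e) (leafR σ Q) G := by
  ext s t
  rcases s with a | i <;> rcases t with b | j
  · by_cases hab : a.2 = b.2
    · rw [der_adj_same hab, der_adj_same hab]
    · rw [bNear_sat hG hP hab, bNear_sat hG hQ hab]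
  · exact Iff.rfl
  · exact Iff.rfl
  · exact Iff.rfl

theorem bNear_mem_single {κ : Type} {n : ℕ} (e : κ → Fin n) (σ : Equiv.Perm (Fin n)) (P : Finset (Fin n))
    (i : Bool) (k : κ) : xB σ e (lf (i, k)) ∈ leafR σ (P ∪ {e k}) :=
  ⟨i, e k, Finset.mem_union_right _ (Finset.mem_singleton_self _), rfl⟩

theorem nearSample_of {κ : Type} [Fintype κ] [DecidableEq κ] {n : ℕ} (e : κ → Fin n) (he : Function.Injective e)
    {Ω : Type} [Fintype Ω] {w : Ω → ℝ} {W : Ω → SimpleGraph (SV (Fin n))} {p : ℝ} (h : StarLaw p w W)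
    {P0 P1 P2 : Finset (Fin n)} (h01 : Disjoint P0 P1) (h02 : Disjoint P0 P2) (h12 : Disjoint P1 P2)
    (h0 : Disjoint P0 (Finset.univ.image e)) (h1 : Disjoint P1 (Finset.univ.image e))
    (h2 : Disjoint P2 (Finset.univ.image e)) (σ : Equiv.Perm (Fin n)) {η : ℝ}
    (hbad : pr w {ω | badB σ e P0 P1 P2 (W ω)} ≤ η) :
    NearSample (4 * η) p w (fun ω => der (xB σ e) (leafR σ P0) (W ω)) := by
  have hη : 0 ≤ η := (pr_nonneg h.law _).trans hbad
  have hη4 : η ≤ 4 * η := by linarith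
  have hzero : ∀ Q : Ω → Prop, (∀ ω, ¬ Q ω) → pr w {ω | Q ω} ≤ 4 * η := by
    intro Q hQ
    have : {ω | Q ω} = (∅ : Set Ω) := by
      ext ω
      simp [hQ ω]
    rw [this, pr_empty]
    linarith
  have hsub : ∀ Q : Ω → Prop, (∀ ω, Q ω → badB σ e P0 P1 P2 (W ω)) → pr w {ω | Q ω} ≤ η := by
    intro Q hQ
    exact (pr_mono h.law (fun ω hω => hQ ω hω)).trans hbad
  have hsub4 : ∀ Q : Ω → Prop, (∀ ω, Q ω → badB σ e P0 P1 P2 (W ω)) → pr w {ω | Q ω} ≤ 4 * η :=
    fun Q hQ => (hsub Q hQ).trans hη4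
  have hne : ∀ j k : κ, j ≠ k → σ (e j) ≠ σ (e k) := fun j k hjk heq => hjk (he (σ.injective heq))
  -- the region for one additional index
  have hR0 : ∀ k : κ, leafR σ P0 ⊆ leafR σ (P0 ∪ P1 ∪ P2 ∪ {e k}) := fun k =>
    bNear_leafR_mono σ ((Finset.subset_union_left.trans Finset.subset_union_left).trans
      Finset.subset_union_left)
  refine ⟨⟨h.law, ?_, ?_, ?_, ?_, ?_, ?_⟩, ?_, ?_⟩
  · -- independence
    intro A B hAB U U' hU hU'
    refine near_indep h.law h.indep (bNear_xB_injective e he σ) (bNear_leafR_disjoint σ h12)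
      (bNear_disjoint_range e σ h1) (bNear_disjoint_range e σ h2) ?_ ?_ hAB hU hU'
    · refine hsub (fun ω => der (xB σ e) (leafR σ P0) (W ω) ≠ der (xB σ e) (leafR σ P1) (W ω)) ?_
      intro ω hω
      by_contra hb
      exact hω (bNear_eq hb (Or.inl rfl) (Or.inr (Or.inl rfl)))
    · refine hsub (fun ω => der (xB σ e) (leafR σ P0) (W ω) ≠ der (xB σ e) (leafR σ P2) (W ω)) ?_
      intro ω hω
      by_contra hb
      exact hω (bNear_eq hb (Or.inl rfl) (Or.inr (Or.inr rfl)))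
  · intro i k
    exact h.hubEdge i (σ (e k))
  · intro k
    have := h.vert (σ (e k))
    refine this.trans (le_of_eq ?_)
    congr 1
    ext ω
    exact (der_adj_same (x := xB σ e) (R := leafR σ P0) (G := W ω) (a := (false, k)) (b := (true, k)) rfl).symm
  · exact h.hubVert
  · intro i j k hjk
    refine hzero (fun ω => (der (xB σ e) (leafR σ P0) (W ω)).Adj (hb i) (lf (i, j)) ∧
      (der (xB σ e) (leafR σ P0) (W ω)).Adj (hb i) (lf (i, k)) ∧
      ¬ (der (xB σ e) (leafR σ P0) (W ω)).Adj (lf (i, j)) (lf (i, k))) ?_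
    rintro ω ⟨ha, hb', hc⟩
    refine hc ((der_adj_leaf (a := (i, j)) (b := (i, k)) hjk).2 ?_)
    refine Cn.of_adj (h.clique ω i (σ (e j)) (σ (e k)) (hne j k hjk) ha hb') ?_ ?_
    · exact Or.inr (Or.inl rfl)
    · exact Or.inr (Or.inr rfl)
  · intro j k hjk
    refine hzero (fun ω => (der (xB σ e) (leafR σ P0) (W ω)).Adj (hb false) (lf (false, j)) ∧
      (der (xB σ e) (leafR σ P0) (W ω)).Adj (hb false) (hb true) ∧
      (der (xB σ e) (leafR σ P0) (W ω)).Adj (hb true) (lf (true, k)) ∧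
      ¬ (der (xB σ e) (leafR σ P0) (W ω)).Adj (lf (false, j)) (lf (true, k))) ?_
    rintro ω ⟨ha, hb', hc, hd⟩
    refine hd ((der_adj_leaf (a := (false, j)) (b := (true, k)) hjk).2 ?_)
    refine Cn.of_adj (h.cross ω (σ (e j)) (σ (e k)) (hne j k hjk) ha hb' hc) ?_ ?_
    · exact Or.inr (Or.inl rfl)
    · exact Or.inr (Or.inr rfl)
  · intro a b c hab hbc hac
    refine hsub4 (fun ω => (der (xB σ e) (leafR σ P0) (W ω)).Adj (lf a) (lf b) ∧
      (der (xB σ e) (leafR σ P0) (W ω)).Adj (lf b) (lf c) ∧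
      ¬ (der (xB σ e) (leafR σ P0) (W ω)).Adj (lf a) (lf c)) ?_
    rintro ω ⟨h1', h2', h3'⟩
    refine ⟨P0, Or.inl rfl, a, c, hac, Or.inr ⟨b.2, hab.symm, hbc, ?_⟩, h3'⟩
    rw [der_adj_leaf hab] at h1'
    rw [der_adj_leaf hbc] at h2'
    rw [der_adj_leaf hac]
    have hb0 : xB σ e (lf b) ∈ leafR σ (P0 ∪ P1 ∪ P2 ∪ {e b.2}) := bNear_mem_single e σ _ b.1 b.2
    refine Cn.trans (h1'.mono ?_) (h2'.mono ?_)
    · rintro v (hv | hv | hv)
      · exact Or.inl (hR0 _ hv)
      · exact Or.inr (Or.inl hv)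
      · rw [Set.mem_singleton_iff] at hv
        rw [hv]
        exact Or.inl hb0
    · rintro v (hv | hv | hv)
      · exact Or.inl (hR0 _ hv)
      · rw [hv]
        exact Or.inl hb0
      · exact Or.inr (Or.inr hv)
  · intro a b k hak hbk hab
    refine hsub4 (fun ω => (der (xB σ e) (leafR σ P0) (W ω)).Adj (lf a) (lf (false, k)) ∧
      (der (xB σ e) (leafR σ P0) (W ω)).Adj (lf (false, k)) (lf (true, k)) ∧
      (der (xB σ e) (leafR σ P0) (W ω)).Adj (lf (true, k)) (lf b) ∧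
      ¬ (der (xB σ e) (leafR σ P0) (W ω)).Adj (lf a) (lf b)) ?_
    rintro ω ⟨h1', h2', h3', h4'⟩
    refine ⟨P0, Or.inl rfl, a, b, hab, Or.inr ⟨k, hak.symm, hbk.symm, ?_⟩, h4'⟩
    rw [der_adj_leaf (a := a) (b := (false, k)) hak] at h1'
    rw [der_adj_same (a := (false, k)) (b := (true, k)) rfl] at h2'
    rw [der_adj_leaf (a := (true, k)) (b := b) hbk.symm] at h3'
    rw [der_adj_leaf hab]
    have hk0 : ∀ i : Bool, xB σ e (lf (i, k)) ∈ leafR σ (P0 ∪ P1 ∪ P2 ∪ {e k}) := fun i =>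
      bNear_mem_single e σ _ i k
    refine Cn.trans (h1'.mono ?_) (Cn.trans (Cn.of_adj h2' (Or.inl (hk0 false)) (Or.inl (hk0 true)))
      (h3'.mono ?_))
    · rintro v (hv | hv | hv)
      · exact Or.inl (hR0 _ hv)
      · exact Or.inr (Or.inl hv)
      · rw [Set.mem_singleton_iff] at hv
        rw [hv]
        exact Or.inl (hk0 false)
    · rintro v (hv | hv | hv)
      · exact Or.inl (hR0 _ hv)
      · rw [hv]
        exact Or.inl (hk0 true)
      · exact Or.inr (Or.inr hv)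

end Pool.Agent.OIP
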