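import Pool.Agent.OIP.CompactGen

/-! OIP: see the header of CompactDefs.lean -/

set_option autoImplicit false

open Finset
open scoped Classical

namespace Pool.Agent.OIP

theorem compactSample_continuous_pr {X : Type*} [Fintype X] (U : Set X) :
    Continuous (fun q : X → ℝ => pr q U) := by
  unfold pr
  refine continuous_finsetSum _ fun x _ => ?_
  by_cases hx : x ∈ U
  · simp only [Set.indicator_of_mem hx]
    exact continuous_apply x
  · simp only [Set.indicator_of_notMem hx]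
    exact continuous_const

/-- the compactness lemma for a finite family of continuous constraints -/
theorem compactSample_family {X ι : Type*} [Fintype X] [Fintype ι] (f : ι → (X → ℝ) → ℝ)
    (hf : ∀ a, Continuous (f a)) (F : (X → ℝ) → ℝ) (hF : Continuous F) (c : ℝ)
    (h : ∀ q : X → ℝ, IsLaw q → (∀ a, f a q ≤ 0) → c ≤ F q) (ε : ℝ) (hε : 0 < ε) :
    ∃ η : ℝ, 0 < η ∧ ∀ q : X → ℝ, IsLaw q → (∀ a, f a q ≤ η) → c - ε ≤ F q := by
  have hD : Continuous (fun q : X → ℝ => ∑ a, max (f a q) 0) :=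
    continuous_finsetSum _ fun a _ => (hf a).max continuous_const
  obtain ⟨η, hη, hmain⟩ := compact_gen (fun q : X → ℝ => ∑ a, max (f a q) 0) F hD hF c (by
    intro q hq hDq
    refine h q hq fun a => ?_
    have h1 : max (f a q) 0 ≤ ∑ a, max (f a q) 0 :=
      Finset.single_le_sum (f := fun a => max (f a q) 0) (fun b _ => le_max_right _ _)
        (Finset.mem_univ a)
    exact (le_max_left _ _).trans (h1.trans hDq)) ε hε
  refine ⟨η / ((Fintype.card ι : ℝ) + 1), by positivity, ?_⟩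
  intro q hq hfq
  refine hmain q hq ?_
  have hpos : (0 : ℝ) < (Fintype.card ι : ℝ) + 1 := by positivity
  have hη' : 0 ≤ η / ((Fintype.card ι : ℝ) + 1) := by positivity
  calc ∑ a, max (f a q) 0 ≤ ∑ _a : ι, η / ((Fintype.card ι : ℝ) + 1) :=
        Finset.sum_le_sum fun a _ => max_le (hfq a) hη'
    _ = (Fintype.card ι : ℝ) * (η / ((Fintype.card ι : ℝ) + 1)) := by
        rw [Finset.sum_const, Finset.card_univ, nsmul_eq_mul]
    _ ≤ ((Fintype.card ι : ℝ) + 1) * (η / ((Fintype.card ι : ℝ) + 1)) :=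
        mul_le_mul_of_nonneg_right (by linarith) hη'
    _ = η := by field_simp

theorem compactSample_zero {X : Type*} [Fintype X] {q : X → ℝ} (hq : IsLaw q) {U : Set X}
    (h : pr q U ≤ 0) (G : X) (hG : G ∈ U) : q G = 0 := by
  have h1 : U.indicator q G ≤ pr q U := by
    unfold pr
    exact Finset.single_le_sum (f := fun x => U.indicator q x)
      (fun b _ => Set.indicator_nonneg (fun y _ => hq.nonneg y) b) (Finset.mem_univ G)
  rw [Set.indicator_of_mem hG] at h1
  exact le_antisymm (h1.trans h) (hq.nonneg G)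

theorem sample_compact {κ : Type} [Fintype κ] [DecidableEq κ] (p c : ℝ) (E : Set (SimpleGraph (SV κ)))
    (h : ∀ (Ω : Type) [Fintype Ω] (w : Ω → ℝ) (W : Ω → SimpleGraph (SV κ)), SampleLaw p w W →
      c ≤ pr w {ω | W ω ∈ E}) (ε : ℝ) (hε : 0 < ε) :
    ∃ η : ℝ, 0 < η ∧ ∀ (Ω : Type) [Fintype Ω] (w : Ω → ℝ) (W : Ω → SimpleGraph (SV κ)),
      NearSample η p w W → c - ε ≤ pr w {ω | W ω ∈ E} := by
  -- constraints
  let X := SimpleGraph (SV κ)
  let I1 := {x : Set (SV κ) × Set (SV κ) × Set X × Set X //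
    Disjoint x.1 x.2.1 ∧ DepOn x.1 x.2.2.1 ∧ DepOn x.2.1 x.2.2.2}
  let f1 : I1 → (X → ℝ) → ℝ := fun x q =>
    |pr q {G | G ∈ x.1.2.2.1 ∧ G ∈ x.1.2.2.2} - pr q {G | G ∈ x.1.2.2.1} * pr q {G | G ∈ x.1.2.2.2}|
  let I2 := Bool × κ
  let f2 : I2 → (X → ℝ) → ℝ := fun x q => p - pr q {G : X | G.Adj (hb x.1) (lf (x.1, x.2))}
  let f3 : κ → (X → ℝ) → ℝ := fun k q => p - pr q {G : X | G.Adj (lf (false, k)) (lf (true, k))}
  let f4 : Unit → (X → ℝ) → ℝ := fun _ q => p - pr q {G : X | G.Adj (hb false) (hb true)}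
  let I5' := {x : Bool × κ × κ // x.2.1 ≠ x.2.2}
  let f5 : I5' → (X → ℝ) → ℝ := fun x q => pr q {G : X | G.Adj (hb x.1.1) (lf (x.1.1, x.1.2.1)) ∧
    G.Adj (hb x.1.1) (lf (x.1.1, x.1.2.2)) ∧ ¬ G.Adj (lf (x.1.1, x.1.2.1)) (lf (x.1.1, x.1.2.2))}
  let I6 := {x : κ × κ // x.1 ≠ x.2}
  let f6 : I6 → (X → ℝ) → ℝ := fun x q => pr q {G : X | G.Adj (hb false) (lf (false, x.1.1)) ∧
    G.Adj (hb false) (hb true) ∧ G.Adj (hb true) (lf (true, x.1.2)) ∧
    ¬ G.Adj (lf (false, x.1.1)) (lf (true, x.1.2))}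
  let I7 := {x : (Bool × κ) × (Bool × κ) × (Bool × κ) //
    x.1.2 ≠ x.2.1.2 ∧ x.2.1.2 ≠ x.2.2.2 ∧ x.1.2 ≠ x.2.2.2}
  let f7 : I7 → (X → ℝ) → ℝ := fun x q => pr q {G : X | G.Adj (lf x.1.1) (lf x.1.2.1) ∧
    G.Adj (lf x.1.2.1) (lf x.1.2.2) ∧ ¬ G.Adj (lf x.1.1) (lf x.1.2.2)}
  let I8 := {x : (Bool × κ) × (Bool × κ) × κ // x.1.2 ≠ x.2.2 ∧ x.2.1.2 ≠ x.2.2 ∧ x.1.2 ≠ x.2.1.2}
  let f8 : I8 → (X → ℝ) → ℝ := fun x q => pr q {G : X | G.Adj (lf x.1.1) (lf (false, x.1.2.2)) ∧
    G.Adj (lf (false, x.1.2.2)) (lf (true, x.1.2.2)) ∧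
      G.Adj (lf (true, x.1.2.2)) (lf x.1.2.1) ∧ ¬ G.Adj (lf x.1.1) (lf x.1.2.1)}
  have hpr : ∀ U : Set X, Continuous (fun q : X → ℝ => pr q U) := compactSample_continuous_pr
  obtain ⟨η, hη, hmain⟩ := compactSample_family (X := X)
    (ι := I1 ⊕ I2 ⊕ κ ⊕ Unit ⊕ I5' ⊕ I6 ⊕ I7 ⊕ I8)
    (Sum.elim f1 (Sum.elim f2 (Sum.elim f3 (Sum.elim f4 (Sum.elim f5 (Sum.elim f6
      (Sum.elim f7 f8))))))) (by
      rintro (a | a | a | a | a | a | a | a)
      · exact ((hpr _).sub ((hpr _).mul (hpr _))).abs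
      · exact continuous_const.sub (hpr _)
      · exact continuous_const.sub (hpr _)
      · exact continuous_const.sub (hpr _)
      · exact hpr _
      · exact hpr _
      · exact hpr _
      · exact hpr _)
    (fun q => pr q E) (hpr E) c (by
      intro q hq hall
      simp only [Sum.forall, Sum.elim_inl, Sum.elim_inr] at hall
      obtain ⟨h1, h2, h3, h4, h5, h6, h7, h8⟩ := hall
      have hsupp := pr_support q
      have hlaw := isLaw_support hq
      have hfin := h {G : X // q G ≠ 0} (fun G => q G.1) (fun G => G.1)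
        { law := hlaw
          indep := ?_
          hubEdge := ?_
          vert := ?_
          hubVert := ?_
          clique := ?_
          cross := ?_
          tr := ?_ }
      · rw [← hsupp E]
        exact hfin
      · intro A B hAB U U' hU hU'
        have h9 := h1 ⟨(A, B, U, U'), hAB, hU, hU'⟩
        have h10 : pr q {G | G ∈ U ∧ G ∈ U'} = pr q {G | G ∈ U} * pr q {G | G ∈ U'} := by
          have := abs_nonpos_iff.1 h9
          linarith [this]
        have e1 := hsupp {G | G ∈ U ∧ G ∈ U'}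
        have e2 := hsupp {G | G ∈ U}
        have e3 := hsupp {G | G ∈ U'}
        rw [← e1, ← e2, ← e3] at h10
        exact h10
      · intro i k
        have h9 := h2 (i, k)
        have e1 := hsupp {G | G.Adj (hb i) (lf (i, k))}
        have h10 : p ≤ pr q {G : X | G.Adj (hb i) (lf (i, k))} := by
          have : p - pr q {G : X | G.Adj (hb i) (lf (i, k))} ≤ 0 := h9
          linarith
        rw [← e1] at h10
        exact h10
      · intro k
        have h9 := h3 k
        have e1 := hsupp {G | G.Adj (lf (false, k)) (lf (true, k))}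
        have h10 : p ≤ pr q {G : X | G.Adj (lf (false, k)) (lf (true, k))} := by
          have : p - pr q {G : X | G.Adj (lf (false, k)) (lf (true, k))} ≤ 0 := h9
          linarith
        rw [← e1] at h10
        exact h10
      · have h9 := h4 ()
        have e1 := hsupp {G | G.Adj (hb false) (hb true)}
        have h10 : p ≤ pr q {G : X | G.Adj (hb false) (hb true)} := by
          have : p - pr q {G : X | G.Adj (hb false) (hb true)} ≤ 0 := h9
          linarith
        rw [← e1] at h10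
        exact h10
      · intro ω i j k hjk ha hb'
        by_contra hcon
        exact ω.2 (compactSample_zero hq (h5 ⟨(i, j, k), hjk⟩) ω.1 ⟨ha, hb', hcon⟩)
      · intro ω j k hjk ha hb' hc'
        by_contra hcon
        exact ω.2 (compactSample_zero hq (h6 ⟨(j, k), hjk⟩) ω.1 ⟨ha, hb', hc', hcon⟩)
      · intro ω
        constructor
        · intro a b d hab hbd had h9 h10
          by_contra hcon
          exact ω.2 (compactSample_zero hq (h7 ⟨(a, b, d), hab, hbd, had⟩) ω.1 ⟨h9, h10, hcon⟩)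
        · intro a b k hak hbk hab h9 h10 h11
          by_contra hcon
          exact ω.2 (compactSample_zero hq (h8 ⟨(a, b, k), hak, hbk, hab⟩) ω.1
            ⟨h9, h10, h11, hcon⟩)) ε hε
  refine ⟨η, hη, ?_⟩
  intro Ω _ w W hN
  have hp := pr_push w W
  have hres := hmain (push w W) (isLaw_push hN.law W) (by
    simp only [Sum.forall, Sum.elim_inl, Sum.elim_inr]
    refine ⟨?_, ?_, ?_, ?_, ?_, ?_, ?_, ?_⟩
    · rintro ⟨⟨A, B, U, U'⟩, hAB, hU, hU'⟩
      have h9 := hN.indep A B hAB U U' hU hU'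
      show |pr (push w W) {G | G ∈ U ∧ G ∈ U'} - pr (push w W) {G | G ∈ U} *
        pr (push w W) {G | G ∈ U'}| ≤ η
      rw [hp, hp, hp]
      exact h9
    · rintro ⟨i, k⟩
      have h9 := hN.hubEdge i k
      show p - pr (push w W) {G : X | G.Adj (hb i) (lf (i, k))} ≤ η
      rw [hp]
      have : p - pr w {ω | (W ω).Adj (hb i) (lf (i, k))} ≤ η := by linarith
      exact this
    · intro k
      have h9 := hN.vert k
      show p - pr (push w W) {G : X | G.Adj (lf (false, k)) (lf (true, k))} ≤ η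
      rw [hp]
      have : p - pr w {ω | (W ω).Adj (lf (false, k)) (lf (true, k))} ≤ η := by linarith
      exact this
    · intro _
      have h9 := hN.hubVert
      show p - pr (push w W) {G : X | G.Adj (hb false) (hb true)} ≤ η
      rw [hp]
      have : p - pr w {ω | (W ω).Adj (hb false) (hb true)} ≤ η := by linarith
      exact this
    · rintro ⟨⟨i, j, k⟩, hjk⟩
      show pr (push w W) {G : X | G.Adj (hb i) (lf (i, j)) ∧
        G.Adj (hb i) (lf (i, k)) ∧ ¬ G.Adj (lf (i, j)) (lf (i, k))} ≤ η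
      rw [hp]
      exact hN.clique i j k hjk
    · rintro ⟨⟨j, k⟩, hjk⟩
      show pr (push w W) {G : X | G.Adj (hb false) (lf (false, j)) ∧
        G.Adj (hb false) (hb true) ∧ G.Adj (hb true) (lf (true, k)) ∧
        ¬ G.Adj (lf (false, j)) (lf (true, k))} ≤ η
      rw [hp]
      exact hN.cross j k hjk
    · rintro ⟨⟨a, b, d⟩, hab, hbd, had⟩
      show pr (push w W) {G : X | G.Adj (lf a) (lf b) ∧ G.Adj (lf b) (lf d) ∧
        ¬ G.Adj (lf a) (lf d)} ≤ η
      rw [hp]
      exact hN.tr1 a b d hab hbd had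
    · rintro ⟨⟨a, b, k⟩, hak, hbk, hab⟩
      show pr (push w W) {G : X | G.Adj (lf a) (lf (false, k)) ∧
        G.Adj (lf (false, k)) (lf (true, k)) ∧
          G.Adj (lf (true, k)) (lf b) ∧ ¬ G.Adj (lf a) (lf b)} ≤ η
      rw [hp]
      exact hN.tr2 a b k hak hbk hab)
  rw [hp] at hres
  exact hres

end Pool.Agent.OIP
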