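import Pool.Agent.OIP.CompactGen

/-! OIP: see the header of CompactDefs.lean -/

set_option autoImplicit false

open Finset
open scoped Classical

namespace Pool.Agent.OIP

private theorem compactstar_gen {X J : Type} [Fintype X] [Fintype J] (g : J → (X → ℝ) → ℝ)
    (hg : ∀ j, Continuous (g j)) (hg0 : ∀ j q, 0 ≤ g j q) (F : (X → ℝ) → ℝ) (hF : Continuous F)
    (c : ℝ) (h : ∀ q : X → ℝ, IsLaw q → (∀ j, g j q ≤ 0) → c ≤ F q) (ε : ℝ) (hε : 0 < ε) :
    ∃ η : ℝ, 0 < η ∧ ∀ q : X → ℝ, IsLaw q → (∀ j, g j q ≤ η) → c - ε ≤ F q := by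
  obtain ⟨η, hη, hη'⟩ := compact_gen (fun q => ∑ j, g j q) F
    (continuous_finsetSum _ fun j _ => hg j) hF c (fun q hq hD => h q hq fun j =>
      (Finset.single_le_sum (fun j _ => hg0 j q) (Finset.mem_univ j)).trans hD) ε hε
  have hc : (0 : ℝ) < (Fintype.card J : ℝ) + 1 := by positivity
  refine ⟨η / ((Fintype.card J : ℝ) + 1), div_pos hη hc, fun q hq hj => hη' q hq ?_⟩
  calc ∑ j, g j q ≤ ∑ _j : J, η / ((Fintype.card J : ℝ) + 1) := Finset.sum_le_sum fun j _ => hj j
    _ = (Fintype.card J : ℝ) * (η / ((Fintype.card J : ℝ) + 1)) := by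
        rw [Finset.sum_const, Finset.card_univ, nsmul_eq_mul]
    _ ≤ η := by
        rw [mul_div_assoc', div_le_iff₀ hc]
        nlinarith

private theorem compactstar_cont {X : Type} [Fintype X] (U : Set X) :
    Continuous fun q : X → ℝ => pr q U := by
  unfold pr
  refine continuous_finsetSum _ fun x _ => ?_
  by_cases hx : x ∈ U
  · simp only [Set.indicator_of_mem hx]
    exact continuous_apply x
  · simp only [Set.indicator_of_notMem hx]
    exact continuous_const

private theorem compactstar_null {X : Type} [Fintype X] {q : X → ℝ} (hq : IsLaw q) {U : Set X}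
    (hU : pr q U ≤ 0) {x : X} (hx : q x ≠ 0) : x ∉ U := by
  intro hxU
  have h1 : q x ≤ pr q U := by
    unfold pr
    have h2 := Finset.single_le_sum (f := fun y => U.indicator q y)
      (fun y _ => Set.indicator_nonneg (fun z _ => hq.nonneg z) y) (Finset.mem_univ x)
    simp only [Set.indicator_of_mem hxU] at h2
    exact h2
  exact hx (le_antisymm (h1.trans hU) (hq.nonneg x))

theorem star_compact {κ : Type} [Fintype κ] [DecidableEq κ] (p c : ℝ) (E : Set (SimpleGraph (SV κ)))
    (h : ∀ (Ω : Type) [Fintype Ω] (w : Ω → ℝ) (W : Ω → SimpleGraph (SV κ)), StarLaw p w W →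
      c ≤ pr w {ω | W ω ∈ E}) (ε : ℝ) (hε : 0 < ε) :
    ∃ η : ℝ, 0 < η ∧ ∀ (Ω : Type) [Fintype Ω] (w : Ω → ℝ) (W : Ω → SimpleGraph (SV κ)),
      NearStar η p w W → c - ε ≤ pr w {ω | W ω ∈ E} := by
  let _ : Fintype (SimpleGraph (SV κ)) := Fintype.ofFinite _
  let J₁ : Type := {x : Set (SV κ) × Set (SV κ) × Set (SimpleGraph (SV κ)) ×
    Set (SimpleGraph (SV κ)) // Disjoint x.1 x.2.1 ∧ DepOn x.1 x.2.2.1 ∧ DepOn x.2.1 x.2.2.2}
  let J₅ : Type := {x : Bool × κ × κ // x.2.1 ≠ x.2.2}
  let J₆ : Type := {x : κ × κ // x.1 ≠ x.2}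
  let _ : Fintype J₁ := Fintype.ofFinite _
  let _ : Fintype J₅ := Fintype.ofFinite _
  let _ : Fintype J₆ := Fintype.ofFinite _
  let g₁ : J₁ → (SimpleGraph (SV κ) → ℝ) → ℝ := fun x q =>
    |pr q (x.1.2.2.1 ∩ x.1.2.2.2) - pr q x.1.2.2.1 * pr q x.1.2.2.2|
  let g₂ : Bool × κ → (SimpleGraph (SV κ) → ℝ) → ℝ := fun x q =>
    max 0 (p - pr q {G | G.Adj (hb x.1) (lf (x.1, x.2))})
  let g₃ : κ → (SimpleGraph (SV κ) → ℝ) → ℝ := fun k q =>
    max 0 (p - pr q {G | G.Adj (lf (false, k)) (lf (true, k))})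
  let g₄ : Unit → (SimpleGraph (SV κ) → ℝ) → ℝ := fun _ q =>
    max 0 (p - pr q {G | G.Adj (hb false) (hb true)})
  let g₅ : J₅ → (SimpleGraph (SV κ) → ℝ) → ℝ := fun x q =>
    max 0 (pr q {G | G.Adj (hb x.1.1) (lf (x.1.1, x.1.2.1)) ∧
      G.Adj (hb x.1.1) (lf (x.1.1, x.1.2.2)) ∧
      ¬ G.Adj (lf (x.1.1, x.1.2.1)) (lf (x.1.1, x.1.2.2))})
  let g₆ : J₆ → (SimpleGraph (SV κ) → ℝ) → ℝ := fun x q =>
    max 0 (pr q {G | G.Adj (hb false) (lf (false, x.1.1)) ∧ G.Adj (hb false) (hb true) ∧
      G.Adj (hb true) (lf (true, x.1.2)) ∧ ¬ G.Adj (lf (false, x.1.1)) (lf (true, x.1.2))})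
  obtain ⟨η, hη, hη'⟩ := compactstar_gen (X := SimpleGraph (SV κ))
    (J := J₁ ⊕ (Bool × κ) ⊕ κ ⊕ Unit ⊕ J₅ ⊕ J₆)
    (Sum.elim g₁ (Sum.elim g₂ (Sum.elim g₃ (Sum.elim g₄ (Sum.elim g₅ g₆)))))
    (by
      rintro (x | x | x | x | x | x)
      · exact ((compactstar_cont _).sub ((compactstar_cont _).mul (compactstar_cont _))).abs
      · exact continuous_const.max (continuous_const.sub (compactstar_cont _))
      · exact continuous_const.max (continuous_const.sub (compactstar_cont _))
      · exact continuous_const.max (continuous_const.sub (compactstar_cont _))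
      · exact continuous_const.max (compactstar_cont _)
      · exact continuous_const.max (compactstar_cont _))
    (by
      rintro (x | x | x | x | x | x) q
      · exact abs_nonneg _
      · exact le_max_left _ _
      · exact le_max_left _ _
      · exact le_max_left _ _
      · exact le_max_left _ _
      · exact le_max_left _ _)
    (fun q => pr q E) (compactstar_cont E) c
    (by
      intro q hq hj
      have e := fun U : Set (SimpleGraph (SV κ)) => pr_support q U
      have hlaw : StarLaw p (fun G : {G : SimpleGraph (SV κ) // q G ≠ 0} => q G.1)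
          (fun G => G.1) := by
        refine ⟨isLaw_support hq, ?_, ?_, ?_, ?_, ?_, ?_⟩
        · intro A B hAB U U' hU hU'
          have h1 : g₁ ⟨(A, B, U, U'), hAB, hU, hU'⟩ q ≤ 0 := hj (Sum.inl _)
          have h2 := abs_eq_zero.1 (le_antisymm h1 (abs_nonneg _))
          have h3 := sub_eq_zero.1 h2
          have e1 := e (U ∩ U')
          have e2 := e U
          have e3 := e U'
          rw [← e1, ← e2, ← e3] at h3
          exact h3
        · intro i k
          have h1 : g₂ (i, k) q ≤ 0 := hj (Sum.inr (Sum.inl _))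
          have h2 := (le_max_right _ _).trans h1
          have e1 := e {G | G.Adj (hb i) (lf (i, k))}
          have h3 : p ≤ pr q {G | G.Adj (hb i) (lf (i, k))} := by linarith
          rw [← e1] at h3
          exact h3
        · intro k
          have h1 : g₃ k q ≤ 0 := hj (Sum.inr (Sum.inr (Sum.inl _)))
          have h2 := (le_max_right _ _).trans h1
          have e1 := e {G | G.Adj (lf (false, k)) (lf (true, k))}
          have h3 : p ≤ pr q {G | G.Adj (lf (false, k)) (lf (true, k))} := by linarith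
          rw [← e1] at h3
          exact h3
        · have h1 : g₄ () q ≤ 0 := hj (Sum.inr (Sum.inr (Sum.inr (Sum.inl ()))))
          have h2 := (le_max_right _ _).trans h1
          have e1 := e {G | G.Adj (hb false) (hb true)}
          have h3 : p ≤ pr q {G | G.Adj (hb false) (hb true)} := by linarith
          rw [← e1] at h3
          exact h3
        · intro G i j k hjk h1 h2
          by_contra h3
          have h4 : g₅ ⟨(i, j, k), hjk⟩ q ≤ 0 := hj (Sum.inr (Sum.inr (Sum.inr (Sum.inr (Sum.inl _)))))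
          exact compactstar_null hq ((le_max_right _ _).trans h4) G.2 ⟨h1, h2, h3⟩
        · intro G j k hjk h1 h2 h3
          by_contra h4
          have h5 : g₆ ⟨(j, k), hjk⟩ q ≤ 0 := hj (Sum.inr (Sum.inr (Sum.inr (Sum.inr (Sum.inr _)))))
          exact compactstar_null hq ((le_max_right _ _).trans h5) G.2 ⟨h1, h2, h3, h4⟩
      have h1 := h {G : SimpleGraph (SV κ) // q G ≠ 0} (fun G => q G.1) (fun G => G.1) hlaw
      exact h1.trans (e E).le) ε hε
  refine ⟨η, hη, ?_⟩
  intro Ω _ w W hN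
  have e := fun U : Set (SimpleGraph (SV κ)) => pr_push w W U
  have h1 := hη' (push w W) (isLaw_push hN.law W) (by
    rintro (⟨⟨A, B, U, U'⟩, hAB, hU, hU'⟩ | ⟨i, k⟩ | k | - | ⟨⟨i, j, k⟩, hjk⟩ | ⟨⟨j, k⟩, hjk⟩)
    · have h1 := hN.indep A B hAB U U' hU hU'
      have e1 := e (U ∩ U')
      have e2 := e U
      have e3 := e U'
      show |pr (push w W) (U ∩ U') - pr (push w W) U * pr (push w W) U'| ≤ η
      rw [e1, e2, e3]
      exact h1
    · show max 0 (p - pr (push w W) {G | G.Adj (hb i) (lf (i, k))}) ≤ η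
      rw [e]
      have h1 := hN.hubEdge i k
      refine max_le hη.le ?_
      have h2 : p ≤ pr w {ω | W ω ∈ {G : SimpleGraph (SV κ) | G.Adj (hb i) (lf (i, k))}} := h1
      linarith
    · show max 0 (p - pr (push w W) {G | G.Adj (lf (false, k)) (lf (true, k))}) ≤ η
      rw [e]
      have h1 := hN.vert k
      refine max_le hη.le ?_
      have h2 : p ≤ pr w {ω | W ω ∈ {G : SimpleGraph (SV κ) |
        G.Adj (lf (false, k)) (lf (true, k))}} := h1
      linarith
    · show max 0 (p - pr (push w W) {G | G.Adj (hb false) (hb true)}) ≤ η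
      rw [e]
      have h1 := hN.hubVert
      refine max_le hη.le ?_
      have h2 : p ≤ pr w {ω | W ω ∈ {G : SimpleGraph (SV κ) | G.Adj (hb false) (hb true)}} := h1
      linarith
    · show max 0 (pr (push w W) {G | G.Adj (hb i) (lf (i, j)) ∧ G.Adj (hb i) (lf (i, k)) ∧
        ¬ G.Adj (lf (i, j)) (lf (i, k))}) ≤ η
      rw [e]
      exact max_le hη.le (hN.clique i j k hjk)
    · show max 0 (pr (push w W) {G | G.Adj (hb false) (lf (false, j)) ∧
        G.Adj (hb false) (hb true) ∧ G.Adj (hb true) (lf (true, k)) ∧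
        ¬ G.Adj (lf (false, j)) (lf (true, k))}) ≤ η
      rw [e]
      exact max_le hη.le (hN.cross j k hjk))
  have h2 := e E
  rw [← h2]
  exact h1

end Pool.Agent.OIP
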