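import Pool.Agent.OIP.SDich
import Pool.Agent.OIP.SCoreFin
import Pool.Agent.OIP.SGoodAvg
import Pool.Agent.OIP.SHub

/-! OIP: see the header of SDich.lean -/

set_option autoImplicit false

open Finset
open scoped Classical

namespace Pool.Agent.OIP

theorem smain_half_lt_pc : 1 / 2 < pc := by
  unfold pc
  have h : Real.sqrt 3 < 7 / 4 := by
    rw [Real.sqrt_lt' (by norm_num)]
    norm_num
  linarith

/-- for large `m` all error terms are small -/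
theorem smain_choose (d θ : ℝ) (hd : 0 < d) (hθ : 0 < θ) :
    ∃ m₀ : ℕ, ∀ m : ℕ, m₀ ≤ m → 4 ≤ m ∧ 2 ≤ d * (m : ℝ) ∧
      12 / (d ^ 3 * m) + (1 / ((m : ℝ) + 1) + 1 / ((m : ℝ) + 1)) ≤ θ := by
  refine ⟨max 4 (max ⌈2 / d⌉₊ ⌈(12 / d ^ 3 + 2) / θ⌉₊), fun m hm => ?_⟩
  have h4 : 4 ≤ m := (le_max_left _ _).trans hm
  have h2 : ⌈2 / d⌉₊ ≤ m := ((le_max_left _ _).trans (le_max_right _ _)).trans hm
  have h3 : ⌈(12 / d ^ 3 + 2) / θ⌉₊ ≤ m := ((le_max_right _ _).trans (le_max_right _ _)).trans hm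
  have h2' : 2 / d ≤ (m : ℝ) := Nat.ceil_le.1 h2
  have h3' : (12 / d ^ 3 + 2) / θ ≤ (m : ℝ) := Nat.ceil_le.1 h3
  have hmpos : (0 : ℝ) < (m : ℝ) := by
    have : (4 : ℝ) ≤ (m : ℝ) := by exact_mod_cast h4
    linarith
  refine ⟨h4, ?_, ?_⟩
  · rw [div_le_iff₀ hd] at h2'
    linarith
  · rw [div_le_iff₀ hθ] at h3'
    have hd3 : 0 < d ^ 3 := by positivity
    have e1 : 12 / (d ^ 3 * (m : ℝ)) = (12 / d ^ 3) / (m : ℝ) := by
      rw [div_div]
    have e2 : 1 / ((m : ℝ) + 1) ≤ 1 / (m : ℝ) :=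
      one_div_le_one_div_of_le hmpos (by linarith)
    have e3 : (12 / d ^ 3) / (m : ℝ) + (1 / (m : ℝ) + 1 / (m : ℝ)) = (12 / d ^ 3 + 2) / (m : ℝ) := by
      ring
    have e4 : (12 / d ^ 3 + 2) / (m : ℝ) ≤ θ := by
      rw [div_le_iff₀ hmpos]
      linarith
    rw [e1]
    linarith

theorem sample_main (p : ℝ) (hp : pc < p) (hp1 : p ≤ 1) (ε : ℝ) (hε : 0 < ε) :
    ∃ m₀ : ℕ, ∀ m : ℕ, m₀ ≤ m → ∀ (Ω : Type) [Fintype Ω] (w : Ω → ℝ)
      (W : Ω → SimpleGraph (SV (I5 m))), SampleLaw p w W →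
      1 - ε ≤ pr w {ω | MajS (dl p) (W ω)} := by
  obtain ⟨η, hη, hcore⟩ := core p hp hp1
  have hp2 : 1 / 2 < p := smain_half_lt_pc.trans hp
  have hd : 0 < dl p := by
    unfold dl
    linarith
  obtain ⟨m₀, hm₀⟩ := smain_choose (dl p) (min η (min (ε / 2) (η * (ε / 2)))) hd (by positivity)
  refine ⟨m₀, fun m hm Ω _ w W h => ?_⟩
  obtain ⟨h4, h2, hsmall⟩ := hm₀ m hm
  have hw := h.law
  -- the average
  have hg := good_avg hp2 hp1 h2 h
  have hh0 : avg (fun σ : Equiv.Perm (I5 m) => avg (fun t : Fin m =>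
      hubErr w W σ false 0 t + hubErr w W σ true 1 t)) ≤ 1 / ((m : ℝ) + 1) + 1 / ((m : ℝ) + 1) := by
    rw [avg_comm]
    refine avg_le_of_le (by positivity) fun t => ?_
    rw [avg_add]
    exact add_le_add (hub_avg hw W false 0 (by decide) t) (hub_avg hw W true 1 (by decide) t)
  obtain ⟨σ, hσ⟩ := exists_le_avg (fun σ : Equiv.Perm (I5 m) =>
    pr w {ω | ¬ GoodG (dl p) σ (W ω)} +
      avg (fun t : Fin m => hubErr w W σ false 0 t + hubErr w W σ true 1 t))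
  have hadd := avg_add (fun σ : Equiv.Perm (I5 m) => pr w {ω | ¬ GoodG (dl p) σ (W ω)})
    (fun σ : Equiv.Perm (I5 m) =>
      avg (fun t : Fin m => hubErr w W σ false 0 t + hubErr w W σ true 1 t))
  have hσ' := ((hσ.trans hadd.le).trans (add_le_add hg hh0)).trans hsmall
  have hA : 0 ≤ pr w {ω | ¬ GoodG (dl p) σ (W ω)} := pr_nonneg hw _
  have hB : 0 ≤ avg (fun t : Fin m => hubErr w W σ false 0 t + hubErr w W σ true 1 t) :=
    avg_nonneg fun t => add_nonneg (pr_nonneg hw _) (pr_nonneg hw _)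
  have hθ1 : min η (min (ε / 2) (η * (ε / 2))) ≤ η := min_le_left _ _
  have hθ2 : min η (min (ε / 2) (η * (ε / 2))) ≤ ε / 2 := (min_le_right _ _).trans (min_le_left _ _)
  have hθ3 : min η (min (ε / 2) (η * (ε / 2))) ≤ η * (ε / 2) :=
    (min_le_right _ _).trans (min_le_right _ _)
  have hL := hcore m h4 Ω w W h σ (by linarith) (by linarith)
  have hdich := dichotomy h4 hd.le h σ
  -- `1 - pr (LkE σ 1) ≤ ε / 2`
  have hL1 : 1 - pr w {ω | W ω ∈ LkE σ 1} ≤ ε / 2 := by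
    have h0 : 0 ≤ 1 - pr w {ω | W ω ∈ LkE σ 1} := by
      linarith [pr_le_one hw {ω | W ω ∈ LkE σ 1}]
    have h1 : η * (1 - pr w {ω | W ω ∈ LkE σ 1}) ≤
        pr w {ω | W ω ∈ LkE σ 0} * (1 - pr w {ω | W ω ∈ LkE σ 1}) :=
      mul_le_mul_of_nonneg_right hL.le h0
    have h2 : η * (1 - pr w {ω | W ω ∈ LkE σ 1}) ≤ η * (ε / 2) := by linarith
    exact le_of_mul_le_mul_left h2 hη
  -- combine
  have hsub : pr w {ω | W ω ∈ LkE σ 1} ≤
      pr w {ω | MajS (dl p) (W ω)} + pr w {ω | ¬ GoodG (dl p) σ (W ω)} := by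
    refine le_trans (pr_mono hw ?_) (pr_union_le hw _ _)
    intro ω hω
    by_cases hG : GoodG (dl p) σ (W ω)
    · exact Or.inl (maj_of_good hd h2 (h.tr ω) hG 1 hω)
    · exact Or.inr hG
  linarith

end Pool.Agent.OIP
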