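import Pool.Agent.OIP.BSat
import Pool.Agent.OIP.BNear
import Pool.Agent.OIP.BSamp
import Pool.Agent.OIP.SMain
import Pool.Agent.OIP.CompactSample
import Pool.Agent.OIP.CompactStar

/-! OIP: main theorem for star laws -/

set_option autoImplicit false

open Finset
open scoped Classical

namespace Pool.Agent.OIP

theorem bmain_dl_pos {p : ℝ} (hp : pc < p) : 0 < dl p := by
  have h3 : Real.sqrt 3 < 7 / 4 := by
    rw [show (7 / 4 : ℝ) = Real.sqrt ((7 / 4) ^ 2) by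
      rw [Real.sqrt_sq (by norm_num)]]
    exact Real.sqrt_lt_sqrt (by norm_num) (by norm_num)
  unfold pc at hp
  unfold dl
  linarith

/-- Given `ε`: choose `m` with `sample_main` for `ε/8` and `8 / (δ² 5 m) ≤ ε/4`, then `η` by
`sample_compact` (loss `ε/8`), then `n₀` by `Bsat` for `η ε / 32`.  For all but a fraction `ε/8` of the `σ`
the law of `der (xB σ e) (leafR σ P0) W` is a `NearSample η` law (`nearSample_of`), so
`avg_σ pr {MajS (der ..)} ≥ 1 - ε/2`; then `majW_of_sample` with `avg_pr_le`. -/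
theorem star_main (p : ℝ) (hp : pc < p) (hp1 : p ≤ 1) (ε : ℝ) (hε : 0 < ε) :
    ∃ n₀ : ℕ, ∀ n : ℕ, n₀ ≤ n → ∀ (Ω : Type) [Fintype Ω] (w : Ω → ℝ)
      (W : Ω → SimpleGraph (SV (Fin n))), StarLaw p w W →
      1 - ε ≤ pr w {ω | MajW (dl p / 2) (W ω)} := by
  have hδ : 0 < dl p := bmain_dl_pos hp
  obtain ⟨m₀, hm₀⟩ := sample_main p hp hp1 (ε / 8) (by linarith)
  obtain ⟨m₁, hm₁⟩ := exists_nat_ge (32 / (ε * (dl p) ^ 2))
  set m : ℕ := max m₀ (max m₁ 1) with hmdef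
  have hmm₀ : m₀ ≤ m := le_max_left _ _
  have hmm₁ : m₁ ≤ m := (le_max_left _ _).trans (le_max_right _ _)
  have hm1 : 1 ≤ m := (le_max_right _ _).trans (le_max_right _ _)
  have hmR : (1 : ℝ) ≤ (m : ℝ) := by exact_mod_cast hm1
  have hsmall : 8 / ((dl p) ^ 2 * (Fintype.card (I5 m) : ℝ)) ≤ ε / 4 := by
    have hcard : (Fintype.card (I5 m) : ℝ) = 5 * (m : ℝ) := by
      simp [Fintype.card_prod]
    rw [hcard]
    have h1 : 32 / (ε * (dl p) ^ 2) ≤ (m : ℝ) := hm₁.trans (by exact_mod_cast hmm₁)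
    have h2 : 32 ≤ (m : ℝ) * (ε * (dl p) ^ 2) := by
      rwa [div_le_iff₀ (by positivity)] at h1
    rw [div_le_iff₀ (by positivity)]
    nlinarith
  obtain ⟨η, hη, hcomp⟩ := sample_compact (κ := I5 m) p (1 - ε / 8) {G | MajS (dl p) G}
    (fun Ω _ w W hW => hm₀ m hmm₀ Ω w W hW) (ε / 8) (by linarith)
  obtain ⟨n₀, hn₀⟩ := Bsat (I5 m) (η * ε / 32) (by positivity)
  refine ⟨max n₀ (Fintype.card (I5 m)), ?_⟩
  intro n hn Ω _ w W hW
  have hnn : n₀ ≤ n := (le_max_left _ _).trans hn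
  have hcn : Fintype.card (I5 m) ≤ n := (le_max_right _ _).trans hn
  obtain ⟨e⟩ : Nonempty (I5 m ↪ Fin n) := by
    apply Function.Embedding.nonempty_of_card_le
    simpa using hcn
  obtain ⟨P0, P1, P2, h01, h02, h12, h0, h1, h2, havg⟩ :=
    hn₀ n hnn e e.injective Ω w W hW.law
  set F : Equiv.Perm (Fin n) → ℝ := fun σ => pr w {ω | badB σ e P0 P1 P2 (W ω)} with hF
  have hFnn : ∀ σ, 0 ≤ F σ := fun σ => pr_nonneg hW.law _
  have hmark : avg (fun σ => ind (η / 4 < F σ)) ≤ ε / 8 := by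
    refine (avg_ind_lt_le hFnn (by positivity : (0 : ℝ) < η / 4)).trans ?_
    rw [div_le_iff₀ (by positivity)]
    calc avg F ≤ η * ε / 32 := havg
      _ = ε / 8 * (η / 4) := by ring
  -- lower bound for every permutation
  have hlow : ∀ σ : Equiv.Perm (Fin n), 1 - ε / 4 ≤
      pr w {ω | MajS (dl p) (der (xB σ e) (leafR σ P0) (W ω))} + ind (η / 4 < F σ) := by
    intro σ
    by_cases hσ : η / 4 < F σ
    · have h1 : ind (η / 4 < F σ) = 1 := by simp [ind, hσ]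
      rw [h1]
      have := pr_nonneg hW.law {ω | MajS (dl p) (der (xB σ e) (leafR σ P0) (W ω))}
      linarith
    · have hi : ind (η / 4 < F σ) = 0 := by simp [ind, hσ]
      rw [hi, add_zero]
      have hns := nearSample_of e e.injective hW h01 h02 h12 h0 h1 h2 σ (not_lt.1 hσ)
      have h4 : 4 * (η / 4) = η := by ring
      rw [h4] at hns
      have := hcomp Ω w (fun ω => der (xB σ e) (leafR σ P0) (W ω)) hns
      have h5 : (1 : ℝ) - ε / 8 - ε / 8 = 1 - ε / 4 := by ring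
      rw [h5] at this
      exact this
  have hbadavg : avg (fun σ : Equiv.Perm (Fin n) => pr w {ω |
      MajS (dl p) (der (xB σ e) (leafR σ P0) (W ω)) ∧ ¬ MajW (dl p / 2) (W ω)}) ≤ ε / 4 :=
    avg_pr_le hW.law (fun (σ : Equiv.Perm (Fin n)) ω =>
      MajS (dl p) (der (xB σ e) (leafR σ P0) (W ω)) ∧ ¬ MajW (dl p / 2) (W ω)) (ε / 4)
      (fun ω => (majW_of_sample e e.injective P0 (W ω) (dl p) hδ).trans hsmall)
  have hpoint : ∀ σ : Equiv.Perm (Fin n), 1 - ε / 4 ≤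
      pr w {ω | MajW (dl p / 2) (W ω)} +
      (pr w {ω | MajS (dl p) (der (xB σ e) (leafR σ P0) (W ω)) ∧ ¬ MajW (dl p / 2) (W ω)} +
      ind (η / 4 < F σ)) := by
    intro σ
    have h1 := hlow σ
    have h2 := pr_le_add_diff hW.law {ω | MajS (dl p) (der (xB σ e) (leafR σ P0) (W ω))}
      {ω | MajW (dl p / 2) (W ω)}
    have h3 : ({ω | MajS (dl p) (der (xB σ e) (leafR σ P0) (W ω))} \
      {ω | MajW (dl p / 2) (W ω)} : Set Ω) =
      {ω | MajS (dl p) (der (xB σ e) (leafR σ P0) (W ω)) ∧ ¬ MajW (dl p / 2) (W ω)} := by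
      ext ω
      simp
    rw [h3] at h2
    linarith
  have hA := avg_mono hpoint
  rw [avg_const, avg_add, avg_const, avg_add] at hA
  linarith

/-- combination with `star_compact` -/
theorem star_near_main (p : ℝ) (hp : pc < p) (hp1 : p ≤ 1) (ε : ℝ) (hε : 0 < ε) :
    ∃ n₀ : ℕ, ∀ n : ℕ, n₀ ≤ n → ∃ η : ℝ, 0 < η ∧ ∀ (Ω : Type) [Fintype Ω] (w : Ω → ℝ)
      (W : Ω → SimpleGraph (SV (Fin n))), NearStar η p w W →
      1 - ε ≤ pr w {ω | MajW (dl p / 2) (W ω)} := by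
  obtain ⟨n₀, hn₀⟩ := star_main p hp hp1 (ε / 2) (by linarith)
  refine ⟨n₀, fun n hn => ?_⟩
  obtain ⟨η, hη, h⟩ := star_compact (κ := Fin n) p (1 - ε / 2) {G | MajW (dl p / 2) G}
    (fun Ω _ w W hW => hn₀ n hn Ω w W hW) (ε / 2) (by linarith)
  refine ⟨η, hη, fun Ω _ w W hW => ?_⟩
  have h1 := h Ω w W hW
  have h2 : (1 : ℝ) - ε / 2 - ε / 2 = 1 - ε := by ring
  rw [h2] at h1
  exact h1

end Pool.Agent.OIP
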