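import Pool.Agent.OIP.FNear
import Pool.Agent.OIP.BMain

/-! OIP: see the header of FSat.lean -/

set_option autoImplicit false

open Finset
open scoped Classical

namespace Pool.Agent.OIP

/-- one component contains at least a fraction `1/2 + δ` of the leaves of the star in both layers -/
def StarGood {D : Type} [Fintype D] [DecidableEq D] {n : ℕ} (δ : ℝ) (ι : Fin n → D)
    (G : SimpleGraph (Bool × Finset D)) : Prop :=
  ∃ u : Bool × Finset D, ∀ i : Bool, (1 / 2 + δ) * (n : ℝ) ≤
    ((Finset.univ.filter (fun k : Fin n => Cn G Set.univ (i, (vs ι).erase (ι k)) u)).card : ℝ)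

/-- a path of leaves in the derived graph gives a path in the original graph -/
theorem fmain_cn {V κ : Type} {x : SV κ → V} {R : Set V} {G : SimpleGraph V} {s t : SV κ}
    (h : Cn (der x R G) (Set.range Sum.inl) s t) : Cn G Set.univ (x s) (x t) := by
  unfold Cn at h
  induction h with
  | refl => exact Cn.refl _ _ _
  | tail _ hbc ih =>
    rename_i b c
    obtain ⟨h1, ⟨b', rfl⟩, ⟨c', rfl⟩⟩ := hbc
    refine ih.trans ?_
    by_cases hbc' : b'.2 = c'.2
    · exact Cn.of_adj ((der_adj_same hbc').1 h1) (Set.mem_univ _) (Set.mem_univ _)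
    · exact ((der_adj_leaf hbc').1 h1).mono (Set.subset_univ _)

theorem starGood_of_majW {D : Type} [Fintype D] [DecidableEq D] {n : ℕ} (δ : ℝ) (ι : Fin n → D)
    (R : Set (Bool × Finset D)) (G : SimpleGraph (Bool × Finset D)) (h : MajW δ (der (xA ι) R G)) :
    StarGood δ ι G := by
  obtain ⟨a, ha⟩ := h
  refine ⟨xA ι (lf a), fun i => ?_⟩
  have h1 := ha i
  rw [Fintype.card_fin] at h1
  refine h1.trans ?_
  have h2 : (Finset.univ.filter (fun k : Fin n => Cn (der (xA ι) R G) (Set.range Sum.inl) (lf a) (lf (i, k)))).card ≤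
      (Finset.univ.filter (fun k : Fin n => Cn G Set.univ (i, (vs ι).erase (ι k)) (xA ι (lf a)))).card := by
    apply Finset.card_le_card
    intro k hk
    rw [Finset.mem_filter] at hk ⊢
    exact ⟨hk.1, (fmain_cn hk.2).symm⟩
  exact_mod_cast h2

theorem fmain_near_mono {Ω : Type} [Fintype Ω] {κ : Type} {η η' p : ℝ} {w : Ω → ℝ}
    {W : Ω → SimpleGraph (SV κ)} (h : NearStar η p w W) (hη : η ≤ η') : NearStar η' p w W where
  law := h.law
  indep := fun A B hAB U U' hU hU' => (h.indep A B hAB U U' hU hU').trans hη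
  hubEdge := h.hubEdge
  vert := h.vert
  hubVert := h.hubVert
  clique := fun i j k hjk => (h.clique i j k hjk).trans hη
  cross := fun j k hjk => (h.cross j k hjk).trans hη

/-- symmetrization over permutations of the target -/
theorem fmain_symm {D : Type} [Fintype D] [DecidableEq D] {n : ℕ} (F : (Fin n → D) → ℝ) :
    avg F = avg (fun ι : Fin n → D => avg (fun σ : Equiv.Perm D => F (σ ∘ ι))) := by
  rw [avg_comm]
  have h : ∀ σ : Equiv.Perm D, avg (fun ι : Fin n → D => F (σ ∘ ι)) = avg F := by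
    intro σ
    exact avg_equiv (Equiv.arrowCongr (Equiv.refl (Fin n)) σ) F
  simp only [h]
  exact (avg_const _).symm

/-- star theorem for the two-layer cube -/
theorem fiber_main (p : ℝ) (hp : pc < p) (hp1 : p ≤ 1) (ε : ℝ) (hε : 0 < ε) :
    ∃ n₀ : ℕ, ∀ n : ℕ, n₀ ≤ n → ∀ η : ℝ, 0 < η → ∃ N₀ : ℕ, ∀ (D : Type) [Fintype D] [DecidableEq D],
      N₀ ≤ Fintype.card D → ∀ (Ω : Type) [Fintype Ω] (w : Ω → ℝ) (W : Ω → SimpleGraph (Bool × Finset D)),
      FiberLaw p w W →
      avg (fun ι : Fin n → D => ind (Function.Injective ι ∧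
        pr w {ω | StarGood (dl p / 2) ι (W ω)} < 1 - ε)) ≤ η := by
  obtain ⟨n₀, hn₀⟩ := star_near_main p hp hp1 ε hε
  refine ⟨n₀, fun n hn η hη => ?_⟩
  obtain ⟨ηs, hηs, hmain⟩ := hn₀ n hn
  obtain ⟨N₀, hN₀⟩ := fiber_near n (min ηs η) (lt_min hηs hη)
  refine ⟨N₀, ?_⟩
  intro D _ _ hD Ω _ w W hW
  rw [fmain_symm]
  refine avg_le_of_le hη.le fun ι => ?_
  by_cases hι : Function.Injective ι
  · refine le_trans (avg_mono fun σ => ?_) ((hN₀ D hD Ω w W p hW ι hι).trans (min_le_right _ _))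
    refine ind_mono ?_
    rintro ⟨_, h2⟩ ⟨T, hT⟩
    have h3 := hmain Ω w _ (fmain_near_mono hT (min_le_left _ _))
    have h4 : pr w {ω | MajW (dl p / 2) (der (xA (σ ∘ ι)) (far (σ ∘ ι) T) (W ω))} ≤
        pr w {ω | StarGood (dl p / 2) (σ ∘ ι) (W ω)} :=
      pr_mono hW.law fun ω hω => starGood_of_majW _ _ _ _ hω
    linarith
  · have h0 : ∀ σ : Equiv.Perm D, ind (Function.Injective (σ ∘ ι) ∧
        pr w {ω | StarGood (dl p / 2) (σ ∘ ι) (W ω)} < 1 - ε) = 0 := by
      intro σ
      unfold ind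
      rw [if_neg]
      rintro ⟨h1, _⟩
      exact hι (Function.Injective.of_comp h1)
    simp only [h0]
    rw [avg_const]
    exact hη.le

end Pool.Agent.OIP
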