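import Pool.Agent.OIP.ML
import Pool.Agent.OIP.FMain

/-! OIP: stars over a base point of the cube -/

set_option autoImplicit false

open Finset
open scoped Classical

namespace Pool.Agent.OIP

/-- 1-independent bond percolation law on the cube of subsets of `D` -/
structure CubeLaw {Ω : Type} [Fintype Ω] {D : Type} [DecidableEq D] (p : ℝ) (w : Ω → ℝ)
    (W : Ω → SimpleGraph (Finset D)) : Prop where
  law : IsLaw w
  indep : OneIndep w W
  edge : ∀ (S : Finset D) (d : D), d ∉ S → p ≤ pr w {ω | (W ω).Adj S (insert d S)}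

/-- leaves of the star `ι` over the base `B` -/
def lvs {D : Type} [DecidableEq D] {n : ℕ} (B : Finset D) (ι : Fin n → D) (k : Fin n) : Finset D :=
  B ∪ (vs ι).erase (ι k)

/-- base region: all `S` whose trace on the base directions `ρ` belongs to `A` -/
def baseR {D κ : Type} [Fintype κ] [DecidableEq κ] (ρ : κ → D) (A : Set (Finset κ)) : Set (Finset D) :=
  {S | Finset.univ.filter (fun k => ρ k ∈ S) ∈ A}

/-- embedding of the two-layer cube over the directions outside the base, base points `c` and `insert x c` -/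
def embB {D κ : Type} [DecidableEq D] [DecidableEq κ] (ρ : κ → D) (c : Finset κ) (x : κ) :
    Bool × Finset {d : D // d ∉ Set.range ρ} → Finset D :=
  fun u => (if u.1 then insert x c else c).image ρ ∪ u.2.image Subtype.val

private theorem base_mem_rho {D κ : Type} [DecidableEq D] [DecidableEq κ] {ρ : κ → D}
    (hρ : Function.Injective ρ) (c : Finset κ) (x : κ)
    (u : Bool × Finset {d : D // d ∉ Set.range ρ}) (k : κ) :
    ρ k ∈ embB ρ c x u ↔ k ∈ (if u.1 then insert x c else c) := by
  unfold embB
  rw [Finset.mem_union, Finset.mem_image, Finset.mem_image]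
  constructor
  · rintro (⟨l, hl, hlk⟩ | ⟨d, -, hd⟩)
    · rw [← hρ hlk]
      exact hl
    · exact absurd ⟨k, hd.symm⟩ d.2
  · intro hk
    exact Or.inl ⟨k, hk, rfl⟩

private theorem base_mem_val {D κ : Type} [DecidableEq D] [DecidableEq κ] (ρ : κ → D)
    (c : Finset κ) (x : κ) (u : Bool × Finset {d : D // d ∉ Set.range ρ})
    (d : {d : D // d ∉ Set.range ρ}) : d.1 ∈ embB ρ c x u ↔ d ∈ u.2 := by
  unfold embB
  rw [Finset.mem_union, Finset.mem_image, Finset.mem_image]
  constructor
  · rintro (⟨l, -, hl⟩ | ⟨d', hd', hdd⟩)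
    · exact absurd ⟨l, hl⟩ d.2
    · rw [← Subtype.ext hdd]
      exact hd'
  · intro hd
    exact Or.inr ⟨d, hd, rfl⟩

private theorem base_ext {D κ : Type} [DecidableEq D] [DecidableEq κ] (ρ : κ → D)
    {A B : Finset D} (h1 : ∀ k, ρ k ∈ A ↔ ρ k ∈ B)
    (h2 : ∀ d : {d : D // d ∉ Set.range ρ}, d.1 ∈ A ↔ d.1 ∈ B) : A = B := by
  ext y
  by_cases hy : y ∈ Set.range ρ
  · obtain ⟨k, rfl⟩ := hy
    exact h1 k
  · exact h2 ⟨y, hy⟩

theorem embB_injective {D κ : Type} [Fintype D] [DecidableEq D] [Fintype κ] [DecidableEq κ] {ρ : κ → D}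
    (hρ : Function.Injective ρ) {c : Finset κ} {x : κ} (hx : x ∉ c) : Function.Injective (embB ρ c x) := by
  rintro ⟨i, S⟩ ⟨j, T⟩ huv
  have h1 : i = j := by
    have h2 := base_mem_rho hρ c x (i, S) x
    rw [huv, base_mem_rho hρ c x (j, T) x] at h2
    cases i <;> cases j <;> simp [hx] at h2 ⊢
  have h3 : S = T := by
    ext d
    have h4 := base_mem_val ρ c x (i, S) d
    rw [huv, base_mem_val ρ c x (j, T) d] at h4
    exact h4.symm
  rw [h1, h3]

theorem fiberLaw_embB {D κ : Type} [Fintype D] [DecidableEq D] [Fintype κ] [DecidableEq κ] {ρ : κ → D}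
    (hρ : Function.Injective ρ) {c : Finset κ} {x : κ} (hx : x ∉ c) {Ω : Type} [Fintype Ω] {p : ℝ} {w : Ω → ℝ}
    {W : Ω → SimpleGraph (Finset D)} (h : CubeLaw p w W) :
    FiberLaw p w (fun ω => (W ω).comap (embB ρ c x)) := by
  refine ⟨h.law, h.indep.comap (embB_injective hρ hx), ?_, ?_⟩
  · intro i S d hd
    have h1 : embB ρ c x (i, insert d S) = insert d.1 (embB ρ c x (i, S)) := by
      refine base_ext ρ (fun k => ?_) (fun d' => ?_)
      · rw [Finset.mem_insert, base_mem_rho hρ, base_mem_rho hρ]
        constructor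
        · exact Or.inr
        · rintro (h2 | h2)
          · exact absurd ⟨k, h2⟩ d.2
          · exact h2
      · rw [Finset.mem_insert, base_mem_val, base_mem_val]
        show d' ∈ insert d S ↔ _
        rw [Finset.mem_insert, Subtype.ext_iff]
    have h2 : d.1 ∉ embB ρ c x (i, S) := by
      rw [base_mem_val]
      exact hd
    have h3 := h.edge (embB ρ c x (i, S)) d.1 h2
    rw [← h1] at h3
    exact h3
  · intro S
    have h1 : embB ρ c x (true, S) = insert (ρ x) (embB ρ c x (false, S)) := by
      refine base_ext ρ (fun k => ?_) (fun d' => ?_)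
      · rw [Finset.mem_insert, base_mem_rho hρ, base_mem_rho hρ]
        simp only [if_true, Bool.false_eq_true, if_false, Finset.mem_insert]
        rw [hρ.eq_iff]
      · rw [Finset.mem_insert, base_mem_val, base_mem_val]
        constructor
        · exact Or.inr
        · rintro (h2 | h2)
          · exact absurd ⟨x, h2.symm⟩ d'.2
          · exact h2
    have h2 : ρ x ∉ embB ρ c x (false, S) := by
      rw [base_mem_rho hρ]
      simpa using hx
    have h3 := h.edge (embB ρ c x (false, S)) (ρ x) h2
    rw [← h1] at h3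
    exact h3

private theorem base_leaf {D κ : Type} [Fintype D] [DecidableEq D] [Fintype κ] [DecidableEq κ]
    (ρ : κ → D) (c : Finset κ) (x : κ) {n : ℕ} (ι : Fin n → {d : D // d ∉ Set.range ρ})
    (i : Bool) (k : Fin n) :
    embB ρ c x (i, (vs ι).erase (ι k)) =
      lvs ((if i then insert x c else c).image ρ) (fun k => (ι k).1) k := by
  unfold embB lvs vs
  rw [Finset.image_erase Subtype.val_injective, Finset.image_image]
  rfl

private theorem base_mem_baseR {D κ : Type} [Fintype κ] [DecidableEq κ] (ρ : κ → D)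
    (A : Set (Finset κ)) (S : Finset D) {T : Finset κ} (hT : T ∈ A) (h : ∀ k, k ∈ T ↔ ρ k ∈ S) :
    S ∈ baseR ρ A := by
  unfold baseR
  rw [Set.mem_ofPred_eq]
  convert hT using 1
  ext k
  rw [Finset.mem_filter, h]
  simp

/-- a good star over the two base points gives a majority link in the base region -/
theorem mld_of_starGood {D κ : Type} [Fintype D] [DecidableEq D] [Fintype κ] [DecidableEq κ] {ρ : κ → D}
    (hρ : Function.Injective ρ) {c : Finset κ} {x : κ} (hx : x ∉ c) {n : ℕ} {δ : ℝ}
    (ι : Fin n → {d : D // d ∉ Set.range ρ}) (G : SimpleGraph (Finset D))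
    (h : StarGood δ ι (G.comap (embB ρ c x))) :
    MLd δ G (baseR ρ {c, insert x c}) (lvs (c.image ρ) (fun k => (ι k).1))
      (lvs ((insert x c).image ρ) (fun k => (ι k).1)) := by
  obtain ⟨u, hu⟩ := h
  have hR : embB ρ c x '' Set.univ ⊆ baseR ρ {c, insert x c} := by
    rintro S ⟨v, -, rfl⟩
    have h0 : (if v.1 then insert x c else c) ∈ ({c, insert x c} : Set (Finset κ)) := by
      cases v.1 <;> simp
    exact base_mem_baseR ρ _ _ h0 fun k => (base_mem_rho hρ c x v k).symm
  have key : ∀ i : Bool, (1 / 2 + δ) * (n : ℝ) ≤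
      ((Finset.univ.filter (fun k : Fin n => Cn G (baseR ρ {c, insert x c})
        (lvs ((if i then insert x c else c).image ρ) (fun k => (ι k).1) k)
        (embB ρ c x u))).card : ℝ) := by
    intro i
    refine (hu i).trans ?_
    refine Nat.cast_le.2 (Finset.card_le_card ?_)
    intro k hk
    rw [Finset.mem_filter] at hk ⊢
    refine ⟨hk.1, ?_⟩
    have h1 := (Cn.of_comap hk.2).mono hR
    rw [base_leaf] at h1
    exact h1
  exact ⟨embB ρ c x u, key false, key true⟩

end Pool.Agent.OIP
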