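import Pool.Agent.OIP.LatDefs

/-!
# OIP: the lower bound of Day, Falgas-Ravry and Hancock

Independent vertex states (product measure), bonds are functions of the states of their two ends.
`r u = max |u i|` is the sup norm of `u`.  Let `p = 4 - 2√3`, `√p = √3 - 1`, `s = (3 - √3)/2`, so that
`s² + (1 - s)² = p` and `s √p = 1 - p`.  States:
* `r u ≡ 0 mod 3` : no randomness;
* `r u ≡ 1 mod 3` : state `i` (inner) with probability `s`, state `o` (outer) with probability `1 - s`;
* `r u ≡ 2 mod 3` : state `o` with probability `√p`, state `U` with probability `1 - √p`.
Bonds (between lattice neighbours `u`, `v` the norms differ by at most one):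
* both norms `≡ 0` (then equal): open;
* norms `3 k` and `3 k + 1` : open iff the outer end has state `i` (probability `s ≥ p`);
* both norms `≡ 1` : open iff the states are equal (probability `p`);
* norms `3 k + 1` (vertex `u`) and `3 k + 2` (vertex `v`) : open iff `v` has state `U`, or `u` and `v` both have
  state `o` (probability `(1 - √p) + √p (1 - s) = p`);
* both norms `≡ 2` : open iff both states are `o` (probability `p`);
* norms `3 k + 2` and `3 k + 3` : open iff the inner end has state `o` (probability `√p ≥ p`).
A vertex of norm `r ≥ 1` has at most one neighbour of norm `r - 1` and there is no bond between vertices with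
equal positive norm that could be a problem.  Claim: let `I_k` be the set of vertices of norm `≤ 3 k`, those of
norm `3 k + 1` with state `i`, and those of norm `3 k + 2` with state `U` whose neighbour of norm `3 k + 1` exists and
has state `i`.  Then there is no open bond between `I_k` and its complement.  Hence all components are finite.
-/

set_option autoImplicit false

open MeasureTheory ProbabilityTheory

namespace Pool.Agent.OIP

/-- sup norm -/
def rn {n : ℕ} (u : Fin n → ℤ) : ℕ := Finset.univ.sup (fun i => (u i).natAbs)

/-- state of the bond between `u` and `v` if `rn u ≤ rn v`.  Meaning of the vertex states: for norm `1 mod 3`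
`true` is `i` and `false` is `o`; for norm `2 mod 3` `true` is `o` and `false` is `U`. -/
def half {n : ℕ} (σ : (Fin n → ℤ) → Bool) (u v : Fin n → ℤ) : Bool :=
  if rn v % 3 = 0 then (if rn u = rn v then true else σ u)
  else if rn v % 3 = 1 then (if rn u = rn v then (σ u == σ v) else σ v)
  else (if rn u = rn v then (σ u && σ v) else (!σ v || !σ u))

def bdS {n : ℕ} (σ : (Fin n → ℤ) → Bool) (u v : Fin n → ℤ) : Bool :=
  if rn u ≤ rn v then half σ u v else half σ v u

/-- the bond configuration given by the vertex states -/
def bondC {n : ℕ} (σ : (Fin n → ℤ) → Bool) : (Fin n → ℤ) × Fin n → Bool :=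
  fun e => bdS σ e.1 (e.1 + Pi.single e.2 1)

end Pool.Agent.OIP
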