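import Pool.Agent.OIP.DFHDefs

/-! OIP: all components of the DFH configuration are finite (for every configuration of states)

For `k : ℕ` let `I k` be the set of `u` with `rn u ≤ 3 k`, or `rn u = 3 k + 1` and `σ u = true`, or
`rn u = 3 k + 2`, `σ u = false` and there is a lattice neighbour `v` of `u` with `rn v = 3 k + 1` and `σ v = true`.
No open bond joins `I k` and its complement (a vertex has at most one neighbour of smaller norm), `I k` is finite,
and every vertex `x` lies in `I (rn x)`. -/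

set_option autoImplicit false

open MeasureTheory ProbabilityTheory

namespace Pool.Agent.OIP

/-- lattice neighbours -/
def dfhdetLN {n : ℕ} (u v : Fin n → ℤ) : Prop :=
  ∃ i : Fin n, (∀ j, j ≠ i → v j = u j) ∧ (v i = u i + 1 ∨ v i = u i - 1)

theorem dfhdet_LN_add {n : ℕ} (u : Fin n → ℤ) (i : Fin n) :
    dfhdetLN u (u + Pi.single i 1) := by
  refine ⟨i, fun j hj => ?_, Or.inl ?_⟩
  · simp [Pi.single_eq_of_ne hj]
  · simp

theorem dfhdet_LN_symm {n : ℕ} {u v : Fin n → ℤ} (h : dfhdetLN u v) : dfhdetLN v u := by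
  obtain ⟨i, h1, h2⟩ := h
  refine ⟨i, fun j hj => (h1 j hj).symm, ?_⟩
  omega

theorem dfhdet_le_rn {n : ℕ} (u : Fin n → ℤ) (i : Fin n) : (u i).natAbs ≤ rn u :=
  Finset.le_sup (f := fun i => (u i).natAbs) (Finset.mem_univ i)

theorem dfhdet_rn_le {n : ℕ} {u v : Fin n → ℤ} (h : dfhdetLN u v) : rn v ≤ rn u + 1 := by
  obtain ⟨i, h1, h2⟩ := h
  unfold rn
  refine Finset.sup_le fun j _ => ?_
  have h3 := dfhdet_le_rn u j
  unfold rn at h3
  by_cases hj : j = i
  · subst hj
    omega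
  · rw [h1 j hj]
    omega

theorem dfhdet_unique {n : ℕ} {u v w : Fin n → ℤ} (hv : dfhdetLN u v) (hw : dfhdetLN u w)
    (hv' : rn v < rn u) (hw' : rn w < rn u) : v = w := by
  obtain ⟨i, hi1, hi2⟩ := hv
  obtain ⟨i', hi1', hi2'⟩ := hw
  have hne : (Finset.univ : Finset (Fin n)).Nonempty := ⟨i, Finset.mem_univ i⟩
  obtain ⟨j, _, hj⟩ := Finset.exists_mem_eq_sup Finset.univ hne (fun i => (u i).natAbs)
  have hj' : rn u = (u j).natAbs := hj
  have hvj := dfhdet_le_rn v j
  have hwj := dfhdet_le_rn w j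
  have hji : j = i := by
    by_contra hcon
    have := hi1 j hcon
    rw [this] at hvj
    omega
  have hji' : j = i' := by
    by_contra hcon
    have := hi1' j hcon
    rw [this] at hwj
    omega
  subst hji
  subst hji'
  funext l
  by_cases hl : l = j
  · subst hl
    omega
  · rw [hi1 l hl, hi1' l hl]

/-- the separating sets -/
def dfhdetI {n : ℕ} (σ : (Fin n → ℤ) → Bool) (k : ℕ) : Set (Fin n → ℤ) :=
  {u | rn u ≤ 3 * k ∨ (rn u = 3 * k + 1 ∧ σ u = true) ∨
    (rn u = 3 * k + 2 ∧ σ u = false ∧ ∃ v, dfhdetLN u v ∧ rn v = 3 * k + 1 ∧ σ v = true)}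

theorem dfhdet_bdS_symm {n : ℕ} (σ : (Fin n → ℤ) → Bool) (u v : Fin n → ℤ) :
    bdS σ u v = bdS σ v u := by
  unfold bdS
  by_cases h1 : rn u ≤ rn v
  · by_cases h2 : rn v ≤ rn u
    · have h3 : rn u = rn v := le_antisymm h1 h2
      rw [if_pos h1, if_pos h2]
      unfold half
      rw [h3]
      simp only [if_true]
      split_ifs
      · rfl
      · exact Bool.beq_comm
      · exact Bool.and_comm _ _
    · rw [if_pos h1, if_neg h2]
  · rw [if_neg h1, if_pos (by omega)]

theorem dfhdet_closed {n : ℕ} (σ : (Fin n → ℤ) → Bool) (k : ℕ) {u v : Fin n → ℤ}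
    (huv : dfhdetLN u v) (hu : u ∈ dfhdetI σ k) (hv : v ∉ dfhdetI σ k) : bdS σ u v = false := by
  have hr1 := dfhdet_rn_le huv
  have hr2 := dfhdet_rn_le (dfhdet_LN_symm huv)
  have hv1 : ¬ rn v ≤ 3 * k := fun h => hv (Or.inl h)
  have hv2 : rn v = 3 * k + 1 → σ v = false := by
    intro h
    by_contra hcon
    exact hv (Or.inr (Or.inl ⟨h, by simpa using hcon⟩))
  rcases hu with hu | ⟨hu1, hu2⟩ | ⟨hu1, hu2, w, hw1, hw2, hw3⟩
  · have hrv : rn v = 3 * k + 1 := by omega
    have hru : rn u = 3 * k := by omega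
    have h3 := hv2 hrv
    unfold bdS
    rw [if_pos (by omega)]
    unfold half
    rw [if_neg (by omega), if_pos (by omega), if_neg (by omega)]
    exact h3
  · have hrv : rn v = 3 * k + 1 ∨ rn v = 3 * k + 2 := by omega
    rcases hrv with hrv | hrv
    · have h3 := hv2 hrv
      unfold bdS
      rw [if_pos (by omega)]
      unfold half
      rw [if_neg (by omega), if_pos (by omega), if_pos (by omega), h3, hu2]
      rfl
    · have h3 : σ v = true := by
        by_contra hcon
        refine hv (Or.inr (Or.inr ⟨hrv, by simpa using hcon, u, dfhdet_LN_symm huv, hu1, hu2⟩))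
      unfold bdS
      rw [if_pos (by omega)]
      unfold half
      rw [if_neg (by omega), if_neg (by omega), if_neg (by omega), h3, hu2]
      rfl
  · have hrv : rn v = 3 * k + 1 ∨ rn v = 3 * k + 2 ∨ rn v = 3 * k + 3 := by omega
    rcases hrv with hrv | hrv | hrv
    · exfalso
      have hvw : v = w := dfhdet_unique huv hw1 (by omega) (by omega)
      rw [hvw] at hv
      exact hv (Or.inr (Or.inl ⟨hw2, hw3⟩))
    · unfold bdS
      rw [if_pos (by omega)]
      unfold half
      rw [if_neg (by omega), if_neg (by omega), if_pos (by omega), hu2]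
      rfl
    · unfold bdS
      rw [if_pos (by omega)]
      unfold half
      rw [if_pos (by omega), if_neg (by omega)]
      exact hu2

theorem dfhdet_adj {n : ℕ} (σ : (Fin n → ℤ) → Bool) {u v : Fin n → ℤ}
    (h : (latG (bondC σ)).Adj u v) : dfhdetLN u v ∧ bdS σ u v = true := by
  unfold latG at h
  rw [SimpleGraph.fromRel_adj] at h
  obtain ⟨_, ⟨i, hi, hb⟩ | ⟨i, hi, hb⟩⟩ := h
  · subst hi
    exact ⟨dfhdet_LN_add u i, hb⟩
  · subst hi
    refine ⟨dfhdet_LN_symm (dfhdet_LN_add v i), ?_⟩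
    rw [dfhdet_bdS_symm]
    exact hb

theorem dfhdet_mem {n : ℕ} (σ : (Fin n → ℤ) → Bool) (k : ℕ) {u v : Fin n → ℤ}
    (h : (latG (bondC σ)).Adj u v) (hu : u ∈ dfhdetI σ k) : v ∈ dfhdetI σ k := by
  by_contra hv
  obtain ⟨h1, h2⟩ := dfhdet_adj σ h
  rw [dfhdet_closed σ k h1 hu hv] at h2
  exact Bool.false_ne_true h2

theorem dfhdet_finite {n : ℕ} (σ : (Fin n → ℤ) → Bool) (k : ℕ) : (dfhdetI σ k).Finite := by
  have h1 : (Set.univ.pi (fun _ : Fin n => Set.Icc (-(3 * (k : ℤ) + 2)) (3 * k + 2))).Finite :=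
    Set.Finite.pi fun _ => Set.finite_Icc _ _
  refine h1.subset ?_
  intro u hu
  have hr : rn u ≤ 3 * k + 2 := by
    rcases hu with hu | ⟨hu, _⟩ | ⟨hu, _⟩ <;> omega
  intro i _
  have h2 := dfhdet_le_rn u i
  constructor <;> omega

theorem dfh_det {n : ℕ} (σ : (Fin n → ℤ) → Bool) (x : Fin n → ℤ) :
    {y : Fin n → ℤ | (latG (bondC σ)).Reachable x y}.Finite := by
  refine (dfhdet_finite σ (rn x)).subset ?_
  rintro y ⟨p⟩
  have h0 : x ∈ dfhdetI σ (rn x) := Or.inl (by omega)
  have key : ∀ {a b : Fin n → ℤ} (_ : (latG (bondC σ)).Walk a b), a ∈ dfhdetI σ (rn x) →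
      b ∈ dfhdetI σ (rn x) := by
    intro a b q
    induction q with
    | nil => exact fun h => h
    | cons hab _ ih => exact fun h => ih (dfhdet_mem σ _ hab h)
  exact key p h0

end Pool.Agent.OIP
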