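import Mathlib

/-!
# OIP: 1-independent percolation in high dimension (MP_8c5616_pr), basic definitions

Finite probability spaces are finite types `Ω` with weights `w : Ω → ℝ` (`IsLaw w`), the probability
of an event `U : Set Ω` is `pr w U`.  A random graph on a vertex type `V` is a function
`W : Ω → SimpleGraph V`.
-/

set_option autoImplicit false

open Finset
open scoped Classical

namespace Pool.Agent.OIP

noncomputable section

/-- probability of the event `U` for the weights `w` -/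
def pr {Ω : Type*} [Fintype Ω] (w : Ω → ℝ) (U : Set Ω) : ℝ := ∑ x, U.indicator w x

/-- probability weights -/
structure IsLaw {Ω : Type*} [Fintype Ω] (w : Ω → ℝ) : Prop where
  nonneg : ∀ x, 0 ≤ w x
  total : ∑ x, w x = 1

/-- the set of graphs `U` depends only on the edges inside `A` -/
def DepOn {V : Type*} (A : Set V) (U : Set (SimpleGraph V)) : Prop :=
  ∀ G H : SimpleGraph V, (∀ a ∈ A, ∀ b ∈ A, (G.Adj a b ↔ H.Adj a b)) → (G ∈ U ↔ H ∈ U)

/-- 1-independence of the random graph `W` -/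
def OneIndep {Ω V : Type*} [Fintype Ω] (w : Ω → ℝ) (W : Ω → SimpleGraph V) : Prop :=
  ∀ A B : Set V, Disjoint A B → ∀ U U' : Set (SimpleGraph V), DepOn A U → DepOn B U' →
    pr w {ω | W ω ∈ U ∧ W ω ∈ U'} = pr w {ω | W ω ∈ U} * pr w {ω | W ω ∈ U'}

/-- `a` and `b` are connected in `G` inside the region `R` (for `a = b` this always holds) -/
def Cn {V : Type*} (G : SimpleGraph V) (R : Set V) (a b : V) : Prop :=
  Relation.ReflTransGen (fun u v => G.Adj u v ∧ u ∈ R ∧ v ∈ R) a b

/-- vertex set of a star with index set `κ`: leaves `(i, k)` in layer `i` and two hubs -/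
abbrev SV (κ : Type) := (Bool × κ) ⊕ Bool

abbrev lf {κ : Type} (a : Bool × κ) : SV κ := Sum.inl a
abbrev hb {κ : Type} (i : Bool) : SV κ := Sum.inr i

/-- critical value -/
def pc : ℝ := 4 - 2 * Real.sqrt 3

/-- exact star law: random graph on the star vertices -/
structure StarLaw {Ω : Type} [Fintype Ω] {κ : Type} (p : ℝ) (w : Ω → ℝ) (W : Ω → SimpleGraph (SV κ)) : Prop where
  law : IsLaw w
  indep : OneIndep w W
  hubEdge : ∀ (i : Bool) (k : κ), p ≤ pr w {ω | (W ω).Adj (hb i) (lf (i, k))}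
  vert : ∀ k : κ, p ≤ pr w {ω | (W ω).Adj (lf (false, k)) (lf (true, k))}
  hubVert : p ≤ pr w {ω | (W ω).Adj (hb false) (hb true)}
  clique : ∀ ω, ∀ (i : Bool) (j k : κ), j ≠ k → (W ω).Adj (hb i) (lf (i, j)) →
    (W ω).Adj (hb i) (lf (i, k)) → (W ω).Adj (lf (i, j)) (lf (i, k))
  cross : ∀ ω, ∀ j k : κ, j ≠ k → (W ω).Adj (hb false) (lf (false, j)) →
    (W ω).Adj (hb false) (hb true) → (W ω).Adj (hb true) (lf (true, k)) →
    (W ω).Adj (lf (false, j)) (lf (true, k))

/-- the two transitivity properties of a sampled star -/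
def Tr {κ : Type} (G : SimpleGraph (SV κ)) : Prop :=
  (∀ a b c : Bool × κ, a.2 ≠ b.2 → b.2 ≠ c.2 → a.2 ≠ c.2 → G.Adj (lf a) (lf b) →
    G.Adj (lf b) (lf c) → G.Adj (lf a) (lf c)) ∧
  (∀ (a b : Bool × κ) (k : κ), a.2 ≠ k → b.2 ≠ k → a.2 ≠ b.2 → G.Adj (lf a) (lf (false, k)) →
    G.Adj (lf (false, k)) (lf (true, k)) → G.Adj (lf (true, k)) (lf b) → G.Adj (lf a) (lf b))

/-- exact sample law: a star law with the transitivity properties -/
structure SampleLaw {Ω : Type} [Fintype Ω] {κ : Type} (p : ℝ) (w : Ω → ℝ) (W : Ω → SimpleGraph (SV κ)) : Prop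
    extends StarLaw p w W where
  tr : ∀ ω, Tr (W ω)

/-- number of `k ∈ S`, `k ≠ a.2`, such that `a` is joined to the leaf `(i, k)` -/
def cnt {κ : Type} (G : SimpleGraph (SV κ)) (a : Bool × κ) (i : Bool) (S : Finset κ) : ℕ :=
  (S.filter (fun k => k ≠ a.2 ∧ G.Adj (lf a) (lf (i, k)))).card

/-- the leaf `a` is joined to the majority of the leaves of layer `i` with index in `S` -/
def Mj {κ : Type} (G : SimpleGraph (SV κ)) (a : Bool × κ) (i : Bool) (S : Finset κ) : Prop :=
  S.card < 2 * cnt G a i S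

/-- final event for sampled stars: one leaf is joined to more than `(1/2 + δ)` of the leaves of both layers -/
def MajS {κ : Type} [Fintype κ] (δ : ℝ) (G : SimpleGraph (SV κ)) : Prop :=
  ∃ a : Bool × κ, ∀ i : Bool, (1 / 2 + δ) * (Fintype.card κ : ℝ) ≤ (cnt G a i Finset.univ : ℝ)

/-- final event for stars: one component (inside the leaves) contains more than `(1/2 + δ)` of the
leaves of both layers -/
def MajW {κ : Type} [Fintype κ] (δ : ℝ) (G : SimpleGraph (SV κ)) : Prop :=
  ∃ a : Bool × κ, ∀ i : Bool, (1 / 2 + δ) * (Fintype.card κ : ℝ) ≤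
    ((Finset.univ.filter (fun k : κ => Cn G (Set.range Sum.inl) (lf a) (lf (i, k)))).card : ℝ)

end

end Pool.Agent.OIP
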