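import Pool.Agent.OIP.Avg

/-!
# OIP: derived star graphs

`x : SV κ → V` are the positions of the leaves and hubs, `R : Set V` is a region.  In the derived graph
`der x R G` two leaves with different indices are adjacent iff their positions are connected in `G` inside
`R` together with the two positions; all other pairs are adjacent iff their positions are adjacent in `G`.
-/

set_option autoImplicit false

open Finset
open scoped Classical

namespace Pool.Agent.OIP

section der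

variable {V : Type} {κ : Type}

def derAdj (x : SV κ → V) (R : Set V) (G : SimpleGraph V) : SV κ → SV κ → Prop
  | Sum.inl a, Sum.inl b => (a.2 = b.2 ∧ G.Adj (x (Sum.inl a)) (x (Sum.inl b))) ∨
      (a.2 ≠ b.2 ∧ Cn G (R ∪ {x (Sum.inl a), x (Sum.inl b)}) (x (Sum.inl a)) (x (Sum.inl b)))
  | Sum.inl a, Sum.inr i => G.Adj (x (Sum.inl a)) (x (Sum.inr i))
  | Sum.inr i, Sum.inl a => G.Adj (x (Sum.inr i)) (x (Sum.inl a))
  | Sum.inr i, Sum.inr j => G.Adj (x (Sum.inr i)) (x (Sum.inr j))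

def der (x : SV κ → V) (R : Set V) (G : SimpleGraph V) : SimpleGraph (SV κ) where
  Adj := derAdj x R G
  symm := ⟨by
    intro s t h
    rcases s with a | i <;> rcases t with b | j
    · rcases h with ⟨h1, h2⟩ | ⟨h1, h2⟩
      · exact Or.inl ⟨h1.symm, G.adj_symm h2⟩
      · refine Or.inr ⟨h1.symm, ?_⟩
        rw [Set.pair_comm]
        exact h2.symm
    · exact G.adj_symm h
    · exact G.adj_symm h
    · exact G.adj_symm h⟩
  loopless := ⟨by
    intro s h
    rcases s with a | i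
    · rcases h with ⟨_, h2⟩ | ⟨h1, _⟩
      · exact G.loopless.irrefl _ h2
      · exact h1 rfl
    · exact G.loopless.irrefl _ h⟩

theorem der_adj_leaf {x : SV κ → V} {R : Set V} {G : SimpleGraph V} {a b : Bool × κ} (h : a.2 ≠ b.2) :
    (der x R G).Adj (lf a) (lf b) ↔ Cn G (R ∪ {x (lf a), x (lf b)}) (x (lf a)) (x (lf b)) := by
  show derAdj x R G (lf a) (lf b) ↔ _
  simp [derAdj, h]

theorem der_adj_same {x : SV κ → V} {R : Set V} {G : SimpleGraph V} {a b : Bool × κ} (h : a.2 = b.2) :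
    (der x R G).Adj (lf a) (lf b) ↔ G.Adj (x (lf a)) (x (lf b)) := by
  show derAdj x R G (lf a) (lf b) ↔ _
  simp [derAdj, h]

theorem der_adj_hub {x : SV κ → V} {R : Set V} {G : SimpleGraph V} {i : Bool} {a : Bool × κ} :
    (der x R G).Adj (hb i) (lf a) ↔ G.Adj (x (hb i)) (x (lf a)) := Iff.rfl

theorem der_adj_hubs {x : SV κ → V} {R : Set V} {G : SimpleGraph V} {i j : Bool} :
    (der x R G).Adj (hb i) (hb j) ↔ G.Adj (x (hb i)) (x (hb j)) := Iff.rfl

theorem der_mono {x : SV κ → V} {R R' : Set V} (hR : R ⊆ R') (G : SimpleGraph V) :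
    der x R G ≤ der x R' G := by
  intro s t h
  rcases s with a | i <;> rcases t with b | j
  · rcases h with ⟨h1, h2⟩ | ⟨h1, h2⟩
    · exact Or.inl ⟨h1, h2⟩
    · exact Or.inr ⟨h1, h2.mono (Set.union_subset_union_left _ hR)⟩
  · exact h
  · exact h
  · exact h

/-- events of the derived graph depend on the positions and the region -/
theorem depOn_der {x : SV κ → V} {R : Set V} {A : Set (SV κ)} {U : Set (SimpleGraph (SV κ))} (hU : DepOn A U) :
    DepOn (R ∪ x '' A) {G : SimpleGraph V | der x R G ∈ U} := by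
  intro G H hGH
  refine hU _ _ ?_
  intro s hs t ht
  have hs' : x s ∈ R ∪ x '' A := Or.inr ⟨s, hs, rfl⟩
  have ht' : x t ∈ R ∪ x '' A := Or.inr ⟨t, ht, rfl⟩
  have hadj : G.Adj (x s) (x t) ↔ H.Adj (x s) (x t) := hGH _ hs' _ ht'
  rcases s with a | i <;> rcases t with b | j
  · have hsub : R ∪ {x (Sum.inl a), x (Sum.inl b)} ⊆ R ∪ x '' A := by
      refine Set.union_subset Set.subset_union_left ?_
      intro v hv
      rcases hv with rfl | rfl
      · exact hs'
      · exact ht'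
    have hcn : Cn G (R ∪ {x (Sum.inl a), x (Sum.inl b)}) (x (Sum.inl a)) (x (Sum.inl b)) ↔
        Cn H (R ∪ {x (Sum.inl a), x (Sum.inl b)}) (x (Sum.inl a)) (x (Sum.inl b)) :=
      depOn_Cn (R ∪ {x (Sum.inl a), x (Sum.inl b)}) (x (Sum.inl a)) (x (Sum.inl b)) G H
        fun u hu v hv => hGH u (hsub hu) v (hsub hv)
    exact or_congr (and_congr_right fun _ => hadj) (and_congr_right fun _ => hcn)
  · exact hadj
  · exact hadj
  · exact hadj

variable {Ω : Type} [Fintype Ω]

/-- approximate independence of the derived graph: compare `der x R0` with `der x R1` for the event `U` and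
with `der x R2` for the event `U'`; the latter two are exactly independent. -/
theorem near_indep {w : Ω → ℝ} (hw : IsLaw w) {W : Ω → SimpleGraph V} (hW : OneIndep w W)
    {x : SV κ → V} (hx : Function.Injective x) {R0 R1 R2 : Set V} (h12 : Disjoint R1 R2)
    (h1 : Disjoint R1 (Set.range x)) (h2 : Disjoint R2 (Set.range x)) {η : ℝ}
    (hη1 : pr w {ω | der x R0 (W ω) ≠ der x R1 (W ω)} ≤ η)
    (hη2 : pr w {ω | der x R0 (W ω) ≠ der x R2 (W ω)} ≤ η)
    {A B : Set (SV κ)} (hAB : Disjoint A B) {U U' : Set (SimpleGraph (SV κ))} (hU : DepOn A U)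
    (hU' : DepOn B U') :
    |pr w {ω | der x R0 (W ω) ∈ U ∧ der x R0 (W ω) ∈ U'} -
      pr w {ω | der x R0 (W ω) ∈ U} * pr w {ω | der x R0 (W ω) ∈ U'}| ≤ 4 * η := by
  have hd : Disjoint (R1 ∪ x '' A) (R2 ∪ x '' B) := by
    rw [Set.disjoint_left]
    rintro v (hv | ⟨s, hs, rfl⟩) (hv' | ⟨t, ht, hst⟩)
    · exact Set.disjoint_left.1 h12 hv hv'
    · exact Set.disjoint_left.1 h1 hv ⟨t, hst⟩
    · exact Set.disjoint_left.1 h2 hv' ⟨s, rfl⟩
    · have : s = t := hx hst.symm
      exact Set.disjoint_left.1 hAB hs (this ▸ ht)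
  have hind := hW (R1 ∪ x '' A) (R2 ∪ x '' B) hd _ _ (depOn_der (x := x) (R := R1) hU)
    (depOn_der (x := x) (R := R2) hU')
  have e0 : |pr w {ω | der x R0 (W ω) ∈ U ∧ der x R0 (W ω) ∈ U'} -
      pr w {ω | W ω ∈ {G : SimpleGraph V | der x R1 G ∈ U} ∧
        W ω ∈ {G : SimpleGraph V | der x R2 G ∈ U'}}| ≤ 2 * η := by
    refine le_trans (abs_pr_sub_le hw (B := {ω | der x R0 (W ω) ≠ der x R1 (W ω)} ∪
      {ω | der x R0 (W ω) ≠ der x R2 (W ω)}) ?_) ?_
    · intro ω hω
      have c1 : der x R0 (W ω) = der x R1 (W ω) := by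
        by_contra hne
        exact hω (Or.inl hne)
      have c2 : der x R0 (W ω) = der x R2 (W ω) := by
        by_contra hne
        exact hω (Or.inr hne)
      show (der x R0 (W ω) ∈ U ∧ der x R0 (W ω) ∈ U') ↔ (der x R1 (W ω) ∈ U ∧ der x R2 (W ω) ∈ U')
      rw [← c1, ← c2]
    · linarith [pr_union_le hw {ω | der x R0 (W ω) ≠ der x R1 (W ω)}
        {ω | der x R0 (W ω) ≠ der x R2 (W ω)}]
  have e1 : |pr w {ω | der x R0 (W ω) ∈ U} -
      pr w {ω | W ω ∈ {G : SimpleGraph V | der x R1 G ∈ U}}| ≤ η := by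
    refine le_trans (abs_pr_sub_le hw (B := {ω | der x R0 (W ω) ≠ der x R1 (W ω)}) ?_) hη1
    intro ω hω
    have c1 : der x R0 (W ω) = der x R1 (W ω) := by
      by_contra hne
      exact hω hne
    show der x R0 (W ω) ∈ U ↔ der x R1 (W ω) ∈ U
    rw [c1]
  have e2 : |pr w {ω | der x R0 (W ω) ∈ U'} -
      pr w {ω | W ω ∈ {G : SimpleGraph V | der x R2 G ∈ U'}}| ≤ η := by
    refine le_trans (abs_pr_sub_le hw (B := {ω | der x R0 (W ω) ≠ der x R2 (W ω)}) ?_) hη2
    intro ω hω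
    have c1 : der x R0 (W ω) = der x R2 (W ω) := by
      by_contra hne
      exact hω hne
    show der x R0 (W ω) ∈ U' ↔ der x R2 (W ω) ∈ U'
    rw [c1]
  rw [hind] at e0
  set b := pr w {ω | der x R0 (W ω) ∈ U}
  set c := pr w {ω | der x R0 (W ω) ∈ U'}
  set b' := pr w {ω | W ω ∈ {G : SimpleGraph V | der x R1 G ∈ U}} with hb'
  set c' := pr w {ω | W ω ∈ {G : SimpleGraph V | der x R2 G ∈ U'}}
  set a := pr w {ω | der x R0 (W ω) ∈ U ∧ der x R0 (W ω) ∈ U'}
  have hb0 : 0 ≤ b' := pr_nonneg hw _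
  have hb1 : b' ≤ 1 := pr_le_one hw _
  have hc0 : 0 ≤ c := pr_nonneg hw _
  have hc1 : c ≤ 1 := pr_le_one hw _
  have e3 : |b * c - b' * c'| ≤ 2 * η := by
    have : b * c - b' * c' = (b - b') * c + b' * (c - c') := by ring
    rw [this]
    refine le_trans (abs_add_le _ _) ?_
    rw [abs_mul, abs_mul, abs_of_nonneg hc0, abs_of_nonneg hb0]
    have f1 : |b - b'| * c ≤ |b - b'| * 1 := mul_le_mul_of_nonneg_left hc1 (abs_nonneg _)
    have f2 : b' * |c - c'| ≤ 1 * |c - c'| := mul_le_mul_of_nonneg_right hb1 (abs_nonneg _)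
    linarith
  have : a - b * c = (a - b' * c') - (b * c - b' * c') := by ring
  rw [this]
  refine le_trans (abs_sub _ _) ?_
  linarith

/-- if the regions are nested, the derived graphs differ only if the larger one has an additional pair -/
theorem pr_der_ne_le [Fintype κ] [DecidableEq κ] {w : Ω → ℝ} (hw : IsLaw w) (W : Ω → SimpleGraph V) {x : SV κ → V}
    {R R' : Set V} (hR : R ⊆ R') :
    pr w {ω | der x R (W ω) ≠ der x R' (W ω)} ≤
      ∑ y ∈ (Finset.univ : Finset ((Bool × κ) × (Bool × κ))).filter (fun y => y.1.2 ≠ y.2.2),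
        (pr w {ω | (der x R' (W ω)).Adj (lf y.1) (lf y.2)} - pr w {ω | (der x R (W ω)).Adj (lf y.1) (lf y.2)}) := by
  have hsub : {ω | der x R (W ω) ≠ der x R' (W ω)} ⊆
      {ω | ∃ y ∈ (Finset.univ : Finset ((Bool × κ) × (Bool × κ))).filter (fun y => y.1.2 ≠ y.2.2),
        (der x R' (W ω)).Adj (lf y.1) (lf y.2) ∧ ¬ (der x R (W ω)).Adj (lf y.1) (lf y.2)} := by
    intro ω hω
    by_contra hcon
    refine hω (le_antisymm (der_mono hR _) ?_)
    intro s t hst
    rcases s with a | i <;> rcases t with b | j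
    · by_cases hab : a.2 = b.2
      · exact (der_adj_same (R := R) hab).2 ((der_adj_same (R := R') hab).1 hst)
      · by_contra hn
        exact hcon ⟨(a, b), Finset.mem_filter.2 ⟨Finset.mem_univ _, hab⟩, hst, hn⟩
    · exact hst
    · exact hst
    · exact hst
  refine le_trans (pr_mono hw hsub) (le_trans (pr_exists_le hw _ _) ?_)
  refine Finset.sum_le_sum fun y _ => le_of_eq ?_
  have h1 := pr_inter_add_diff (w := w) {ω | (der x R' (W ω)).Adj (lf y.1) (lf y.2)}
    {ω | (der x R (W ω)).Adj (lf y.1) (lf y.2)}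
  have h2 : {ω | (der x R' (W ω)).Adj (lf y.1) (lf y.2)} ∩
      {ω | (der x R (W ω)).Adj (lf y.1) (lf y.2)} = {ω | (der x R (W ω)).Adj (lf y.1) (lf y.2)} :=
    Set.inter_eq_right.2 fun ω (h : (der x R (W ω)).Adj (lf y.1) (lf y.2)) =>
      (der_mono hR (W ω) h : (der x R' (W ω)).Adj (lf y.1) (lf y.2))
  rw [h2] at h1
  have h3 : {ω | (der x R' (W ω)).Adj (lf y.1) (lf y.2)} \
      {ω | (der x R (W ω)).Adj (lf y.1) (lf y.2)} =
      {ω | (der x R' (W ω)).Adj (lf y.1) (lf y.2) ∧ ¬ (der x R (W ω)).Adj (lf y.1) (lf y.2)} := rfl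
  rw [h3] at h1
  linarith

end der

end Pool.Agent.OIP
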