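import Pool.Agent.OIP.FSat
import Pool.Agent.OIP.FClique
import Pool.Agent.OIP.CompactDefs

/-! OIP: see the header of FSat.lean -/

set_option autoImplicit false

open Finset
open scoped Classical

namespace Pool.Agent.OIP

theorem fnear_avg_sub {X : Type*} [Fintype X] (F F' : X → ℝ) :
    avg (fun x => F x - F' x) = avg F - avg F' := by
  unfold avg
  rw [Finset.sum_sub_distrib, sub_div]

/-- total increase of the edge probabilities when the far region grows from `T` to `T'` -/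
noncomputable def fnearDiff {D : Type} [Fintype D] [DecidableEq D] {Ω : Type} [Fintype Ω] {n : ℕ} (w : Ω → ℝ)
    (W : Ω → SimpleGraph (Bool × Finset D)) (ι : Fin n → D) (T T' : Finset D) : ℝ :=
  ∑ y ∈ (Finset.univ : Finset ((Bool × Fin n) × (Bool × Fin n))).filter (fun y => y.1.2 ≠ y.2.2),
    (pr w {ω | (der (xA ι) (far ι T') (W ω)).Adj (lf y.1) (lf y.2)} -
      pr w {ω | (der (xA ι) (far ι T) (W ω)).Adj (lf y.1) (lf y.2)})

/-- total probability of the bad events of `clique_avg` -/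
noncomputable def fnearBad {D : Type} [Fintype D] [DecidableEq D] {Ω : Type} [Fintype Ω] {n : ℕ} (w : Ω → ℝ)
    (W : Ω → SimpleGraph (Bool × Finset D)) (ι : Fin n → D) (T : Finset D) : ℝ :=
  ∑ i : Bool, ∑ i' : Bool, ∑ y ∈ (Finset.univ : Finset (Fin n × Fin n)).filter (fun y => y.1 ≠ y.2),
    pr w {ω | badC (W ω) ι T i i' y.1 y.2}

theorem fnear_der_term_nonneg {D : Type} [Fintype D] [DecidableEq D] {Ω : Type} [Fintype Ω] {n : ℕ} {w : Ω → ℝ}
    (hw : IsLaw w) (W : Ω → SimpleGraph (Bool × Finset D)) (ι : Fin n → D) {T T' : Finset D} (hT : T ⊆ T')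
    (a b : Bool × Fin n) :
    0 ≤ pr w {ω | (der (xA ι) (far ι T') (W ω)).Adj (lf a) (lf b)} -
      pr w {ω | (der (xA ι) (far ι T) (W ω)).Adj (lf a) (lf b)} := by
  rw [sub_nonneg]
  refine pr_mono hw fun ω hω => ?_
  have h1 : (der (xA ι) (far ι T) (W ω)).Adj (lf a) (lf b) := hω
  have h2 : (der (xA ι) (far ι T') (W ω)).Adj (lf a) (lf b) := der_mono (far_mono ι hT) (W ω) h1
  exact h2

theorem fnearDiff_nonneg {D : Type} [Fintype D] [DecidableEq D] {Ω : Type} [Fintype Ω] {n : ℕ} {w : Ω → ℝ}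
    (hw : IsLaw w) (W : Ω → SimpleGraph (Bool × Finset D)) (ι : Fin n → D) {T T' : Finset D} (hT : T ⊆ T') :
    0 ≤ fnearDiff w W ι T T' :=
  Finset.sum_nonneg fun y _ => fnear_der_term_nonneg hw W ι hT y.1 y.2

theorem fnearBad_nonneg {D : Type} [Fintype D] [DecidableEq D] {Ω : Type} [Fintype Ω] {n : ℕ} {w : Ω → ℝ}
    (hw : IsLaw w) (W : Ω → SimpleGraph (Bool × Finset D)) (ι : Fin n → D) (T : Finset D) :
    0 ≤ fnearBad w W ι T :=
  Finset.sum_nonneg fun _ _ => Finset.sum_nonneg fun _ _ => Finset.sum_nonneg fun _ _ => pr_nonneg hw _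

theorem fnear_bad_le {D : Type} [Fintype D] [DecidableEq D] {Ω : Type} [Fintype Ω] {n : ℕ} {w : Ω → ℝ}
    (hw : IsLaw w) (W : Ω → SimpleGraph (Bool × Finset D)) (ι : Fin n → D) (T : Finset D) (i i' : Bool)
    {j k : Fin n} (hjk : j ≠ k) : pr w {ω | badC (W ω) ι T i i' j k} ≤ fnearBad w W ι T := by
  have key : ∀ i i' : Bool, pr w {ω | badC (W ω) ι T i i' j k} ≤
      ∑ y ∈ (Finset.univ : Finset (Fin n × Fin n)).filter (fun y => y.1 ≠ y.2),
        pr w {ω | badC (W ω) ι T i i' y.1 y.2} := fun i i' =>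
    Finset.single_le_sum (f := fun y : Fin n × Fin n => pr w {ω | badC (W ω) ι T i i' y.1 y.2})
      (fun y _ => pr_nonneg hw _) (Finset.mem_filter.2 ⟨Finset.mem_univ (j, k), hjk⟩)
  have nn : ∀ i i' : Bool, 0 ≤ ∑ y ∈ (Finset.univ : Finset (Fin n × Fin n)).filter (fun y => y.1 ≠ y.2),
        pr w {ω | badC (W ω) ι T i i' y.1 y.2} := fun i i' =>
    Finset.sum_nonneg fun _ _ => pr_nonneg hw _
  have e : fnearBad w W ι T = (∑ y ∈ (Finset.univ : Finset (Fin n × Fin n)).filter (fun y => y.1 ≠ y.2),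
        pr w {ω | badC (W ω) ι T true true y.1 y.2} +
      ∑ y ∈ (Finset.univ : Finset (Fin n × Fin n)).filter (fun y => y.1 ≠ y.2),
        pr w {ω | badC (W ω) ι T true false y.1 y.2}) +
      (∑ y ∈ (Finset.univ : Finset (Fin n × Fin n)).filter (fun y => y.1 ≠ y.2),
        pr w {ω | badC (W ω) ι T false true y.1 y.2} +
      ∑ y ∈ (Finset.univ : Finset (Fin n × Fin n)).filter (fun y => y.1 ≠ y.2),
        pr w {ω | badC (W ω) ι T false false y.1 y.2}) := by
    unfold fnearBad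
    rw [Fintype.sum_bool, Fintype.sum_bool, Fintype.sum_bool]
  have n1 := nn true true
  have n2 := nn true false
  have n3 := nn false true
  have n4 := nn false false
  have k0 := key i i'
  rw [e]
  generalize hA : ∑ y ∈ (Finset.univ : Finset (Fin n × Fin n)).filter (fun y => y.1 ≠ y.2),
        pr w {ω | badC (W ω) ι T true true y.1 y.2} = A at *
  generalize hB : ∑ y ∈ (Finset.univ : Finset (Fin n × Fin n)).filter (fun y => y.1 ≠ y.2),
        pr w {ω | badC (W ω) ι T true false y.1 y.2} = B at *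
  generalize hC : ∑ y ∈ (Finset.univ : Finset (Fin n × Fin n)).filter (fun y => y.1 ≠ y.2),
        pr w {ω | badC (W ω) ι T false true y.1 y.2} = C at *
  generalize hE : ∑ y ∈ (Finset.univ : Finset (Fin n × Fin n)).filter (fun y => y.1 ≠ y.2),
        pr w {ω | badC (W ω) ι T false false y.1 y.2} = E at *
  cases i <;> cases i'
  · rw [hE] at k0
    linarith
  · rw [hC] at k0
    linarith
  · rw [hB] at k0
    linarith
  · rw [hA] at k0
    linarith

/-- small total error implies an approximate star law -/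
theorem fnear_point {n : ℕ} {η : ℝ} (hη : 0 < η) {D : Type} [Fintype D] [DecidableEq D] {Ω : Type}
    [Fintype Ω] {w : Ω → ℝ} {W : Ω → SimpleGraph (Bool × Finset D)} {p : ℝ} (h : FiberLaw p w W)
    {ι : Fin n → D} (hι : Function.Injective ι) {T0 T1 T2 T : Finset D} (h0 : T0 ⊆ T) (h1 : T1 ⊆ T)
    (h2 : T2 ⊆ T) (h12 : Disjoint T1 T2)
    (hE : fnearDiff w W ι T0 T + fnearDiff w W ι T1 T + fnearDiff w W ι T2 T + fnearBad w W ι T0 ≤ η / 8) :
    NearStar η p w (fun ω => der (xA ι) (far ι T0) (W ω)) := by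
  have hw := h.law
  have d0 := fnearDiff_nonneg hw W ι h0
  have d1 := fnearDiff_nonneg hw W ι h1
  have d2 := fnearDiff_nonneg hw W ι h2
  have b0 := fnearBad_nonneg hw W ι T0
  have e0 : pr w {ω | der (xA ι) (far ι T0) (W ω) ≠ der (xA ι) (far ι T) (W ω)} ≤ fnearDiff w W ι T0 T :=
    pr_der_ne_le hw W (far_mono ι h0)
  have e1 : pr w {ω | der (xA ι) (far ι T1) (W ω) ≠ der (xA ι) (far ι T) (W ω)} ≤ fnearDiff w W ι T1 T :=
    pr_der_ne_le hw W (far_mono ι h1)
  have e2 : pr w {ω | der (xA ι) (far ι T2) (W ω) ≠ der (xA ι) (far ι T) (W ω)} ≤ fnearDiff w W ι T2 T :=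
    pr_der_ne_le hw W (far_mono ι h2)
  have c1 : pr w {ω | der (xA ι) (far ι T0) (W ω) ≠ der (xA ι) (far ι T1) (W ω)} ≤ η / 8 := by
    have : pr w {ω | der (xA ι) (far ι T0) (W ω) ≠ der (xA ι) (far ι T1) (W ω)} ≤
        pr w ({ω | der (xA ι) (far ι T0) (W ω) ≠ der (xA ι) (far ι T) (W ω)} ∪
          {ω | der (xA ι) (far ι T1) (W ω) ≠ der (xA ι) (far ι T) (W ω)}) := by
      refine pr_mono hw fun ω hω => ?_
      by_contra hcon
      rw [Set.mem_union, not_or] at hcon
      simp only [Set.mem_ofPred_eq, not_not] at hcon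
      exact hω (hcon.1.trans hcon.2.symm)
    have h' := pr_union_le hw {ω | der (xA ι) (far ι T0) (W ω) ≠ der (xA ι) (far ι T) (W ω)}
      {ω | der (xA ι) (far ι T1) (W ω) ≠ der (xA ι) (far ι T) (W ω)}
    linarith
  have c2 : pr w {ω | der (xA ι) (far ι T0) (W ω) ≠ der (xA ι) (far ι T2) (W ω)} ≤ η / 8 := by
    have : pr w {ω | der (xA ι) (far ι T0) (W ω) ≠ der (xA ι) (far ι T2) (W ω)} ≤
        pr w ({ω | der (xA ι) (far ι T0) (W ω) ≠ der (xA ι) (far ι T) (W ω)} ∪
          {ω | der (xA ι) (far ι T2) (W ω) ≠ der (xA ι) (far ι T) (W ω)}) := by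
      refine pr_mono hw fun ω hω => ?_
      by_contra hcon
      rw [Set.mem_union, not_or] at hcon
      simp only [Set.mem_ofPred_eq, not_not] at hcon
      exact hω (hcon.1.trans hcon.2.symm)
    have h' := pr_union_le hw {ω | der (xA ι) (far ι T0) (W ω) ≠ der (xA ι) (far ι T) (W ω)}
      {ω | der (xA ι) (far ι T2) (W ω) ≠ der (xA ι) (far ι T) (W ω)}
    linarith
  refine ⟨hw, ?_, ?_, ?_, ?_, ?_, ?_⟩
  · intro A B hAB U U' hU hU'
    have := near_indep hw h.indep (xA_injective hι) (R0 := far ι T0) (far_disjoint ι h12)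
      (far_disjoint_range ι T1) (far_disjoint_range ι T2) c1 c2 hAB hU hU'
    linarith
  · intro i k
    exact fiber_hubEdge h _ i k
  · intro k
    exact fiber_vert h _ k
  · exact fiber_hubVert h _
  · intro i j k hjk
    have hb := fnear_bad_le hw W ι T0 i i hjk
    refine le_trans (pr_mono hw ?_) (hb.trans (by linarith))
    intro ω hω
    obtain ⟨g1, g2, g3⟩ := hω
    rw [der_adj_leaf (by exact hjk)] at g3
    exact ⟨g1, Or.inl rfl, g2, g3⟩
  · intro j k hjk
    have hb := fnear_bad_le hw W ι T0 false true hjk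
    refine le_trans (pr_mono hw ?_) (hb.trans (by linarith))
    intro ω hω
    obtain ⟨g1, g2, g3, g4⟩ := hω
    rw [der_adj_leaf (by exact hjk)] at g4
    exact ⟨g1, Or.inr g2, g3, g4⟩

theorem fiber_near (n : ℕ) (η : ℝ) (hη : 0 < η) : ∃ N₀ : ℕ, ∀ (D : Type) [Fintype D] [DecidableEq D],
    N₀ ≤ Fintype.card D → ∀ (Ω : Type) [Fintype Ω] (w : Ω → ℝ) (W : Ω → SimpleGraph (Bool × Finset D)) (p : ℝ),
    FiberLaw p w W → ∀ ι : Fin n → D, Function.Injective ι →
    avg (fun σ : Equiv.Perm D => ind (¬ ∃ T : Finset D,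
      NearStar η p w (fun ω => der (xA (σ ∘ ι)) (far (σ ∘ ι) T) (W ω)))) ≤ η := by
  obtain ⟨I, hI⟩ := exists_nat_gt (max 1 (48 * (n : ℝ) ^ 4 * 16 / η ^ 2))
  obtain ⟨L, hL⟩ := exists_nat_gt (max 1 (8 * (n : ℝ) ^ 2 * 16 / η ^ 2))
  have hη2 : (0 : ℝ) < η ^ 2 := by positivity
  have hI1 : (1 : ℝ) < I := lt_of_le_of_lt (le_max_left _ _) hI
  have hL1 : (1 : ℝ) < L := lt_of_le_of_lt (le_max_left _ _) hL
  have hI1' : 1 ≤ I := by
    have : (1 : ℕ) < I := by exact_mod_cast hI1
    omega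
  have hL1' : 1 ≤ L := by
    have : (1 : ℕ) < L := by exact_mod_cast hL1
    omega
  have hIb : 48 * (n : ℝ) ^ 4 / I ≤ η ^ 2 / 16 := by
    have h1 : 48 * (n : ℝ) ^ 4 * 16 / η ^ 2 < I := lt_of_le_of_lt (le_max_right _ _) hI
    rw [div_lt_iff₀ hη2] at h1
    rw [div_le_div_iff₀ (by linarith) (by norm_num)]
    linarith
  have hLb : 8 * (n : ℝ) ^ 2 / (L + 1) ≤ η ^ 2 / 16 := by
    have h1 : 8 * (n : ℝ) ^ 2 * 16 / η ^ 2 < L := lt_of_le_of_lt (le_max_right _ _) hL
    rw [div_lt_iff₀ hη2] at h1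
    rw [div_le_div_iff₀ (by linarith) (by norm_num)]
    nlinarith
  refine ⟨2 * L * 4 ^ I + n, ?_⟩
  intro D _ _ hD Ω _ w W p h ι hι
  have hw := h.law
  obtain ⟨t, htI, ht⟩ := fiber_sat (2 * L) I (by omega) hI1' hD hw W hι
  -- choice of the three sets
  have hvs : (vs ι).card ≤ n := by
    unfold vs
    exact Finset.card_image_le.trans (by simp)
  have h4 : 2 * L * 4 ^ (t + 1) ≤ 2 * L * 4 ^ I :=
    Nat.mul_le_mul_left _ (Nat.pow_le_pow_right (by norm_num) (by omega))
  have hcompl : 2 * L * 4 ^ (t + 1) ≤ ((vs ι)ᶜ).card := by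
    rw [Finset.card_compl]
    omega
  set m : ℕ := 2 * L * 4 ^ t with hm
  have hm4 : 2 * L * 4 ^ (t + 1) = 4 * m := by
    rw [hm]; ring
  obtain ⟨S, hS1, hS2⟩ := Finset.exists_subset_card_eq (s := (vs ι)ᶜ) (n := 3 * m) (by omega)
  obtain ⟨T0, hT01, hT02⟩ := Finset.exists_subset_card_eq (s := S) (n := m) (by omega)
  have hS' : (S \ T0).card = 2 * m := by
    rw [Finset.card_sdiff_of_subset hT01]; omega
  obtain ⟨T1, hT11, hT12⟩ := Finset.exists_subset_card_eq (s := S \ T0) (n := m) (by omega)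
  set T2 : Finset D := (S \ T0) \ T1 with hT2
  have hT2c : T2.card = m := by
    rw [hT2, Finset.card_sdiff_of_subset hT11]; omega
  have hT1S : T1 ⊆ S := hT11.trans Finset.sdiff_subset
  have hT2S : T2 ⊆ S := Finset.sdiff_subset.trans Finset.sdiff_subset
  have h12 : Disjoint T1 T2 := Finset.disjoint_sdiff
  have hSd : Disjoint S (vs ι) := by
    rw [Finset.disjoint_left]
    intro x hx hx'
    have := hS1 hx
    rw [Finset.mem_compl] at this
    exact this hx'
  have hT0d : Disjoint T0 (vs ι) := Finset.disjoint_of_subset_left hT01 hSd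
  have hT1d : Disjoint T1 (vs ι) := Finset.disjoint_of_subset_left hT1S hSd
  have hT2d : Disjoint T2 (vs ι) := Finset.disjoint_of_subset_left hT2S hSd
  have hLm : 2 * L ≤ m := by
    rw [hm]
    exact Nat.le_mul_of_pos_right _ (Nat.pow_pos (by norm_num))
  -- the error function
  set Err : Equiv.Perm D → ℝ := fun σ =>
    fnearDiff w W (σ ∘ ι) (T0.image σ) (S.image σ) + fnearDiff w W (σ ∘ ι) (T1.image σ) (S.image σ) +
      fnearDiff w W (σ ∘ ι) (T2.image σ) (S.image σ) + fnearBad w W (σ ∘ ι) (T0.image σ) with hErr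
  have hErr0 : ∀ σ, 0 ≤ Err σ := by
    intro σ
    have a0 := fnearDiff_nonneg hw W (σ ∘ ι) (Finset.image_subset_image (f := σ) hT01)
    have a1 := fnearDiff_nonneg hw W (σ ∘ ι) (Finset.image_subset_image (f := σ) hT1S)
    have a2 := fnearDiff_nonneg hw W (σ ∘ ι) (Finset.image_subset_image (f := σ) hT2S)
    have a3 := fnearBad_nonneg hw W (σ ∘ ι) (T0.image σ)
    simp only [hErr]
    linarith
  have hpoint : ∀ σ : Equiv.Perm D, ind (¬ ∃ T : Finset D,
      NearStar η p w (fun ω => der (xA (σ ∘ ι)) (far (σ ∘ ι) T) (W ω))) ≤ ind (η / 8 < Err σ) := by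
    intro σ
    refine ind_mono fun hno => ?_
    by_contra hcon
    rw [not_lt] at hcon
    refine hno ⟨T0.image σ, ?_⟩
    refine fnear_point hη h (σ.injective.comp hι) (Finset.image_subset_image (f := σ) hT01)
      (Finset.image_subset_image (f := σ) hT1S) (Finset.image_subset_image (f := σ) hT2S) ?_ hcon
    exact (Finset.disjoint_image σ.injective).2 h12
  -- the average of each difference
  have hdiff : ∀ T : Finset D, Disjoint T (vs ι) → T.card = m →
      avg (fun σ : Equiv.Perm D => fnearDiff w W (σ ∘ ι) (T.image σ) (S.image σ)) ≤ 16 * (n : ℝ) ^ 4 / I := by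
    intro T hTd hTc
    unfold fnearDiff
    rw [avg_sum]
    have hterm : ∀ y ∈ (Finset.univ : Finset ((Bool × Fin n) × (Bool × Fin n))).filter
        (fun y => y.1.2 ≠ y.2.2),
        avg (fun σ : Equiv.Perm D =>
          (pr w {ω | (der (xA (σ ∘ ι)) (far (σ ∘ ι) (S.image σ)) (W ω)).Adj (lf y.1) (lf y.2)} -
            pr w {ω | (der (xA (σ ∘ ι)) (far (σ ∘ ι) (T.image σ)) (W ω)).Adj (lf y.1) (lf y.2)})) ≤
          (4 * (n : ℝ) ^ 2) / I := by
      intro y hy
      rw [Finset.mem_filter] at hy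
      rw [fnear_avg_sub]
      exact ht y.1 y.2 T S hy.2 hTd hSd hTc (by omega)
    refine (Finset.sum_le_card_nsmul _ _ _ hterm).trans ?_
    have hcard : (((Finset.univ : Finset ((Bool × Fin n) × (Bool × Fin n))).filter
        (fun y => y.1.2 ≠ y.2.2)).card : ℝ) ≤ 4 * (n : ℝ) ^ 2 := by
      have h1 : ((Finset.univ : Finset ((Bool × Fin n) × (Bool × Fin n))).filter
        (fun y => y.1.2 ≠ y.2.2)).card ≤ 4 * n ^ 2 := by
        refine (Finset.card_filter_le _ _).trans ?_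
        simp [Fintype.card_prod]
        nlinarith
      exact_mod_cast h1
    rw [nsmul_eq_mul]
    have hpos : 0 ≤ (4 * (n : ℝ) ^ 2) / I := by positivity
    calc _ ≤ 4 * (n : ℝ) ^ 2 * ((4 * (n : ℝ) ^ 2) / I) := mul_le_mul_of_nonneg_right hcard hpos
      _ = 16 * (n : ℝ) ^ 4 / I := by ring
  have hbad : avg (fun σ : Equiv.Perm D => fnearBad w W (σ ∘ ι) (T0.image σ)) ≤
      8 * (n : ℝ) ^ 2 / (L + 1) := by
    unfold fnearBad
    rw [avg_sum]
    have hterm : ∀ i ∈ (Finset.univ : Finset Bool),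
        avg (fun σ : Equiv.Perm D => ∑ i' : Bool,
          ∑ y ∈ (Finset.univ : Finset (Fin n × Fin n)).filter (fun y => y.1 ≠ y.2),
            pr w {ω | badC (W ω) (σ ∘ ι) (T0.image σ) i i' y.1 y.2}) ≤ 4 * (n : ℝ) ^ 2 / (L + 1) := by
      intro i _
      rw [avg_sum]
      have hterm2 : ∀ i' ∈ (Finset.univ : Finset Bool),
          avg (fun σ : Equiv.Perm D =>
            ∑ y ∈ (Finset.univ : Finset (Fin n × Fin n)).filter (fun y => y.1 ≠ y.2),
              pr w {ω | badC (W ω) (σ ∘ ι) (T0.image σ) i i' y.1 y.2}) ≤ 2 * (n : ℝ) ^ 2 / (L + 1) := by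
        intro i' _
        rw [avg_sum]
        have hterm3 : ∀ y ∈ (Finset.univ : Finset (Fin n × Fin n)).filter (fun y => y.1 ≠ y.2),
            avg (fun σ : Equiv.Perm D =>
              pr w {ω | badC (W ω) (σ ∘ ι) (T0.image σ) i i' y.1 y.2}) ≤ 2 / ((L : ℝ) + 1) := by
          intro y hy
          rw [Finset.mem_filter] at hy
          exact avg_pr_le hw (fun (σ : Equiv.Perm D) ω => badC (W ω) (σ ∘ ι) (T0.image σ) i i' y.1 y.2) _
            fun ω => clique_avg (W ω) hι T0 hT0d L (by omega) i i' y.1 y.2 hy.2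
        refine (Finset.sum_le_card_nsmul _ _ _ hterm3).trans ?_
        have hcard : (((Finset.univ : Finset (Fin n × Fin n)).filter (fun y => y.1 ≠ y.2)).card : ℝ) ≤
            (n : ℝ) ^ 2 := by
          have h1 : ((Finset.univ : Finset (Fin n × Fin n)).filter (fun y => y.1 ≠ y.2)).card ≤ n ^ 2 := by
            refine (Finset.card_filter_le _ _).trans ?_
            simp [Fintype.card_prod]
            nlinarith
          exact_mod_cast h1
        rw [nsmul_eq_mul]
        have hpos : 0 ≤ 2 / ((L : ℝ) + 1) := by positivity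
        calc _ ≤ (n : ℝ) ^ 2 * (2 / ((L : ℝ) + 1)) := mul_le_mul_of_nonneg_right hcard hpos
          _ = 2 * (n : ℝ) ^ 2 / (L + 1) := by ring
      refine (Finset.sum_le_card_nsmul _ _ _ hterm2).trans ?_
      rw [nsmul_eq_mul]
      simp only [Finset.card_univ, Fintype.card_bool]
      refine le_of_eq ?_
      push_cast
      ring
    refine (Finset.sum_le_card_nsmul _ _ _ hterm).trans ?_
    rw [nsmul_eq_mul]
    simp only [Finset.card_univ, Fintype.card_bool]
    refine le_of_eq ?_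
    push_cast
    ring
  have havg : avg Err ≤ η ^ 2 / 8 := by
    have h1 : avg Err = avg (fun σ : Equiv.Perm D => fnearDiff w W (σ ∘ ι) (T0.image σ) (S.image σ)) +
        avg (fun σ : Equiv.Perm D => fnearDiff w W (σ ∘ ι) (T1.image σ) (S.image σ)) +
        avg (fun σ : Equiv.Perm D => fnearDiff w W (σ ∘ ι) (T2.image σ) (S.image σ)) +
        avg (fun σ : Equiv.Perm D => fnearBad w W (σ ∘ ι) (T0.image σ)) := by
      rw [← avg_add, ← avg_add, ← avg_add]
    have a0 := hdiff T0 hT0d hT02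
    have a1 := hdiff T1 hT1d hT12
    have a2 := hdiff T2 hT2d hT2c
    have e : 48 * (n : ℝ) ^ 4 / I = 3 * (16 * (n : ℝ) ^ 4 / I) := by ring
    rw [h1]
    linarith
  calc avg (fun σ : Equiv.Perm D => ind (¬ ∃ T : Finset D,
      NearStar η p w (fun ω => der (xA (σ ∘ ι)) (far (σ ∘ ι) T) (W ω))))
      ≤ avg (fun σ => ind (η / 8 < Err σ)) := avg_mono hpoint
    _ ≤ avg Err / (η / 8) := avg_ind_lt_le hErr0 (by positivity)
    _ ≤ η := by
      rw [div_le_iff₀ (by positivity)]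
      nlinarith

end Pool.Agent.OIP
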