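import Pool.Agent.OIP.Fiber
import Pool.Agent.OIP.Sat

/-!
# OIP: star theorem for the two-layer cube

`fiber_sat`: `saturation` with `X = D`, `Y` = pairs of leaves with different indices, `F y = vs ι`,
`f y σ T = pr w {the graph der (xA (σ ∘ ι)) (far (σ ∘ ι) (T.image σ)) (W ω) has the edge y}`.

`fiber_near`: choose `L`, `I` large, `M = 2 L`, disjoint `T0, T1, T2` of cardinality `M 4^t` outside `vs ι`
(their union has at most `M 4^(t+1)` elements).  The total error
`Err σ = ∑_u ∑_y (f y σ (T0 ∪ T1 ∪ T2) - f y σ T_u) + ∑ (probabilities of badC for T0)` has small average, so by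
Markov it is at most `η / 8` for all but a fraction `η` of the `σ`, and then the law of
`der (xA (σ ∘ ι)) (far (σ ∘ ι) (T0.image σ)) W` is a `NearStar η` law by `near_indep`, `pr_der_ne_le`.

`fiber_main`: symmetrization: the average over `ι : Fin n → D` of `F ι` equals the average of
`avg_σ F (σ ∘ ι)`.
-/

set_option autoImplicit false

open Finset
open scoped Classical

namespace Pool.Agent.OIP

theorem fiber_sat {n : ℕ} (M I : ℕ) (hM : 1 ≤ M) (hI : 1 ≤ I) {D : Type} [Fintype D] [DecidableEq D]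
    (hD : M * 4 ^ I + n ≤ Fintype.card D) {Ω : Type} [Fintype Ω] {w : Ω → ℝ} (hw : IsLaw w)
    (W : Ω → SimpleGraph (Bool × Finset D)) {ι : Fin n → D} (hι : Function.Injective ι) :
    ∃ t : ℕ, t < I ∧ ∀ (a b : Bool × Fin n) (P P' : Finset D), a.2 ≠ b.2 → Disjoint P (vs ι) →
      Disjoint P' (vs ι) → P.card = M * 4 ^ t → P'.card ≤ M * 4 ^ (t + 1) →
      avg (fun σ : Equiv.Perm D => pr w {ω | (der (xA (σ ∘ ι)) (far (σ ∘ ι) (P'.image σ)) (W ω)).Adj (lf a) (lf b)}) -
      avg (fun σ : Equiv.Perm D => pr w {ω | (der (xA (σ ∘ ι)) (far (σ ∘ ι) (P.image σ)) (W ω)).Adj (lf a) (lf b)}) ≤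
        (4 * (n : ℝ) ^ 2) / I := by
  obtain ⟨t, ht, h⟩ := saturation (X := D) (Y := (Bool × Fin n) × (Bool × Fin n)) (fun _ => vs ι)
    (fun y σ T => pr w {ω | (der (xA (σ ∘ ι)) (far (σ ∘ ι) (T.image σ)) (W ω)).Adj
      (lf y.1) (lf y.2)})
    (by
      intro y σ P P' hP
      refine pr_mono hw fun ω hω => ?_
      have h1 : (der (xA (σ ∘ ι)) (far (σ ∘ ι) (P.image σ)) (W ω)).Adj (lf y.1) (lf y.2) := hω
      exact der_mono (far_mono _ (Finset.image_subset_image hP)) (W ω) h1)
    (fun y σ P => pr_nonneg hw _) (fun y σ P => pr_le_one hw _)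
    (by
      intro y σ π P hπ
      have h1 : (⇑(σ * π) ∘ ι) = ⇑σ ∘ ι := by
        funext j
        show σ (π (ι j)) = σ (ι j)
        rw [hπ (ι j) (Finset.mem_image_of_mem ι (Finset.mem_univ j))]
      have h2 : P.image ⇑(σ * π) = (P.image ⇑π).image ⇑σ := by
        rw [Finset.image_image]
        rfl
      simp only [h1, h2])
    M I hM hI
    (by
      intro y
      have h1 : (vs ι).card ≤ n := by
        refine le_trans Finset.card_image_le ?_
        rw [Finset.card_univ, Fintype.card_fin]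
      omega)
  refine ⟨t, ht, ?_⟩
  intro a b P P' _ hP hP' hc hc'
  have h3 := h (a, b) P P' hP hP' hc hc'
  have h4 : (Fintype.card ((Bool × Fin n) × (Bool × Fin n)) : ℝ) = 4 * (n : ℝ) ^ 2 := by
    rw [Fintype.card_prod, Fintype.card_prod, Fintype.card_bool, Fintype.card_fin]
    push_cast
    ring
  rw [h4] at h3
  exact h3

end Pool.Agent.OIP
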