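import Pool.Agent.OIP.Der

/-!
# OIP: stars in a two-layer cube

Vertices `Bool × Finset D` (two layers over the cube of subsets of the direction set `D`).
A star is given by an injective `ι : Fin n → D`, `v = image ι`; hubs `(i, v)`, leaves `(i, v \ {ι j})`.
Far region for `T : Finset D` : all `(i, S)` with `S ⊆ v ∪ T`, `S` contains an element of `T` outside `v`, and
`n ≤ |S| + 1`.
-/

set_option autoImplicit false

open Finset
open scoped Classical

namespace Pool.Agent.OIP

/-- 1-independent bond percolation law on the two-layer cube, all edge probabilities at least `p` -/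
structure FiberLaw {Ω : Type} [Fintype Ω] {D : Type} [DecidableEq D] (p : ℝ) (w : Ω → ℝ)
    (W : Ω → SimpleGraph (Bool × Finset D)) : Prop where
  law : IsLaw w
  indep : OneIndep w W
  lay : ∀ (i : Bool) (S : Finset D) (d : D), d ∉ S → p ≤ pr w {ω | (W ω).Adj (i, S) (i, insert d S)}
  ver : ∀ S : Finset D, p ≤ pr w {ω | (W ω).Adj (false, S) (true, S)}

section A

variable {D : Type} [Fintype D] [DecidableEq D] {n : ℕ}

/-- the set of directions of a star -/
def vs (ι : Fin n → D) : Finset D := Finset.univ.image ι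

/-- positions of leaves and hubs -/
def xA (ι : Fin n → D) : SV (Fin n) → Bool × Finset D
  | Sum.inl a => (a.1, (vs ι).erase (ι a.2))
  | Sum.inr i => (i, vs ι)

/-- far region -/
def far (ι : Fin n → D) (T : Finset D) : Set (Bool × Finset D) :=
  {u | u.2 ⊆ vs ι ∪ T ∧ (∃ t ∈ T, t ∈ u.2 ∧ t ∉ vs ι) ∧ n ≤ u.2.card + 1}

theorem far_mono (ι : Fin n → D) {T T' : Finset D} (h : T ⊆ T') : far ι T ⊆ far ι T' := by
  rintro u ⟨h1, ⟨t, ht, h2⟩, h3⟩
  exact ⟨h1.trans (Finset.union_subset_union_right h), ⟨t, h ht, h2⟩, h3⟩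

theorem fiber_mem_vs (ι : Fin n → D) (k : Fin n) : ι k ∈ vs ι :=
  Finset.mem_image_of_mem ι (Finset.mem_univ k)

theorem xA_injective {ι : Fin n → D} (hι : Function.Injective ι) : Function.Injective (xA ι) := by
  intro s t h
  rcases s with a | i <;> rcases t with b | j
  · have h1 : a.1 = b.1 := congrArg (fun u : Bool × Finset D => u.1) h
    have h2 : (vs ι).erase (ι a.2) = (vs ι).erase (ι b.2) :=
      congrArg (fun u : Bool × Finset D => u.2) h
    have h3 : a.2 = b.2 := by
      by_contra hne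
      have h4 : ι a.2 ∈ (vs ι).erase (ι b.2) :=
        Finset.mem_erase.2 ⟨fun h5 => hne (hι h5), fiber_mem_vs ι a.2⟩
      rw [← h2] at h4
      exact Finset.notMem_erase _ _ h4
    exact congrArg Sum.inl (Prod.ext h1 h3)
  · exfalso
    have h2 : (vs ι).erase (ι a.2) = vs ι := congrArg (fun u : Bool × Finset D => u.2) h
    have h4 := fiber_mem_vs ι a.2
    rw [← h2] at h4
    exact Finset.notMem_erase _ _ h4
  · exfalso
    have h2 : vs ι = (vs ι).erase (ι b.2) := congrArg (fun u : Bool × Finset D => u.2) h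
    have h4 := fiber_mem_vs ι b.2
    rw [h2] at h4
    exact Finset.notMem_erase _ _ h4
  · have h1 : i = j := congrArg (fun u : Bool × Finset D => u.1) h
    exact congrArg Sum.inr h1

theorem fiber_xA_sub (ι : Fin n → D) (s : SV (Fin n)) : (xA ι s).2 ⊆ vs ι := by
  rcases s with a | i
  · exact Finset.erase_subset _ _
  · exact Finset.Subset.refl _

theorem far_disjoint_range (ι : Fin n → D) (T : Finset D) : Disjoint (far ι T) (Set.range (xA ι)) := by
  rw [Set.disjoint_left]
  rintro u ⟨_, ⟨t, _, h2, h3⟩, _⟩ ⟨s, rfl⟩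
  exact h3 (fiber_xA_sub ι s h2)

theorem far_disjoint (ι : Fin n → D) {T T' : Finset D} (h : Disjoint T T') : Disjoint (far ι T) (far ι T') := by
  rw [Set.disjoint_left]
  rintro u ⟨h1, _, _⟩ ⟨_, ⟨t, ht, h2, h3⟩, _⟩
  rcases Finset.mem_union.1 (h1 h2) with h4 | h4
  · exact h3 h4
  · exact Finset.disjoint_left.1 h h4 ht

theorem vs_perm (ι : Fin n → D) (σ : Equiv.Perm D) : vs (σ ∘ ι) = (vs ι).image σ := by
  unfold vs
  rw [Finset.image_image]

theorem fiber_hubEdge {Ω : Type} [Fintype Ω] {p : ℝ} {w : Ω → ℝ} {W : Ω → SimpleGraph (Bool × Finset D)}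
    (h : FiberLaw p w W) {ι : Fin n → D} (R : Set (Bool × Finset D)) (i : Bool) (k : Fin n) :
    p ≤ pr w {ω | (der (xA ι) R (W ω)).Adj (hb i) (lf (i, k))} := by
  have h1 := h.lay i ((vs ι).erase (ι k)) (ι k) (Finset.notMem_erase _ _)
  rw [Finset.insert_erase (fiber_mem_vs ι k)] at h1
  refine h1.trans (pr_mono h.law ?_)
  intro ω hω
  show (W ω).Adj (i, vs ι) (i, (vs ι).erase (ι k))
  exact (W ω).adj_symm hω

theorem fiber_vert {Ω : Type} [Fintype Ω] {p : ℝ} {w : Ω → ℝ} {W : Ω → SimpleGraph (Bool × Finset D)}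
    (h : FiberLaw p w W) {ι : Fin n → D} (R : Set (Bool × Finset D)) (k : Fin n) :
    p ≤ pr w {ω | (der (xA ι) R (W ω)).Adj (lf (false, k)) (lf (true, k))} := by
  refine (h.ver ((vs ι).erase (ι k))).trans (pr_mono h.law ?_)
  intro ω hω
  show (der (xA ι) R (W ω)).Adj (lf (false, k)) (lf (true, k))
  exact (der_adj_same (x := xA ι) (R := R) (G := W ω) (a := (false, k)) (b := (true, k)) rfl).2 hω

theorem fiber_hubVert {Ω : Type} [Fintype Ω] {p : ℝ} {w : Ω → ℝ} {W : Ω → SimpleGraph (Bool × Finset D)}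
    (h : FiberLaw p w W) {ι : Fin n → D} (R : Set (Bool × Finset D)) :
    p ≤ pr w {ω | (der (xA ι) R (W ω)).Adj (hb false) (hb true)} := by
  refine (h.ver (vs ι)).trans (pr_mono h.law ?_)
  intro ω hω
  show (der (xA ι) R (W ω)).Adj (hb false) (hb true)
  exact hω

end A

end Pool.Agent.OIP
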