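import Pool.Agent.OIP.Avg

/-!
# OIP: links along a high-dimensional cube

`Lk A c c'` is the event that `c` and `c'` (finite subsets of `κ`) are linked inside the base region `A`.
Induction on `k`.  If `|X| = 1` use `hedge`.  Otherwise split `X = X1 ∪ X2` into nonempty parts with at most
`2^(k-1)` elements and take `t1 ≠ t2` in `Y`, `Y' = Y \ {t1, t2}`.  Route `i = 1, 2`: the inner event
`E_i = Lk A_i (c ∪ {t_i}) (c ∪ {t_i} ∪ X)` with `A_i = {c' | c ∪ {t_i} ⊆ c' ⊆ c ∪ {t_i} ∪ X ∪ Y'}` has
probability at least `1 - 16 ε` (two applications of the induction hypothesis and `htrans`), the regions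
`A_1`, `A_2` are disjoint, and the four edges `c - c ∪ {t_i}`, `c ∪ X - c ∪ X ∪ {t_i}` have probability at least
`1 - ε`.  Failure probability at most `4 ε + (16 ε)² ≤ 8 ε`.
-/

set_option autoImplicit false

open Finset
open scoped Classical

namespace Pool.Agent.OIP

theorem hc_inter_ge {Ω : Type} [Fintype Ω] {w : Ω → ℝ} (hw : IsLaw w) {U U' : Set Ω} {a b : ℝ}
    (h : 1 - a ≤ pr w U) (h' : 1 - b ≤ pr w U') : 1 - (a + b) ≤ pr w (U ∩ U') := by
  have h1 := pr_inter_add_diff (w := w) U U'
  have h2 : pr w (U \ U') ≤ pr w U'ᶜ := pr_mono hw (fun x hx => hx.2)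
  have h3 := pr_compl hw U'
  linarith

theorem hc_union_ge {Ω : Type} [Fintype Ω] {w : Ω → ℝ} (hw : IsLaw w) {U U' : Set Ω} {a : ℝ}
    (ha : 0 ≤ a) (h : 1 - a ≤ pr w U) (h' : 1 - a ≤ pr w U')
    (hi : pr w (U ∩ U') = pr w U * pr w U') : 1 - a ^ 2 ≤ pr w (U ∪ U') := by
  have h1 : pr w (U ∪ U') = pr w U + pr w (U' \ U) := by
    rw [← pr_union_disjoint (w := w) (U := U) (U' := U' \ U) Set.disjoint_sdiff_right]
    congr 1
    ext x
    simp
  have h2 := pr_inter_add_diff (w := w) U' U
  rw [Set.inter_comm, hi] at h2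
  have h3 := pr_le_one hw U
  have h4 := pr_le_one hw U'
  nlinarith [mul_le_mul (show 1 - pr w U ≤ a by linarith) (show 1 - pr w U' ≤ a by linarith)
    (by linarith) ha]

theorem HC {Ω : Type} [Fintype Ω] {w : Ω → ℝ} (hw : IsLaw w) {κ : Type} [Fintype κ] [DecidableEq κ]
    (Lk : Set (Finset κ) → Finset κ → Finset κ → Set Ω)
    (hmono : ∀ A A' c c', A ⊆ A' → Lk A c c' ⊆ Lk A' c c')
    (hsymm : ∀ A c c', Lk A c c' ⊆ Lk A c' c)
    (htrans : ∀ A A' c c' c'', Lk A c c' ∩ Lk A' c' c'' ⊆ Lk (A ∪ A') c c'')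
    (hind : ∀ A B, Disjoint A B → ∀ c c' d d',
      pr w (Lk A c c' ∩ Lk B d d') = pr w (Lk A c c') * pr w (Lk B d d'))
    (ε : ℝ) (hε0 : 0 ≤ ε) (hε : ε ≤ 1 / 64)
    (hedge : ∀ (c : Finset κ) (x : κ), x ∉ c → 1 - ε ≤ pr w (Lk {c, insert x c} c (insert x c)))
    (k : ℕ) (X Y c : Finset κ) (hX : X.Nonempty) (hXc : Disjoint X c) (hYc : Disjoint Y c)
    (hXY : Disjoint X Y) (hXk : X.card ≤ 2 ^ k) (hYk : 2 * k ≤ Y.card) :
    1 - 8 * ε ≤ pr w (Lk {c' | c ⊆ c' ∧ c' ⊆ c ∪ X ∪ Y} c (c ∪ X)) := by
  -- the case of one element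
  have hone : ∀ (x : κ) (Y c : Finset κ), x ∉ c →
      1 - 8 * ε ≤ pr w (Lk {c' | c ⊆ c' ∧ c' ⊆ c ∪ {x} ∪ Y} c (c ∪ {x})) := by
    intro x Y c hx
    have h1 := hedge c x hx
    have h2 : c ∪ {x} = insert x c := by
      ext y
      simp
    have h3 : pr w (Lk {c, insert x c} c (insert x c)) ≤
        pr w (Lk {c' | c ⊆ c' ∧ c' ⊆ c ∪ {x} ∪ Y} c (c ∪ {x})) := by
      rw [h2]
      refine pr_mono hw (hmono _ _ _ _ ?_)
      rintro c' (rfl | rfl)
      · exact ⟨subset_refl _, (Finset.subset_insert _ _).trans Finset.subset_union_left⟩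
      · exact ⟨Finset.subset_insert _ _, Finset.subset_union_left⟩
    linarith
  induction k generalizing X Y c with
  | zero =>
    have hc : X.card = 1 := by
      have := hX.card_pos
      have : X.card ≤ 1 := by simpa using hXk
      omega
    obtain ⟨x, rfl⟩ := Finset.card_eq_one.1 hc
    exact hone x Y c (fun h => (Finset.disjoint_left.1 hXc) (Finset.mem_singleton_self x) h)
  | succ k ih =>
    rcases Nat.lt_or_ge X.card 2 with hX2 | hX2
    · have hc : X.card = 1 := by
        have := hX.card_pos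
        omega
      obtain ⟨x, rfl⟩ := Finset.card_eq_one.1 hc
      exact hone x Y c (fun h => (Finset.disjoint_left.1 hXc) (Finset.mem_singleton_self x) h)
    · -- split X
      obtain ⟨X1, hX1X, hX1c⟩ := Finset.exists_subset_card_eq (s := X) (n := X.card / 2) (by omega)
      set X2 := X \ X1 with hX2def
      have hX2c : X2.card = X.card - X.card / 2 := by
        rw [hX2def, Finset.card_sdiff_of_subset hX1X, hX1c]
      have hpow : (2 : ℕ) ^ (k + 1) = 2 * 2 ^ k := by ring
      have hX1n : X1.Nonempty := by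
        rw [← Finset.card_pos]
        omega
      have hX2n : X2.Nonempty := by
        rw [← Finset.card_pos]
        omega
      have hX1k : X1.card ≤ 2 ^ k := by omega
      have hX2k : X2.card ≤ 2 ^ k := by omega
      have hXu : X1 ∪ X2 = X := by
        rw [hX2def, Finset.union_sdiff_of_subset hX1X]
      have hX2X : X2 ⊆ X := Finset.sdiff_subset
      have hX12 : Disjoint X1 X2 := Finset.disjoint_sdiff
      -- two elements of Y
      obtain ⟨t1, ht1, t2, ht2, ht12⟩ : ∃ a ∈ Y, ∃ b ∈ Y, a ≠ b :=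
        Finset.one_lt_card.1 (by omega)
      set Y' := (Y.erase t1).erase t2 with hY'def
      have hY'c : 2 * k ≤ Y'.card := by
        rw [hY'def, Finset.card_erase_of_mem (Finset.mem_erase.2 ⟨ht12.symm, ht2⟩),
          Finset.card_erase_of_mem ht1]
        omega
      have hY'Y : Y' ⊆ Y := (Finset.erase_subset _ _).trans (Finset.erase_subset _ _)
      have ht1Y' : t1 ∉ Y' := by
        rw [hY'def]
        simp
      have ht2Y' : t2 ∉ Y' := by
        rw [hY'def]
        simp
      have ht1c : t1 ∉ c := fun h => (Finset.disjoint_left.1 hYc) ht1 h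
      have ht2c : t2 ∉ c := fun h => (Finset.disjoint_left.1 hYc) ht2 h
      have ht1X : t1 ∉ X := fun h => (Finset.disjoint_left.1 hXY) h ht1
      have ht2X : t2 ∉ X := fun h => (Finset.disjoint_left.1 hXY) h ht2
      -- inner event
      have hinner : ∀ t : κ, t ∈ Y → t ∉ Y' → 1 - 16 * ε ≤
          pr w (Lk {c' | insert t c ⊆ c' ∧ c' ⊆ insert t c ∪ X ∪ Y'} (insert t c)
            (insert t c ∪ X)) := by
        intro t ht htY'
        have htc : t ∉ c := fun h => (Finset.disjoint_left.1 hYc) ht h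
        have htX : t ∉ X := fun h => (Finset.disjoint_left.1 hXY) h ht
        have e1 := ih X1 Y' (insert t c) hX1n
          (by
            rw [Finset.disjoint_left]
            intro a ha hb
            rcases Finset.mem_insert.1 hb with rfl | hb
            · exact htX (hX1X ha)
            · exact (Finset.disjoint_left.1 hXc) (hX1X ha) hb)
          (by
            rw [Finset.disjoint_left]
            intro a ha hb
            rcases Finset.mem_insert.1 hb with rfl | hb
            · exact htY' ha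
            · exact (Finset.disjoint_left.1 hYc) (hY'Y ha) hb)
          (hXY.mono hX1X hY'Y) hX1k hY'c
        have e2 := ih X2 Y' (insert t c ∪ X1) hX2n
          (by
            rw [Finset.disjoint_left]
            intro a ha hb
            rcases Finset.mem_union.1 hb with hb | hb
            · rcases Finset.mem_insert.1 hb with rfl | hb
              · exact htX (hX2X ha)
              · exact (Finset.disjoint_left.1 hXc) (hX2X ha) hb
            · exact (Finset.disjoint_left.1 hX12) hb ha)
          (by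
            rw [Finset.disjoint_left]
            intro a ha hb
            rcases Finset.mem_union.1 hb with hb | hb
            · rcases Finset.mem_insert.1 hb with rfl | hb
              · exact htY' ha
              · exact (Finset.disjoint_left.1 hYc) (hY'Y ha) hb
            · exact (Finset.disjoint_left.1 hXY) (hX1X hb) (hY'Y ha))
          (hXY.mono hX2X hY'Y) hX2k hY'c
        have e3 := hc_inter_ge hw e1 e2
        have e4 : insert t c ∪ X1 ∪ X2 = insert t c ∪ X := by
          rw [Finset.union_assoc, hXu]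
        rw [e4] at e3
        refine le_trans (by linarith) (le_trans e3 (pr_mono hw ?_))
        refine (htrans _ _ _ _ _).trans (hmono _ _ _ _ ?_)
        rintro c' (⟨h1, h2⟩ | ⟨h1, h2⟩)
        · refine ⟨h1, h2.trans ?_⟩
          exact Finset.union_subset_union (Finset.union_subset_union (subset_refl _) hX1X)
            (subset_refl _)
        · exact ⟨Finset.subset_union_left.trans h1, h2⟩
      have hE1 := hinner t1 ht1 ht1Y'
      have hE2 := hinner t2 ht2 ht2Y'
      set E1 := Lk {c' | insert t1 c ⊆ c' ∧ c' ⊆ insert t1 c ∪ X ∪ Y'} (insert t1 c)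
            (insert t1 c ∪ X) with hE1def
      set E2 := Lk {c' | insert t2 c ⊆ c' ∧ c' ⊆ insert t2 c ∪ X ∪ Y'} (insert t2 c)
            (insert t2 c ∪ X) with hE2def
      have hdis : Disjoint {c' : Finset κ | insert t1 c ⊆ c' ∧ c' ⊆ insert t1 c ∪ X ∪ Y'}
          {c' : Finset κ | insert t2 c ⊆ c' ∧ c' ⊆ insert t2 c ∪ X ∪ Y'} := by
        rw [Set.disjoint_left]
        rintro c' ⟨_, h2⟩ ⟨h3, _⟩
        have h4 := h2 (h3 (Finset.mem_insert_self t2 c))
        rcases Finset.mem_union.1 h4 with h5 | h5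
        · rcases Finset.mem_union.1 h5 with h6 | h6
          · rcases Finset.mem_insert.1 h6 with h7 | h7
            · exact ht12 h7.symm
            · exact ht2c h7
          · exact ht2X h6
        · exact ht2Y' h5
      have hEu := hc_union_ge hw (a := 16 * ε) (by linarith) hE1 hE2
        (hind _ _ hdis _ _ _ _)
      -- edges
      have hcX : ∀ t : κ, t ∈ Y → t ∉ c ∪ X := by
        intro t ht h
        rcases Finset.mem_union.1 h with h | h
        · exact (Finset.disjoint_left.1 hYc) ht h
        · exact (Finset.disjoint_left.1 hXY) h ht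
      have hF1 := hedge c t1 ht1c
      have hF2 := hedge c t2 ht2c
      have hG1 := hedge (c ∪ X) t1 (hcX t1 ht1)
      have hG2 := hedge (c ∪ X) t2 (hcX t2 ht2)
      set F1 := Lk {c, insert t1 c} c (insert t1 c) with hF1def
      set F2 := Lk {c, insert t2 c} c (insert t2 c) with hF2def
      set G1 := Lk {c ∪ X, insert t1 (c ∪ X)} (c ∪ X) (insert t1 (c ∪ X)) with hG1def
      set G2 := Lk {c ∪ X, insert t2 (c ∪ X)} (c ∪ X) (insert t2 (c ∪ X)) with hG2def
      have hall := hc_inter_ge hw (hc_inter_ge hw hF1 hG1) (hc_inter_ge hw hF2 hG2)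
      have hall2 := hc_inter_ge hw hall hEu
      have hroute : ∀ t : κ, t ∈ Y →
          Lk {c, insert t c} c (insert t c) ∩
            Lk {c' | insert t c ⊆ c' ∧ c' ⊆ insert t c ∪ X ∪ Y'} (insert t c) (insert t c ∪ X) ∩
            Lk {c ∪ X, insert t (c ∪ X)} (c ∪ X) (insert t (c ∪ X)) ⊆
          Lk {c' | c ⊆ c' ∧ c' ⊆ c ∪ X ∪ Y} c (c ∪ X) := by
        intro t ht ω hω
        obtain ⟨⟨h1, h2⟩, h3⟩ := hω
        have h4 := htrans _ _ _ _ _ ⟨h1, h2⟩
        have h5 := hsymm _ _ _ h3
        have h6 : insert t (c ∪ X) = insert t c ∪ X := by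
          rw [Finset.insert_union]
        rw [h6] at h5
        have h7 := htrans _ _ _ _ _ ⟨h4, h5⟩
        refine hmono _ _ _ _ ?_ h7
        have hsub : insert t c ⊆ c ∪ X ∪ Y := by
          intro a ha
          rcases Finset.mem_insert.1 ha with rfl | ha
          · exact Finset.mem_union_right _ ht
          · exact Finset.mem_union_left _ (Finset.mem_union_left _ ha)
        have hsubX : X ⊆ c ∪ X ∪ Y :=
          Finset.subset_union_right.trans Finset.subset_union_left
        have hsubY : Y' ⊆ c ∪ X ∪ Y := hY'Y.trans Finset.subset_union_right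
        rintro c' ((hc' | ⟨ha, hb⟩) | hc')
        · rcases hc' with rfl | rfl
          · exact ⟨subset_refl _, Finset.subset_union_left.trans Finset.subset_union_left⟩
          · exact ⟨Finset.subset_insert _ _, hsub⟩
        · exact ⟨(Finset.subset_insert _ _).trans ha,
            hb.trans (Finset.union_subset (Finset.union_subset hsub hsubX) hsubY)⟩
        · rcases hc' with rfl | rfl
          · exact ⟨Finset.subset_union_left, Finset.subset_union_left⟩
          · exact ⟨(Finset.subset_insert _ _).trans Finset.subset_union_left,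
              Finset.union_subset hsub hsubX⟩
      have hfin : F1 ∩ G1 ∩ (F2 ∩ G2) ∩ (E1 ∪ E2) ⊆
          Lk {c' | c ⊆ c' ∧ c' ⊆ c ∪ X ∪ Y} c (c ∪ X) := by
        rintro ω ⟨⟨⟨hf1, hg1⟩, ⟨hf2, hg2⟩⟩, he | he⟩
        · exact hroute t1 ht1 ⟨⟨hf1, he⟩, hg1⟩
        · exact hroute t2 ht2 ⟨⟨hf2, he⟩, hg2⟩
      refine le_trans ?_ (le_trans hall2 (pr_mono hw hfin))
      nlinarith

end Pool.Agent.OIP
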