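import Pool.Agent.OIP.Base
import Pool.Agent.OIP.HC

/-! OIP: see the header of GLinks.lean -/

set_option autoImplicit false

open Finset
open scoped Classical

namespace Pool.Agent.OIP

theorem gchain_baseR_mono {D κ : Type} [Fintype κ] [DecidableEq κ] (ρ : κ → D) {A A' : Set (Finset κ)}
    (h : A ⊆ A') : baseR ρ A ⊆ baseR ρ A' := fun _ hS => h hS

theorem gchain_baseR_disjoint {D κ : Type} [Fintype κ] [DecidableEq κ] (ρ : κ → D)
    {A B : Set (Finset κ)} (h : Disjoint A B) : Disjoint (baseR ρ A) (baseR ρ B) := by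
  rw [Set.disjoint_left] at h ⊢
  intro S hS hS'
  exact h hS hS'

theorem glue_chain {n : ℕ} (hn : 1 ≤ n) {D : Type} [Fintype D] [DecidableEq D] {p : ℝ} {Ω : Type} [Fintype Ω]
    {w : Ω → ℝ} {W : Ω → SimpleGraph (Finset D)} (h : CubeLaw p w W) {ε : ℝ} (hε0 : 0 ≤ ε) (hε : ε ≤ 1 / 64)
    (ρ : Fin n ⊕ Fin (2 * n) → D) (ι : Fin n → D) (hinj : Function.Injective (Sum.elim ρ ι))
    (hlink : ∀ (c : Finset (Fin n ⊕ Fin (2 * n))) (x : Fin n ⊕ Fin (2 * n)), x ∉ c →
          1 - ε ≤ pr w {ω | ML (W ω) (baseR ρ {c, insert x c}) (lvs (c.image ρ) ι)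
            (lvs ((insert x c).image ρ) ι)}) :
    1 - 8 * ε ≤ pr w {ω | ML (W ω) Set.univ (lvs ∅ ι) (lvs (vs (fun k => ρ (Sum.inl k))) ι)} := by
  have key := HC h.law
    (fun (A : Set (Finset (Fin n ⊕ Fin (2 * n)))) (c c' : Finset (Fin n ⊕ Fin (2 * n))) =>
      {ω | ML (W ω) (baseR ρ A) (lvs (c.image ρ) ι) (lvs (c'.image ρ) ι)})
    (fun A A' c c' hA ω hω => ML.mono hω (gchain_baseR_mono ρ hA))
    (fun A c c' ω hω => ML.symm hω)
    (fun A A' c c' c'' ω hω => by
      refine ML.mono (ML.trans hω.1 hω.2) ?_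
      intro S hS
      rcases hS with hS | hS
      · exact Or.inl hS
      · exact Or.inr hS)
    (fun A B hAB c c' d d' => by
      have h1 := h.indep (baseR ρ A) (baseR ρ B) (gchain_baseR_disjoint ρ hAB)
        {G | ML G (baseR ρ A) (lvs (c.image ρ) ι) (lvs (c'.image ρ) ι)}
        {G | ML G (baseR ρ B) (lvs (d.image ρ) ι) (lvs (d'.image ρ) ι)}
        (depOn_ML _ _ _) (depOn_ML _ _ _)
      exact h1)
    ε hε0 hε hlink n
    (Finset.univ.image Sum.inl) (Finset.univ.image Sum.inr) ∅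
    (by
      have : Nonempty (Fin n) := ⟨⟨0, hn⟩⟩
      exact Finset.univ_nonempty.image _)
    (Finset.disjoint_empty_right _) (Finset.disjoint_empty_right _)
    (by
      rw [Finset.disjoint_left]
      intro a ha hb
      obtain ⟨i, _, rfl⟩ := Finset.mem_image.1 ha
      obtain ⟨j, _, hj⟩ := Finset.mem_image.1 hb
      exact Sum.inr_ne_inl hj)
    (by
      rw [Finset.card_image_of_injective _ Sum.inl_injective, Finset.card_univ, Fintype.card_fin]
      exact Nat.lt_two_pow_self.le)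
    (by
      rw [Finset.card_image_of_injective _ Sum.inr_injective, Finset.card_univ, Fintype.card_fin])
  refine key.trans (pr_mono h.law ?_)
  intro ω hω
  have h2 : ML (W ω) Set.univ (lvs ((∅ : Finset (Fin n ⊕ Fin (2 * n))).image ρ) ι)
      (lvs ((∅ ∪ Finset.univ.image Sum.inl : Finset (Fin n ⊕ Fin (2 * n))).image ρ) ι) :=
    ML.mono hω (Set.subset_univ _)
  have h3 : ((∅ ∪ Finset.univ.image Sum.inl : Finset (Fin n ⊕ Fin (2 * n))).image ρ) =
      vs (fun k => ρ (Sum.inl k)) := by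
    rw [Finset.empty_union, Finset.image_image]
    rfl
  rw [h3, Finset.image_empty] at h2
  exact h2

end Pool.Agent.OIP
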