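import Pool.Agent.OIP.Base
import Pool.Agent.OIP.Samp

/-! OIP: see the header of GLinks.lean -/

set_option autoImplicit false

open Finset
open scoped Classical

namespace Pool.Agent.OIP

theorem ghalfavg_half {κ : Type} [Fintype κ] [DecidableEq κ] {m : ℕ} (e : Fin m → κ)
    (he : Function.Injective e) (r : κ → κ → Prop) (σ : Equiv.Perm κ) (j : κ) (δ N : ℝ) (hδ : 0 < δ)
    (hN : 0 < N) (hm : 1 ≤ m) (hκ : (Fintype.card κ : ℝ) = N)
    (hbig : (1 / 2 + δ) * N ≤ ((Finset.univ.filter (fun k => r j k)).card : ℝ))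
    (hsmall : 2 * (Finset.univ.filter (fun k : Fin m => r j (σ (e k)))).card ≤ m) :
    δ / 2 * (((Finset.univ.image e).card : ℕ) : ℝ) <
      |(((Finset.univ.image e).filter (fun s => r j (σ s))).card : ℝ) -
        (((Finset.univ.image e).card : ℕ) : ℝ) * ((Finset.univ.filter (fun k => r j k)).card : ℝ) /
          (Fintype.card κ : ℝ)| := by
  have h1 : (Finset.univ.image e).card = m := by
    rw [Finset.card_image_of_injective _ he, Finset.card_univ, Fintype.card_fin]
  have h2 : ((Finset.univ.image e).filter (fun s => r j (σ s))).card =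
      (Finset.univ.filter (fun k : Fin m => r j (σ (e k)))).card := by
    rw [Finset.filter_image, Finset.card_image_of_injective _ he]
  rw [h1, h2, hκ]
  have hm' : (1 : ℝ) ≤ (m : ℝ) := by exact_mod_cast hm
  have h3 : (2 : ℝ) * ((Finset.univ.filter (fun k : Fin m => r j (σ (e k)))).card : ℝ) ≤ (m : ℝ) := by
    exact_mod_cast hsmall
  have h4 : (m : ℝ) * (1 / 2 + δ) ≤
      (m : ℝ) * ((Finset.univ.filter (fun k => r j k)).card : ℝ) / N := by
    rw [mul_div_assoc]
    refine mul_le_mul_of_nonneg_left ?_ (by linarith)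
    rw [le_div_iff₀ hN]
    exact hbig
  rw [lt_abs]
  right
  have h5 : 0 < (m : ℝ) * δ := by positivity
  nlinarith

theorem half_avg {n : ℕ} (hn : 1 ≤ n) {D : Type} [DecidableEq D] (G : SimpleGraph (Finset D)) (ι : Fin (n + n) → D)
    (δ : ℝ) (hδ : 0 < δ) :
    avg (fun σ : Equiv.Perm (Fin (n + n)) => ind (MLd δ G Set.univ (lvs ∅ (ι ∘ σ)) (lvs ∅ (ι ∘ σ)) ∧
      ¬ ML G Set.univ (fun k : Fin n => lvs ∅ (ι ∘ σ) (Fin.castAdd n k))
        (fun k : Fin n => lvs ∅ (ι ∘ σ) (Fin.natAdd n k)))) ≤ 8 / (δ ^ 2 * n) := by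
  have hn' : (1 : ℝ) ≤ (n : ℝ) := by exact_mod_cast hn
  let r : Fin (n + n) → Fin (n + n) → Prop := fun k l => Cn G Set.univ (lvs ∅ ι k) (lvs ∅ ι l)
  have hr : Equivalence r :=
    ⟨fun k => Cn.refl G _ _, fun h => Cn.symm h, fun h h' => Cn.trans h h'⟩
  have hlv : ∀ (σ : Equiv.Perm (Fin (n + n))) (k : Fin (n + n)),
      lvs ∅ (ι ∘ σ) k = lvs ∅ ι (σ k) := by
    intro σ k
    have h1 : vs (ι ∘ σ) = vs ι := by
      ext x
      simp only [vs, Finset.mem_image, Finset.mem_univ, true_and, Function.comp]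
      constructor
      · rintro ⟨a, ha⟩
        exact ⟨σ a, ha⟩
      · rintro ⟨a, ha⟩
        exact ⟨σ.symm a, by rw [Equiv.apply_symm_apply]; exact ha⟩
    unfold lvs
    rw [h1]
    rfl
  have e1 : Function.Injective (Fin.castAdd n : Fin n → Fin (n + n)) := Fin.castAdd_injective n n
  have e2 : Function.Injective (Fin.natAdd n : Fin n → Fin (n + n)) := Fin.natAdd_injective n n
  have h1 := sampling r hr (Finset.univ.image (Fin.castAdd n : Fin n → Fin (n + n))) (δ / 2) (by positivity)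
  have h2 := sampling r hr (Finset.univ.image (Fin.natAdd n : Fin n → Fin (n + n))) (δ / 2) (by positivity)
  have c1 : (Finset.univ.image (Fin.castAdd n : Fin n → Fin (n + n))).card = n := by
    rw [Finset.card_image_of_injective _ e1, Finset.card_univ, Fintype.card_fin]
  have c2 : (Finset.univ.image (Fin.natAdd n : Fin n → Fin (n + n))).card = n := by
    rw [Finset.card_image_of_injective _ e2, Finset.card_univ, Fintype.card_fin]
  have hsum : (8 : ℝ) / (δ ^ 2 * n) = 1 / ((δ / 2) ^ 2 * (n : ℝ)) + 1 / ((δ / 2) ^ 2 * (n : ℝ)) := by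
    have : (0 : ℝ) < n := by linarith
    field_simp
    ring
  rw [hsum]
  have h1' := h1
  have h2' := h2
  rw [show (1 : ℝ) / ((δ / 2) ^ 2 * ((Finset.univ.image (Fin.castAdd n : Fin n → Fin (n + n))).card : ℝ)) =
    1 / ((δ / 2) ^ 2 * (n : ℝ)) by rw [c1]] at h1'
  rw [show (1 : ℝ) / ((δ / 2) ^ 2 * ((Finset.univ.image (Fin.natAdd n : Fin n → Fin (n + n))).card : ℝ)) =
    1 / ((δ / 2) ^ 2 * (n : ℝ)) by rw [c2]] at h2'
  refine le_trans ?_ (add_le_add h1' h2')
  rw [← avg_add]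
  refine avg_mono fun σ => ?_
  by_cases hev : MLd δ G Set.univ (lvs ∅ (ι ∘ σ)) (lvs ∅ (ι ∘ σ)) ∧
      ¬ ML G Set.univ (fun k : Fin n => lvs ∅ (ι ∘ σ) (Fin.castAdd n k))
        (fun k : Fin n => lvs ∅ (ι ∘ σ) (Fin.natAdd n k))
  swap
  · have : ind (MLd δ G Set.univ (lvs ∅ (ι ∘ σ)) (lvs ∅ (ι ∘ σ)) ∧
      ¬ ML G Set.univ (fun k : Fin n => lvs ∅ (ι ∘ σ) (Fin.castAdd n k))
        (fun k : Fin n => lvs ∅ (ι ∘ σ) (Fin.natAdd n k))) = 0 := by
      unfold ind
      rw [if_neg hev]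
    rw [this]
    exact add_nonneg (ind_nonneg _) (ind_nonneg _)
  obtain ⟨⟨u, hu, -⟩, hnot⟩ := hev
  have hcast : ((n + n : ℕ) : ℝ) = (n : ℝ) + (n : ℝ) := by push_cast; ring
  have hpos : 0 < (Finset.univ.filter
      (fun k : Fin (n + n) => Cn G Set.univ (lvs ∅ (ι ∘ σ) k) u)).card := by
    have h3 : (0 : ℝ) < (1 / 2 + δ) * ((n + n : ℕ) : ℝ) := by
      rw [hcast]
      positivity
    exact_mod_cast h3.trans_le hu
  obtain ⟨k₀, hk₀⟩ := Finset.card_pos.1 hpos
  have hk₁ : Cn G Set.univ (lvs ∅ (ι ∘ σ) k₀) u := (Finset.mem_filter.1 hk₀).2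
  have hiff : ∀ k : Fin (n + n), Cn G Set.univ (lvs ∅ (ι ∘ σ) k) u ↔ r (σ k₀) (σ k) := by
    intro k
    constructor
    · intro h
      have := hk₁.trans h.symm
      rw [hlv, hlv] at this
      exact this
    · intro h
      have h' : Cn G Set.univ (lvs ∅ (ι ∘ σ) k₀) (lvs ∅ (ι ∘ σ) k) := by
        rw [hlv, hlv]
        exact h
      exact h'.symm.trans hk₁
  have hbig : (1 / 2 + δ) * ((n : ℝ) + (n : ℝ)) ≤
      ((Finset.univ.filter (fun k => r (σ k₀) k)).card : ℝ) := by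
    rw [← hcast]
    refine hu.trans (le_of_eq ?_)
    congr 1
    refine Finset.card_bij (fun k _ => σ k) ?_ ?_ ?_
    · intro k hk
      rw [Finset.mem_filter] at hk ⊢
      exact ⟨Finset.mem_univ _, (hiff k).1 hk.2⟩
    · intro a _ b _ hab
      exact σ.injective hab
    · intro b hb
      refine ⟨σ.symm b, ?_, Equiv.apply_symm_apply _ _⟩
      rw [Finset.mem_filter] at hb ⊢
      refine ⟨Finset.mem_univ _, (hiff _).2 ?_⟩
      rw [Equiv.apply_symm_apply]
      exact hb.2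
  have hcard : (Fintype.card (Fin (n + n)) : ℝ) = (n : ℝ) + (n : ℝ) := by
    rw [Fintype.card_fin]
    exact hcast
  have hN : (0 : ℝ) < (n : ℝ) + (n : ℝ) := by linarith
  have hor : 2 * (Finset.univ.filter (fun k : Fin n => r (σ k₀) (σ (Fin.castAdd n k)))).card ≤ n ∨
      2 * (Finset.univ.filter (fun k : Fin n => r (σ k₀) (σ (Fin.natAdd n k)))).card ≤ n := by
    by_contra hcon
    push Not at hcon
    refine hnot ⟨u, ?_, ?_⟩
    · have : (Finset.univ.filter (fun k : Fin n => Cn G Set.univ (lvs ∅ (ι ∘ σ) (Fin.castAdd n k)) u)) =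
          (Finset.univ.filter (fun k : Fin n => r (σ k₀) (σ (Fin.castAdd n k)))) :=
        Finset.filter_congr fun k _ => hiff _
      rw [this]
      exact hcon.1
    · have : (Finset.univ.filter (fun k : Fin n => Cn G Set.univ (lvs ∅ (ι ∘ σ) (Fin.natAdd n k)) u)) =
          (Finset.univ.filter (fun k : Fin n => r (σ k₀) (σ (Fin.natAdd n k)))) :=
        Finset.filter_congr fun k _ => hiff _
      rw [this]
      exact hcon.2
  rcases hor with h3 | h3
  · have h4 := ghalfavg_half (Fin.castAdd n) e1 r σ (σ k₀) δ ((n : ℝ) + (n : ℝ)) hδ hN hn hcard hbig h3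
    have h5 : (1 : ℝ) ≤ ind (∃ j : Fin (n + n),
        δ / 2 * ((Finset.univ.image (Fin.castAdd n : Fin n → Fin (n + n))).card : ℝ) <
        |(((Finset.univ.image (Fin.castAdd n : Fin n → Fin (n + n))).filter (fun s => r j (σ s))).card : ℝ) -
        ((Finset.univ.image (Fin.castAdd n : Fin n → Fin (n + n))).card : ℝ) *
          ((Finset.univ.filter (fun k => r j k)).card : ℝ) / (Fintype.card (Fin (n + n)) : ℝ)|) := by
      unfold ind
      rw [if_pos ⟨σ k₀, h4⟩]
    exact (ind_le_one _).trans (h5.trans (le_add_of_nonneg_right (ind_nonneg _)))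
  · have h4 := ghalfavg_half (Fin.natAdd n) e2 r σ (σ k₀) δ ((n : ℝ) + (n : ℝ)) hδ hN hn hcard hbig h3
    have h5 : (1 : ℝ) ≤ ind (∃ j : Fin (n + n),
        δ / 2 * ((Finset.univ.image (Fin.natAdd n : Fin n → Fin (n + n))).card : ℝ) <
        |(((Finset.univ.image (Fin.natAdd n : Fin n → Fin (n + n))).filter (fun s => r j (σ s))).card : ℝ) -
        ((Finset.univ.image (Fin.natAdd n : Fin n → Fin (n + n))).card : ℝ) *
          ((Finset.univ.filter (fun k => r j k)).card : ℝ) / (Fintype.card (Fin (n + n)) : ℝ)|) := by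
      unfold ind
      rw [if_pos ⟨σ k₀, h4⟩]
    exact (ind_le_one _).trans (h5.trans (le_add_of_nonneg_left (ind_nonneg _)))

end Pool.Agent.OIP
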