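import Pool.Agent.OIP.GLinks
import Pool.Agent.OIP.GHalfAvg

/-! OIP: see the header of GLinks.lean -/

set_option autoImplicit false

open Finset
open scoped Classical

namespace Pool.Agent.OIP

/-- the fraction of functions identifying two given different points is at most `1 / |D|` -/
theorem ghalf_coll {κ : Type} [Fintype κ] [DecidableEq κ] {D : Type} [Fintype D] [DecidableEq D]
    {a b : κ} (hab : a ≠ b) :
    avg (fun f : κ → D => ind (f a = f b)) ≤ 1 / (Fintype.card D : ℝ) := by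
  have h1 : avg (fun f : κ → D => ind (f a = f b)) =
      avg (fun x : D × ({j // j ≠ a} → D) => ind (x.1 = x.2 ⟨b, hab.symm⟩)) := by
    rw [← avg_equiv (Equiv.funSplitAt a D)]
    rfl
  rw [h1, avg_prod, avg_comm]
  refine avg_le_of_le (by positivity) fun g => ?_
  unfold avg
  refine div_le_div_of_nonneg_right ?_ (Nat.cast_nonneg _)
  have : (∑ x : D, ind (x = g ⟨b, hab.symm⟩)) = 1 := by
    rw [Finset.sum_eq_single (g ⟨b, hab.symm⟩)]
    · unfold ind
      rw [if_pos rfl]
    · intro x _ hx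
      unfold ind
      rw [if_neg hx]
    · exact fun h => absurd (Finset.mem_univ _) h
  exact this.le

/-- non-injective functions are rare -/
theorem ghalf_noninj {κ : Type} [Fintype κ] [DecidableEq κ] {D : Type} [Fintype D] [DecidableEq D] :
    avg (fun f : κ → D => ind (¬ Function.Injective f)) ≤
      (Fintype.card κ : ℝ) ^ 2 / (Fintype.card D : ℝ) := by
  have h1 : ∀ f : κ → D, ind (¬ Function.Injective f) ≤
      ∑ x ∈ Finset.univ.filter (fun x : κ × κ => x.1 ≠ x.2), ind (f x.1 = f x.2) := by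
    intro f
    by_cases hf : Function.Injective f
    · have : ind (¬ Function.Injective f) = 0 := by
        unfold ind
        rw [if_neg (not_not.2 hf)]
      rw [this]
      exact Finset.sum_nonneg fun x _ => ind_nonneg _
    · have hf' := hf
      unfold Function.Injective at hf'
      push Not at hf'
      obtain ⟨a, b, hab, hne⟩ := hf'
      have h2 : ind (f a = f b) ≤
          ∑ x ∈ Finset.univ.filter (fun x : κ × κ => x.1 ≠ x.2), ind (f x.1 = f x.2) := by
        exact Finset.single_le_sum (f := fun x : κ × κ => ind (f x.1 = f x.2))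
          (fun x _ => ind_nonneg _) (Finset.mem_filter.2 ⟨Finset.mem_univ (a, b), hne⟩)
      have h3 : ind (f a = f b) = 1 := by
        unfold ind
        rw [if_pos hab]
      exact (ind_le_one _).trans (h3 ▸ h2)
  refine (avg_mono h1).trans ?_
  rw [avg_sum]
  calc ∑ x ∈ Finset.univ.filter (fun x : κ × κ => x.1 ≠ x.2), avg (fun f : κ → D => ind (f x.1 = f x.2))
      ≤ ∑ x ∈ Finset.univ.filter (fun x : κ × κ => x.1 ≠ x.2), 1 / (Fintype.card D : ℝ) :=
        Finset.sum_le_sum fun x hx => ghalf_coll (Finset.mem_filter.1 hx).2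
    _ ≤ (Fintype.card κ : ℝ) ^ 2 / (Fintype.card D : ℝ) := by
        rw [Finset.sum_const, nsmul_eq_mul, mul_one_div]
        refine div_le_div_of_nonneg_right ?_ (Nat.cast_nonneg _)
        have : (Finset.univ.filter (fun x : κ × κ => x.1 ≠ x.2)).card ≤ Fintype.card κ ^ 2 := by
          refine (Finset.card_le_univ _).trans ?_
          rw [Fintype.card_prod, sq]
        exact_mod_cast this

theorem ghalf_mld_same {V : Type} {n : ℕ} {δ : ℝ} {G : SimpleGraph V} {R : Set V} {L L' : Fin n → V}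
    (h : MLd δ G R L L') : MLd δ G Set.univ L L := by
  obtain ⟨u, hu, -⟩ := h
  have h2 : (1 / 2 + δ) * (n : ℝ) ≤
      ((Finset.univ.filter (fun k : Fin n => Cn G Set.univ (L k) u)).card : ℝ) := by
    refine hu.trans ?_
    have : (Finset.univ.filter (fun k : Fin n => Cn G R (L k) u)).card ≤
        (Finset.univ.filter (fun k : Fin n => Cn G Set.univ (L k) u)).card := by
      refine Finset.card_le_card fun k hk => ?_
      rw [Finset.mem_filter] at hk ⊢
      exact ⟨hk.1, hk.2.mono (Set.subset_univ _)⟩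
    exact_mod_cast this
  exact ⟨u, h2, h2⟩

/-- the half stars of an injective family -/
theorem ghalf_lvs {D : Type} [DecidableEq D] {n : ℕ} (ι ι' : Fin n → D)
    (h : Function.Injective (Fin.append ι ι')) :
    (fun k : Fin n => lvs ∅ (Fin.append ι ι') (Fin.castAdd n k)) = lvs (vs ι') ι ∧
    (fun k : Fin n => lvs ∅ (Fin.append ι ι') (Fin.natAdd n k)) = lvs (vs ι) ι' := by
  have hvs : ∀ d : D, d ∈ vs (Fin.append ι ι') ↔ (d ∈ vs ι ∨ d ∈ vs ι') := by
    intro d
    unfold vs
    simp only [Finset.mem_image, Finset.mem_univ, true_and]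
    constructor
    · rintro ⟨x, hx⟩
      revert hx
      refine Fin.addCases (fun i => ?_) (fun i => ?_) x
      · rw [Fin.append_left]
        exact fun hx => Or.inl ⟨i, hx⟩
      · rw [Fin.append_right]
        exact fun hx => Or.inr ⟨i, hx⟩
    · rintro (⟨i, hi⟩ | ⟨i, hi⟩)
      · exact ⟨Fin.castAdd n i, by rw [Fin.append_left, hi]⟩
      · exact ⟨Fin.natAdd n i, by rw [Fin.append_right, hi]⟩
  have hne : ∀ i j : Fin n, ι i ≠ ι' j := by
    intro i j hij
    have : Fin.append ι ι' (Fin.castAdd n i) = Fin.append ι ι' (Fin.natAdd n j) := by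
      rw [Fin.append_left, Fin.append_right, hij]
    have h2 := h this
    have h3 := congrArg Fin.val h2
    simp only [Fin.val_castAdd, Fin.val_natAdd] at h3
    have := i.2
    omega
  constructor
  · funext k
    unfold lvs
    ext d
    rw [Finset.empty_union, Finset.mem_erase, hvs, Finset.mem_union, Finset.mem_erase, Fin.append_left]
    constructor
    · rintro ⟨h1, h2 | h2⟩
      · exact Or.inr ⟨h1, h2⟩
      · exact Or.inl h2
    · rintro (h1 | h1)
      · refine ⟨?_, Or.inr h1⟩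
        unfold vs at h1
        simp only [Finset.mem_image, Finset.mem_univ, true_and] at h1
        obtain ⟨j, rfl⟩ := h1
        exact (hne k j).symm
      · exact ⟨h1.1, Or.inl h1.2⟩
  · funext k
    unfold lvs
    ext d
    rw [Finset.empty_union, Finset.mem_erase, hvs, Finset.mem_union, Finset.mem_erase, Fin.append_right]
    constructor
    · rintro ⟨h1, h2 | h2⟩
      · exact Or.inl h2
      · exact Or.inr ⟨h1, h2⟩
    · rintro (h1 | h1)
      · refine ⟨?_, Or.inl h1⟩
        unfold vs at h1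
        simp only [Finset.mem_image, Finset.mem_univ, true_and] at h1
        obtain ⟨j, rfl⟩ := h1
        exact hne j k
      · exact ⟨h1.1, Or.inr h1.2⟩

theorem ghalf_dl_pos {p : ℝ} (hp : pc < p) : 0 < dl p / 2 := by
  have h1 : (1 : ℝ) / 2 < pc := by
    unfold pc
    have : Real.sqrt 3 < 7 / 4 := by
      rw [Real.sqrt_lt' (by norm_num)]
      norm_num
    linarith
  unfold dl
  linarith

/-- averaged majority of a large star -/
theorem ghalf_big (p : ℝ) (hp : pc < p) (hp1 : p ≤ 1) (ε : ℝ) (hε : 0 < ε) :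
    ∃ n₀ : ℕ, ∀ n : ℕ, n₀ ≤ n →
      ∃ N₀ : ℕ, ∀ (D : Type) [Fintype D] [DecidableEq D], N₀ ≤ Fintype.card D →
      ∀ (Ω : Type) [Fintype Ω] (w : Ω → ℝ) (W : Ω → SimpleGraph (Finset D)), CubeLaw p w W →
      avg (fun ι : Fin n → D =>
        pr w {ω | ¬ MLd (dl p / 2) (W ω) Set.univ (lvs ∅ ι) (lvs ∅ ι)}) ≤ ε := by
  obtain ⟨n₀, hn₀⟩ := glue_links p hp hp1 (ε / 3) (by linarith)
  refine ⟨n₀, fun n hn => ?_⟩
  obtain ⟨N₁, hN₁⟩ := hn₀ n hn Unit (ε / 3) (by linarith)
  obtain ⟨N₂, hN₂⟩ := exists_nat_ge (3 * ((n : ℝ) + 1) ^ 2 / ε)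
  refine ⟨max (max N₁ N₂) 1, fun D _ _ hD Ω _ w W hW => ?_⟩
  have hD1 : N₁ ≤ Fintype.card D := (le_max_left _ _).trans ((le_max_left _ _).trans hD)
  have hD2 : N₂ ≤ Fintype.card D := (le_max_right _ _).trans ((le_max_left _ _).trans hD)
  have hD3 : 1 ≤ Fintype.card D := (le_max_right _ _).trans hD
  have hne : Nonempty D := Fintype.card_pos_iff.1 hD3
  have hlink := hN₁ D hD1 Ω w W hW
  set F : (Fin n → D) → ℝ := fun ι =>
    pr w {ω | ¬ MLd (dl p / 2) (W ω) Set.univ (lvs ∅ ι) (lvs ∅ ι)} with hF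
  set Bd : (Unit → D) → (Fin n → D) → Prop := fun ρ ι => Function.Injective (Sum.elim ρ ι) ∧
        ¬ ∀ (c : Finset Unit) (x : Unit), x ∉ c →
          1 - ε / 3 ≤ pr w {ω | MLd (dl p / 2) (W ω) (baseR ρ {c, insert x c}) (lvs (c.image ρ) ι)
            (lvs ((insert x c).image ρ) ι)} with hBd
  have key : ∀ (ρ : Unit → D) (ι : Fin n → D),
      F ι ≤ ε / 3 + ind (¬ Function.Injective (Sum.elim ρ ι)) + ind (Bd ρ ι) := by
    intro ρ ι
    have hF1 : F ι ≤ 1 := pr_le_one hW.law _
    by_cases h1 : Function.Injective (Sum.elim ρ ι)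
    · by_cases h2 : Bd ρ ι
      · have : ind (Bd ρ ι) = 1 := by
          unfold ind
          rw [if_pos h2]
        have h3 := ind_nonneg (¬ Function.Injective (Sum.elim ρ ι))
        linarith
      · have h3 : 1 - ε / 3 ≤ pr w {ω | MLd (dl p / 2) (W ω) (baseR ρ {(∅ : Finset Unit), insert () ∅})
            (lvs ((∅ : Finset Unit).image ρ) ι) (lvs ((insert () (∅ : Finset Unit)).image ρ) ι)} := by
          by_contra hcon
          exact h2 ⟨h1, fun hall => hcon (hall ∅ () (Finset.notMem_empty _))⟩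
        have h4 : F ι ≤ 1 - pr w {ω | MLd (dl p / 2) (W ω) (baseR ρ {(∅ : Finset Unit), insert () ∅})
            (lvs ((∅ : Finset Unit).image ρ) ι) (lvs ((insert () (∅ : Finset Unit)).image ρ) ι)} := by
          rw [← pr_compl hW.law]
          refine pr_mono hW.law ?_
          intro ω hω hcon
          refine hω ?_
          have := ghalf_mld_same hcon
          rwa [Finset.image_empty] at this
        have h5 := ind_nonneg (¬ Function.Injective (Sum.elim ρ ι))
        have h6 := ind_nonneg (Bd ρ ι)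
        linarith
    · have : ind (¬ Function.Injective (Sum.elim ρ ι)) = 1 := by
        unfold ind
        rw [if_pos h1]
      have h3 := ind_nonneg (Bd ρ ι)
      linarith
  have h1 : avg F = avg (fun _ : Unit → D => avg F) := (avg_const _).symm
  have h2 : avg (fun ρ : Unit → D => avg (fun ι : Fin n → D => ind (¬ Function.Injective (Sum.elim ρ ι)))) ≤
      ε / 3 := by
    have h3 : avg (fun ρ : Unit → D => avg (fun ι : Fin n → D => ind (¬ Function.Injective (Sum.elim ρ ι)))) =
        avg (fun f : Unit ⊕ Fin n → D => ind (¬ Function.Injective f)) := by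
      rw [← avg_equiv (Equiv.sumArrowEquivProdArrow Unit (Fin n) D).symm, avg_prod]
      rfl
    rw [h3]
    refine ghalf_noninj.trans ?_
    rw [Fintype.card_sum, Fintype.card_unit, Fintype.card_fin]
    have hN : (0 : ℝ) < (Fintype.card D : ℝ) := by exact_mod_cast hD3
    rw [div_le_iff₀ hN]
    have h4 : 3 * ((n : ℝ) + 1) ^ 2 / ε ≤ (Fintype.card D : ℝ) :=
      hN₂.trans (by exact_mod_cast hD2)
    rw [div_le_iff₀ hε] at h4
    push_cast
    nlinarith
  rw [h1]
  calc avg (fun _ : Unit → D => avg F)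
      ≤ avg (fun ρ : Unit → D => avg (fun ι : Fin n → D =>
          ε / 3 + ind (¬ Function.Injective (Sum.elim ρ ι)) + ind (Bd ρ ι))) :=
        avg_mono fun ρ => avg_mono fun ι => key ρ ι
    _ = avg (fun ρ : Unit → D => ε / 3 + avg (fun ι : Fin n → D => ind (¬ Function.Injective (Sum.elim ρ ι))) +
          avg (fun ι : Fin n → D => ind (Bd ρ ι))) := by
        congr 1
        funext ρ
        rw [avg_add, avg_add, avg_const]
    _ = ε / 3 + avg (fun ρ : Unit → D => avg (fun ι : Fin n → D => ind (¬ Function.Injective (Sum.elim ρ ι)))) +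
          avg (fun ρ : Unit → D => avg (fun ι : Fin n → D => ind (Bd ρ ι))) := by
        rw [avg_add, avg_add, avg_const]
    _ ≤ ε / 3 + ε / 3 + ε / 3 := add_le_add (add_le_add le_rfl h2) hlink
    _ = ε := by ring

theorem glue_half (p : ℝ) (hp : pc < p) (hp1 : p ≤ 1) (ε : ℝ) (hε : 0 < ε) :
    ∃ n₀ : ℕ, ∀ n : ℕ, n₀ ≤ n →
      ∃ N₀ : ℕ, ∀ (D : Type) [Fintype D] [DecidableEq D], N₀ ≤ Fintype.card D →
      ∀ (Ω : Type) [Fintype Ω] (w : Ω → ℝ) (W : Ω → SimpleGraph (Finset D)), CubeLaw p w W →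
      avg (fun ι : Fin n → D => avg (fun ι' : Fin n → D =>
        pr w {ω | ¬ ML (W ω) Set.univ (lvs (vs ι') ι) (lvs (vs ι) ι')})) ≤ ε := by
  have hδ : 0 < dl p / 2 := ghalf_dl_pos hp
  obtain ⟨n₁, hn₁⟩ := ghalf_big p hp hp1 (ε / 3) (by linarith)
  obtain ⟨n₂, hn₂⟩ := exists_nat_ge (24 / ((dl p / 2) ^ 2 * ε))
  refine ⟨max (max n₁ n₂) 1, fun n hn => ?_⟩
  have hnn1 : n₁ ≤ n := (le_max_left _ _).trans ((le_max_left _ _).trans hn)
  have hnn2 : n₂ ≤ n := (le_max_right _ _).trans ((le_max_left _ _).trans hn)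
  have hnn3 : 1 ≤ n := (le_max_right _ _).trans hn
  obtain ⟨N₁, hN₁⟩ := hn₁ (n + n) (by omega)
  obtain ⟨N₂, hN₂⟩ := exists_nat_ge (3 * (2 * (n : ℝ)) ^ 2 / ε)
  refine ⟨max (max N₁ N₂) 1, fun D _ _ hD Ω _ w W hW => ?_⟩
  have hD1 : N₁ ≤ Fintype.card D := (le_max_left _ _).trans ((le_max_left _ _).trans hD)
  have hD2 : N₂ ≤ Fintype.card D := (le_max_right _ _).trans ((le_max_left _ _).trans hD)
  have hD3 : 1 ≤ Fintype.card D := (le_max_right _ _).trans hD
  have hbig := hN₁ D hD1 Ω w W hW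
  set F : (Fin (n + n) → D) → ℝ := fun ι =>
    pr w {ω | ¬ MLd (dl p / 2) (W ω) Set.univ (lvs ∅ ι) (lvs ∅ ι)} with hF
  -- failure of the half star event
  set H : (Fin (n + n) → D) → ℝ := fun ι =>
    pr w {ω | ¬ ML (W ω) Set.univ (fun k : Fin n => lvs ∅ ι (Fin.castAdd n k))
        (fun k : Fin n => lvs ∅ ι (Fin.natAdd n k))} with hH
  set K : (Fin (n + n) → D) → ℝ := fun ι =>
    pr w {ω | MLd (dl p / 2) (W ω) Set.univ (lvs ∅ ι) (lvs ∅ ι) ∧
      ¬ ML (W ω) Set.univ (fun k : Fin n => lvs ∅ ι (Fin.castAdd n k))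
        (fun k : Fin n => lvs ∅ ι (Fin.natAdd n k))} with hK
  have hHFK : ∀ ι, H ι ≤ F ι + K ι := by
    intro ι
    refine le_trans (pr_mono hW.law ?_) (pr_union_le hW.law _ _)
    intro ω hω
    by_cases h : MLd (dl p / 2) (W ω) Set.univ (lvs ∅ ι) (lvs ∅ ι)
    · exact Or.inr ⟨h, hω⟩
    · exact Or.inl h
  have hperm : ∀ (Q : (Fin (n + n) → D) → ℝ) (σ : Equiv.Perm (Fin (n + n))),
      avg (fun ι : Fin (n + n) → D => Q (ι ∘ σ)) = avg Q := fun Q σ =>
    avg_equiv (Equiv.arrowCongr σ.symm (Equiv.refl D)) Q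
  have hKavg : avg K ≤ ε / 3 := by
    have h1 : avg K = avg (fun σ : Equiv.Perm (Fin (n + n)) => avg (fun ι : Fin (n + n) → D => K (ι ∘ σ))) := by
      have : (fun σ : Equiv.Perm (Fin (n + n)) => avg (fun ι : Fin (n + n) → D => K (ι ∘ σ))) =
          fun _ => avg K := funext fun σ => hperm K σ
      rw [this, avg_const]
    rw [h1, avg_comm]
    refine avg_le_of_le (by linarith) fun ι => ?_
    have h2 : avg (fun σ : Equiv.Perm (Fin (n + n)) => K (ι ∘ σ)) ≤ 8 / ((dl p / 2) ^ 2 * n) := by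
      refine avg_pr_le hW.law (fun (σ : Equiv.Perm (Fin (n + n))) (ω : Ω) =>
        MLd (dl p / 2) (W ω) Set.univ (lvs ∅ (ι ∘ σ)) (lvs ∅ (ι ∘ σ)) ∧
        ¬ ML (W ω) Set.univ (fun k : Fin n => lvs ∅ (ι ∘ σ) (Fin.castAdd n k))
        (fun k : Fin n => lvs ∅ (ι ∘ σ) (Fin.natAdd n k))) _ fun ω => ?_
      exact half_avg hnn3 (W ω) ι (dl p / 2) hδ
    refine h2.trans ?_
    have hn0 : (0 : ℝ) < n := by exact_mod_cast hnn3
    have h3 : 24 / ((dl p / 2) ^ 2 * ε) ≤ (n : ℝ) := hn₂.trans (by exact_mod_cast hnn2)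
    have h4 : 0 < (dl p / 2) ^ 2 := by positivity
    rw [div_le_iff₀ (by positivity)] at h3
    rw [div_le_iff₀ (by positivity)]
    nlinarith
  have hHavg : avg H ≤ ε / 3 + ε / 3 := by
    calc avg H ≤ avg (fun ι => F ι + K ι) := avg_mono hHFK
      _ = avg F + avg K := avg_add _ _
      _ ≤ ε / 3 + ε / 3 := add_le_add hbig hKavg
  have hinj : avg (fun f : Fin (n + n) → D => ind (¬ Function.Injective f)) ≤ ε / 3 := by
    refine ghalf_noninj.trans ?_
    rw [Fintype.card_fin]
    have hN : (0 : ℝ) < (Fintype.card D : ℝ) := by exact_mod_cast hD3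
    rw [div_le_iff₀ hN]
    have h4 : 3 * (2 * (n : ℝ)) ^ 2 / ε ≤ (Fintype.card D : ℝ) :=
      hN₂.trans (by exact_mod_cast hD2)
    rw [div_le_iff₀ hε] at h4
    push_cast
    nlinarith
  have hpt : ∀ ι ι' : Fin n → D, pr w {ω | ¬ ML (W ω) Set.univ (lvs (vs ι') ι) (lvs (vs ι) ι')} ≤
      H (Fin.append ι ι') + ind (¬ Function.Injective (Fin.append ι ι')) := by
    intro ι ι'
    by_cases h : Function.Injective (Fin.append ι ι')
    · have h1 := ind_nonneg (¬ Function.Injective (Fin.append ι ι'))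
      have h2 := ghalf_lvs ι ι' h
      have h3 : H (Fin.append ι ι') =
          pr w {ω | ¬ ML (W ω) Set.univ (lvs (vs ι') ι) (lvs (vs ι) ι')} := by
        rw [hH]
        simp only []
        rw [h2.1, h2.2]
      linarith
    · have h1 : ind (¬ Function.Injective (Fin.append ι ι')) = 1 := by
        unfold ind
        rw [if_pos h]
      have h2 : pr w {ω | ¬ ML (W ω) Set.univ (lvs (vs ι') ι) (lvs (vs ι) ι')} ≤ 1 := pr_le_one hW.law _
      have h3 : 0 ≤ H (Fin.append ι ι') := pr_nonneg hW.law _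
      linarith
  calc avg (fun ι : Fin n → D => avg (fun ι' : Fin n → D =>
        pr w {ω | ¬ ML (W ω) Set.univ (lvs (vs ι') ι) (lvs (vs ι) ι')}))
      ≤ avg (fun ι : Fin n → D => avg (fun ι' : Fin n → D =>
          H (Fin.append ι ι') + ind (¬ Function.Injective (Fin.append ι ι')))) :=
        avg_mono fun ι => avg_mono fun ι' => hpt ι ι'
    _ = avg (fun f : Fin (n + n) → D => H f + ind (¬ Function.Injective f)) := by
        rw [← avg_equiv (Fin.appendEquiv n n), avg_prod]
        rfl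
    _ = avg H + avg (fun f : Fin (n + n) → D => ind (¬ Function.Injective f)) := avg_add _ _
    _ ≤ (ε / 3 + ε / 3) + ε / 3 := add_le_add hHavg hinj
    _ = ε := by ring

end Pool.Agent.OIP
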