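import Pool.Agent.OIP.Base

/-!
# OIP: gluing of two stars in the cube

`glue_links`: apply `fiber_main` (for each `c`, `x ∉ c` separately, with `η / (|κ| 2^|κ|)`) to the law
`(W ω).comap (embB ρ c x)` on the directions outside `range ρ` (`fiberLaw_embB`, `mld_of_starGood`).  Functions
`ι : Fin n → D` avoiding `range ρ` correspond to functions into the subtype; their number is at most
`|D|^n`.

`glue_chain`: `HC` for `Lk A c c' = {ω | ML (W ω) (baseR ρ A) (lvs (c.image ρ) ι) (lvs (c'.image ρ) ι)}`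
(`baseR ρ A` and `baseR ρ B` are disjoint for disjoint `A`, `B`), `X = image of Sum.inl`, `Y = image of Sum.inr`,
`c = ∅`, `k = n`, `n ≤ 2^n`.

`half_avg`: `sampling` on `Fin (n + n)` for the two halves and the relation
`r k l := Cn G univ (leaf k) (leaf l)` with `leaf k = (vs ι).erase (ι k)`; the direction set `vs (ι ∘ σ) = vs ι`.

`glue_half`: `glue_links` with `κ = Unit`, star size `n + n`, and `half_avg` (replace `ι` by `ι ∘ σ`).

`glue_main`: `(∅, ι) - (vs ι', ι) - (vs ι, ι') - (∅, ι')` by `glue_chain`, `glue_half`, `glue_chain` and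
`ML.trans`, `ML.symm`, for random jointly injective `ι, ι', θ, θ'` with `θ, θ' : Fin (2 n) → D`; non-injective
choices have fraction at most `(6 n)² / |D|`.
-/

set_option autoImplicit false

open Finset
open scoped Classical

namespace Pool.Agent.OIP

/-- averages along an injective reindexing: no mass outside the range -/
theorem glinks_avg_le {X Y : Type*} [Fintype X] [Fintype Y] {g : X → Y} (hg : Function.Injective g)
    {F : Y → ℝ} {F' : X → ℝ} (hF' : ∀ x, 0 ≤ F' x) (h0 : ∀ y, y ∉ Set.range g → F y = 0)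
    (hle : ∀ x, F (g x) ≤ F' x) : avg F ≤ avg F' := by
  have hsum : ∑ y, F y ≤ ∑ x, F' x := by
    have h1 : ∑ y, F y = ∑ y ∈ Finset.univ.image g, F y := by
      symm
      refine Finset.sum_subset (Finset.subset_univ _) fun y _ hy => h0 y ?_
      rintro ⟨x, hx⟩
      exact hy (Finset.mem_image.2 ⟨x, Finset.mem_univ _, hx⟩)
    rw [h1, Finset.sum_image fun x _ y _ hxy => hg hxy]
    exact Finset.sum_le_sum fun x _ => hle x
  have hcard : Fintype.card X ≤ Fintype.card Y := Fintype.card_le_of_injective g hg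
  have hnn : 0 ≤ ∑ x, F' x := Finset.sum_nonneg fun x _ => hF' x
  unfold avg
  rcases Nat.eq_zero_or_pos (Fintype.card X) with h | h
  · have hX : IsEmpty X := Fintype.card_eq_zero_iff.1 h
    have h2 : ∑ x, F' x = 0 := by simp
    rw [h2] at hsum ⊢
    rw [zero_div]
    exact div_nonpos_of_nonpos_of_nonneg hsum (Nat.cast_nonneg _)
  · have h3 : (0 : ℝ) < (Fintype.card X : ℝ) := by exact_mod_cast h
    have h4 : (Fintype.card X : ℝ) ≤ (Fintype.card Y : ℝ) := by exact_mod_cast hcard
    calc (∑ y, F y) / (Fintype.card Y : ℝ) ≤ (∑ x, F' x) / (Fintype.card Y : ℝ) :=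
          div_le_div_of_nonneg_right hsum (Nat.cast_nonneg _)
      _ ≤ (∑ x, F' x) / (Fintype.card X : ℝ) := div_le_div_of_nonneg_left hnn h3 h4

theorem glinks_injective_elim {κ D : Type} {n : ℕ} {ρ : κ → D} {ι : Fin n → D}
    (h : Function.Injective (Sum.elim ρ ι)) :
    Function.Injective ρ ∧ Function.Injective ι ∧ ∀ k, ι k ∉ Set.range ρ := by
  refine ⟨fun a b hab => ?_, fun a b hab => ?_, ?_⟩
  · exact Sum.inl_injective (h (a₁ := Sum.inl a) (a₂ := Sum.inl b) hab)
  · exact Sum.inr_injective (h (a₁ := Sum.inr a) (a₂ := Sum.inr b) hab)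
  · rintro k ⟨a, ha⟩
    have := h (a₁ := Sum.inl a) (a₂ := Sum.inr k) ha
    simp at this

theorem glinks_card {κ D : Type} [Fintype κ] [Fintype D] (ρ : κ → D)
    [Fintype {d : D // d ∉ Set.range ρ}] :
    Fintype.card D ≤ Fintype.card {d : D // d ∉ Set.range ρ} + Fintype.card κ := by
  have h1 := Fintype.card_subtype_compl (fun d : D => d ∈ Set.range ρ)
  have h2 : Fintype.card {d : D // d ∈ Set.range ρ} ≤ Fintype.card κ :=
    Fintype.card_le_of_surjective (fun k => (⟨ρ k, k, rfl⟩ : {d : D // d ∈ Set.range ρ}))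
      (by rintro ⟨_, k, rfl⟩; exact ⟨k, rfl⟩)
  have h3 : Fintype.card {d : D // d ∉ Set.range ρ} =
      Fintype.card {d : D // ¬ (d ∈ Set.range ρ)} := Fintype.card_congr (Equiv.refl _)
  omega

/-- the union bound for indicators -/
theorem glinks_ind_le {ι : Type*} (s : Finset ι) (P : Prop) (Q : ι → Prop) (h : P → ∃ i ∈ s, Q i) :
    ind P ≤ ∑ i ∈ s, ind (Q i) := by
  by_cases hP : P
  · obtain ⟨i, hi, hQ⟩ := h hP
    have h1 : ind P = 1 := if_pos hP
    have h2 : ind (Q i) = 1 := if_pos hQ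
    rw [h1, ← h2]
    exact Finset.single_le_sum (f := fun i => ind (Q i)) (fun j _ => ind_nonneg _) hi
  · have h1 : ind P = 0 := if_neg hP
    rw [h1]
    exact Finset.sum_nonneg fun j _ => ind_nonneg _

theorem glue_links (p : ℝ) (hp : pc < p) (hp1 : p ≤ 1) (ε : ℝ) (hε : 0 < ε) :
    ∃ n₀ : ℕ, ∀ n : ℕ, n₀ ≤ n → ∀ (κ : Type) [Fintype κ] [DecidableEq κ] (η : ℝ), 0 < η →
      ∃ N₀ : ℕ, ∀ (D : Type) [Fintype D] [DecidableEq D], N₀ ≤ Fintype.card D →
      ∀ (Ω : Type) [Fintype Ω] (w : Ω → ℝ) (W : Ω → SimpleGraph (Finset D)), CubeLaw p w W →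
      avg (fun ρ : κ → D => avg (fun ι : Fin n → D => ind (Function.Injective (Sum.elim ρ ι) ∧
        ¬ ∀ (c : Finset κ) (x : κ), x ∉ c →
          1 - ε ≤ pr w {ω | MLd (dl p / 2) (W ω) (baseR ρ {c, insert x c}) (lvs (c.image ρ) ι)
            (lvs ((insert x c).image ρ) ι)}))) ≤ η := by
  obtain ⟨n₀, hn₀⟩ := fiber_main p hp hp1 ε hε
  refine ⟨n₀, fun n hn κ _ _ η hη => ?_⟩
  set M : ℕ := Fintype.card (Finset κ × κ) with hM
  have hM1 : (0 : ℝ) < (M : ℝ) + 1 := by positivity
  obtain ⟨N₁, hN₁⟩ := hn₀ n hn (η / ((M : ℝ) + 1)) (div_pos hη hM1)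
  refine ⟨N₁ + Fintype.card κ, fun D _ _ hD Ω _ w W hW => ?_⟩
  refine avg_le_of_le hη.le fun ρ => ?_
  by_cases hρ : Function.Injective ρ
  · -- the event for one pair
    set Q : Finset κ × κ → (Fin n → D) → Prop := fun z ι =>
      (Function.Injective ι ∧ ∀ k, ι k ∉ Set.range ρ) ∧ z.2 ∉ z.1 ∧
        pr w {ω | MLd (dl p / 2) (W ω) (baseR ρ {z.1, insert z.2 z.1}) (lvs (z.1.image ρ) ι)
            (lvs ((insert z.2 z.1).image ρ) ι)} < 1 - ε with hQ
    have key : ∀ z : Finset κ × κ, avg (fun ι : Fin n → D => ind (Q z ι)) ≤ η / ((M : ℝ) + 1) := by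
      rintro ⟨c, x⟩
      by_cases hx : x ∈ c
      · refine avg_le_of_le (div_pos hη hM1).le fun ι => ?_
        have : ind (Q (c, x) ι) = 0 := if_neg fun h => h.2.1 hx
        rw [this]
        exact (div_pos hη hM1).le
      · have hcard : N₁ ≤ Fintype.card {d : D // d ∉ Set.range ρ} := by
          have := glinks_card ρ
          omega
        have hF := hN₁ {d : D // d ∉ Set.range ρ} hcard Ω w
          (fun ω => (W ω).comap (embB ρ c x)) (fiberLaw_embB hρ hx hW)
        refine le_trans (glinks_avg_le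
          (g := fun (ι : Fin n → {d : D // d ∉ Set.range ρ}) (k : Fin n) => (ι k).1) ?_
          (fun _ => ind_nonneg _) ?_ ?_) hF
        · intro ι ι' h
          funext k
          exact Subtype.ext (congrFun h k)
        · intro ι hι
          refine if_neg fun h => hι ⟨fun k => ⟨ι k, h.1.2 k⟩, ?_⟩
          funext k
          rfl
        · intro ι
          refine ind_mono fun h => ⟨?_, ?_⟩
          · intro k l hkl
            exact h.1.1 (congrArg Subtype.val hkl)
          · refine lt_of_le_of_lt (pr_mono hW.law fun ω hω => ?_) h.2.2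
            exact mld_of_starGood hρ hx ι (W ω) hω
    have hle : avg (fun ι : Fin n → D => ind (Function.Injective (Sum.elim ρ ι) ∧
        ¬ ∀ (c : Finset κ) (x : κ), x ∉ c →
          1 - ε ≤ pr w {ω | MLd (dl p / 2) (W ω) (baseR ρ {c, insert x c}) (lvs (c.image ρ) ι)
            (lvs ((insert x c).image ρ) ι)})) ≤
        avg (fun ι : Fin n → D => ∑ z ∈ (Finset.univ : Finset (Finset κ × κ)), ind (Q z ι)) := by
      refine avg_mono fun ι => glinks_ind_le _ _ _ ?_
      rintro ⟨h1, h2⟩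
      obtain ⟨_, hι, hout⟩ := glinks_injective_elim h1
      push Not at h2
      obtain ⟨c, x, hx, hlt⟩ := h2
      exact ⟨(c, x), Finset.mem_univ _, ⟨hι, hout⟩, hx, hlt⟩
    refine hle.trans ?_
    rw [avg_sum]
    calc ∑ z ∈ (Finset.univ : Finset (Finset κ × κ)), avg (fun ι : Fin n → D => ind (Q z ι)) ≤
        ∑ z ∈ (Finset.univ : Finset (Finset κ × κ)), η / ((M : ℝ) + 1) :=
          Finset.sum_le_sum fun z _ => key z
      _ = (M : ℝ) * (η / ((M : ℝ) + 1)) := by
          rw [Finset.sum_const, Finset.card_univ, nsmul_eq_mul]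
      _ ≤ η := by
          rw [mul_div_assoc', div_le_iff₀ hM1]
          nlinarith
  · refine avg_le_of_le hη.le fun ι => ?_
    have : ind (Function.Injective (Sum.elim ρ ι) ∧
        ¬ ∀ (c : Finset κ) (x : κ), x ∉ c →
          1 - ε ≤ pr w {ω | MLd (dl p / 2) (W ω) (baseR ρ {c, insert x c}) (lvs (c.image ρ) ι)
            (lvs ((insert x c).image ρ) ι)}) = 0 :=
      if_neg fun h => hρ (glinks_injective_elim h.1).1
    rw [this]
    exact hη.le

end Pool.Agent.OIP
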