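import Pool.Agent.OIP.GLinks
import Pool.Agent.OIP.GChain
import Pool.Agent.OIP.GHalf

/-! OIP: see the header of GLinks.lean -/

set_option autoImplicit false

open Finset
open scoped Classical

namespace Pool.Agent.OIP

theorem gmain_eq {κ D : Type} [Fintype κ] [DecidableEq κ] [Fintype D] [Nonempty D] {a b : κ}
    (hab : a ≠ b) : avg (fun f : κ → D => ind (f a = f b)) = 1 / (Fintype.card D : ℝ) := by
  have h1 := avg_equiv (Equiv.funSplitAt a D).symm (fun f : κ → D => ind (f a = f b))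
  rw [← h1, avg_prod, avg_comm]
  have h2 : ∀ g : {j : κ // j ≠ a} → D,
      avg (fun d : D => ind ((Equiv.funSplitAt a D).symm (d, g) a = (Equiv.funSplitAt a D).symm (d, g) b))
        = 1 / (Fintype.card D : ℝ) := by
    intro g
    have h3 : ∀ d : D, ind ((Equiv.funSplitAt a D).symm (d, g) a =
        (Equiv.funSplitAt a D).symm (d, g) b) = if d = g ⟨b, hab.symm⟩ then 1 else 0 := by
      intro d
      unfold ind
      simp [Equiv.funSplitAt, Equiv.piSplitAt, hab.symm]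
    simp only [h3]
    unfold avg
    rw [Finset.sum_ite_eq' Finset.univ]
    simp
  simp only [h2]
  exact avg_const _

theorem gmain_noninj {κ D : Type} [Fintype κ] [DecidableEq κ] [Fintype D] [Nonempty D] :
    avg (fun f : κ → D => ind (¬ Function.Injective f)) ≤
      (Fintype.card κ : ℝ) ^ 2 / (Fintype.card D : ℝ) := by
  have hD : (0 : ℝ) < (Fintype.card D : ℝ) := by exact_mod_cast Fintype.card_pos
  calc avg (fun f : κ → D => ind (¬ Function.Injective f))
      ≤ avg (fun f : κ → D => ∑ x ∈ (Finset.univ : Finset (κ × κ)).filter (fun x => x.1 ≠ x.2),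
          ind (f x.1 = f x.2)) := by
        refine avg_mono fun f => ?_
        by_cases hf : Function.Injective f
        · unfold ind
          rw [if_neg (by simpa using hf)]
          exact Finset.sum_nonneg fun x _ => ind_nonneg _
        · have : ∃ a b, f a = f b ∧ a ≠ b := by
            unfold Function.Injective at hf
            push Not at hf
            exact hf
          obtain ⟨a, b, h1, h2⟩ := this
          have h3 : ind (¬ Function.Injective f) ≤ ind (f a = f b) := ind_mono fun _ => h1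
          refine h3.trans ?_
          exact Finset.single_le_sum (f := fun x : κ × κ => ind (f x.1 = f x.2))
            (fun x _ => ind_nonneg _) (Finset.mem_filter.2 ⟨Finset.mem_univ (a, b), h2⟩)
    _ = ∑ x ∈ (Finset.univ : Finset (κ × κ)).filter (fun x => x.1 ≠ x.2),
          avg (fun f : κ → D => ind (f x.1 = f x.2)) := avg_sum _ _
    _ = ∑ x ∈ (Finset.univ : Finset (κ × κ)).filter (fun x => x.1 ≠ x.2),
          1 / (Fintype.card D : ℝ) := by
        refine Finset.sum_congr rfl fun x hx => ?_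
        exact gmain_eq (Finset.mem_filter.1 hx).2
    _ ≤ ∑ x ∈ (Finset.univ : Finset (κ × κ)), 1 / (Fintype.card D : ℝ) := by
        refine Finset.sum_le_sum_of_subset_of_nonneg (Finset.filter_subset _ _) fun x _ _ => ?_
        positivity
    _ = (Fintype.card κ : ℝ) ^ 2 / (Fintype.card D : ℝ) := by
        rw [Finset.sum_const, Finset.card_univ, Fintype.card_prod, nsmul_eq_mul]
        push_cast
        ring

theorem gmain_noninj_sum {κ κ' D : Type} [Fintype κ] [DecidableEq κ] [Fintype κ'] [DecidableEq κ']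
    [Fintype D] [Nonempty D] :
    avg (fun ρ : κ → D => avg (fun ι : κ' → D => ind (¬ Function.Injective (Sum.elim ρ ι)))) ≤
      ((Fintype.card κ : ℝ) + (Fintype.card κ' : ℝ)) ^ 2 / (Fintype.card D : ℝ) := by
  have h1 := gmain_noninj (κ := κ ⊕ κ') (D := D)
  rw [← avg_equiv (Equiv.sumArrowEquivProdArrow κ κ' D).symm, avg_prod, Fintype.card_sum] at h1
  push_cast at h1
  exact h1

theorem gmain_inl {κ κ' D : Type} [Fintype κ] [DecidableEq κ] [Fintype κ'] [DecidableEq κ']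
    [Fintype D] [Nonempty D] (F : (κ → D) → ℝ) :
    avg (fun ρ : κ ⊕ κ' → D => F (fun k => ρ (Sum.inl k))) = avg F := by
  rw [← avg_equiv (Equiv.sumArrowEquivProdArrow κ κ' D).symm, avg_prod]
  congr 1
  funext x
  have : (fun y : κ' → D => F (fun k => (Equiv.sumArrowEquivProdArrow κ κ' D).symm (x, y)
      (Sum.inl k))) = fun _ => F x := by
    funext y; rfl
  rw [this]
  exact avg_const _

/-- the chain part, averaged -/
theorem gmain_chain (p : ℝ) (hp : pc < p) (hp1 : p ≤ 1) (ε : ℝ) (hε : 0 < ε) :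
    ∃ n₀ : ℕ, ∀ n : ℕ, n₀ ≤ n →
      ∃ N₀ : ℕ, ∀ (D : Type) [Fintype D] [DecidableEq D], N₀ ≤ Fintype.card D →
      ∀ (Ω : Type) [Fintype Ω] (w : Ω → ℝ) (W : Ω → SimpleGraph (Finset D)), CubeLaw p w W →
      avg (fun ι' : Fin n → D => avg (fun ι : Fin n → D =>
        pr w {ω | ¬ ML (W ω) Set.univ (lvs ∅ ι) (lvs (vs ι') ι)})) ≤ ε := by
  have hpc : (1 : ℝ) / 2 < pc := by
    unfold pc
    have h3 : Real.sqrt 3 < 7 / 4 := by
      rw [Real.sqrt_lt' (by norm_num)]
      norm_num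
    linarith
  have hdl : 0 < dl p / 2 := by unfold dl; linarith
  set ε1 : ℝ := min (1 / 64) (ε / 32) with hε1
  have hε1p : 0 < ε1 := by rw [hε1]; positivity
  have hε1a : ε1 ≤ 1 / 64 := min_le_left _ _
  have hε1b : ε1 ≤ ε / 32 := min_le_right _ _
  obtain ⟨n₀, hn₀⟩ := glue_links p hp hp1 ε1 hε1p
  refine ⟨max n₀ 1, fun n hn => ?_⟩
  have hn1 : 1 ≤ n := le_trans (le_max_right _ _) hn
  obtain ⟨N₀, hN₀⟩ := hn₀ n (le_trans (le_max_left _ _) hn) (Fin n ⊕ Fin (2 * n)) (ε / 4)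
    (by linarith)
  refine ⟨max N₀ (⌈4 * (4 * (n : ℝ)) ^ 2 / ε⌉₊ + 1), fun D _ _ hD Ω _ w W hW => ?_⟩
  have hD0 : N₀ ≤ Fintype.card D := le_trans (le_max_left _ _) hD
  have hD1 : ⌈4 * (4 * (n : ℝ)) ^ 2 / ε⌉₊ + 1 ≤ Fintype.card D := le_trans (le_max_right _ _) hD
  have hDpos : 0 < Fintype.card D := by omega
  have : Nonempty D := Fintype.card_pos_iff.1 hDpos
  have hDr : 4 * (4 * (n : ℝ)) ^ 2 / ε ≤ (Fintype.card D : ℝ) := by
    refine (Nat.le_ceil _).trans ?_
    exact_mod_cast (Nat.le_of_succ_le hD1)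
  have hDposr : (0 : ℝ) < (Fintype.card D : ℝ) := by exact_mod_cast hDpos
  have hlinks := hN₀ D hD0 Ω w W hW
  have hnon : avg (fun ρ : Fin n ⊕ Fin (2 * n) → D => avg (fun ι : Fin n → D =>
      ind (¬ Function.Injective (Sum.elim ρ ι)))) ≤ ε / 4 := by
    refine gmain_noninj_sum.trans ?_
    rw [Fintype.card_sum, Fintype.card_fin, Fintype.card_fin]
    push_cast
    rw [div_le_iff₀ hDposr]
    rw [div_le_iff₀ hε] at hDr
    nlinarith
  rw [← gmain_inl (κ' := Fin (2 * n)) (fun ι' : Fin n → D => avg (fun ι : Fin n → D =>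
        pr w {ω | ¬ ML (W ω) Set.univ (lvs ∅ ι) (lvs (vs ι') ι)}))]
  have key : ∀ (ρ : Fin n ⊕ Fin (2 * n) → D) (ι : Fin n → D),
      pr w {ω | ¬ ML (W ω) Set.univ (lvs ∅ ι) (lvs (vs fun k => ρ (Sum.inl k)) ι)} ≤
        ε / 4 + (ind (¬ Function.Injective (Sum.elim ρ ι)) +
          ind (Function.Injective (Sum.elim ρ ι) ∧
        ¬ ∀ (c : Finset (Fin n ⊕ Fin (2 * n))) (x : Fin n ⊕ Fin (2 * n)), x ∉ c →
          1 - ε1 ≤ pr w {ω | MLd (dl p / 2) (W ω) (baseR ρ {c, insert x c}) (lvs (c.image ρ) ι)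
            (lvs ((insert x c).image ρ) ι)})) := by
    intro ρ ι
    by_cases hinj : Function.Injective (Sum.elim ρ ι)
    · by_cases hl : ∀ (c : Finset (Fin n ⊕ Fin (2 * n))) (x : Fin n ⊕ Fin (2 * n)), x ∉ c →
          1 - ε1 ≤ pr w {ω | MLd (dl p / 2) (W ω) (baseR ρ {c, insert x c}) (lvs (c.image ρ) ι)
            (lvs ((insert x c).image ρ) ι)}
      · have hc := glue_chain hn1 hW hε1p.le hε1a ρ ι hinj (fun c x hx => by
          refine (hl c x hx).trans (pr_mono hW.law ?_)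
          intro ω hω
          exact MLd.ml hdl hn1 hω)
        have h2 := pr_compl hW.law
          {ω | ML (W ω) Set.univ (lvs ∅ ι) (lvs (vs fun k => ρ (Sum.inl k)) ι)}
        have h3 : pr w {ω | ¬ ML (W ω) Set.univ (lvs ∅ ι) (lvs (vs fun k => ρ (Sum.inl k)) ι)} =
            pr w {ω | ML (W ω) Set.univ (lvs ∅ ι) (lvs (vs fun k => ρ (Sum.inl k)) ι)}ᶜ := rfl
        rw [h3, h2]
        have := ind_nonneg (¬ Function.Injective (Sum.elim ρ ι))
        have := ind_nonneg (Function.Injective (Sum.elim ρ ι) ∧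
        ¬ ∀ (c : Finset (Fin n ⊕ Fin (2 * n))) (x : Fin n ⊕ Fin (2 * n)), x ∉ c →
          1 - ε1 ≤ pr w {ω | MLd (dl p / 2) (W ω) (baseR ρ {c, insert x c}) (lvs (c.image ρ) ι)
            (lvs ((insert x c).image ρ) ι)})
        linarith
      · have h1 := pr_le_one hW.law
          {ω | ¬ ML (W ω) Set.univ (lvs ∅ ι) (lvs (vs fun k => ρ (Sum.inl k)) ι)}
        have h2 := ind_nonneg (¬ Function.Injective (Sum.elim ρ ι))
        have h3 : ind (Function.Injective (Sum.elim ρ ι) ∧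
        ¬ ∀ (c : Finset (Fin n ⊕ Fin (2 * n))) (x : Fin n ⊕ Fin (2 * n)), x ∉ c →
          1 - ε1 ≤ pr w {ω | MLd (dl p / 2) (W ω) (baseR ρ {c, insert x c}) (lvs (c.image ρ) ι)
            (lvs ((insert x c).image ρ) ι)}) = 1 := by
          unfold ind
          rw [if_pos ⟨hinj, hl⟩]
        linarith
    · have h1 := pr_le_one hW.law
          {ω | ¬ ML (W ω) Set.univ (lvs ∅ ι) (lvs (vs fun k => ρ (Sum.inl k)) ι)}
      have h2 : ind (¬ Function.Injective (Sum.elim ρ ι)) = 1 := by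
        unfold ind
        rw [if_pos hinj]
      have h3 := ind_nonneg (Function.Injective (Sum.elim ρ ι) ∧
        ¬ ∀ (c : Finset (Fin n ⊕ Fin (2 * n))) (x : Fin n ⊕ Fin (2 * n)), x ∉ c →
          1 - ε1 ≤ pr w {ω | MLd (dl p / 2) (W ω) (baseR ρ {c, insert x c}) (lvs (c.image ρ) ι)
            (lvs ((insert x c).image ρ) ι)})
      linarith
  refine (avg_mono fun ρ => avg_mono fun ι => key ρ ι).trans ?_
  simp only [avg_add, avg_const]
  linarith

theorem glue_main (p : ℝ) (hp : pc < p) (hp1 : p ≤ 1) (ε : ℝ) (hε : 0 < ε) :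
    ∃ n₀ : ℕ, ∀ n : ℕ, n₀ ≤ n →
      ∃ N₀ : ℕ, ∀ (D : Type) [Fintype D] [DecidableEq D], N₀ ≤ Fintype.card D →
      ∀ (Ω : Type) [Fintype Ω] (w : Ω → ℝ) (W : Ω → SimpleGraph (Finset D)), CubeLaw p w W →
      avg (fun ι : Fin n → D => avg (fun ι' : Fin n → D =>
        pr w {ω | ¬ ML (W ω) Set.univ (lvs ∅ ι) (lvs ∅ ι')})) ≤ ε := by
  obtain ⟨n₁, h₁⟩ := gmain_chain p hp hp1 (ε / 4) (by linarith)
  obtain ⟨n₂, h₂⟩ := glue_half p hp hp1 (ε / 4) (by linarith)
  refine ⟨max n₁ n₂, fun n hn => ?_⟩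
  obtain ⟨N₁, h₁⟩ := h₁ n (le_trans (le_max_left _ _) hn)
  obtain ⟨N₂, h₂⟩ := h₂ n (le_trans (le_max_right _ _) hn)
  refine ⟨max N₁ N₂, fun D _ _ hD Ω _ w W hW => ?_⟩
  have a1 := h₁ D (le_trans (le_max_left _ _) hD) Ω w W hW
  have a2 := h₂ D (le_trans (le_max_right _ _) hD) Ω w W hW
  have a3 := a1
  rw [avg_comm] at a3
  have key : ∀ ι ι' : Fin n → D, pr w {ω | ¬ ML (W ω) Set.univ (lvs ∅ ι) (lvs ∅ ι')} ≤
      pr w {ω | ¬ ML (W ω) Set.univ (lvs ∅ ι) (lvs (vs ι') ι)} +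
      (pr w {ω | ¬ ML (W ω) Set.univ (lvs (vs ι') ι) (lvs (vs ι) ι')} +
      pr w {ω | ¬ ML (W ω) Set.univ (lvs ∅ ι') (lvs (vs ι) ι')}) := by
    intro ι ι'
    refine (pr_mono hW.law ?_).trans ((pr_union_le hW.law _ _).trans
      (add_le_add le_rfl (pr_union_le hW.law _ _)))
    intro ω hω
    by_contra hcon
    apply hω
    simp only [Set.mem_union, Set.mem_ofPred_eq, not_or, not_not] at hcon
    obtain ⟨c1, c2, c3⟩ := hcon
    have := (c1.trans c2).trans c3.symm
    simpa using this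
  refine (avg_mono fun ι => avg_mono fun ι' => key ι ι').trans ?_
  simp only [avg_add]
  linarith

end Pool.Agent.OIP
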