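import Pool.Agent.OIP.GMain

/-! OIP: two layers -/

set_option autoImplicit false

open Finset
open scoped Classical

namespace Pool.Agent.OIP

theorem pair_avg_eq_le {D : Type} [Fintype D] [Nonempty D] {n : ℕ} (i j : Fin n) (hij : i ≠ j) :
    avg (fun ι : Fin n → D => ind (ι i = ι j)) ≤ 1 / (Fintype.card D : ℝ) := by
  have hDpos : (0 : ℝ) < (Fintype.card D : ℝ) := by exact_mod_cast Fintype.card_pos
  have hXpos : (0 : ℝ) < (Fintype.card (Fin n → D) : ℝ) := by exact_mod_cast Fintype.card_pos
  unfold avg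
  rw [div_le_div_iff₀ hXpos hDpos, one_mul]
  have h1 : ∑ ι : Fin n → D, ind (ι i = ι j) =
      ((Finset.univ.filter (fun ι : Fin n → D => ι i = ι j)).card : ℝ) := by
    unfold ind
    rw [Finset.sum_boole]
  rw [h1]
  have h2 : ((Finset.univ.filter (fun ι : Fin n → D => ι i = ι j)) ×ˢ (Finset.univ : Finset D)).card ≤
      (Finset.univ : Finset (Fin n → D)).card := by
    refine Finset.card_le_card_of_injOn (fun q => Function.update q.1 i q.2)
      (fun _ _ => Finset.mem_coe.2 (Finset.mem_univ _)) ?_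
    rintro ⟨f, a⟩ hf ⟨g, b⟩ hg hfg
    rw [Finset.mem_coe, Finset.mem_product, Finset.mem_filter] at hf hg
    have hf1 : f i = f j := hf.1.2
    have hg1 : g i = g j := hg.1.2
    have hab : a = b := by
      have := congrFun hfg i
      simpa using this
    have hne : ∀ k, k ≠ i → f k = g k := by
      intro k hk
      have := congrFun hfg k
      simpa [Function.update_of_ne hk] using this
    have hfi : f i = g i := by
      rw [hf1, hg1]
      exact hne j hij.symm
    refine Prod.ext ?_ hab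
    funext k
    by_cases hk : k = i
    · rw [hk]
      exact hfi
    · exact hne k hk
  rw [Finset.card_product, Finset.card_univ, Finset.card_univ] at h2
  exact_mod_cast h2

theorem pair_avg_noninj_le {D : Type} [Fintype D] [Nonempty D] (n : ℕ) :
    avg (fun ι : Fin n → D => ind (¬ Function.Injective ι)) ≤ (n : ℝ) ^ 2 / (Fintype.card D : ℝ) := by
  have hDpos : (0 : ℝ) < (Fintype.card D : ℝ) := by exact_mod_cast Fintype.card_pos
  set s : Finset (Fin n × Fin n) := Finset.univ.filter (fun q => q.1 ≠ q.2) with hs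
  have h1 : avg (fun ι : Fin n → D => ind (¬ Function.Injective ι)) ≤
      avg (fun ι : Fin n → D => ∑ q ∈ s, ind (ι q.1 = ι q.2)) := by
    refine avg_mono fun ι => ?_
    by_cases hι : Function.Injective ι
    · have : ind (¬ Function.Injective ι) = 0 := by
        unfold ind
        rw [if_neg (by simpa using hι)]
      rw [this]
      exact Finset.sum_nonneg fun q _ => ind_nonneg _
    · have h2 := hι
      unfold Function.Injective at h2
      push Not at h2
      obtain ⟨a, b, hab, hne⟩ := h2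
      have h3 : ind (ι (a, b).1 = ι (a, b).2) ≤ ∑ q ∈ s, ind (ι q.1 = ι q.2) :=
        Finset.single_le_sum (f := fun q : Fin n × Fin n => ind (ι q.1 = ι q.2))
          (fun q _ => ind_nonneg _) (by rw [hs, Finset.mem_filter]; exact ⟨Finset.mem_univ _, hne⟩)
      have h4 : ind (ι (a, b).1 = ι (a, b).2) = 1 := by
        unfold ind
        rw [if_pos hab]
      rw [h4] at h3
      exact (ind_le_one _).trans h3
  refine h1.trans ?_
  rw [avg_sum]
  calc ∑ q ∈ s, avg (fun ι : Fin n → D => ind (ι q.1 = ι q.2))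
      ≤ ∑ _q ∈ s, 1 / (Fintype.card D : ℝ) := by
        refine Finset.sum_le_sum fun q hq => pair_avg_eq_le q.1 q.2 ?_
        rw [hs, Finset.mem_filter] at hq
        exact hq.2
    _ = (s.card : ℝ) * (1 / (Fintype.card D : ℝ)) := by rw [Finset.sum_const, nsmul_eq_mul]
    _ ≤ (n : ℝ) ^ 2 * (1 / (Fintype.card D : ℝ)) := by
        refine mul_le_mul_of_nonneg_right ?_ (by positivity)
        have h5 : s.card ≤ n ^ 2 := by
          calc s.card ≤ (Finset.univ : Finset (Fin n × Fin n)).card := Finset.card_filter_le _ _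
            _ = n ^ 2 := by
              rw [Finset.card_univ, Fintype.card_prod, Fintype.card_fin]
              ring
        exact_mod_cast h5
    _ = (n : ℝ) ^ 2 / (Fintype.card D : ℝ) := by ring

theorem pair_dl_pos {p : ℝ} (hp : pc < p) : 0 < dl p / 2 := by
  have h1 : Real.sqrt 3 ≤ 1.74 := by
    rw [show (1.74 : ℝ) = Real.sqrt (1.74 ^ 2) by rw [Real.sqrt_sq (by norm_num)]]
    exact Real.sqrt_le_sqrt (by norm_num)
  have h2 : (1 / 2 : ℝ) < p := by
    unfold pc at hp
    linarith
  unfold dl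
  linarith

theorem pair_layer {D : Type} [Fintype D] [DecidableEq D] {Ω : Type} [Fintype Ω] {p : ℝ} {w : Ω → ℝ}
    {W : Ω → SimpleGraph (Bool × Finset D)} (h : FiberLaw p w W) :
    CubeLaw p w (fun ω => (W ω).comap (fun S : Finset D => ((true, S) : Bool × Finset D))) where
  law := h.law
  indep := OneIndep.comap h.indep (fun _ _ hS => (Prod.ext_iff.1 hS).2)
  edge := fun S d hd => h.lay true S d hd

theorem pair_ml_of_comap {V V' : Type} {n : ℕ} {G : SimpleGraph V} {φ : V' → V} {L L' : Fin n → V'}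
    (h : ML (G.comap φ) Set.univ L L') : ML G Set.univ (fun k => φ (L k)) (fun k => φ (L' k)) := by
  obtain ⟨u, h1, h2⟩ := h
  have key : ∀ a : V', Cn (G.comap φ) Set.univ a u → Cn G Set.univ (φ a) (φ u) :=
    fun a ha => (Cn.of_comap ha).mono (Set.subset_univ _)
  refine ⟨φ u, lt_of_lt_of_le h1 ?_, lt_of_lt_of_le h2 ?_⟩
  · refine Nat.mul_le_mul_left 2 (Finset.card_le_card fun k hk => ?_)
    rw [Finset.mem_filter] at hk ⊢
    exact ⟨hk.1, key _ hk.2⟩
  · refine Nat.mul_le_mul_left 2 (Finset.card_le_card fun k hk => ?_)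
    rw [Finset.mem_filter] at hk ⊢
    exact ⟨hk.1, key _ hk.2⟩

theorem pair_ml_of_starGood {D : Type} [Fintype D] [DecidableEq D] {n : ℕ} (hn : 1 ≤ n) {δ : ℝ} (hδ : 0 < δ)
    {ι : Fin n → D} {G : SimpleGraph (Bool × Finset D)} (h : StarGood δ ι G) :
    ML G Set.univ (fun k => ((false, lvs ∅ ι k) : Bool × Finset D))
      (fun k => ((true, lvs ∅ ι k) : Bool × Finset D)) := by
  obtain ⟨u, hu⟩ := h
  have h1 : ∀ k, lvs ∅ ι k = (vs ι).erase (ι k) := by
    intro k
    unfold lvs
    rw [Finset.empty_union]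
  refine MLd.ml hδ hn ⟨u, ?_, ?_⟩
  · simp only [h1]
    exact hu false
  · simp only [h1]
    exact hu true

/-- two layers: link of the star `ι` in layer `false` with the star `ι'` in layer `true`
(`fiber_main` for `ι` and `glue_main` in the layer `true`) -/
theorem pair_main (p : ℝ) (hp : pc < p) (hp1 : p ≤ 1) (ε : ℝ) (hε : 0 < ε) :
    ∃ n : ℕ, 1 ≤ n ∧ ∃ N₀ : ℕ, ∀ (D : Type) [Fintype D] [DecidableEq D], N₀ ≤ Fintype.card D →
      ∀ (Ω : Type) [Fintype Ω] (w : Ω → ℝ) (W : Ω → SimpleGraph (Bool × Finset D)), FiberLaw p w W →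
      avg (fun ι : Fin n → D => avg (fun ι' : Fin n → D =>
        pr w {ω | ¬ ML (W ω) Set.univ (fun k => ((false, lvs ∅ ι k) : Bool × Finset D))
          (fun k => ((true, lvs ∅ ι' k) : Bool × Finset D))})) ≤ ε := by
  obtain ⟨n₁, hn₁⟩ := fiber_main p hp hp1 (ε / 4) (by linarith)
  obtain ⟨n₂, hn₂⟩ := glue_main p hp hp1 (ε / 4) (by linarith)
  set n := max (max n₁ n₂) 1 with hn
  have hnn₁ : n₁ ≤ n := le_trans (le_max_left _ _) (le_max_left _ _)
  have hnn₂ : n₂ ≤ n := le_trans (le_max_right _ _) (le_max_left _ _)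
  have hn1 : 1 ≤ n := le_max_right _ _
  obtain ⟨N₁, hN₁⟩ := hn₁ n hnn₁ (ε / 4) (by linarith)
  obtain ⟨N₂, hN₂⟩ := hn₂ n hnn₂
  obtain ⟨N₃, hN₃⟩ := exists_nat_gt ((n : ℝ) ^ 2 / (ε / 4))
  refine ⟨n, hn1, max (max N₁ N₂) (max N₃ 1), ?_⟩
  intro D _ _ hD Ω _ w W hW
  have hD1 : N₁ ≤ Fintype.card D := le_trans (le_trans (le_max_left _ _) (le_max_left _ _)) hD
  have hD2 : N₂ ≤ Fintype.card D := le_trans (le_trans (le_max_right _ _) (le_max_left _ _)) hD
  have hD3 : N₃ ≤ Fintype.card D := le_trans (le_trans (le_max_left _ _) (le_max_right _ _)) hD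
  have hD4 : 1 ≤ Fintype.card D := le_trans (le_trans (le_max_right _ _) (le_max_right _ _)) hD
  have : Nonempty D := Fintype.card_pos_iff.1 hD4
  have hDpos : (0 : ℝ) < (Fintype.card D : ℝ) := by exact_mod_cast hD4
  have hδ := pair_dl_pos hp
  have hfib := hN₁ D hD1 Ω w W hW
  have hglue := hN₂ D hD2 Ω w (fun ω => (W ω).comap (fun S : Finset D => ((true, S) : Bool × Finset D)))
    (pair_layer hW)
  have hnoninj : avg (fun ι : Fin n → D => ind (¬ Function.Injective ι)) ≤ ε / 4 := by
    refine (pair_avg_noninj_le n).trans ?_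
    rw [div_le_iff₀ hDpos]
    rw [div_lt_iff₀ (by linarith)] at hN₃
    have h1 : (N₃ : ℝ) ≤ (Fintype.card D : ℝ) := by exact_mod_cast hD3
    nlinarith
  -- pointwise bound
  have hpt : ∀ ι ι' : Fin n → D,
      pr w {ω | ¬ ML (W ω) Set.univ (fun k => ((false, lvs ∅ ι k) : Bool × Finset D))
          (fun k => ((true, lvs ∅ ι' k) : Bool × Finset D))} ≤
        (ind (¬ Function.Injective ι) + ind (Function.Injective ι ∧
          pr w {ω | StarGood (dl p / 2) ι (W ω)} < 1 - ε / 4) + ε / 4) +
        pr w {ω | ¬ ML ((W ω).comap (fun S : Finset D => ((true, S) : Bool × Finset D))) Set.univ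
          (lvs ∅ ι) (lvs ∅ ι')} := by
    intro ι ι'
    have h1 : pr w {ω | ¬ ML (W ω) Set.univ (fun k => ((false, lvs ∅ ι k) : Bool × Finset D))
          (fun k => ((true, lvs ∅ ι' k) : Bool × Finset D))} ≤
        pr w {ω | StarGood (dl p / 2) ι (W ω)}ᶜ +
        pr w {ω | ¬ ML ((W ω).comap (fun S : Finset D => ((true, S) : Bool × Finset D))) Set.univ
          (lvs ∅ ι) (lvs ∅ ι')} := by
      refine le_trans (pr_mono hW.law ?_) (pr_union_le hW.law _ _)
      intro ω hω
      by_contra hcon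
      rw [Set.mem_union, not_or] at hcon
      obtain ⟨hc1, hc2⟩ := hcon
      have hs : StarGood (dl p / 2) ι (W ω) := by
        by_contra h
        exact hc1 h
      have hm : ML ((W ω).comap (fun S : Finset D => ((true, S) : Bool × Finset D))) Set.univ
          (lvs ∅ ι) (lvs ∅ ι') := by
        by_contra h
        exact hc2 h
      exact hω ((ML.trans (pair_ml_of_starGood hn1 hδ hs) (pair_ml_of_comap hm)).mono
        (Set.subset_univ _))
    refine h1.trans (add_le_add ?_ le_rfl)
    rw [pr_compl hW.law]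
    have h2 := pr_nonneg hW.law {ω | StarGood (dl p / 2) ι (W ω)}
    have h3 := ind_nonneg (¬ Function.Injective ι)
    have h4 := ind_nonneg (Function.Injective ι ∧ pr w {ω | StarGood (dl p / 2) ι (W ω)} < 1 - ε / 4)
    by_cases hι : Function.Injective ι
    · by_cases hlt : pr w {ω | StarGood (dl p / 2) ι (W ω)} < 1 - ε / 4
      · have h5 : ind (Function.Injective ι ∧
            pr w {ω | StarGood (dl p / 2) ι (W ω)} < 1 - ε / 4) = 1 := by
          unfold ind
          rw [if_pos ⟨hι, hlt⟩]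
        linarith
      · push Not at hlt
        linarith
    · have h5 : ind (¬ Function.Injective ι) = 1 := by
        unfold ind
        rw [if_pos hι]
      linarith
  calc avg (fun ι : Fin n → D => avg (fun ι' : Fin n → D =>
        pr w {ω | ¬ ML (W ω) Set.univ (fun k => ((false, lvs ∅ ι k) : Bool × Finset D))
          (fun k => ((true, lvs ∅ ι' k) : Bool × Finset D))}))
      ≤ avg (fun ι : Fin n → D => avg (fun ι' : Fin n → D =>
        (ind (¬ Function.Injective ι) + ind (Function.Injective ι ∧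
          pr w {ω | StarGood (dl p / 2) ι (W ω)} < 1 - ε / 4) + ε / 4) +
        pr w {ω | ¬ ML ((W ω).comap (fun S : Finset D => ((true, S) : Bool × Finset D))) Set.univ
          (lvs ∅ ι) (lvs ∅ ι')})) := avg_mono fun ι => avg_mono fun ι' => hpt ι ι'
    _ = avg (fun ι : Fin n → D => ind (¬ Function.Injective ι)) +
        avg (fun ι : Fin n → D => ind (Function.Injective ι ∧
          pr w {ω | StarGood (dl p / 2) ι (W ω)} < 1 - ε / 4)) + ε / 4 +
        avg (fun ι : Fin n → D => avg (fun ι' : Fin n → D =>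
          pr w {ω | ¬ ML ((W ω).comap (fun S : Finset D => ((true, S) : Bool × Finset D))) Set.univ
          (lvs ∅ ι) (lvs ∅ ι')})) := by
        simp only [avg_add, avg_const]
    _ ≤ ε / 4 + ε / 4 + ε / 4 + ε / 4 := by
        refine add_le_add (add_le_add (add_le_add hnoninj hfib) le_rfl) hglue
    _ = ε := by ring

end Pool.Agent.OIP
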