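import Pool.Agent.OIP.InfLinkDefs
import Pool.Agent.OIP.InfMarg
import Pool.Agent.OIP.Pair

/-! OIP: see the header of InfDefs.lean -/

set_option autoImplicit false

open MeasureTheory ProbabilityTheory
open scoped Classical

namespace Pool.Agent.OIP

theorem infavg_ne {z z' : ℤ × ℤ} (h : Nb z z') : z ≠ z' := by
  rintro rfl
  rcases h with h | h | h | h
  · have h2 : z.1 = z.1 + 1 := congrArg Prod.fst h
    omega
  · have h2 : z.1 = z.1 - 1 := congrArg Prod.fst h
    omega
  · have h2 : z.2 = z.2 + 1 := congrArg Prod.snd h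
    omega
  · have h2 : z.2 = z.2 - 1 := congrArg Prod.snd h
    omega

/-- two neighbouring fibres as a two-layer cube -/
def infavg_phi (N : ℕ) (z z' : ℤ × ℤ) (u : Bool × Finset (Fin N)) : (ℤ × ℤ) × Finset (Fin N) :=
  (bif u.1 then z' else z, u.2)

theorem infavg_phi_injective {N : ℕ} {z z' : ℤ × ℤ} (h : z ≠ z') : Function.Injective (infavg_phi N z z') := by
  rintro ⟨i, S⟩ ⟨j, T⟩ hij
  have h1 := congrArg Prod.fst hij
  have h2 : S = T := congrArg Prod.snd hij
  subst h2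
  cases i <;> cases j <;> simp_all [infavg_phi]

theorem infavg_link {N n : ℕ} (G : SimpleGraph ((ℤ × ℤ) × Finset (Fin N))) (z z' : ℤ × ℤ) (ι ι' : Fin n → Fin N)
    (h : ML (G.comap (infavg_phi N z z')) Set.univ (fun k => ((false, lvs ∅ ι k) : Bool × Finset (Fin N)))
      (fun k => ((true, lvs ∅ ι' k) : Bool × Finset (Fin N)))) : linkS G z z' ι ι' := by
  obtain ⟨u, hu, hu'⟩ := h
  have hR : infavg_phi N z z' '' Set.univ ⊆ {v | v.1 = z ∨ v.1 = z'} := by
    rintro _ ⟨⟨i, S⟩, -, rfl⟩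
    cases i
    · exact Or.inl rfl
    · exact Or.inr rfl
  refine ⟨infavg_phi N z z' u, lt_of_lt_of_le hu ?_, lt_of_lt_of_le hu' ?_⟩
  · refine Nat.mul_le_mul_left _ (Finset.card_le_card fun k hk => ?_)
    rw [Finset.mem_filter] at hk ⊢
    exact ⟨hk.1, (Cn.of_comap hk.2).mono hR⟩
  · refine Nat.mul_le_mul_left _ (Finset.card_le_card fun k hk => ?_)
    rw [Finset.mem_filter] at hk ⊢
    exact ⟨hk.1, (Cn.of_comap hk.2).mono hR⟩

/-- average link probability for neighbouring sites -/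
theorem link_avg (p : ℝ) (hp : pc < p) (hp1 : p ≤ 1) (ε : ℝ) (hε : 0 < ε) :
    ∃ n : ℕ, 1 ≤ n ∧ ∃ N₀ : ℕ, ∀ N : ℕ, N₀ ≤ N → ∀ (Ω : Type) [MeasurableSpace Ω] (μ : Measure Ω)
      [IsProbabilityMeasure μ] (W : Ω → SimpleGraph ((ℤ × ℤ) × Finset (Fin N))),
      (∀ a b, MeasurableSet {ω | (W ω).Adj a b}) → OneIndepM μ W →
      (∀ (z : ℤ × ℤ) (S : Finset (Fin N)) (d : Fin N), d ∉ S →
        p ≤ μ.real {ω | (W ω).Adj (z, S) (z, insert d S)}) →
      (∀ (z z' : ℤ × ℤ) (S : Finset (Fin N)), Nb z z' → p ≤ μ.real {ω | (W ω).Adj (z, S) (z', S)}) →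
      ∀ z z' : ℤ × ℤ, Nb z z' →
        avg (fun ι : Fin n → Fin N => avg (fun ι' : Fin n → Fin N =>
          μ.real {ω | ¬ linkS (W ω) z z' ι ι'})) ≤ ε := by
  obtain ⟨n, hn, N₀, h⟩ := pair_main p hp hp1 ε hε
  refine ⟨n, hn, N₀, fun N hN Ω _ μ _ W hmeas hind hcube hplane z z' hzz' => ?_⟩
  have hne : z ≠ z' := infavg_ne hzz'
  have hinj : Function.Injective (infavg_phi N z z') := infavg_phi_injective hne
  set W' : Ω → SimpleGraph (Bool × Finset (Fin N)) := fun ω => (W ω).comap (infavg_phi N z z') with hW'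
  have hmeas' : ∀ a b, MeasurableSet {ω | (W' ω).Adj a b} := fun a b =>
    hmeas (infavg_phi N z z' a) (infavg_phi N z z' b)
  have hind' : OneIndepM μ W' := hind.comap hinj
  have hfl : FiberLaw p (marg μ W') (fun G => G) := by
    refine ⟨marg_law μ W' hmeas', marg_indep μ W' hmeas' hind', ?_, ?_⟩
    · intro i S d hd
      have e := marg_pr μ W' hmeas' {G | G.Adj (i, S) (i, insert d S)}
      refine le_trans ?_ (le_of_eq e.symm)
      cases i
      · exact hcube z S d hd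
      · exact hcube z' S d hd
    · intro S
      have e := marg_pr μ W' hmeas' {G | G.Adj (false, S) (true, S)}
      exact le_trans (hplane z z' S hzz') (le_of_eq e.symm)
  have key := h (Fin N) (by rw [Fintype.card_fin]; exact hN) (SimpleGraph (Bool × Finset (Fin N)))
    (marg μ W') (fun G => G) hfl
  refine le_trans (avg_mono fun ι => avg_mono fun ι' => ?_) key
  have e := marg_pr μ W' hmeas' {G | ¬ ML G Set.univ (fun k => ((false, lvs ∅ ι k) : Bool × Finset (Fin N)))
    (fun k => ((true, lvs ∅ ι' k) : Bool × Finset (Fin N)))}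
  refine le_trans ?_ (le_of_eq e.symm)
  refine measureReal_mono ?_ (measure_ne_top _ _)
  intro ω hω hML
  exact hω (infavg_link (W ω) z z' ι ι' hML)

end Pool.Agent.OIP
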