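import Pool.Agent.OIP.ML
import Pool.Agent.OIP.Select

/-!
# OIP: percolation on (square lattice) x (cube of dimension N), N large

Proof of `inf_main`.  Take `n`, `N₀` from `pair_main` with `ε = 1/16000`.  For neighbours `z`, `z'` let
`φ : Bool × Finset (Fin N) → (ℤ × ℤ) × Finset (Fin N)`, `φ (false, S) = (z, S)`, `φ (true, S) = (z', S)`, and apply
`pair_main` to the finite marginal (`marg`) of `(W ω).comap φ`.  Put
`g z z' ι ι' = μ.real {no ML link in the two fibres between the star ι over z and the star ι' over z'}` (and `0` if
`z`, `z'` are not neighbours; use the symmetric form `linkS` below) and choose `ι z` by `select`.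
The events `L z z' = {ω | linkS (W ω) z z' (ι z) (ι z')}` satisfy the hypotheses of `perc_Z2`.  If
`z'` is in the `L`-component of `z` then (`ML.trans` along a path) the leaves of the star over `z'` contain a vertex
connected to the fixed vertex `u` given by the first link, so the component of `u` is infinite.
-/

set_option autoImplicit false

open MeasureTheory ProbabilityTheory
open scoped Classical

namespace Pool.Agent.OIP

/-- the sigma-algebra generated by the edges inside `A` -/
@[reducible] def sigV {Ω V : Type} (W : Ω → SimpleGraph V) (A : Set V) : MeasurableSpace Ω :=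
  MeasurableSpace.generateFrom {U | ∃ a ∈ A, ∃ b ∈ A, U = {ω | (W ω).Adj a b}}

/-- 1-independence for a random graph on a general probability space -/
def OneIndepM {Ω V : Type} [MeasurableSpace Ω] (μ : Measure Ω) (W : Ω → SimpleGraph V) : Prop :=
  ∀ A B : Set V, Disjoint A B → Indep (sigV W A) (sigV W B) μ

/-- finite marginal as weights on the set of graphs -/
noncomputable def marg {Ω V : Type} [MeasurableSpace Ω] (μ : Measure Ω) (W : Ω → SimpleGraph V)
    (G : SimpleGraph V) : ℝ := μ.real {ω | W ω = G}

end Pool.Agent.OIP
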