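import Pool.Agent.OIP.InfDefs
import Pool.Agent.OIP.Base

/-! OIP: link of two stars over neighbouring sites -/

set_option autoImplicit false

open MeasureTheory ProbabilityTheory
open scoped Classical

namespace Pool.Agent.OIP

/-- majority link of the stars `ι` over `z` and `ι'` over `z'` inside the two fibres -/
def linkS {N n : ℕ} (G : SimpleGraph ((ℤ × ℤ) × Finset (Fin N))) (z z' : ℤ × ℤ) (ι ι' : Fin n → Fin N) : Prop :=
  ML G {v | v.1 = z ∨ v.1 = z'} (fun k => (z, lvs ∅ ι k)) (fun k => (z', lvs ∅ ι' k))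

end Pool.Agent.OIP
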