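import Pool.Agent.OIP.LatDefs
import Pool.Agent.OIP.InfMarg

/-! OIP: basic facts on the lattice model -/

set_option autoImplicit false

open MeasureTheory ProbabilityTheory

namespace Pool.Agent.OIP

theorem embL_injective (N : ℕ) : Function.Injective (embL N) := by
  rintro ⟨⟨a, b⟩, S⟩ ⟨⟨a', b'⟩, S'⟩ h
  have h0 := congrFun h (Fin.castAdd N 0)
  have h1 := congrFun h (Fin.castAdd N 1)
  simp only [embL, Fin.append_left] at h0 h1
  have h0' : a = a' := by simpa using h0
  have h1' : b = b' := by simpa using h1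
  have hS : S = S' := by
    ext d
    have hd := congrFun h (Fin.natAdd 2 d)
    simp only [embL, Fin.append_right] at hd
    by_cases h2 : d ∈ S <;> by_cases h3 : d ∈ S' <;> simp_all
  rw [h0', h1', hS]

theorem latbasic_adj {n : ℕ} (ω : (Fin n → ℤ) × Fin n → Bool) (u v : Fin n → ℤ) :
    (latG ω).Adj u v ↔ u ≠ v ∧ ((∃ i : Fin n, v = u + Pi.single i 1 ∧ ω (u, i) = true) ∨
      ∃ i : Fin n, u = v + Pi.single i 1 ∧ ω (v, i) = true) := by
  simp only [latG, SimpleGraph.fromRel_adj]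

theorem latbasic_meas {n : ℕ} (m : MeasurableSpace ((Fin n → ℤ) × Fin n → Bool)) (u v : Fin n → ℤ)
    (h1 : ∀ i : Fin n, v = u + Pi.single i 1 → MeasurableSet[m] {ω | ω (u, i) = true})
    (h2 : ∀ i : Fin n, u = v + Pi.single i 1 → MeasurableSet[m] {ω | ω (v, i) = true}) :
    MeasurableSet[m] {ω : (Fin n → ℤ) × Fin n → Bool | (latG ω).Adj u v} := by
  by_cases huv : u = v
  · have : {ω : (Fin n → ℤ) × Fin n → Bool | (latG ω).Adj u v} = ∅ := by
      ext ω
      simp [huv]
    rw [this]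
    exact @MeasurableSet.empty _ m
  have key : {ω : (Fin n → ℤ) × Fin n → Bool | (latG ω).Adj u v} =
      (⋃ i : Fin n, {ω | v = u + Pi.single i 1 ∧ ω (u, i) = true}) ∪
        ⋃ i : Fin n, {ω | u = v + Pi.single i 1 ∧ ω (v, i) = true} := by
    ext ω
    simp only [Set.mem_ofPred_eq, latbasic_adj, Set.mem_union, Set.mem_iUnion]
    exact ⟨fun h => h.2, fun h => ⟨huv, h⟩⟩
  rw [key]
  refine MeasurableSet.union (MeasurableSet.iUnion fun i => ?_) (MeasurableSet.iUnion fun i => ?_)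
  · by_cases hi : v = u + Pi.single i 1
    · have : {ω : (Fin n → ℤ) × Fin n → Bool | v = u + Pi.single i 1 ∧ ω (u, i) = true} =
          {ω | ω (u, i) = true} := by
        ext ω
        simp only [Set.mem_ofPred_eq]
        exact ⟨fun h => h.2, fun h => ⟨hi, h⟩⟩
      rw [this]
      exact h1 i hi
    · have : {ω : (Fin n → ℤ) × Fin n → Bool | v = u + Pi.single i 1 ∧ ω (u, i) = true} = ∅ := by
        ext ω
        simp only [Set.mem_ofPred_eq, Set.mem_empty_iff_false, iff_false]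
        exact fun h => hi h.1
      rw [this]
      exact @MeasurableSet.empty _ m
  · by_cases hi : u = v + Pi.single i 1
    · have : {ω : (Fin n → ℤ) × Fin n → Bool | u = v + Pi.single i 1 ∧ ω (v, i) = true} =
          {ω | ω (v, i) = true} := by
        ext ω
        simp only [Set.mem_ofPred_eq]
        exact ⟨fun h => h.2, fun h => ⟨hi, h⟩⟩
      rw [this]
      exact h2 i hi
    · have : {ω : (Fin n → ℤ) × Fin n → Bool | u = v + Pi.single i 1 ∧ ω (v, i) = true} = ∅ := by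
        ext ω
        simp only [Set.mem_ofPred_eq, Set.mem_empty_iff_false, iff_false]
        exact fun h => hi h.1
      rw [this]
      exact @MeasurableSet.empty _ m

theorem latbasic_le {n : ℕ} (A : Set (Fin n → ℤ)) :
    sigV (fun ω : (Fin n → ℤ) × Fin n → Bool => latG ω) A ≤
      ⨆ a ∈ {e : (Fin n → ℤ) × Fin n | e.1 ∈ A ∧ e.1 + Pi.single e.2 1 ∈ A},
        MeasurableSpace.comap (fun ω : (Fin n → ℤ) × Fin n → Bool => ω a) (⊤ : MeasurableSpace Bool) := by
  refine MeasurableSpace.generateFrom_le ?_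
  rintro U ⟨a, ha, b, hb, rfl⟩
  have hcoord : ∀ e : (Fin n → ℤ) × Fin n, e.1 ∈ A → e.1 + Pi.single e.2 1 ∈ A →
      MeasurableSet[⨆ a ∈ {e : (Fin n → ℤ) × Fin n | e.1 ∈ A ∧ e.1 + Pi.single e.2 1 ∈ A},
        MeasurableSpace.comap (fun ω : (Fin n → ℤ) × Fin n → Bool => ω a) (⊤ : MeasurableSpace Bool)]
        {ω : (Fin n → ℤ) × Fin n → Bool | ω e = true} := by
    intro e he1 he2
    have hle : MeasurableSpace.comap (fun ω : (Fin n → ℤ) × Fin n → Bool => ω e) (⊤ : MeasurableSpace Bool) ≤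
        ⨆ a ∈ {e : (Fin n → ℤ) × Fin n | e.1 ∈ A ∧ e.1 + Pi.single e.2 1 ∈ A},
        MeasurableSpace.comap (fun ω : (Fin n → ℤ) × Fin n → Bool => ω a) (⊤ : MeasurableSpace Bool) :=
      le_iSup₂_of_le e ⟨he1, he2⟩ le_rfl
    refine hle _ ⟨{true}, trivial, ?_⟩
    ext ω
    simp
  refine latbasic_meas _ a b ?_ ?_
  · rintro i rfl
    exact hcoord (a, i) ha hb
  · rintro i rfl
    exact hcoord (b, i) hb ha

theorem oneIndepM_latG {n : ℕ} {p : ℝ} {μ : Measure ((Fin n → ℤ) × Fin n → Bool)} (h : LatModel n p μ) :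
    OneIndepM μ (fun ω => latG ω) := by
  intro A B hAB
  refine indep_of_indep_of_le_left (indep_of_indep_of_le_right (h.indep
    {e : (Fin n → ℤ) × Fin n | e.1 ∈ A ∧ e.1 + Pi.single e.2 1 ∈ A}
    {e : (Fin n → ℤ) × Fin n | e.1 ∈ B ∧ e.1 + Pi.single e.2 1 ∈ B} ?_) (latbasic_le B)) (latbasic_le A)
  intro a ha b hb
  refine Disjoint.mono ?_ ?_ hAB
  · rintro x (rfl | rfl)
    · exact ha.1
    · exact ha.2
  · rintro x (rfl | rfl)
    · exact hb.1
    · exact hb.2

theorem measurableSet_latG {n : ℕ} (u v : Fin n → ℤ) :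
    MeasurableSet {ω : (Fin n → ℤ) × Fin n → Bool | (latG ω).Adj u v} := by
  have hc : ∀ e : (Fin n → ℤ) × Fin n,
      MeasurableSet ((fun ω : (Fin n → ℤ) × Fin n → Bool => ω e) ⁻¹' {true}) :=
    fun e => (measurable_pi_apply e) (MeasurableSet.singleton true)
  exact latbasic_meas _ u v (fun i _ => hc (u, i)) (fun i _ => hc (v, i))

end Pool.Agent.OIP
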