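import Pool.Agent.OIP.InfDefs

/-!
# OIP: transfer to the lattice

`embL N : (ℤ × ℤ) × Finset (Fin N) → (Fin (2 + N) → ℤ)` maps `(z, S)` to the vector with first two coordinates
`z.1, z.2` and the remaining ones the indicator of `S`.
-/

set_option autoImplicit false

open MeasureTheory ProbabilityTheory

namespace Pool.Agent.OIP

/-- the open subgraph of the lattice -/
def latG {n : ℕ} (ω : (Fin n → ℤ) × Fin n → Bool) : SimpleGraph (Fin n → ℤ) :=
  SimpleGraph.fromRel (fun u v : Fin n → ℤ => ∃ i : Fin n, v = u + Pi.single i 1 ∧ ω (u, i) = true)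

/-- 1-independent bond percolation measure on the lattice with edge probabilities at least `p` -/
structure LatModel (n : ℕ) (p : ℝ) (μ : Measure ((Fin n → ℤ) × Fin n → Bool)) : Prop where
  prob : IsProbabilityMeasure μ
  indep : ∀ A B : Set ((Fin n → ℤ) × Fin n),
    (∀ a ∈ A, ∀ b ∈ B,
      Disjoint ({a.1, a.1 + Pi.single a.2 1} : Set (Fin n → ℤ))
        ({b.1, b.1 + Pi.single b.2 1} : Set (Fin n → ℤ))) →
    Indep (⨆ a ∈ A, MeasurableSpace.comap (fun ω : (Fin n → ℤ) × Fin n → Bool => ω a)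
              (⊤ : MeasurableSpace Bool))
          (⨆ b ∈ B, MeasurableSpace.comap (fun ω : (Fin n → ℤ) × Fin n → Bool => ω b)
              (⊤ : MeasurableSpace Bool)) μ
  edge : ∀ e : (Fin n → ℤ) × Fin n, ENNReal.ofReal p ≤ μ {ω | ω e = true}

def embL (N : ℕ) (u : (ℤ × ℤ) × Finset (Fin N)) : Fin (2 + N) → ℤ :=
  Fin.append ![u.1.1, u.1.2] (fun d => if d ∈ u.2 then 1 else 0)

end Pool.Agent.OIP
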