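import Pool.Agent.OIP.PrBasic

/-!
# OIP: majority links

`ML G R L L'` : some vertex `u` is connected in `G` inside `R` to more than half of the `n` vertices `L k` and
to more than half of the `n` vertices `L' k`.  `MLd δ G R L L'` : the same with at least `(1/2 + δ) n` vertices.
-/

set_option autoImplicit false

open Finset
open scoped Classical

namespace Pool.Agent.OIP

def ML {V : Type} {n : ℕ} (G : SimpleGraph V) (R : Set V) (L L' : Fin n → V) : Prop :=
  ∃ u : V, n < 2 * (Finset.univ.filter (fun k : Fin n => Cn G R (L k) u)).card ∧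
    n < 2 * (Finset.univ.filter (fun k : Fin n => Cn G R (L' k) u)).card

def MLd {V : Type} {n : ℕ} (δ : ℝ) (G : SimpleGraph V) (R : Set V) (L L' : Fin n → V) : Prop :=
  ∃ u : V, (1 / 2 + δ) * (n : ℝ) ≤ ((Finset.univ.filter (fun k : Fin n => Cn G R (L k) u)).card : ℝ) ∧
    (1 / 2 + δ) * (n : ℝ) ≤ ((Finset.univ.filter (fun k : Fin n => Cn G R (L' k) u)).card : ℝ)

section

variable {V : Type} {n : ℕ} {G : SimpleGraph V} {R R' : Set V} {L L' L'' : Fin n → V}

theorem ML.mono (h : ML G R L L') (hR : R ⊆ R') : ML G R' L L' := by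
  obtain ⟨u, h1, h2⟩ := h
  refine ⟨u, lt_of_lt_of_le h1 (Nat.mul_le_mul_left 2 (Finset.card_le_card ?_)),
    lt_of_lt_of_le h2 (Nat.mul_le_mul_left 2 (Finset.card_le_card ?_))⟩
  · intro k hk
    rw [Finset.mem_filter] at hk ⊢
    exact ⟨hk.1, hk.2.mono hR⟩
  · intro k hk
    rw [Finset.mem_filter] at hk ⊢
    exact ⟨hk.1, hk.2.mono hR⟩

theorem ML.symm (h : ML G R L L') : ML G R L' L := by
  obtain ⟨u, h1, h2⟩ := h
  exact ⟨u, h2, h1⟩

theorem mL_common {P Q : Fin n → Prop}
    (hP : n < 2 * (Finset.univ.filter P).card) (hQ : n < 2 * (Finset.univ.filter Q).card) :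
    ∃ k : Fin n, P k ∧ Q k := by
  by_contra hcon
  push Not at hcon
  have hdis : Disjoint (Finset.univ.filter P) (Finset.univ.filter Q) := by
    rw [Finset.disjoint_left]
    intro k hk hk'
    rw [Finset.mem_filter] at hk hk'
    exact hcon k hk.2 hk'.2
  have h2 : ((Finset.univ.filter P) ∪ (Finset.univ.filter Q)).card ≤ n := by
    have := Finset.card_le_univ ((Finset.univ.filter P) ∪ (Finset.univ.filter Q))
    rwa [Fintype.card_fin] at this
  rw [Finset.card_union_of_disjoint hdis] at h2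
  omega

/-- two majorities of the same `n` vertices intersect -/
theorem ML.trans (h : ML G R L L') (h' : ML G R' L' L'') : ML G (R ∪ R') L L'' := by
  obtain ⟨u, h1, h2⟩ := h
  obtain ⟨u', h1', h2'⟩ := h'
  obtain ⟨k, hk, hk'⟩ := mL_common h2 h1'
  refine ⟨u, lt_of_lt_of_le h1 (Nat.mul_le_mul_left 2 (Finset.card_le_card ?_)),
    lt_of_lt_of_le h2' (Nat.mul_le_mul_left 2 (Finset.card_le_card ?_))⟩
  · intro l hl
    rw [Finset.mem_filter] at hl ⊢
    exact ⟨hl.1, hl.2.mono Set.subset_union_left⟩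
  · intro l hl
    rw [Finset.mem_filter] at hl ⊢
    exact ⟨hl.1, (hl.2.mono Set.subset_union_right).trans
      ((hk'.symm.mono Set.subset_union_right).trans (hk.mono Set.subset_union_left))⟩

theorem MLd.ml {δ : ℝ} (hδ : 0 < δ) (hn : 1 ≤ n) (h : MLd δ G R L L') : ML G R L L' := by
  obtain ⟨u, h1, h2⟩ := h
  have hn' : (1 : ℝ) ≤ (n : ℝ) := by exact_mod_cast hn
  have key : ∀ c : ℕ, (1 / 2 + δ) * (n : ℝ) ≤ (c : ℝ) → n < 2 * c := by
    intro c hc
    have h3 : (0 : ℝ) < δ * (n : ℝ) := mul_pos hδ (by linarith)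
    have h4 : (n : ℝ) < 2 * (c : ℝ) := by nlinarith
    exact_mod_cast h4
  exact ⟨u, key _ h1, key _ h2⟩

theorem depOn_ML (R : Set V) (L L' : Fin n → V) : DepOn R {G : SimpleGraph V | ML G R L L'} := by
  intro G H hGH
  have hC : ∀ a b : V, Cn G R a b ↔ Cn H R a b := fun a b => depOn_Cn R a b G H hGH
  have hf : ∀ (M : Fin n → V) (u : V), (Finset.univ.filter (fun k : Fin n => Cn G R (M k) u)) =
      (Finset.univ.filter (fun k : Fin n => Cn H R (M k) u)) := by
    intro M u
    refine Finset.filter_congr fun k _ => hC (M k) u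
  show ML G R L L' ↔ ML H R L L'
  unfold ML
  refine exists_congr fun u => ?_
  rw [hf L u, hf L' u]

end

/-- pull back along an injective map of the vertices keeps 1-independence -/
theorem OneIndep.comap {Ω V V' : Type} [Fintype Ω] {w : Ω → ℝ} {W : Ω → SimpleGraph V} (h : OneIndep w W)
    {φ : V' → V} (hφ : Function.Injective φ) : OneIndep w (fun ω => (W ω).comap φ) := by
  intro A B hAB U U' hU hU'
  have hdep : ∀ (A : Set V') (U : Set (SimpleGraph V')), DepOn A U →
      DepOn (φ '' A) {G : SimpleGraph V | G.comap φ ∈ U} := by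
    intro A U hU G H hGH
    refine hU (G.comap φ) (H.comap φ) fun a ha b hb => ?_
    rw [SimpleGraph.comap_adj, SimpleGraph.comap_adj]
    exact hGH (φ a) ⟨a, ha, rfl⟩ (φ b) ⟨b, hb, rfl⟩
  have hdis : Disjoint (φ '' A) (φ '' B) := by
    rw [Set.disjoint_left]
    rintro _ ⟨a, ha, rfl⟩ ⟨b, hb, hab⟩
    exact Set.disjoint_left.1 hAB ha (hφ hab ▸ hb)
  exact h (φ '' A) (φ '' B) hdis _ _ (hdep A U hU) (hdep B U' hU')

theorem Cn.of_comap {V V' : Type} {G : SimpleGraph V} {φ : V' → V} {R : Set V'} {a b : V'}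
    (h : Cn (G.comap φ) R a b) : Cn G (φ '' R) (φ a) (φ b) := by
  unfold Cn at *
  induction h with
  | refl => exact Relation.ReflTransGen.refl
  | tail _ huv ih =>
    exact Relation.ReflTransGen.tail ih ⟨huv.1, ⟨_, huv.2.1, rfl⟩, ⟨_, huv.2.2, rfl⟩⟩

end Pool.Agent.OIP
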