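import Pool.Agent.OIP.Select

/-!
# OIP: strongly supercritical 1-independent percolation on the square lattice

`L z z'` is the event that the bond `z z'` is open.  Renormalization without planar duality: level-`k` bonds
`ω_k (z, z')`, `ω_0 (z, z') = L z z'`.  A level-`(k+1)` site `z` is the `2 × 2` block
`{2 z, 2 z + (1,0), 2 z + (0,1), 2 z + (1,1)}` of level-`k` sites.  The level-`(k+1)` bond `(z, z')` is open iff
there are no two vertex-disjoint closed level-`k` bonds in the rectangle (`4 × 2` or `2 × 4`) formed by the
blocks of `z` and `z'`.  If it is open then all closed level-`k` bonds in the rectangle share a common vertex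
(a ladder contains no triangle), so all open level-`k` bonds in the rectangle belong to one component of
open level-`k` bonds (a ladder minus a vertex is connected), and each block contains an open level-`k` bond
(two opposite sides of a block are vertex-disjoint).  Hence (induction on `k`): if `f`, `f'` are
open level-`k` bonds in the same open level-`k` component, and `f_0 ∈ rect f_1`, ..., `f_{k-1} ∈ rect f` is a
chain of open bonds of levels `0, ..., k - 1`, the same for `f'`, then `f_0`, `f'_0` are in the same open component
of level `0`.
Probability: if `δ_k` is an upper bound for the probability that a level-`k` bond is closed then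
`δ_{k+1} ≤ 45 δ_k²` (a `4 × 2` rectangle has `10` bonds), and bonds of level `k + 1` without common end depend on
disjoint sets of level-`0` vertices.  With `δ_0 ≤ 1/1000` the sum of all `δ_k` is less than `1/2`, so with
positive probability the bonds `((0,0),(1,0))` of all levels are open, and then the component of the origin
bond is infinite (the level-`k` bond `((0,0),(1,0))` being open gives level-`0` bonds of the component at
distance at least `2^(k-1)` : take a chain inside the block of the site `(1,0)`).
-/

set_option autoImplicit false

open scoped Classical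

namespace Pool.Agent.OIP

/-- the `2 × 2` block of the site `z` -/
def blkZ (z : ℤ × ℤ) : Set (ℤ × ℤ) :=
  {a | (a.1 = 2 * z.1 ∨ a.1 = 2 * z.1 + 1) ∧ (a.2 = 2 * z.2 ∨ a.2 = 2 * z.2 + 1)}

/-- the rectangle of a bond -/
def rect (z z' : ℤ × ℤ) : Set (ℤ × ℤ) := blkZ z ∪ blkZ z'

/-- renormalized bonds: no two vertex-disjoint closed bonds in the rectangle -/
def ren (O : ℤ × ℤ → ℤ × ℤ → Prop) (z z' : ℤ × ℤ) : Prop :=
  ∀ a b c d : ℤ × ℤ, a ∈ rect z z' → b ∈ rect z z' → c ∈ rect z z' → d ∈ rect z z' → Nb a b → Nb c d →
    a ≠ c → a ≠ d → b ≠ c → b ≠ d → (O a b ∨ O c d)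

/-- connected by open bonds -/
def Op (O : ℤ × ℤ → ℤ × ℤ → Prop) (z z' : ℤ × ℤ) : Prop :=
  Relation.ReflTransGen (fun a b => Nb a b ∧ O a b) z z'

/-- level `k` bonds -/
def lev (O : ℤ × ℤ → ℤ × ℤ → Prop) : ℕ → (ℤ × ℤ → ℤ × ℤ → Prop)
  | 0 => O
  | k + 1 => ren (lev O k)

end Pool.Agent.OIP
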