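import Pool.Agent.OIP.PercDefs

/-! OIP: deterministic facts on renormalized bonds (finite geometry of a `4 × 2` or `2 × 4` rectangle)

`rect_conn`: pairwise intersecting edges of a graph without triangles have a common vertex `c`; all bonds of the
rectangle not containing `c` are open and the rectangle minus a vertex is connected.  (One may translate to
`z = 0`; `z' = (±1, 0)` or `(0, ±1)`.)  Here: the eight sites are coded by `0, ..., 7`, the ten bonds by
`0, ..., 9`, and all `2^10` configurations are checked in the kernel. -/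

set_option autoImplicit false

open scoped Classical

namespace Pool.Agent.OIP

theorem ren_symm {O : ℤ × ℤ → ℤ × ℤ → Prop} (hO : ∀ a b, O a b → O b a) :
    ∀ a b, ren O a b → ren O b a := by
  intro a b h
  have _ := hO
  have e : rect b a = rect a b := Set.union_comm _ _
  intro x y z w hx hy hz hw
  rw [e] at hx hy hz hw
  exact h x y z w hx hy hz hw

theorem lev_symm {O : ℤ × ℤ → ℤ × ℤ → Prop} (hO : ∀ a b, O a b → O b a) (k : ℕ) :
    ∀ a b, lev O k a b → lev O k b a := by
  induction k with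
  | zero => exact hO
  | succ k ih => exact ren_symm ih

theorem Op_symm {O : ℤ × ℤ → ℤ × ℤ → Prop} (hO : ∀ a b, O a b → O b a) {a b : ℤ × ℤ} (h : Op O a b) :
    Op O b a := by
  induction h with
  | refl => exact Relation.ReflTransGen.refl
  | tail _ hbc ih =>
    exact Relation.ReflTransGen.head ⟨hbc.1.symm, hO _ _ hbc.2⟩ ih

/-- bonds of the coded ladder -/
def percdet1Bd : List (ℕ × ℕ) :=
  [(0, 2), (2, 4), (4, 6), (1, 3), (3, 5), (5, 7), (0, 1), (2, 3), (4, 5), (6, 7)]

def percdet1U (i : ℕ) : ℕ := (percdet1Bd.getD i (0, 0)).1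
def percdet1V (i : ℕ) : ℕ := (percdet1Bd.getD i (0, 0)).2

def percdet1Disj (i j : ℕ) : Bool :=
  percdet1U i != percdet1U j && percdet1U i != percdet1V j &&
    percdet1V i != percdet1U j && percdet1V i != percdet1V j

def percdet1Good (c : ℕ) : Bool :=
  (List.range 10).all fun i => (List.range 10).all fun j =>
    !(percdet1Disj i j) || (c.testBit i || c.testBit j)

def percdet1Step (c m i : ℕ) : ℕ :=
  if c.testBit i && (m.testBit (percdet1U i) || m.testBit (percdet1V i)) then
    m ||| (2 ^ percdet1U i ||| 2 ^ percdet1V i) else m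

def percdet1Grow (c m : ℕ) : ℕ := (List.range 10).foldl (percdet1Step c) m

def percdet1Reach (c s : ℕ) : ℕ := (List.range 8).foldl (fun m _ => percdet1Grow c m) (2 ^ s)

def percdet1Check (c : ℕ) : Bool :=
  !(percdet1Good c) || (List.range 10).all fun i => !(c.testBit i) ||
    (List.range 10).all fun j => !(c.testBit j) ||
      (percdet1Reach c (percdet1U i)).testBit (percdet1U j)

theorem percdet1_check_all : ∀ c < 1024, percdet1Check c = true := by
  decide +kernel

theorem percdet1_lt8 : ∀ i < 10, percdet1U i < 8 ∧ percdet1V i < 8 := by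
  decide +kernel

theorem percdet1_bd : ∀ i < 10, percdet1V i = percdet1U i + 2 ∨
    (percdet1U i % 2 = 0 ∧ percdet1V i = percdet1U i + 1) := by
  decide +kernel

section

variable {O : ℤ × ℤ → ℤ × ℤ → Prop} {φ : ℕ → ℤ × ℤ} {c s : ℕ}

theorem percdet1_step_inv (hO : ∀ a b, O a b → O b a)
    (hc : ∀ i < 10, c.testBit i = true → Nb (φ (percdet1U i)) (φ (percdet1V i)) ∧
      O (φ (percdet1U i)) (φ (percdet1V i)))
    {m i : ℕ} (hi : i < 10) (hm : ∀ v, m.testBit v = true → Op O (φ s) (φ v)) :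
    ∀ v, (percdet1Step c m i).testBit v = true → Op O (φ s) (φ v) := by
  intro v hv
  unfold percdet1Step at hv
  split_ifs at hv with hcond
  · rw [Bool.and_eq_true, Bool.or_eq_true] at hcond
    obtain ⟨h1, h2⟩ := hcond
    have hb := hc i hi h1
    have hUV : Op O (φ (percdet1U i)) (φ (percdet1V i)) := Relation.ReflTransGen.single hb
    have hVU : Op O (φ (percdet1V i)) (φ (percdet1U i)) := Op_symm hO hUV
    have hU : Op O (φ s) (φ (percdet1U i)) := by
      rcases h2 with h2 | h2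
      · exact hm _ h2
      · exact Relation.ReflTransGen.trans (hm _ h2) hVU
    have hV : Op O (φ s) (φ (percdet1V i)) := Relation.ReflTransGen.trans hU hUV
    rw [Nat.testBit_or, Nat.testBit_or, Bool.or_eq_true, Bool.or_eq_true, Nat.testBit_two_pow,
      Nat.testBit_two_pow, decide_eq_true_eq, decide_eq_true_eq] at hv
    rcases hv with hv | hv | hv
    · exact hm _ hv
    · exact hv ▸ hU
    · exact hv ▸ hV
  · exact hm _ hv

theorem percdet1_fold_inv (hO : ∀ a b, O a b → O b a)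
    (hc : ∀ i < 10, c.testBit i = true → Nb (φ (percdet1U i)) (φ (percdet1V i)) ∧
      O (φ (percdet1U i)) (φ (percdet1V i))) :
    ∀ (l : List ℕ), (∀ i ∈ l, i < 10) → ∀ m : ℕ, (∀ v, m.testBit v = true → Op O (φ s) (φ v)) →
      ∀ v, (l.foldl (percdet1Step c) m).testBit v = true → Op O (φ s) (φ v) := by
  intro l
  induction l with
  | nil => intro _ m hm; exact hm
  | cons a l ih =>
    intro hl m hm
    rw [List.foldl_cons]
    exact ih (fun i hi => hl i (List.mem_cons_of_mem _ hi)) _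
      (percdet1_step_inv hO hc (hl a List.mem_cons_self) hm)

theorem percdet1_iter_inv (hO : ∀ a b, O a b → O b a)
    (hc : ∀ i < 10, c.testBit i = true → Nb (φ (percdet1U i)) (φ (percdet1V i)) ∧
      O (φ (percdet1U i)) (φ (percdet1V i))) :
    ∀ (l : List ℕ) (m : ℕ), (∀ v, m.testBit v = true → Op O (φ s) (φ v)) →
      ∀ v, (l.foldl (fun m _ => percdet1Grow c m) m).testBit v = true → Op O (φ s) (φ v) := by
  intro l
  induction l with
  | nil => intro m hm; exact hm
  | cons a l ih =>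
    intro m hm
    rw [List.foldl_cons]
    exact ih _ (percdet1_fold_inv hO hc _ (fun i hi => List.mem_range.1 hi) _ hm)

theorem percdet1_reach (hO : ∀ a b, O a b → O b a)
    (hc : ∀ i < 10, c.testBit i = true → Nb (φ (percdet1U i)) (φ (percdet1V i)) ∧
      O (φ (percdet1U i)) (φ (percdet1V i))) {v : ℕ}
    (hv : (percdet1Reach c s).testBit v = true) : Op O (φ s) (φ v) := by
  refine percdet1_iter_inv hO hc _ _ ?_ v hv
  intro w hw
  rw [Nat.testBit_two_pow, decide_eq_true_eq] at hw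
  rw [hw]
  exact Relation.ReflTransGen.refl

theorem percdet1_main (hO : ∀ a b, O a b → O b a) {z z' : ℤ × ℤ} (h : ren O z z')
    (hin : ∀ v < 8, φ v ∈ rect z z') (hsurj : ∀ a ∈ rect z z', ∃ v, v < 8 ∧ φ v = a)
    (hinj : ∀ v < 8, ∀ w < 8, φ v = φ w → v = w)
    (hnb : ∀ v < 8, ∀ w < 8, Nb (φ v) (φ w) →
      ∃ i < 10, (percdet1U i = v ∧ percdet1V i = w) ∨ (percdet1U i = w ∧ percdet1V i = v))
    (hbd : ∀ i < 10, Nb (φ (percdet1U i)) (φ (percdet1V i)))
    {a b c d : ℤ × ℤ} (ha : a ∈ rect z z') (hb : b ∈ rect z z') (hc : c ∈ rect z z')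
    (hd : d ∈ rect z z') (hab : Nb a b) (hcd : Nb c d) (hOab : O a b) (hOcd : O c d) : Op O a c := by
  set f : Fin 10 → Bool := fun i => decide (O (φ (percdet1U i)) (φ (percdet1V i))) with hf
  set C : ℕ := Nat.ofBits f with hC
  have hbit : ∀ i < 10, (C.testBit i = true ↔ O (φ (percdet1U i)) (φ (percdet1V i))) := by
    intro i hi
    rw [hC, Nat.testBit_ofBits_lt f i hi, hf]
    exact decide_eq_true_iff
  have hclt : C < 1024 := Nat.ofBits_lt_two_pow f
  have hcc : ∀ i < 10, C.testBit i = true → Nb (φ (percdet1U i)) (φ (percdet1V i)) ∧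
      O (φ (percdet1U i)) (φ (percdet1V i)) := fun i hi h1 => ⟨hbd i hi, (hbit i hi).1 h1⟩
  have hgood : percdet1Good C = true := by
    unfold percdet1Good
    rw [List.all_eq_true]
    intro i hi
    rw [List.all_eq_true]
    intro j hj
    have hi' := List.mem_range.1 hi
    have hj' := List.mem_range.1 hj
    rw [Bool.or_eq_true, Bool.or_eq_true, Bool.not_eq_true', hbit i hi', hbit j hj']
    by_cases hdj : percdet1Disj i j = true
    · right
      unfold percdet1Disj at hdj
      simp only [Bool.and_eq_true, bne_iff_ne, ne_eq] at hdj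
      obtain ⟨⟨⟨h1, h2⟩, h3⟩, h4⟩ := hdj
      obtain ⟨u1, v1⟩ := percdet1_lt8 i hi'
      obtain ⟨u2, v2⟩ := percdet1_lt8 j hj'
      exact h _ _ _ _ (hin _ u1) (hin _ v1) (hin _ u2) (hin _ v2) (hbd i hi') (hbd j hj')
        (fun e => h1 (hinj _ u1 _ u2 e)) (fun e => h2 (hinj _ u1 _ v2 e))
        (fun e => h3 (hinj _ v1 _ u2 e)) (fun e => h4 (hinj _ v1 _ v2 e))
    · left
      simpa using hdj
  have hchk := percdet1_check_all C hclt
  unfold percdet1Check at hchk
  rw [hgood, Bool.not_true, Bool.false_or, List.all_eq_true] at hchk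
  have hkey : ∀ i < 10, ∀ j < 10, C.testBit i = true → C.testBit j = true →
      Op O (φ (percdet1U i)) (φ (percdet1U j)) := by
    intro i hi j hj h1 h2
    have h3 := hchk i (List.mem_range.2 hi)
    rw [h1, Bool.not_true, Bool.false_or, List.all_eq_true] at h3
    have h4 := h3 j (List.mem_range.2 hj)
    rw [h2, Bool.not_true, Bool.false_or] at h4
    exact percdet1_reach hO hcc h4
  -- decode a bond
  have hdec : ∀ x y : ℤ × ℤ, x ∈ rect z z' → y ∈ rect z z' → Nb x y → O x y →
      ∃ i < 10, C.testBit i = true ∧ Op O x (φ (percdet1U i)) := by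
    intro x y hx hy hxy hOxy
    obtain ⟨v, hv, rfl⟩ := hsurj x hx
    obtain ⟨w, hw, rfl⟩ := hsurj y hy
    obtain ⟨i, hi, h1 | h1⟩ := hnb v hv w hw hxy
    · refine ⟨i, hi, (hbit i hi).2 ?_, ?_⟩
      · rw [h1.1, h1.2]; exact hOxy
      · rw [h1.1]; exact Relation.ReflTransGen.refl
    · refine ⟨i, hi, (hbit i hi).2 ?_, ?_⟩
      · rw [h1.1, h1.2]; exact hO _ _ hOxy
      · rw [h1.1]; exact Relation.ReflTransGen.single ⟨hxy, hOxy⟩
  obtain ⟨i, hi, hi1, hi2⟩ := hdec a b ha hb hab hOab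
  obtain ⟨j, hj, hj1, hj2⟩ := hdec c d hc hd hcd hOcd
  exact Relation.ReflTransGen.trans (Relation.ReflTransGen.trans hi2 (hkey i hi j hj hi1 hj1))
    (Op_symm hO hj2)

end

/-- horizontal code -/
def percdet1H (z : ℤ × ℤ) (v : ℕ) : ℤ × ℤ := (2 * z.1 + ((v / 2 : ℕ) : ℤ), 2 * z.2 + ((v % 2 : ℕ) : ℤ))

/-- vertical code -/
def percdet1W (z : ℤ × ℤ) (v : ℕ) : ℤ × ℤ := (2 * z.1 + ((v % 2 : ℕ) : ℤ), 2 * z.2 + ((v / 2 : ℕ) : ℤ))

theorem percdet1_hor {O : ℤ × ℤ → ℤ × ℤ → Prop} (hO : ∀ a b, O a b → O b a) {z : ℤ × ℤ}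
    (h : ren O z (z.1 + 1, z.2)) {a b c d : ℤ × ℤ} (ha : a ∈ rect z (z.1 + 1, z.2))
    (hb : b ∈ rect z (z.1 + 1, z.2)) (hc : c ∈ rect z (z.1 + 1, z.2))
    (hd : d ∈ rect z (z.1 + 1, z.2)) (hab : Nb a b) (hcd : Nb c d) (hOab : O a b) (hOcd : O c d) :
    Op O a c := by
  refine percdet1_main (φ := percdet1H z) hO h ?_ ?_ ?_ ?_ ?_ ha hb hc hd hab hcd hOab hOcd
  · intro v hv
    simp only [rect, blkZ, percdet1H, Set.mem_union, Set.mem_ofPred_eq]
    omega
  · intro x hx
    simp only [rect, blkZ, Set.mem_union, Set.mem_ofPred_eq] at hx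
    refine ⟨2 * (x.1 - 2 * z.1).toNat + (x.2 - 2 * z.2).toNat, by omega, ?_⟩
    refine Prod.ext ?_ ?_ <;> simp only [percdet1H] <;> omega
  · intro v hv w hw e
    have e1 := congrArg Prod.fst e
    have e2 := congrArg Prod.snd e
    simp only [percdet1H] at e1 e2
    omega
  · intro v hv w hw e
    unfold Nb at e
    simp only [percdet1H, Prod.mk.injEq] at e
    interval_cases v <;> interval_cases w <;>
      first
        | (exfalso; omega)
        | exact ⟨0, by decide +kernel⟩
        | exact ⟨1, by decide +kernel⟩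
        | exact ⟨2, by decide +kernel⟩
        | exact ⟨3, by decide +kernel⟩
        | exact ⟨4, by decide +kernel⟩
        | exact ⟨5, by decide +kernel⟩
        | exact ⟨6, by decide +kernel⟩
        | exact ⟨7, by decide +kernel⟩
        | exact ⟨8, by decide +kernel⟩
        | exact ⟨9, by decide +kernel⟩
  · intro i hi
    have hb := percdet1_bd i hi
    unfold Nb
    simp only [percdet1H, Prod.mk.injEq]
    omega

theorem percdet1_ver {O : ℤ × ℤ → ℤ × ℤ → Prop} (hO : ∀ a b, O a b → O b a) {z : ℤ × ℤ}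
    (h : ren O z (z.1, z.2 + 1)) {a b c d : ℤ × ℤ} (ha : a ∈ rect z (z.1, z.2 + 1))
    (hb : b ∈ rect z (z.1, z.2 + 1)) (hc : c ∈ rect z (z.1, z.2 + 1))
    (hd : d ∈ rect z (z.1, z.2 + 1)) (hab : Nb a b) (hcd : Nb c d) (hOab : O a b) (hOcd : O c d) :
    Op O a c := by
  refine percdet1_main (φ := percdet1W z) hO h ?_ ?_ ?_ ?_ ?_ ha hb hc hd hab hcd hOab hOcd
  · intro v hv
    simp only [rect, blkZ, percdet1W, Set.mem_union, Set.mem_ofPred_eq]
    omega
  · intro x hx
    simp only [rect, blkZ, Set.mem_union, Set.mem_ofPred_eq] at hx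
    refine ⟨2 * (x.2 - 2 * z.2).toNat + (x.1 - 2 * z.1).toNat, by omega, ?_⟩
    refine Prod.ext ?_ ?_ <;> simp only [percdet1W] <;> omega
  · intro v hv w hw e
    have e1 := congrArg Prod.fst e
    have e2 := congrArg Prod.snd e
    simp only [percdet1W] at e1 e2
    omega
  · intro v hv w hw e
    unfold Nb at e
    simp only [percdet1W, Prod.mk.injEq] at e
    interval_cases v <;> interval_cases w <;>
      first
        | (exfalso; omega)
        | exact ⟨0, by decide +kernel⟩
        | exact ⟨1, by decide +kernel⟩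
        | exact ⟨2, by decide +kernel⟩
        | exact ⟨3, by decide +kernel⟩
        | exact ⟨4, by decide +kernel⟩
        | exact ⟨5, by decide +kernel⟩
        | exact ⟨6, by decide +kernel⟩
        | exact ⟨7, by decide +kernel⟩
        | exact ⟨8, by decide +kernel⟩
        | exact ⟨9, by decide +kernel⟩
  · intro i hi
    have hb := percdet1_bd i hi
    unfold Nb
    simp only [percdet1W, Prod.mk.injEq]
    omega

/-- all open bonds in the rectangle of a renormalized open bond are in one component -/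
theorem rect_conn {O : ℤ × ℤ → ℤ × ℤ → Prop} (hO : ∀ a b, O a b → O b a) {z z' : ℤ × ℤ} (hz : Nb z z')
    (h : ren O z z') {a b c d : ℤ × ℤ} (ha : a ∈ rect z z') (hb : b ∈ rect z z') (hc : c ∈ rect z z')
    (hd : d ∈ rect z z') (hab : Nb a b) (hcd : Nb c d) (hOab : O a b) (hOcd : O c d) : Op O a c := by
  have e : rect z z' = rect z' z := Set.union_comm _ _
  rcases hz with hz | hz | hz | hz
  · subst hz
    exact percdet1_hor hO h ha hb hc hd hab hcd hOab hOcd
  · have hz2 : z = (z'.1 + 1, z'.2) := by rw [hz]; refine Prod.ext ?_ ?_ <;> simp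
    have h' := ren_symm hO _ _ h
    rw [e] at ha hb hc hd
    rw [hz2] at ha hb hc hd h'
    exact percdet1_hor hO h' ha hb hc hd hab hcd hOab hOcd
  · subst hz
    exact percdet1_ver hO h ha hb hc hd hab hcd hOab hOcd
  · have hz2 : z = (z'.1, z'.2 + 1) := by rw [hz]; refine Prod.ext ?_ ?_ <;> simp
    have h' := ren_symm hO _ _ h
    rw [e] at ha hb hc hd
    rw [hz2] at ha hb hc hd h'
    exact percdet1_ver hO h' ha hb hc hd hab hcd hOab hOcd

/-- each block contains an open bond -/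
theorem blk_open {O : ℤ × ℤ → ℤ × ℤ → Prop} {z z' : ℤ × ℤ} (h : ren O z z') :
    (∃ a b, a ∈ blkZ z ∧ b ∈ blkZ z ∧ Nb a b ∧ O a b) ∧ (∃ a b, a ∈ blkZ z' ∧ b ∈ blkZ z' ∧ Nb a b ∧ O a b) := by
  have key : ∀ y : ℤ × ℤ, blkZ y ⊆ rect z z' →
      ∃ a b, a ∈ blkZ y ∧ b ∈ blkZ y ∧ Nb a b ∧ O a b := by
    intro y hy
    have m1 : ((2 * y.1, 2 * y.2) : ℤ × ℤ) ∈ blkZ y := by simp [blkZ]
    have m2 : ((2 * y.1 + 1, 2 * y.2) : ℤ × ℤ) ∈ blkZ y := by simp [blkZ]
    have m3 : ((2 * y.1, 2 * y.2 + 1) : ℤ × ℤ) ∈ blkZ y := by simp [blkZ]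
    have m4 : ((2 * y.1 + 1, 2 * y.2 + 1) : ℤ × ℤ) ∈ blkZ y := by simp [blkZ]
    have n1 : Nb ((2 * y.1, 2 * y.2) : ℤ × ℤ) (2 * y.1 + 1, 2 * y.2) := Or.inl rfl
    have n2 : Nb ((2 * y.1, 2 * y.2 + 1) : ℤ × ℤ) (2 * y.1 + 1, 2 * y.2 + 1) := Or.inl rfl
    rcases h _ _ _ _ (hy m1) (hy m2) (hy m3) (hy m4) n1 n2
      (by simp) (by simp) (by simp) (by simp) with h1 | h1
    · exact ⟨_, _, m1, m2, n1, h1⟩
    · exact ⟨_, _, m3, m4, n2, h1⟩
  exact ⟨key z Set.subset_union_left, key z' Set.subset_union_right⟩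

end Pool.Agent.OIP
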