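import Pool.Agent.OIP.PercDet1

/-! OIP: infinite component from open bonds on all levels

`lift_conn`: along a path of `ren O`-open bonds from `z` to `y`, consecutive rectangles share a block, which contains
an open bond (`blk_open`), so `rect_conn` applies step by step.
`infinite_of_lev`: for every `k` follow chains `g_0 ∈ rect g_1`, ..., `g_{k-1} ∈ rect g_k`, `g_k = ((0,0),(1,0))`, of
bonds `g_j` open on level `j`; any two such chains end in the same level-`0` component (induction, `lift_conn`);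
one chain is `g_j = ((0,0),(1,0))`, another one stays in the `2^j`-blocks of the site `(1,0)`, so the component of the
origin contains points with first coordinate at least `2^k` for all `k`. -/

set_option autoImplicit false

open scoped Classical

namespace Pool.Agent.OIP

theorem lift_conn {O : ℤ × ℤ → ℤ × ℤ → Prop} (hO : ∀ a b, O a b → O b a) {z z' y y' : ℤ × ℤ}
    (hz : Nb z z') (hy : Nb y y') (hoz : ren O z z') (hoy : ren O y y') (hzy : Op (ren O) z y)
    {a b c d : ℤ × ℤ} (ha : a ∈ rect z z') (hb : b ∈ rect z z') (hc : c ∈ rect y y')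
    (hd : d ∈ rect y y') (hab : Nb a b) (hcd : Nb c d) (hOab : O a b) (hOcd : O c d) : Op O a c := by
  unfold Op at hzy
  induction hzy generalizing y' c d with
  | refl =>
    obtain ⟨⟨e, f, he, hf, hef, hOef⟩, -⟩ := blk_open hoz
    have h1 : Op O a e := rect_conn hO hz hoz ha hb (Or.inl he) (Or.inl hf) hab hef hOab hOef
    have h2 : Op O e c := rect_conn hO hy hoy (Or.inl he) (Or.inl hf) hc hd hef hcd hOef hOcd
    exact Relation.ReflTransGen.trans h1 h2
  | tail _ hbc ih =>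
    obtain ⟨-, ⟨e, f, he, hf, hef, hOef⟩⟩ := blk_open hbc.2
    have h1 : Op O a e := ih hbc.1 hbc.2 (Or.inr he) (Or.inr hf) hef hOef
    have h2 : Op O e c := rect_conn hO hy hoy (Or.inl he) (Or.inl hf) hc hd hef hcd hOef hOcd
    exact Relation.ReflTransGen.trans h1 h2

/-- chains of open bonds: `(a, b)` is a level-`0` bond at the end of a chain starting at the level-`k` bond `(z, z')` -/
def percdet2Und (O : ℤ × ℤ → ℤ × ℤ → Prop) : ℕ → ℤ × ℤ → ℤ × ℤ → ℤ × ℤ → ℤ × ℤ → Prop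
  | 0, z, z', a, b => a = z ∧ b = z'
  | k + 1, z, z', a, b => ∃ c d : ℤ × ℤ, c ∈ rect z z' ∧ d ∈ rect z z' ∧ Nb c d ∧ lev O k c d ∧
      percdet2Und O k c d a b

theorem percdet2_conn {O : ℤ × ℤ → ℤ × ℤ → Prop} (hO : ∀ a b, O a b → O b a) (k : ℕ) :
    ∀ z z' y y' a b c d : ℤ × ℤ, Nb z z' → Nb y y' → lev O k z z' → lev O k y y' →
      Op (lev O k) z y → percdet2Und O k z z' a b → percdet2Und O k y y' c d → Op O a c := by
  induction k with
  | zero =>
    intro z z' y y' a b c d _ _ _ _ hzy h1 h2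
    rw [h1.1, h2.1]
    exact hzy
  | succ k ih =>
    intro z z' y y' a b c d hz hy hoz hoy hzy h1 h2
    obtain ⟨e, f, he, hf, hef, hlef, hU⟩ := h1
    obtain ⟨g, h, hg, hh, hgh, hlgh, hU'⟩ := h2
    have h3 : Op (lev O k) e g :=
      lift_conn (lev_symm hO k) hz hy hoz hoy hzy he hf hg hh hef hgh hlef hlgh
    exact ih e f g h a b c d hef hgh hlef hlgh h3 hU hU'

theorem percdet2_origin {O : ℤ × ℤ → ℤ × ℤ → Prop} (h : ∀ k, lev O k (0, 0) (1, 0)) (k : ℕ) :
    percdet2Und O k (0, 0) (1, 0) (0, 0) (1, 0) := by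
  induction k with
  | zero => exact ⟨rfl, rfl⟩
  | succ k ih =>
    refine ⟨(0, 0), (1, 0), Or.inl ?_, Or.inl ?_, ?_, h k, ih⟩
    · simp [blkZ]
    · simp [blkZ]
    · simp [Nb]

theorem percdet2_far {O : ℤ × ℤ → ℤ × ℤ → Prop} (k : ℕ) :
    ∀ (z z' : ℤ × ℤ) (m : ℤ), lev O k z z' → m ≤ z.1 →
      ∃ a b : ℤ × ℤ, percdet2Und O k z z' a b ∧ 2 ^ k * m ≤ a.1 := by
  induction k with
  | zero =>
    intro z z' m _ hm
    exact ⟨z, z', ⟨rfl, rfl⟩, by simpa using hm⟩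
  | succ k ih =>
    intro z z' m hl hm
    obtain ⟨⟨c, d, hc, hd, hcd, hlcd⟩, -⟩ := blk_open hl
    have hc1 : 2 * m ≤ c.1 := by
      rcases hc.1 with h | h <;> rw [h] <;> linarith
    obtain ⟨a, b, hU, ha⟩ := ih c d (2 * m) hlcd hc1
    refine ⟨a, b, ⟨c, d, Or.inl hc, Or.inl hd, hcd, hlcd, hU⟩, ?_⟩
    calc (2 : ℤ) ^ (k + 1) * m = 2 ^ k * (2 * m) := by ring
      _ ≤ a.1 := ha

theorem infinite_of_lev {O : ℤ × ℤ → ℤ × ℤ → Prop} (hO : ∀ a b, O a b → O b a)
    (h : ∀ k, lev O k (0, 0) (1, 0)) : {z' : ℤ × ℤ | Op O (0, 0) z'}.Infinite := by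
  have key : ∀ k : ℕ, ∃ a : ℤ × ℤ, Op O (0, 0) a ∧ (2 : ℤ) ^ (k + 1) ≤ a.1 := by
    intro k
    obtain ⟨-, ⟨c, d, hc, hd, hcd, hlcd⟩⟩ := blk_open (h (k + 1))
    have hc1 : (2 : ℤ) ≤ c.1 := by
      rcases hc.1 with h | h <;> rw [h] <;> norm_num
    obtain ⟨a, b, hU, ha⟩ := percdet2_far k c d 2 hlcd hc1
    refine ⟨a, ?_, ?_⟩
    · have h1 : percdet2Und O (k + 1) (0, 0) (1, 0) a b :=
        ⟨c, d, Or.inr hc, Or.inr hd, hcd, hlcd, hU⟩
      exact percdet2_conn hO (k + 1) (0, 0) (1, 0) (0, 0) (1, 0) (0, 0) (1, 0) a b (by simp [Nb])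
        (by simp [Nb]) (h _) (h _) Relation.ReflTransGen.refl (percdet2_origin h (k + 1)) h1
    · calc (2 : ℤ) ^ (k + 1) = 2 ^ k * 2 := by ring
        _ ≤ a.1 := ha
  intro hfin
  obtain ⟨M, hM⟩ := (hfin.image Prod.fst).bddAbove
  obtain ⟨a, ha, ha2⟩ := key M.toNat
  have h1 : a.1 ≤ M := hM ⟨a, ha, rfl⟩
  have h2 : M ≤ (M.toNat : ℤ) := Int.self_le_toNat M
  have h3 : (M.toNat : ℤ) < 2 ^ (M.toNat + 1) := by
    have := (Nat.lt_two_pow_self (n := M.toNat + 1))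
    have h4 : ((M.toNat + 1 : ℕ) : ℤ) < ((2 ^ (M.toNat + 1) : ℕ) : ℤ) := by exact_mod_cast this
    push_cast at h4
    omega
  omega

end Pool.Agent.OIP
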