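import Pool.Agent.OIP.SCoreL

/-! OIP: implications, part 1 -/

set_option autoImplicit false

open Finset
open scoped Classical

namespace Pool.Agent.OIP

variable {m : ℕ}

theorem scoreImp1_ne (σ : Equiv.Perm (I5 m)) {u : Fin 5} (hu : u ≠ 4) (t : Fin m) {k : I5 m}
    (hk : k ∈ blk σ u) : k ≠ σ (4, t) := by
  rintro rfl
  have h4 : σ (4, t) ∈ blk σ 4 := by
    unfold blk
    exact Finset.mem_image.2 ⟨t, Finset.mem_univ _, rfl⟩
  exact hu (scoreL_blk_unique σ hk h4)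

/-- all implications used for (I1) - (I4), for a good graph without link.  Here `j = σ (4, t)`. -/
theorem impl_hub_leaf {Ω : Type} [Fintype Ω] {p : ℝ} {w : Ω → ℝ} {W : Ω → SimpleGraph (SV (I5 m))}
    (h : SampleLaw p w W) {δ : ℝ} (σ : Equiv.Perm (I5 m)) (ω : Ω) (hG : GoodG δ σ (W ω))
    (hL : ∀ (a : Bool × I5 m) (u : Fin 5), ¬ (Mj (W ω) a false (blk σ u) ∧ Mj (W ω) a true (blk σ u)))
    (i : Bool) (u v : Fin 5) (hu4 : u ≠ 4) (hv4 : v ≠ 4) (t : Fin m)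
    (hh : (W ω).Adj (hb i) (lf (i, σ (4, t)))) (hany : ∃ k ∈ blk σ u, (W ω).Adj (hb i) (lf (i, k))) :
    (W ω ∈ hubOwn σ i u ∧ W ω ∈ leafOwn σ i v (σ (4, t))) ∨
    (W ω ∈ hubOth σ i u ∧ W ω ∈ leafOth σ i v (σ (4, t))) ∨
    (W ω ∈ hubNon σ i u ∧ W ω ∈ leafNon σ i v (σ (4, t))) := by
  have hT := h.tr ω
  -- transfer between the leaf `j` and any hub neighbour in block `u`
  have key : ∀ k ∈ blk σ u, (W ω).Adj (hb i) (lf (i, k)) → ∀ i' : Bool,
      (Mj (W ω) (i, k) i' (blk σ u) ↔ Mj (W ω) (i, σ (4, t)) i' (blk σ v)) := by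
    intro k hk hadj i'
    have hne : k ≠ σ (4, t) := scoreImp1_ne σ hu4 t hk
    have hcl : (W ω).Adj (lf (i, k)) (lf (i, σ (4, t))) := h.clique ω i k (σ (4, t)) hne hadj hh
    rw [hG.1 (i, σ (4, t)) i' v u]
    constructor
    · intro hM
      exact L1 hT hG (a := (i, σ (4, t))) (b := (i, k)) hne.symm hcl.symm hM
    · intro hM
      exact L1 hT hG (a := (i, k)) (b := (i, σ (4, t))) hne hcl hM
  have hnb : ∀ (a : Bool × I5 m) (w' : Fin 5), ¬ (Mj (W ω) a i (blk σ w') ∧ Mj (W ω) a (!i) (blk σ w')) := by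
    intro a w' hcon
    cases i
    · exact hL a w' ⟨hcon.1, hcon.2⟩
    · exact hL a w' ⟨hcon.2, hcon.1⟩
  by_cases hown : W ω ∈ hubOwn σ i u
  · obtain ⟨k, hk, hadj, hM⟩ := hown
    exact Or.inl ⟨⟨k, hk, hadj, hM⟩, (key k hk hadj i).1 hM⟩
  · by_cases hoth : W ω ∈ hubOth σ i u
    · right
      left
      refine ⟨hoth, ?_⟩
      obtain ⟨⟨k, hk, hadj, hM⟩, _⟩ := hoth
      have h2 := (key k hk hadj (!i)).1 hM
      exact ⟨h2, fun h3 => hnb _ _ ⟨h3, h2⟩⟩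
    · right
      right
      obtain ⟨k, hk, hadj⟩ := hany
      refine ⟨⟨⟨k, hk, hadj⟩, ?_⟩, ?_⟩
      · rintro (h1 | h1)
        · exact hown h1
        · exact hoth h1
      · rintro (h1 | h1)
        · exact hown ⟨k, hk, hadj, (key k hk hadj i).2 h1⟩
        · exact hoth ⟨⟨k, hk, hadj, (key k hk hadj (!i)).2 h1.1⟩, hown⟩

/-- if the hub `i` is of the third kind, joined to the leaf `(i, j)`, and the leaf `(!i, j)` is in its own
majority class, then the vertical edge at `j` is closed (otherwise `Tr` (second part) joins the hub neighbours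
of block `u` to the majority class of layer `!i`) -/
theorem impl_vert_closed {Ω : Type} [Fintype Ω] {p : ℝ} {w : Ω → ℝ} {W : Ω → SimpleGraph (SV (I5 m))}
    (h : SampleLaw p w W) {δ : ℝ} (σ : Equiv.Perm (I5 m)) (ω : Ω) (hG : GoodG δ σ (W ω))
    (i : Bool) (u v : Fin 5) (huv : u ≠ v) (hu4 : u ≠ 4) (hv4 : v ≠ 4) (t : Fin m)
    (hh : (W ω).Adj (hb i) (lf (i, σ (4, t)))) (hn : W ω ∈ hubNon σ i u)
    (hO : W ω ∈ leafOwn σ (!i) v (σ (4, t))) :
    ¬ (W ω).Adj (lf (false, σ (4, t))) (lf (true, σ (4, t))) := by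
  intro hvert
  have hT := h.tr ω
  obtain ⟨⟨k, hk, hadj⟩, hnot⟩ := hn
  have hne : k ≠ σ (4, t) := scoreImp1_ne σ hu4 t hk
  have hcl : (W ω).Adj (lf (i, k)) (lf (i, σ (4, t))) := h.clique ω i k (σ (4, t)) hne hadj hh
  have hM : Mj (W ω) (i, k) (!i) (blk σ v) := by
    refine scoreL_Mj_of_imp (b := (!i, σ (4, t))) ?_ hO
    intro l hl hlj hladj
    have hkl : l ≠ k := by
      rintro rfl
      exact huv (scoreL_blk_unique σ hk hl)
    refine ⟨hkl, ?_⟩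
    cases i
    · exact hT.2 (false, k) (true, l) (σ (4, t)) hne hlj hkl.symm hcl hvert hladj
    · exact (hT.2 (false, l) (true, k) (σ (4, t)) hlj hne hkl hladj.symm hvert hcl.symm).symm
  rw [hG.1 (i, k) (!i) v u] at hM
  apply hnot
  by_cases hown : W ω ∈ hubOwn σ i u
  · exact Or.inl hown
  · exact Or.inr ⟨⟨k, hk, hadj, hM⟩, hown⟩

end Pool.Agent.OIP
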