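import Pool.Agent.OIP.SCoreL

/-! OIP: implications, part 2 -/

set_option autoImplicit false

open Finset
open scoped Classical

namespace Pool.Agent.OIP

variable {m : ℕ}

theorem scoreImp2_ne (σ : Equiv.Perm (I5 m)) {u : Fin 5} (hu : u ≠ 4) (t : Fin m) {k : I5 m}
    (hk : k ∈ blk σ u) : k ≠ σ (4, t) := by
  rintro rfl
  have h4 : σ (4, t) ∈ blk σ 4 := by
    unfold blk
    exact Finset.mem_image.2 ⟨t, Finset.mem_univ _, rfl⟩
  exact hu (scoreL_blk_unique σ hk h4)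

/-- a majority is nonempty -/
theorem scoreImp2_exists {G : SimpleGraph (SV (I5 m))} {a : Bool × I5 m} {i : Bool} {S : Finset (I5 m)}
    (h : Mj G a i S) : ∃ k ∈ S, k ≠ a.2 ∧ G.Adj (lf a) (lf (i, k)) := by
  obtain ⟨k, hk, h1, _⟩ := scoreL_Mj_common h h
  exact ⟨k, hk, h1⟩

/-- core of `impl_vert_closed2`: if the leaf `(false, j)` is joined to the majority of layer `i1` and `(true, j)` to
the majority of layer `i2` and the vertical edge is open then some leaf is joined to both majorities -/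
theorem scoreImp2_core {G : SimpleGraph (SV (I5 m))} {δ : ℝ} (hT : Tr G) (σ : Equiv.Perm (I5 m))
    (hG : GoodG δ σ G) (t : Fin m) (i1 i2 : Bool)
    (h1 : Mj G (false, σ (4, t)) i1 (blk σ 2)) (h2 : Mj G (true, σ (4, t)) i2 (blk σ 3))
    (hvert : G.Adj (lf (false, σ (4, t))) (lf (true, σ (4, t)))) :
    ∃ a : Bool × I5 m, Mj G a i1 (blk σ 3) ∧ Mj G a i2 (blk σ 3) := by
  obtain ⟨k, hk, hkj, hadj⟩ := scoreImp2_exists h1
  have hne : k ≠ σ (4, t) := hkj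
  refine ⟨(i1, k), ?_, ?_⟩
  · rw [hG.1 (i1, k) i1 3 2]
    exact L1 hT hG (a := (i1, k)) (b := (false, σ (4, t))) hne hadj.symm h1
  · refine scoreL_Mj_of_imp (b := (true, σ (4, t))) ?_ h2
    intro l hl hlj hladj
    have hkl : l ≠ k := by
      rintro rfl
      exact absurd (scoreL_blk_unique σ hk hl) (by decide)
    exact ⟨hkl, hT.2 (i1, k) (i2, l) (σ (4, t)) hne hlj hkl.symm hadj.symm hvert hladj⟩

/-- own/own and other/other leaves over the same index: vertical edge closed -/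
theorem impl_vert_closed2 {Ω : Type} [Fintype Ω] {p : ℝ} {w : Ω → ℝ} {W : Ω → SimpleGraph (SV (I5 m))}
    (h : SampleLaw p w W) {δ : ℝ} (σ : Equiv.Perm (I5 m)) (ω : Ω) (hG : GoodG δ σ (W ω))
    (hL : ∀ (a : Bool × I5 m) (u : Fin 5), ¬ (Mj (W ω) a false (blk σ u) ∧ Mj (W ω) a true (blk σ u)))
    (t : Fin m)
    (hO : (W ω ∈ leafOwn σ false 2 (σ (4, t)) ∧ W ω ∈ leafOwn σ true 3 (σ (4, t))) ∨
      (W ω ∈ leafOth σ false 2 (σ (4, t)) ∧ W ω ∈ leafOth σ true 3 (σ (4, t)))) :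
    ¬ (W ω).Adj (lf (false, σ (4, t))) (lf (true, σ (4, t))) := by
  intro hvert
  have hT := h.tr ω
  rcases hO with ⟨h1, h2⟩ | ⟨h1, h2⟩
  · obtain ⟨a, ha1, ha2⟩ := scoreImp2_core hT σ hG t false true h1 h2 hvert
    exact hL a 3 ⟨ha1, ha2⟩
  · obtain ⟨a, ha1, ha2⟩ := scoreImp2_core hT σ hG t true false h1.1 h2.1 hvert
    exact hL a 3 ⟨ha2, ha1⟩

/-- hub pairs for which the edge between the hubs is closed -/
theorem impl_hub_closed {Ω : Type} [Fintype Ω] {p : ℝ} {w : Ω → ℝ} {W : Ω → SimpleGraph (SV (I5 m))}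
    (h : SampleLaw p w W) {δ : ℝ} (σ : Equiv.Perm (I5 m)) (ω : Ω) (hG : GoodG δ σ (W ω))
    (hL : ∀ (a : Bool × I5 m) (u : Fin 5), ¬ (Mj (W ω) a false (blk σ u) ∧ Mj (W ω) a true (blk σ u)))
    (hO : (W ω ∈ hubOwn σ false 0 ∧ W ω ∈ hubOwn σ true 1) ∨
      (W ω ∈ hubOth σ false 0 ∧ W ω ∈ hubOth σ true 1) ∨
      (W ω ∈ hubNon σ false 0 ∧ W ω ∈ hubOwn σ true 1) ∨
      (W ω ∈ hubOwn σ false 0 ∧ W ω ∈ hubNon σ true 1)) :
    ¬ (W ω).Adj (hb false) (hb true) := by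
  intro hvert
  have hT := h.tr ω
  have hx : ∀ k ∈ blk σ 0, ∀ l ∈ blk σ 1, (W ω).Adj (hb false) (lf (false, k)) →
      (W ω).Adj (hb true) (lf (true, l)) → k ≠ l ∧ (W ω).Adj (lf (false, k)) (lf (true, l)) := by
    intro k hk l hl h1 h2
    have hkl : k ≠ l := by
      rintro rfl
      exact absurd (scoreL_blk_unique σ hk hl) (by decide)
    exact ⟨hkl, h.cross ω k l hkl h1 hvert h2⟩
  rcases hO with ⟨h1, h2⟩ | ⟨h1, h2⟩ | ⟨h1, h2⟩ | ⟨h1, h2⟩
  · obtain ⟨k, hk, hadj, hM⟩ := h1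
    obtain ⟨l, hl, hadj', hM'⟩ := h2
    obtain ⟨hkl, he⟩ := hx k hk l hl hadj hadj'
    rw [hG.1 (true, l) true 1 0] at hM'
    exact hL (false, k) 0 ⟨hM, L1 hT hG (a := (false, k)) (b := (true, l)) hkl he hM'⟩
  · obtain ⟨⟨k, hk, hadj, hM⟩, _⟩ := h1
    obtain ⟨⟨l, hl, hadj', hM'⟩, _⟩ := h2
    obtain ⟨hkl, he⟩ := hx k hk l hl hadj hadj'
    simp only [Bool.not_false, Bool.not_true] at hM hM'
    rw [hG.1 (true, l) false 1 0] at hM'
    exact hL (false, k) 0 ⟨L1 hT hG (a := (false, k)) (b := (true, l)) hkl he hM', hM⟩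
  · obtain ⟨⟨k, hk, hadj⟩, hnot⟩ := h1
    obtain ⟨l, hl, hadj', hM'⟩ := h2
    obtain ⟨hkl, he⟩ := hx k hk l hl hadj hadj'
    rw [hG.1 (true, l) true 1 0] at hM'
    have hM : Mj (W ω) (false, k) true (blk σ 0) := L1 hT hG (a := (false, k)) (b := (true, l)) hkl he hM'
    apply hnot
    by_cases hown : W ω ∈ hubOwn σ false 0
    · exact Or.inl hown
    · exact Or.inr ⟨⟨k, hk, hadj, hM⟩, hown⟩
  · obtain ⟨k, hk, hadj, hM⟩ := h1
    obtain ⟨⟨l, hl, hadj'⟩, hnot⟩ := h2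
    obtain ⟨hkl, he⟩ := hx k hk l hl hadj hadj'
    rw [hG.1 (false, k) false 0 1] at hM
    have hM' : Mj (W ω) (true, l) false (blk σ 1) :=
      L1 hT hG (a := (true, l)) (b := (false, k)) hkl.symm he.symm hM
    apply hnot
    by_cases hown : W ω ∈ hubOwn σ true 1
    · exact Or.inl hown
    · exact Or.inr ⟨⟨l, hl, hadj', hM'⟩, hown⟩

end Pool.Agent.OIP
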