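import Pool.Agent.OIP.SCoreImp1
import Pool.Agent.OIP.SCoreImp2
import Pool.Agent.OIP.SCoreDep
import Pool.Agent.OIP.ALDefs

/-! OIP: the system of inequalities

With `N1 = hubNon false 0`, `Z = N1 ∩ leafNon false 2 j ∩ {hub false - (false, j) open}`: outside `¬ GoodG`, `LkE σ 0`
(`L3`) and the `hubErr` event, `impl_hub_leaf` gives `pr Z ≥ p - al a - al' a' - 3 η`;
`Z` and `leafOwn true 3 j` are independent and on their intersection (good) the vertical edge is closed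
(`impl_vert_closed`), so `b pr Z ≤ pr (N1 ∩ E) + η = n1 e + η`.  This is (I1); (I2) is the same with the layers
exchanged; (I3), (I4) from `impl_vert_closed2`, `impl_hub_closed` and `pr {edge closed} ≤ 1 - p`. -/

set_option autoImplicit false

open Finset
open scoped Classical

namespace Pool.Agent.OIP

variable {m : ℕ}

/-- region: leaves over the blocks of `S`, the leaves `(i, σ (4, t))` for `i ∈ T`, the hubs of `H` -/
def scoresys_R (σ : Equiv.Perm (I5 m)) (t : Fin m) (S : Finset (Fin 5)) (T H : Finset Bool) :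
    Set (SV (I5 m)) :=
  {v | (∃ i : Bool, ∃ u ∈ S, ∃ s : Fin m, v = lf (i, σ (u, s))) ∨ (∃ i ∈ T, v = lf (i, σ (4, t))) ∨
    (∃ i ∈ H, v = hb i)}

theorem scoresys_disj (σ : Equiv.Perm (I5 m)) (t : Fin m) {S S' : Finset (Fin 5)} {T T' H H' : Finset Bool}
    (h4 : (4 : Fin 5) ∉ S) (h4' : (4 : Fin 5) ∉ S') (hS : Disjoint S S') (hT : Disjoint T T')
    (hH : Disjoint H H') : Disjoint (scoresys_R σ t S T H) (scoresys_R σ t S' T' H') := by
  rw [Set.disjoint_left]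
  rintro v (⟨i, u, hu, s, rfl⟩ | ⟨i, hi, rfl⟩ | ⟨i, hi, rfl⟩)
    (⟨i', u', hu', s', h'⟩ | ⟨i', hi', h'⟩ | ⟨i', hi', h'⟩)
  · have h1 := Sum.inl_injective h'
    have h2 : σ (u, s) = σ (u', s') := congrArg Prod.snd h1
    have h3 := σ.injective h2
    have h4 : u = u' := congrArg Prod.fst h3
    exact (Finset.disjoint_left.1 hS hu) (h4 ▸ hu')
  · have h1 := Sum.inl_injective h'
    have h2 : σ (u, s) = σ (4, t) := congrArg Prod.snd h1
    have h3 := σ.injective h2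
    have h5 : u = 4 := congrArg Prod.fst h3
    exact h4 (h5 ▸ hu)
  · cases h'
  · have h1 := Sum.inl_injective h'
    have h2 : σ (4, t) = σ (u', s') := congrArg Prod.snd h1
    have h3 := σ.injective h2
    have h5 : (4 : Fin 5) = u' := congrArg Prod.fst h3
    exact h4' (h5 ▸ hu')
  · have h1 := Sum.inl_injective h'
    have h2 : i = i' := congrArg Prod.fst h1
    exact (Finset.disjoint_left.1 hT hi) (h2 ▸ hi')
  · cases h'
  · cases h'
  · cases h'
  · have h1 := Sum.inr_injective h'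
    exact (Finset.disjoint_left.1 hH hi) (h1 ▸ hi')

theorem scoresys_VS (σ : Equiv.Perm (I5 m)) (t : Fin m) {u : Fin 5} {S : Finset (Fin 5)} (T H : Finset Bool)
    (hu : u ∈ S) : VS (blk σ u) ⊆ scoresys_R σ t S T H := by
  rintro v ⟨i, k, hk, rfl⟩
  unfold blk at hk
  rw [Finset.mem_image] at hk
  obtain ⟨s, -, rfl⟩ := hk
  exact Or.inl ⟨i, u, hu, s, rfl⟩

theorem scoresys_hubset (σ : Equiv.Perm (I5 m)) (t : Fin m) {u : Fin 5} {S : Finset (Fin 5)} {T H : Finset Bool}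
    {i : Bool} (hu : u ∈ S) (hi : i ∈ H) : VS (blk σ u) ∪ {hb i} ⊆ scoresys_R σ t S T H := by
  rintro v (hv | hv)
  · exact scoresys_VS σ t T H hu hv
  · rw [Set.mem_singleton_iff] at hv
    exact Or.inr (Or.inr ⟨i, hi, hv⟩)

theorem scoresys_leafset (σ : Equiv.Perm (I5 m)) (t : Fin m) {u : Fin 5} {S : Finset (Fin 5)} {T H : Finset Bool}
    {i : Bool} (hu : u ∈ S) (hi : i ∈ T) : VS (blk σ u) ∪ {lf (i, σ (4, t))} ⊆ scoresys_R σ t S T H := by
  rintro v (hv | hv)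
  · exact scoresys_VS σ t T H hu hv
  · rw [Set.mem_singleton_iff] at hv
    exact Or.inr (Or.inl ⟨i, hi, hv⟩)

section four

variable {Ω : Type} [Fintype Ω] {w : Ω → ℝ}

theorem scoresys_pr2 (hw : IsLaw w) {F1 F2 : Set Ω} (h12 : Disjoint F1 F2) : pr w F1 + pr w F2 ≤ 1 := by
  rw [← pr_union_disjoint h12]
  exact pr_le_one hw _

theorem scoresys_pr3 (hw : IsLaw w) {F1 F2 F3 : Set Ω} (h12 : Disjoint F1 F2) (h13 : Disjoint F1 F3)
    (h23 : Disjoint F2 F3) : pr w F1 + pr w F2 + pr w F3 ≤ 1 := by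
  have h : Disjoint F1 (F2 ∪ F3) := Set.disjoint_union_right.2 ⟨h12, h13⟩
  have e := pr_union_disjoint (w := w) h
  rw [pr_union_disjoint h23] at e
  have := pr_le_one hw (F1 ∪ (F2 ∪ F3))
  linarith

theorem scoresys_pr4 (hw : IsLaw w) {F1 F2 F3 F4 C B : Set Ω} (h12 : Disjoint F1 F2) (h13 : Disjoint F1 F3)
    (h14 : Disjoint F1 F4) (h23 : Disjoint F2 F3) (h24 : Disjoint F2 F4) (h34 : Disjoint F3 F4)
    (k1 : F1 ⊆ C ∪ B) (k2 : F2 ⊆ C ∪ B) (k3 : F3 ⊆ C ∪ B) (k4 : F4 ⊆ C ∪ B) :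
    pr w F1 + pr w F2 + pr w F3 + pr w F4 ≤ pr w C + pr w B := by
  have h1 : Disjoint F1 (F2 ∪ (F3 ∪ F4)) :=
    Set.disjoint_union_right.2 ⟨h12, Set.disjoint_union_right.2 ⟨h13, h14⟩⟩
  have h2 : Disjoint F2 (F3 ∪ F4) := Set.disjoint_union_right.2 ⟨h23, h24⟩
  have e := pr_union_disjoint (w := w) h1
  rw [pr_union_disjoint h2, pr_union_disjoint h34] at e
  have hsub : F1 ∪ (F2 ∪ (F3 ∪ F4)) ⊆ C ∪ B :=
    Set.union_subset k1 (Set.union_subset k2 (Set.union_subset k3 k4))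
  have h3 := pr_mono hw hsub
  have h4 := pr_union_le hw C B
  linarith

end four

/-- disjointness of own, other, none -/
theorem scoresys_hub_oo (σ : Equiv.Perm (I5 m)) (i : Bool) (u : Fin 5) {G : SimpleGraph (SV (I5 m))}
    (h1 : G ∈ hubOwn σ i u) (h2 : G ∈ hubOth σ i u) : False := h2.2 h1

theorem scoresys_hub_on (σ : Equiv.Perm (I5 m)) (i : Bool) (u : Fin 5) {G : SimpleGraph (SV (I5 m))}
    (h1 : G ∈ hubOwn σ i u) (h2 : G ∈ hubNon σ i u) : False := h2.2 (Or.inl h1)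

theorem scoresys_hub_tn (σ : Equiv.Perm (I5 m)) (i : Bool) (u : Fin 5) {G : SimpleGraph (SV (I5 m))}
    (h1 : G ∈ hubOth σ i u) (h2 : G ∈ hubNon σ i u) : False := h2.2 (Or.inr h1)

theorem scoresys_leaf_oo (σ : Equiv.Perm (I5 m)) (i : Bool) (u : Fin 5) (j : I5 m)
    {G : SimpleGraph (SV (I5 m))} (h1 : G ∈ leafOwn σ i u j) (h2 : G ∈ leafOth σ i u j) : False := h2.2 h1

theorem scoresys_leaf_on (σ : Equiv.Perm (I5 m)) (i : Bool) (u : Fin 5) (j : I5 m)
    {G : SimpleGraph (SV (I5 m))} (h1 : G ∈ leafOwn σ i u j) (h2 : G ∈ leafNon σ i u j) : False :=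
  h2 (Or.inl h1)

theorem scoresys_leaf_tn (σ : Equiv.Perm (I5 m)) (i : Bool) (u : Fin 5) (j : I5 m)
    {G : SimpleGraph (SV (I5 m))} (h1 : G ∈ leafOth σ i u j) (h2 : G ∈ leafNon σ i u j) : False :=
  h2 (Or.inr h1)

/-- (I1) and (I2) -/
theorem scoresys_I {Ω : Type} [Fintype Ω] {p η δ : ℝ} {w : Ω → ℝ}
    {W : Ω → SimpleGraph (SV (I5 m))} (h : SampleLaw p w W) (σ : Equiv.Perm (I5 m)) (t : Fin m)
    (B : Set Ω)
    (hB : ∀ ω, ω ∉ B → GoodG δ σ (W ω) ∧
      ∀ (a : Bool × I5 m) (u : Fin 5), ¬ (Mj (W ω) a false (blk σ u) ∧ Mj (W ω) a true (blk σ u)))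
    (hη : 0 ≤ η) (hBη : pr w B ≤ 2 * η) (i i' : Bool) (hi : i' = !i) (u v v' : Fin 5)
    (hu4 : u ≠ 4) (hv4 : v ≠ 4) (hv'4 : v' ≠ 4) (huv : u ≠ v) (huv' : u ≠ v') (hvv' : v ≠ v')
    (herr : hubErr w W σ i u t ≤ η) :
    pr w {ω | W ω ∈ leafOwn σ i' v' (σ (4, t))} *
      (p - pr w {ω | W ω ∈ hubOwn σ i u} * pr w {ω | W ω ∈ leafOwn σ i v (σ (4, t))} -
        pr w {ω | W ω ∈ hubOth σ i u} * pr w {ω | W ω ∈ leafOth σ i v (σ (4, t))}) ≤
      pr w {ω | W ω ∈ hubNon σ i u} *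
        pr w {ω | W ω ∈ leafNon σ i v (σ (4, t)) ∧ W ω ∈ leafOwn σ i' v' (σ (4, t)) ∧
          ¬ (W ω).Adj (lf (false, σ (4, t))) (lf (true, σ (4, t)))} + 5 * η := by
  have hw := h.law
  have hii' : i ≠ i' := by
    rw [hi]
    cases i <;> simp
  have nu : (4 : Fin 5) ∉ ({u} : Finset (Fin 5)) := by
    rw [Finset.mem_singleton]; exact fun h => hu4 h.symm
  have nv : (4 : Fin 5) ∉ ({v} : Finset (Fin 5)) := by
    rw [Finset.mem_singleton]; exact fun h => hv4 h.symm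
  have nv' : (4 : Fin 5) ∉ ({v'} : Finset (Fin 5)) := by
    rw [Finset.mem_singleton]; exact fun h => hv'4 h.symm
  have nuv : (4 : Fin 5) ∉ ({u, v} : Finset (Fin 5)) := by
    rw [Finset.mem_insert, Finset.mem_singleton]
    rintro (h | h)
    · exact hu4 h.symm
    · exact hv4 h.symm
  have nvv' : (4 : Fin 5) ∉ ({v, v'} : Finset (Fin 5)) := by
    rw [Finset.mem_insert, Finset.mem_singleton]
    rintro (h | h)
    · exact hv4 h.symm
    · exact hv'4 h.symm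
  have duv : Disjoint ({u} : Finset (Fin 5)) {v} := Finset.disjoint_singleton.2 huv
  have duvv' : Disjoint ({u, v} : Finset (Fin 5)) {v'} := by
    rw [Finset.disjoint_singleton_right, Finset.mem_insert, Finset.mem_singleton]
    rintro (h | h)
    · exact huv' h.symm
    · exact hvv' h.symm
  have duvv2 : Disjoint ({u} : Finset (Fin 5)) {v, v'} := by
    rw [Finset.disjoint_singleton_left, Finset.mem_insert, Finset.mem_singleton]
    rintro (h | h)
    · exact huv h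
    · exact huv' h
  have dT : Disjoint ({i} : Finset Bool) {i'} := Finset.disjoint_singleton.2 hii'
  -- own / own and other / other
  have hdis : Disjoint (scoresys_R σ t {u} ∅ {i}) (scoresys_R σ t {v} {i} ∅) :=
    scoresys_disj σ t nu nv duv (Finset.disjoint_empty_left _) (Finset.disjoint_empty_right _)
  have i1 := h.indep _ _ hdis (hubOwn σ i u) (leafOwn σ i v (σ (4, t)))
    ((depOn_hubOwn σ i u).mono (scoresys_hubset σ t (Finset.mem_singleton_self _) (Finset.mem_singleton_self _)))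
    ((depOn_leafOwn σ i v (σ (4, t))).mono
      (scoresys_leafset σ t (Finset.mem_singleton_self _) (Finset.mem_singleton_self _)))
  have i2 := h.indep _ _ hdis (hubOth σ i u) (leafOth σ i v (σ (4, t)))
    ((depOn_hubOth σ i u).mono (scoresys_hubset σ t (Finset.mem_singleton_self _) (Finset.mem_singleton_self _)))
    ((depOn_leafOth σ i v (σ (4, t))).mono
      (scoresys_leafset σ t (Finset.mem_singleton_self _) (Finset.mem_singleton_self _)))
  -- the event Z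
  let Z : Set (SimpleGraph (SV (I5 m))) :=
    (hubNon σ i u ∩ leafNon σ i v (σ (4, t))) ∩ {G | G.Adj (hb i) (lf (i, σ (4, t)))}
  have hZdep : DepOn (scoresys_R σ t {u, v} {i} {i}) Z := by
    refine DepOn.inter (DepOn.inter ?_ ?_) ?_
    · exact (depOn_hubNon σ i u).mono
        (scoresys_hubset σ t (Finset.mem_insert_self _ _) (Finset.mem_singleton_self _))
    · exact (depOn_leafNon σ i v (σ (4, t))).mono
        (scoresys_leafset σ t (Finset.mem_insert_of_mem (Finset.mem_singleton_self _))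
          (Finset.mem_singleton_self _))
    · exact depOn_adj (Or.inr (Or.inr ⟨i, Finset.mem_singleton_self _, rfl⟩))
        (Or.inr (Or.inl ⟨i, Finset.mem_singleton_self _, rfl⟩))
  have i3 := h.indep _ _ (scoresys_disj σ t (H := {i}) (H' := ∅) nuv nv' duvv' dT
      (Finset.disjoint_empty_right _)) Z (leafOwn σ i' v' (σ (4, t))) hZdep
    ((depOn_leafOwn σ i' v' (σ (4, t))).mono
      (scoresys_leafset σ t (Finset.mem_singleton_self _) (Finset.mem_singleton_self _)))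
  -- the event E
  let E : Set (SimpleGraph (SV (I5 m))) :=
    leafNon σ i v (σ (4, t)) ∩ (leafOwn σ i' v' (σ (4, t)) ∩
      {G | G.Adj (lf (false, σ (4, t))) (lf (true, σ (4, t)))}ᶜ)
  have hEdep : DepOn (scoresys_R σ t {v, v'} Finset.univ ∅) E := by
    refine DepOn.inter ?_ (DepOn.inter ?_ (DepOn.compl ?_))
    · exact (depOn_leafNon σ i v (σ (4, t))).mono
        (scoresys_leafset σ t (Finset.mem_insert_self _ _) (Finset.mem_univ _))
    · exact (depOn_leafOwn σ i' v' (σ (4, t))).mono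
        (scoresys_leafset σ t (Finset.mem_insert_of_mem (Finset.mem_singleton_self _)) (Finset.mem_univ _))
    · exact depOn_adj (Or.inr (Or.inl ⟨false, Finset.mem_univ _, rfl⟩))
        (Or.inr (Or.inl ⟨true, Finset.mem_univ _, rfl⟩))
  have i4 := h.indep _ _ (scoresys_disj σ t (T := ∅) (T' := Finset.univ) (H := {i}) (H' := ∅) nu nvv' duvv2
      (Finset.disjoint_empty_left _) (Finset.disjoint_empty_right _)) (hubNon σ i u) E
    ((depOn_hubNon σ i u).mono (scoresys_hubset σ t (Finset.mem_singleton_self _) (Finset.mem_singleton_self _)))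
    hEdep
  have hEeq : {ω | W ω ∈ E} = {ω | W ω ∈ leafNon σ i v (σ (4, t)) ∧ W ω ∈ leafOwn σ i' v' (σ (4, t)) ∧
          ¬ (W ω).Adj (lf (false, σ (4, t))) (lf (true, σ (4, t)))} := rfl
  rw [← hEeq]
  -- step 1
  have hedge := h.hubEdge i (σ (4, t))
  have hsub : {ω | (W ω).Adj (hb i) (lf (i, σ (4, t)))} ⊆
      {ω | W ω ∈ hubOwn σ i u ∧ W ω ∈ leafOwn σ i v (σ (4, t))} ∪
      ({ω | W ω ∈ hubOth σ i u ∧ W ω ∈ leafOth σ i v (σ (4, t))} ∪
      ({ω | W ω ∈ Z} ∪ (B ∪ {ω | (W ω).Adj (hb i) (lf (i, σ (4, t))) ∧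
        ∀ k ∈ blk σ u, ¬ (W ω).Adj (hb i) (lf (i, k))}))) := by
    intro ω hω
    have hω' : (W ω).Adj (hb i) (lf (i, σ (4, t))) := hω
    by_cases hb1 : ω ∈ B
    · exact Or.inr (Or.inr (Or.inr (Or.inl hb1)))
    by_cases hany : ∃ k ∈ blk σ u, (W ω).Adj (hb i) (lf (i, k))
    · obtain ⟨hG, hL⟩ := hB ω hb1
      rcases impl_hub_leaf h σ ω hG hL i u v hu4 hv4 t hω' hany with h1 | h1 | h1
      · exact Or.inl h1
      · exact Or.inr (Or.inl h1)
      · exact Or.inr (Or.inr (Or.inl ⟨h1, hω'⟩))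
    · refine Or.inr (Or.inr (Or.inr (Or.inr ⟨hω', ?_⟩)))
      intro k hk hk'
      exact hany ⟨k, hk, hk'⟩
  have s1 := pr_mono hw hsub
  have s2 := pr_union_le hw {ω | W ω ∈ hubOwn σ i u ∧ W ω ∈ leafOwn σ i v (σ (4, t))}
      ({ω | W ω ∈ hubOth σ i u ∧ W ω ∈ leafOth σ i v (σ (4, t))} ∪
      ({ω | W ω ∈ Z} ∪ (B ∪ {ω | (W ω).Adj (hb i) (lf (i, σ (4, t))) ∧
        ∀ k ∈ blk σ u, ¬ (W ω).Adj (hb i) (lf (i, k))})))
  have s3 := pr_union_le hw {ω | W ω ∈ hubOth σ i u ∧ W ω ∈ leafOth σ i v (σ (4, t))}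
      ({ω | W ω ∈ Z} ∪ (B ∪ {ω | (W ω).Adj (hb i) (lf (i, σ (4, t))) ∧
        ∀ k ∈ blk σ u, ¬ (W ω).Adj (hb i) (lf (i, k))}))
  have s4 := pr_union_le hw {ω | W ω ∈ Z} (B ∪ {ω | (W ω).Adj (hb i) (lf (i, σ (4, t))) ∧
        ∀ k ∈ blk σ u, ¬ (W ω).Adj (hb i) (lf (i, k))})
  have s5 := pr_union_le hw B {ω | (W ω).Adj (hb i) (lf (i, σ (4, t))) ∧
        ∀ k ∈ blk σ u, ¬ (W ω).Adj (hb i) (lf (i, k))}
  have herr' : pr w {ω | (W ω).Adj (hb i) (lf (i, σ (4, t))) ∧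
        ∀ k ∈ blk σ u, ¬ (W ω).Adj (hb i) (lf (i, k))} ≤ η := herr
  have key1 : p - pr w {ω | W ω ∈ hubOwn σ i u} * pr w {ω | W ω ∈ leafOwn σ i v (σ (4, t))} -
        pr w {ω | W ω ∈ hubOth σ i u} * pr w {ω | W ω ∈ leafOth σ i v (σ (4, t))} ≤
        pr w {ω | W ω ∈ Z} + 3 * η := by
    rw [← i1, ← i2]
    linarith
  -- step 2
  have hsub2 : {ω | W ω ∈ Z ∧ W ω ∈ leafOwn σ i' v' (σ (4, t))} ⊆
      {ω | W ω ∈ hubNon σ i u ∧ W ω ∈ E} ∪ B := by
    rintro ω ⟨⟨⟨h1, h2⟩, h3⟩, h4⟩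
    by_cases hb1 : ω ∈ B
    · exact Or.inr hb1
    · obtain ⟨hG, hL⟩ := hB ω hb1
      refine Or.inl ⟨h1, h2, h4, ?_⟩
      have h4' : W ω ∈ leafOwn σ (!i) v' (σ (4, t)) := by
        rw [← hi]; exact h4
      exact impl_vert_closed h σ ω hG i u v' huv' hu4 hv'4 t h3 h1 h4'
  have key2 : pr w {ω | W ω ∈ Z} * pr w {ω | W ω ∈ leafOwn σ i' v' (σ (4, t))} ≤
      pr w {ω | W ω ∈ hubNon σ i u} * pr w {ω | W ω ∈ E} + 2 * η := by
    rw [← i3, ← i4]
    have t1 := pr_mono hw hsub2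
    have t2 := pr_union_le hw {ω | W ω ∈ hubNon σ i u ∧ W ω ∈ E} B
    linarith
  have hb0 := pr_nonneg hw {ω | W ω ∈ leafOwn σ i' v' (σ (4, t))}
  have hb1 := pr_le_one hw {ω | W ω ∈ leafOwn σ i' v' (σ (4, t))}
  have key3 := mul_le_mul_of_nonneg_left key1 hb0
  have key4 : pr w {ω | W ω ∈ leafOwn σ i' v' (σ (4, t))} * (3 * η) ≤ 3 * η :=
    mul_le_of_le_one_left (by linarith) hb1
  rw [mul_add] at key3
  rw [mul_comm (pr w {ω | W ω ∈ Z})] at key2
  linarith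

/-- `e ≤ (1 - a - a') b` -/
theorem scoresys_e {Ω : Type} [Fintype Ω] {p : ℝ} {w : Ω → ℝ}
    {W : Ω → SimpleGraph (SV (I5 m))} (h : SampleLaw p w W) (σ : Equiv.Perm (I5 m)) (t : Fin m)
    (i i' : Bool) (hii' : i ≠ i') (v v' : Fin 5)
    (hv4 : v ≠ 4) (hv'4 : v' ≠ 4) (hvv' : v ≠ v') :
    pr w {ω | W ω ∈ leafNon σ i v (σ (4, t)) ∧ W ω ∈ leafOwn σ i' v' (σ (4, t)) ∧
          ¬ (W ω).Adj (lf (false, σ (4, t))) (lf (true, σ (4, t)))} ≤
      (1 - pr w {ω | W ω ∈ leafOwn σ i v (σ (4, t))} - pr w {ω | W ω ∈ leafOth σ i v (σ (4, t))}) *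
        pr w {ω | W ω ∈ leafOwn σ i' v' (σ (4, t))} := by
  have hw := h.law
  have nv : (4 : Fin 5) ∉ ({v} : Finset (Fin 5)) := by
    rw [Finset.mem_singleton]; exact fun h => hv4 h.symm
  have nv' : (4 : Fin 5) ∉ ({v'} : Finset (Fin 5)) := by
    rw [Finset.mem_singleton]; exact fun h => hv'4 h.symm
  have hdis : Disjoint (scoresys_R σ t {v} {i} ∅) (scoresys_R σ t {v'} {i'} ∅) :=
    scoresys_disj σ t nv nv' (Finset.disjoint_singleton.2 hvv') (Finset.disjoint_singleton.2 hii')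
      (Finset.disjoint_empty_left _)
  have i1 := h.indep _ _ hdis (leafNon σ i v (σ (4, t))) (leafOwn σ i' v' (σ (4, t)))
    ((depOn_leafNon σ i v (σ (4, t))).mono
      (scoresys_leafset σ t (Finset.mem_singleton_self _) (Finset.mem_singleton_self _)))
    ((depOn_leafOwn σ i' v' (σ (4, t))).mono
      (scoresys_leafset σ t (Finset.mem_singleton_self _) (Finset.mem_singleton_self _)))
  have hmono : pr w {ω | W ω ∈ leafNon σ i v (σ (4, t)) ∧ W ω ∈ leafOwn σ i' v' (σ (4, t)) ∧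
          ¬ (W ω).Adj (lf (false, σ (4, t))) (lf (true, σ (4, t)))} ≤
      pr w {ω | W ω ∈ leafNon σ i v (σ (4, t)) ∧ W ω ∈ leafOwn σ i' v' (σ (4, t))} :=
    pr_mono hw fun ω hω => ⟨hω.1, hω.2.1⟩
  have hcompl : pr w {ω | W ω ∈ leafNon σ i v (σ (4, t))} =
      1 - pr w {ω | W ω ∈ leafOwn σ i v (σ (4, t))} - pr w {ω | W ω ∈ leafOth σ i v (σ (4, t))} := by
    have hset : {ω | W ω ∈ leafNon σ i v (σ (4, t))} =
        ({ω | W ω ∈ leafOwn σ i v (σ (4, t))} ∪ {ω | W ω ∈ leafOth σ i v (σ (4, t))})ᶜ := rfl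
    have hd : Disjoint {ω | W ω ∈ leafOwn σ i v (σ (4, t))} {ω | W ω ∈ leafOth σ i v (σ (4, t))} := by
      rw [Set.disjoint_left]
      exact fun ω h1 h2 => scoresys_leaf_oo σ i v _ h1 h2
    rw [hset, pr_compl hw, pr_union_disjoint hd]
    ring
  rw [← hcompl]
  linarith

/-- the system of inequalities -/
theorem core_sys {Ω : Type} [Fintype Ω] {p η δ : ℝ} (hδ : 0 ≤ δ) (hm : 4 ≤ m) {w : Ω → ℝ}
    {W : Ω → SimpleGraph (SV (I5 m))}
    (h : SampleLaw p w W) (σ : Equiv.Perm (I5 m)) (t : Fin m)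
    (hgood : pr w {ω | ¬ GoodG δ σ (W ω)} ≤ η) (hlk : pr w {ω | W ω ∈ LkE σ 0} ≤ η)
    (herr0 : hubErr w W σ false 0 t ≤ η) (herr1 : hubErr w W σ true 1 t ≤ η)
    (ha : 1 / 2 ≤ pr w {ω | W ω ∈ leafOwn σ false 2 (σ (4, t))})
    (hb : 1 / 2 ≤ pr w {ω | W ω ∈ leafOwn σ true 3 (σ (4, t))})
    (hal : 1 / 2 ≤ pr w {ω | W ω ∈ hubOwn σ false 0})
    (hbe : 1 / 2 ≤ pr w {ω | W ω ∈ hubOwn σ true 1}) :
    ALSys p (5 * η)
      (pr w {ω | W ω ∈ leafOwn σ false 2 (σ (4, t))}) (pr w {ω | W ω ∈ leafOth σ false 2 (σ (4, t))})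
      (pr w {ω | W ω ∈ leafNon σ false 2 (σ (4, t)) ∧ W ω ∈ leafOwn σ true 3 (σ (4, t)) ∧
        ¬ (W ω).Adj (lf (false, σ (4, t))) (lf (true, σ (4, t)))})
      (pr w {ω | W ω ∈ leafOwn σ true 3 (σ (4, t))}) (pr w {ω | W ω ∈ leafOth σ true 3 (σ (4, t))})
      (pr w {ω | W ω ∈ leafNon σ true 3 (σ (4, t)) ∧ W ω ∈ leafOwn σ false 2 (σ (4, t)) ∧
        ¬ (W ω).Adj (lf (false, σ (4, t))) (lf (true, σ (4, t)))})
      (pr w {ω | W ω ∈ hubOwn σ false 0}) (pr w {ω | W ω ∈ hubOth σ false 0}) (pr w {ω | W ω ∈ hubNon σ false 0})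
      (pr w {ω | W ω ∈ hubOwn σ true 1}) (pr w {ω | W ω ∈ hubOth σ true 1}) (pr w {ω | W ω ∈ hubNon σ true 1}) := by
  have hw := h.law
  have hη : 0 ≤ η := le_trans (pr_nonneg hw _) hgood
  -- the bad event
  let B : Set Ω := {ω | ¬ GoodG δ σ (W ω)} ∪ {ω | W ω ∈ LkE σ 0}
  have hBη : pr w B ≤ 2 * η := by
    have := pr_union_le hw {ω | ¬ GoodG δ σ (W ω)} {ω | W ω ∈ LkE σ 0}
    have h2 : pr w B ≤ pr w {ω | ¬ GoodG δ σ (W ω)} + pr w {ω | W ω ∈ LkE σ 0} := this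
    linarith
  have hB : ∀ ω, ω ∉ B → GoodG δ σ (W ω) ∧
      ∀ (a : Bool × I5 m) (u : Fin 5), ¬ (Mj (W ω) a false (blk σ u) ∧ Mj (W ω) a true (blk σ u)) := by
    intro ω hω
    have h1 : GoodG δ σ (W ω) := by
      by_contra hc
      exact hω (Or.inl hc)
    refine ⟨h1, ?_⟩
    rintro a u ⟨h2, h3⟩
    exact hω (Or.inr (L3 hδ hm (h.tr ω) h1 a u h2 h3 0))
  have e2' : pr w {ω | W ω ∈ leafNon σ true 3 (σ (4, t)) ∧ W ω ∈ leafOwn σ false 2 (σ (4, t)) ∧
        ¬ (W ω).Adj (lf (false, σ (4, t))) (lf (true, σ (4, t)))} ≤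
      (1 - pr w {ω | W ω ∈ leafOwn σ true 3 (σ (4, t))} - pr w {ω | W ω ∈ leafOth σ true 3 (σ (4, t))}) *
        pr w {ω | W ω ∈ leafOwn σ false 2 (σ (4, t))} :=
    scoresys_e h σ t true false (by decide) 3 2 (by decide) (by decide) (by decide)
  -- independence of leaf events
  have nd2 : (4 : Fin 5) ∉ ({2} : Finset (Fin 5)) := by decide
  have nd3 : (4 : Fin 5) ∉ ({3} : Finset (Fin 5)) := by decide
  have nd0 : (4 : Fin 5) ∉ ({0} : Finset (Fin 5)) := by decide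
  have nd1 : (4 : Fin 5) ∉ ({1} : Finset (Fin 5)) := by decide
  have d23 : Disjoint ({2} : Finset (Fin 5)) {3} := by decide
  have d01 : Disjoint ({0} : Finset (Fin 5)) {1} := by decide
  have dft : Disjoint ({false} : Finset Bool) {true} := by decide
  have hdL : Disjoint (scoresys_R σ t {2} {false} ∅) (scoresys_R σ t {3} {true} ∅) :=
    scoresys_disj σ t nd2 nd3 d23 dft (Finset.disjoint_empty_left _)
  have hdH : Disjoint (scoresys_R σ t {0} ∅ {false}) (scoresys_R σ t {1} ∅ {true}) :=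
    scoresys_disj σ t nd0 nd1 d01 (Finset.disjoint_empty_left _) dft
  have l1 := h.indep _ _ hdL (leafOwn σ false 2 (σ (4, t))) (leafOwn σ true 3 (σ (4, t)))
    ((depOn_leafOwn σ false 2 (σ (4, t))).mono
      (scoresys_leafset σ t (Finset.mem_singleton_self _) (Finset.mem_singleton_self _)))
    ((depOn_leafOwn σ true 3 (σ (4, t))).mono
      (scoresys_leafset σ t (Finset.mem_singleton_self _) (Finset.mem_singleton_self _)))
  have l2 := h.indep _ _ hdL (leafOth σ false 2 (σ (4, t))) (leafOth σ true 3 (σ (4, t)))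
    ((depOn_leafOth σ false 2 (σ (4, t))).mono
      (scoresys_leafset σ t (Finset.mem_singleton_self _) (Finset.mem_singleton_self _)))
    ((depOn_leafOth σ true 3 (σ (4, t))).mono
      (scoresys_leafset σ t (Finset.mem_singleton_self _) (Finset.mem_singleton_self _)))
  have oF := (depOn_hubOwn σ false 0).mono (scoresys_hubset σ t (T := ∅) (Finset.mem_singleton_self _)
    (Finset.mem_singleton_self _))
  have oT := (depOn_hubOwn σ true 1).mono (scoresys_hubset σ t (T := ∅) (Finset.mem_singleton_self _)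
    (Finset.mem_singleton_self _))
  have h1 := h.indep _ _ hdH (hubOwn σ false 0) (hubOwn σ true 1) oF oT
  have h2 := h.indep _ _ hdH (hubOth σ false 0) (hubOth σ true 1)
    ((depOn_hubOth σ false 0).mono (scoresys_hubset σ t (Finset.mem_singleton_self _)
      (Finset.mem_singleton_self _)))
    ((depOn_hubOth σ true 1).mono (scoresys_hubset σ t (Finset.mem_singleton_self _)
      (Finset.mem_singleton_self _)))
  have h3 := h.indep _ _ hdH (hubNon σ false 0) (hubOwn σ true 1)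
    ((depOn_hubNon σ false 0).mono (scoresys_hubset σ t (Finset.mem_singleton_self _)
      (Finset.mem_singleton_self _))) oT
  have h4 := h.indep _ _ hdH (hubOwn σ false 0) (hubNon σ true 1) oF
    ((depOn_hubNon σ true 1).mono (scoresys_hubset σ t (Finset.mem_singleton_self _)
      (Finset.mem_singleton_self _)))
  have hvert := h.vert (σ (4, t))
  have hhub := h.hubVert
  refine
    { ha := ha, hb := hb, hal := hal, hbe := hbe
      ha' := pr_nonneg hw _, hb' := pr_nonneg hw _, hal' := pr_nonneg hw _, hbe' := pr_nonneg hw _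
      he := pr_nonneg hw _, he' := pr_nonneg hw _, hn1 := pr_nonneg hw _, hn2 := pr_nonneg hw _
      s1 := scoresys_pr2 hw (Set.disjoint_left.2 fun ω x y => scoresys_leaf_oo σ _ _ _ x y)
      s2 := scoresys_pr2 hw (Set.disjoint_left.2 fun ω x y => scoresys_leaf_oo σ _ _ _ x y)
      s3 := scoresys_pr3 hw (Set.disjoint_left.2 fun ω x y => scoresys_hub_oo σ _ _ x y)
        (Set.disjoint_left.2 fun ω x y => scoresys_hub_on σ _ _ x y)
        (Set.disjoint_left.2 fun ω x y => scoresys_hub_tn σ _ _ x y)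
      s4 := scoresys_pr3 hw (Set.disjoint_left.2 fun ω x y => scoresys_hub_oo σ _ _ x y)
        (Set.disjoint_left.2 fun ω x y => scoresys_hub_on σ _ _ x y)
        (Set.disjoint_left.2 fun ω x y => scoresys_hub_tn σ _ _ x y)
      e1 := scoresys_e h σ t false true (by decide) 2 3 (by decide) (by decide) (by decide)
      e2 := e2'
      I1 := scoresys_I h σ t B hB hη hBη false true rfl 0 2 3 (by decide) (by decide) (by decide) (by decide)
        (by decide) (by decide) herr0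
      I2 := scoresys_I h σ t B hB hη hBη true false rfl 1 3 2 (by decide) (by decide) (by decide) (by decide)
        (by decide) (by decide) herr1
      I3 := ?_
      I4 := ?_ }
  · rw [← l1, ← l2]
    have hC := pr_compl hw {ω | (W ω).Adj (lf (false, σ (4, t))) (lf (true, σ (4, t)))}
    have key := scoresys_pr4 hw (B := B)
      (C := {ω | (W ω).Adj (lf (false, σ (4, t))) (lf (true, σ (4, t)))}ᶜ)
      (F1 := {ω | W ω ∈ leafOwn σ false 2 (σ (4, t)) ∧ W ω ∈ leafOwn σ true 3 (σ (4, t))})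
      (F2 := {ω | W ω ∈ leafOth σ false 2 (σ (4, t)) ∧ W ω ∈ leafOth σ true 3 (σ (4, t))})
      (F3 := {ω | W ω ∈ leafNon σ false 2 (σ (4, t)) ∧ W ω ∈ leafOwn σ true 3 (σ (4, t)) ∧
        ¬ (W ω).Adj (lf (false, σ (4, t))) (lf (true, σ (4, t)))})
      (F4 := {ω | W ω ∈ leafNon σ true 3 (σ (4, t)) ∧ W ω ∈ leafOwn σ false 2 (σ (4, t)) ∧
        ¬ (W ω).Adj (lf (false, σ (4, t))) (lf (true, σ (4, t)))})
      (Set.disjoint_left.2 fun ω x y => scoresys_leaf_oo σ _ _ _ x.1 y.1)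
      (Set.disjoint_left.2 fun ω x y => scoresys_leaf_on σ _ _ _ x.1 y.1)
      (Set.disjoint_left.2 fun ω x y => scoresys_leaf_on σ _ _ _ x.2 y.1)
      (Set.disjoint_left.2 fun ω x y => scoresys_leaf_tn σ _ _ _ x.1 y.1)
      (Set.disjoint_left.2 fun ω x y => scoresys_leaf_oo σ _ _ _ y.2.1 x.1)
      (Set.disjoint_left.2 fun ω x y => scoresys_leaf_on σ _ _ _ y.2.1 x.1)
      (by
        intro ω hω
        by_cases hb1 : ω ∈ B
        · exact Or.inr hb1
        · exact Or.inl (impl_vert_closed2 h σ ω (hB ω hb1).1 (hB ω hb1).2 t (Or.inl hω)))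
      (by
        intro ω hω
        by_cases hb1 : ω ∈ B
        · exact Or.inr hb1
        · exact Or.inl (impl_vert_closed2 h σ ω (hB ω hb1).1 (hB ω hb1).2 t (Or.inr hω)))
      (fun ω hω => Or.inl hω.2.2)
      (fun ω hω => Or.inl hω.2.2)
    rw [hC] at key
    linarith
  · rw [mul_comm (pr w {ω | W ω ∈ hubNon σ true 1}), ← h1, ← h2, ← h3, ← h4]
    have hC := pr_compl hw {ω | (W ω).Adj (Pool.Agent.OIP.hb false) (Pool.Agent.OIP.hb true)}
    have key := scoresys_pr4 hw (B := B)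
      (C := {ω | (W ω).Adj (Pool.Agent.OIP.hb false) (Pool.Agent.OIP.hb true)}ᶜ)
      (F1 := {ω | W ω ∈ hubOwn σ false 0 ∧ W ω ∈ hubOwn σ true 1})
      (F2 := {ω | W ω ∈ hubOth σ false 0 ∧ W ω ∈ hubOth σ true 1})
      (F3 := {ω | W ω ∈ hubNon σ false 0 ∧ W ω ∈ hubOwn σ true 1})
      (F4 := {ω | W ω ∈ hubOwn σ false 0 ∧ W ω ∈ hubNon σ true 1})
      (Set.disjoint_left.2 fun ω x y => scoresys_hub_oo σ _ _ x.1 y.1)
      (Set.disjoint_left.2 fun ω x y => scoresys_hub_on σ _ _ x.1 y.1)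
      (Set.disjoint_left.2 fun ω x y => scoresys_hub_on σ _ _ x.2 y.2)
      (Set.disjoint_left.2 fun ω x y => scoresys_hub_tn σ _ _ x.1 y.1)
      (Set.disjoint_left.2 fun ω x y => scoresys_hub_oo σ _ _ y.1 x.1)
      (Set.disjoint_left.2 fun ω x y => scoresys_hub_on σ _ _ y.1 x.1)
      (by
        intro ω hω
        by_cases hb1 : ω ∈ B
        · exact Or.inr hb1
        · exact Or.inl (impl_hub_closed h σ ω (hB ω hb1).1 (hB ω hb1).2 (Or.inl hω)))
      (by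
        intro ω hω
        by_cases hb1 : ω ∈ B
        · exact Or.inr hb1
        · exact Or.inl (impl_hub_closed h σ ω (hB ω hb1).1 (hB ω hb1).2 (Or.inr (Or.inl hω))))
      (by
        intro ω hω
        by_cases hb1 : ω ∈ B
        · exact Or.inr hb1
        · exact Or.inl (impl_hub_closed h σ ω (hB ω hb1).1 (hB ω hb1).2 (Or.inr (Or.inr (Or.inl hω)))))
      (by
        intro ω hω
        by_cases hb1 : ω ∈ B
        · exact Or.inr hb1
        · exact Or.inl (impl_hub_closed h σ ω (hB ω hb1).1 (hB ω hb1).2 (Or.inr (Or.inr (Or.inr hω)))))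
    rw [hC] at key
    linarith

end Pool.Agent.OIP
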