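import Pool.Agent.OIP.SGoodDefs

/-!
# OIP: majority classes in a sample law (good event)

Index set `I5 m = Fin 5 × Fin m` (five blocks of `m` indices), random relabelling `σ`.
`blk σ u` is the image of the block `u`.

Deterministic facts (`Tr G`): for a layer `i` the relation `Rl G i j k := j = k ∨ Adj (i,j) (i,k)` is an
equivalence relation, and for a leaf `a` the set `{k ≠ a.2 : Adj a (i,k)}` is empty or `C \ {a.2}` for a
class `C` of `Rl G i`.

Proof of `good_avg`.  Write `δ = dl p`, so `p = 1/2 + 16 δ`.  By `sampling` (for each of the two layers and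
five blocks, `S = {u} × Fin m`, `N = 5 m`) and `avg_pr_le`, the event
`Dv σ = {∃ i u j, δ m < | #{k ∈ blk σ u : Rl i j k} - #{k : Rl i j k} / 5 |}` has
`avg_σ pr (Dv σ) ≤ 10 / (δ² m)`.  Outside `Dv σ` the sizes of the intersections of a class with two blocks
differ by at most `2 δ m`.
Fix `σ`, a layer `i`.  Let `A = {∃ j ∈ blk σ 0 : #{k ∈ blk σ 0 : Rl i j k} ≥ (1/2 + 6 δ) m}` and
`A' = {∃ j ∈ blk σ 1 : #{k ∈ blk σ 1 : Rl i j k} ≥ (1/2 + 4 δ) m}`.  Then `A \ A' ⊆ Dv σ`, `A` depends on the
leaves `{i} × blk σ 0`, `A'` on `{i} × blk σ 1`, so `pr A * (1 - pr A') ≤ pr (Dv σ)`.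
The expected number of open hub edges to `{i} × blk σ 0` is at least `p m`, their ends are pairwise related
(`clique`), so `pr A ≥ p - (1/2 + 6 δ) = 10 δ`.  Hence `1 - pr A' ≤ pr (Dv σ) / (10 δ)`.
Outside `Dv σ` and on `A'` (both layers) there are classes `C i` with `|C i ∩ blk σ u| ≥ (1/2 + 2 δ) m` for all
`u`; if `a` is joined to an element of `C i` (other than its own index) then
`cnt G a i (blk σ u) ≥ (1/2 + 2 δ) m - 1 > m / 2` for all `u`, otherwise
`cnt G a i (blk σ u) ≤ m - (1/2 + 2 δ) m < m / 2` for all `u`.  So `GoodG` holds.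
-/

set_option autoImplicit false

open Finset
open scoped Classical

namespace Pool.Agent.OIP

/-- `Rl` is symmetric and transitive in the form used below -/
theorem sgooddev_rel {κ : Type} {G : SimpleGraph (SV κ)} (hG : Tr G) (i : Bool) {j k k' : κ}
    (h : Rl G i j k) (h' : Rl G i j k') (hne : k ≠ k') : G.Adj (lf (i, k)) (lf (i, k')) := by
  have e := Rl_equivalence hG i
  rcases e.trans (e.symm h) h' with h1 | h1
  · exact absurd h1 hne
  · exact h1

/-- a lower bound for `cnt` from the intersection of a class with the block -/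
theorem sgooddev_cnt_ge {κ : Type} {G : SimpleGraph (SV κ)} (i : Bool) (j : κ) (a : Bool × κ)
    (S : Finset κ) (h : ∀ k, Rl G i j k → k ≠ a.2 → G.Adj (lf a) (lf (i, k))) :
    ((S.filter (fun k => Rl G i j k)).card : ℝ) - 1 ≤ (cnt G a i S : ℝ) := by
  have h1 : ((S.filter (fun k => Rl G i j k)).erase a.2) ⊆
      S.filter (fun k => k ≠ a.2 ∧ G.Adj (lf a) (lf (i, k))) := by
    intro k hk
    rw [Finset.mem_erase, Finset.mem_filter] at hk
    rw [Finset.mem_filter]
    exact ⟨hk.2.1, hk.1, h k hk.2.2 hk.1⟩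
  have h2 := Finset.card_le_card h1
  have h3 := Finset.pred_card_le_card_erase (s := S.filter (fun k => Rl G i j k)) (a := a.2)
  have h4 : (S.filter (fun k => Rl G i j k)).card ≤ cnt G a i S + 1 := by
    unfold cnt
    omega
  have h5 : ((S.filter (fun k => Rl G i j k)).card : ℝ) ≤ (cnt G a i S : ℝ) + 1 := by
    exact_mod_cast h4
  linarith

/-- an upper bound for `cnt` if the leaf is not joined to the class -/
theorem sgooddev_cnt_le {κ : Type} {G : SimpleGraph (SV κ)} (i : Bool) (j : κ) (a : Bool × κ)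
    (S : Finset κ) (h : ∀ k, Rl G i j k → k ≠ a.2 → ¬ G.Adj (lf a) (lf (i, k))) :
    (cnt G a i S : ℝ) + ((S.filter (fun k => Rl G i j k)).card : ℝ) ≤ (S.card : ℝ) := by
  have h1 : Disjoint (S.filter (fun k => k ≠ a.2 ∧ G.Adj (lf a) (lf (i, k))))
      (S.filter (fun k => Rl G i j k)) := by
    rw [Finset.disjoint_left]
    intro k hk hk'
    rw [Finset.mem_filter] at hk hk'
    exact h k hk'.2 hk.2.1 hk.2.2
  have h2 : (S.filter (fun k => k ≠ a.2 ∧ G.Adj (lf a) (lf (i, k)))).card +
      (S.filter (fun k => Rl G i j k)).card ≤ S.card := by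
    rw [← Finset.card_union_of_disjoint h1]
    apply Finset.card_le_card
    intro k hk
    rw [Finset.mem_union, Finset.mem_filter, Finset.mem_filter] at hk
    rcases hk with hk | hk
    · exact hk.1
    · exact hk.1
  unfold cnt
  exact_mod_cast h2

theorem sgooddev_mj {κ : Type} {G : SimpleGraph (SV κ)} (a : Bool × κ) (i : Bool) (S : Finset κ)
    (h : (S.card : ℝ) < 2 * (cnt G a i S : ℝ)) : Mj G a i S := by
  unfold Mj
  exact_mod_cast h

theorem sgooddev_not_mj {κ : Type} {G : SimpleGraph (SV κ)} (a : Bool × κ) (i : Bool) (S : Finset κ)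
    (h : 2 * (cnt G a i S : ℝ) ≤ (S.card : ℝ)) : ¬ Mj G a i S := by
  unfold Mj
  have h1 : 2 * cnt G a i S ≤ S.card := by exact_mod_cast h
  omega

/-- deterministic part: classes of similar density in all blocks and a majority class in block `1` of both
layers give `GoodG` -/
theorem good_of_dev {m : ℕ} {δ : ℝ} (hδ : 0 < δ) (hm : 2 ≤ δ * (m : ℝ)) (σ : Equiv.Perm (I5 m))
    (G : SimpleGraph (SV (I5 m))) (hG : Tr G)
    (hdev : ∀ (i : Bool) (j : I5 m) (u v : Fin 5),
      (((blk σ u).filter (fun k => Rl G i j k)).card : ℝ) ≤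
        (((blk σ v).filter (fun k => Rl G i j k)).card : ℝ) + 2 * δ * m)
    (hmaj : ∀ i : Bool, ∃ j : I5 m,
      (1 / 2 + 4 * δ) * (m : ℝ) ≤ (((blk σ 1).filter (fun k => Rl G i j k)).card : ℝ)) :
    GoodG δ σ G := by
  have hbc : ∀ u, ((blk σ u).card : ℝ) = m := fun u => by rw [blk_card σ u]
  have key : ∀ i : Bool, ∃ j : I5 m, ∀ u : Fin 5,
      (1 / 2 + 2 * δ) * (m : ℝ) ≤ (((blk σ u).filter (fun k => Rl G i j k)).card : ℝ) := by
    intro i
    obtain ⟨j, hj⟩ := hmaj i
    refine ⟨j, fun u => ?_⟩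
    have h1 := hdev i j 1 u
    nlinarith
  constructor
  · intro a i
    obtain ⟨j, hj⟩ := key i
    by_cases hex : ∃ k0, Rl G i j k0 ∧ k0 ≠ a.2 ∧ G.Adj (lf a) (lf (i, k0))
    · obtain ⟨k0, hk0, hk0a, hadj⟩ := hex
      have hall : ∀ k, Rl G i j k → k ≠ a.2 → G.Adj (lf a) (lf (i, k)) := by
        intro k hk hka
        by_cases hkk : k0 = k
        · rw [← hkk]
          exact hadj
        · exact hG.1 a (i, k0) (i, k) (Ne.symm hk0a) hkk (Ne.symm hka) hadj
            (sgooddev_rel hG i hk0 hk hkk)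
      have hM : ∀ u, Mj G a i (blk σ u) := by
        intro u
        apply sgooddev_mj
        have h1 := sgooddev_cnt_ge i j a (blk σ u) hall
        have h2 := hj u
        rw [hbc u]
        nlinarith
      intro u v
      exact ⟨fun _ => hM v, fun _ => hM u⟩
    · push Not at hex
      have hM : ∀ u, ¬ Mj G a i (blk σ u) := by
        intro u
        apply sgooddev_not_mj
        have h1 := sgooddev_cnt_le i j a (blk σ u) (fun k hk hka => hex k hk hka)
        have h2 := hj u
        rw [hbc u] at h1 ⊢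
        nlinarith
      intro u v
      exact ⟨fun h => absurd h (hM u), fun h => absurd h (hM v)⟩
  · intro i u
    obtain ⟨j, hj⟩ := key i
    refine le_trans (hj u) ?_
    have hsub : (blk σ u).filter (fun k => Rl G i j k) ⊆
        (blk σ u).filter (fun k => Mj G (i, k) i (blk σ u)) := by
      intro k hk
      rw [Finset.mem_filter] at hk ⊢
      refine ⟨hk.1, ?_⟩
      apply sgooddev_mj
      have h1 := sgooddev_cnt_ge i j (i, k) (blk σ u)
        (fun k' hk' hne => sgooddev_rel hG i hk.2 hk' (Ne.symm hne))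
      have h2 := hj u
      rw [hbc u]
      nlinarith
    exact_mod_cast Finset.card_le_card hsub

end Pool.Agent.OIP
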